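import Pool.Agent.H917.L.P2

/-!
# PROJECT BND: logarithmic symmetric differentials with an arbitrary boundary
-/

set_option autoImplicit false
set_option linter.overlappingInstances false
set_option linter.unusedSectionVars false

open FF MvPolynomial Metric Set MeasureTheory

namespace Pool.Agent.H917.Mg

open Pool.Agent.W602.GT (IsForm LogGeneralType coords)
open Pool.Agent.H917.G (HolMap PE)
open Pool.Agent.H917.Lg (lch lch2 SDL PresB WL RegSymL lloc)

/-- The point `x` is not on the boundary: if the `j`-th coordinate is not zero, then the coordinates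
in `B j` are not zero. -/
def OffB {R : Type} [Zero R] {n : ℕ} (B : Fin n → Finset (Fin n)) (x : Fin n → R) : Prop :=
  ∀ j, x j ≠ 0 → ∀ b ∈ B j, x b ≠ 0

/-- The places whose center is on the boundary. -/
def BdP {k K : Type} [Field k] [Field K] [Algebra k K] {n : ℕ} (B : Fin n → Finset (Fin n))
    (y : Fin n → K) (P : Place k K) : Prop :=
  ∃ j, y j ≠ 0 ∧ (∀ i, P.Reg (y i / y j)) ∧ ∃ b ∈ B j, 0 < P.ord (y b / y j)

/-- The boundary divisors in the charts agree (at the point `y` over a field). -/
structure BdG (k : Type) {L : Type} [Field k] [Field L] [Algebra k L] {n : ℕ}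
    (B : Fin n → Finset (Fin n)) (y : Fin n → L) : Prop where
  off : OffB B y
  tr : ∀ i j, y i ≠ 0 → y j ≠ 0 → ∀ b ∈ B i, ∃ (N : ℕ) (c : MvPolynomial (Fin n) k),
    ((∏ b' ∈ B j, y b' / y j) * (y i / y j)) ^ N = y b / y j * aeval (ch y j) c

variable {n : ℕ}

/-- `B` gives the boundary coordinates: in the chart where the `j`-th coordinate is not zero, the
boundary is the union of the hyperplanes given by the coordinates in `B j`; these sets agree on the
intersections of the charts, for the points of the projective variety with the ideal `p`. -/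
def BdC (p : Ideal (MvPolynomial (Fin (n + 1)) ℂ)) (B : Fin (n + 1) → Finset (Fin (n + 1))) :
    Prop :=
  ∀ x ∈ Pts p, ∀ i j, x i ≠ 0 → x j ≠ 0 → (∃ b ∈ B i, x b = 0) → ∃ b ∈ B j, x b = 0

/-- A logarithmic symmetric differential of degree `m` on the projective variety with the
homogeneous ideal `p`, with the boundary coordinates `B`: a function on the tangent vectors at the
points outside the boundary which, in each standard chart, is given by a polynomial which is
homogeneous of degree `m` in the derivatives of the coordinates, logarithmic derivatives for the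
boundary coordinates. -/
structure BSymDiff (p : Ideal (MvPolynomial (Fin (n + 1)) ℂ))
    (B : Fin (n + 1) → Finset (Fin (n + 1))) (m : ℕ) where
  pol : Fin (n + 1) → MvPolynomial (Fin (n + 1) ⊕ Fin (n + 1)) ℂ
  hom : ∀ j, (pol j).IsWeightedHomogeneous (Sum.elim (fun _ => 0) fun _ => 1) m
  compat : ∀ i j, ∀ x x' : Fin (n + 1) → ℂ, TanVec p x x' → OffB B x → x i ≠ 0 → x j ≠ 0 →
    eval (lloc B i x x') (pol i) = eval (lloc B j x x') (pol j)

variable {p : Ideal (MvPolynomial (Fin (n + 1)) ℂ)} {B : Fin (n + 1) → Finset (Fin (n + 1))}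

/-- The logarithmic symmetric differentials `s l` generate the `m`-th symmetric power of the
logarithmic cotangent sheaf: in each standard chart, the products of `m` (logarithmic) differentials
of coordinates are combinations of the `s l` with polynomial coefficients. -/
def BGens (p : Ideal (MvPolynomial (Fin (n + 1)) ℂ)) (B : Fin (n + 1) → Finset (Fin (n + 1)))
    (m : ℕ) {N : ℕ} (s : Fin N → BSymDiff p B m) : Prop :=
  ∀ (j : Fin (n + 1)) (I : Fin m → Fin (n + 1)),
    ∃ b : Fin N → MvPolynomial (Fin (n + 1)) ℂ, ∀ x x' : Fin (n + 1) → ℂ, TanVec p x x' →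
      OffB B x → x j ≠ 0 →
      ∏ k, lloc B j x x' (Sum.inr (I k)) =
        ∑ l, eval (fun i => x i / x j) (b l) * eval (lloc B j x x') ((s l).pol j)

/-- the value of a logarithmic symmetric differential at a tangent vector -/
noncomputable def BSymDiff.val {m : ℕ} (s : BSymDiff p B m) {R : Type} [Field R] [Algebra ℂ R]
    (x x' : Fin (n + 1) → R) : R := by
  classical
  exact if h : ∃ j, x j ≠ 0 then aeval (lloc B h.choose x x') (s.pol h.choose) else 0

/-- the value along a curve -/
noncomputable def BSymDiff.along {m : ℕ} (s : BSymDiff p B m) (f : ℂ → Fin (n + 1) → ℂ) (z : ℂ) :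
    ℂ := s.val (f z) (dv f z)

/-! ## The special subsets -/

/-- The homogeneous coordinates of the points of the complement of the boundary in the projective
variety with the ideal `p`. -/
def PtsB (p : Ideal (MvPolynomial (Fin (n + 1)) ℂ)) (B : Fin (n + 1) → Finset (Fin (n + 1))) :
    Set (Fin (n + 1) → ℂ) := {x | x ∈ Pts p ∧ OffB B x}

/-- `K` is the function field and `y` the generic point, in homogeneous coordinates, of a closed
subvariety, of dimension `w`, of the complement of the boundary in the projective variety with the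
ideal `p`. -/
structure SubVarB (p : Ideal (MvPolynomial (Fin (n + 1)) ℂ))
    (B : Fin (n + 1) → Finset (Fin (n + 1)))
    (K : Type) [Field K] [Algebra ℂ K] (w : ℕ) (y : Fin (n + 1) → K) : Prop where
  sub : SubVar p K w y
  off : OffB B y

/-- `Sp_alg`: the Zariski closure of the union of the closed subvarieties of positive dimension
which are not of log general type. -/
def SpAlgB (p : Ideal (MvPolynomial (Fin (n + 1)) ℂ)) (B : Fin (n + 1) → Finset (Fin (n + 1))) :
    Set (Fin (n + 1) → ℂ) :=
  {x | x ∈ PtsB p B ∧ ∀ G : MvPolynomial (Fin (n + 1)) ℂ, (∃ d, G.IsHomogeneous d) →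
    (∀ (K : Type) [Field K] [Algebra ℂ K] (w : ℕ) (y : Fin (n + 1) → K), 1 ≤ w →
      SubVarB p B K w y → ¬ LogGeneralType ℂ K w (BdP B y) → aeval y G = 0) → eval x G = 0}

/-- `Sp_p`: the Zariski closure of the union of the images of the holomorphic maps from the
punctured disc to the complement of the boundary with an essential singularity at the origin. -/
def SpPB (p : Ideal (MvPolynomial (Fin (n + 1)) ℂ)) (B : Fin (n + 1) → Finset (Fin (n + 1))) :
    Set (Fin (n + 1) → ℂ) :=
  {x | x ∈ PtsB p B ∧ ∀ G : MvPolynomial (Fin (n + 1)) ℂ, (∃ d, G.IsHomogeneous d) →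
    (∀ f, PuncCurve p f → (∀ z ∈ ball (0 : ℂ) 1 \ {0}, OffB B (f z)) → ¬ Extends f →
      ∀ z ∈ ball (0 : ℂ) 1 \ {0}, eval (f z) G = 0) → eval x G = 0}

/-- `Sp_h`: the Zariski closure of the union of the images of the nonconstant entire curves in the
complement of the boundary. -/
def SpHB (p : Ideal (MvPolynomial (Fin (n + 1)) ℂ)) (B : Fin (n + 1) → Finset (Fin (n + 1))) :
    Set (Fin (n + 1) → ℂ) :=
  {x | x ∈ PtsB p B ∧ ∀ G : MvPolynomial (Fin (n + 1)) ℂ, (∃ d, G.IsHomogeneous d) →
    (∀ f, EntCurve p f → (∀ z, OffB B (f z)) → ∀ z, eval (f z) G = 0) → eval x G = 0}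

/-- The Zariski closure of the union of the images of the nonconstant holomorphic maps to the
complement of the boundary which are defined on the complement of a closed subset of `ℂ^g` whose
`(2g-2)`-dimensional Hausdorff measure is zero (for example of an analytic subset of codimension at
least two). -/
def SpMerB (p : Ideal (MvPolynomial (Fin (n + 1)) ℂ)) (B : Fin (n + 1) → Finset (Fin (n + 1))) :
    Set (Fin (n + 1) → ℂ) :=
  {x | x ∈ PtsB p B ∧ ∀ G : MvPolynomial (Fin (n + 1)) ℂ, (∃ d, G.IsHomogeneous d) →
    (∀ (g : ℕ) (Z : Set (Fin g → ℂ)) (f : (Fin g → ℂ) → Fin (n + 1) → ℂ), IsClosed Z →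
      μH[2 * (g : ℝ) - 2] Z = 0 → HolMap Zᶜ f → (∀ z ∉ Z, f z ∈ PtsB p B) →
      (∃ z ∉ Z, ∃ w ∉ Z, ¬ PE (f z) (f w)) → ∀ z ∉ Z, eval (f z) G = 0) → eval x G = 0}

end Pool.Agent.H917.Mg
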