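import Pool.Agent.H917.L.L2
import Pool.Agent.H917.M.P0

/-!
# PROJECT BND (helper917), task A5B: the derivation is regular at non-contracted prime divisors, logarithmic on the boundary

Port of `L/L2.lean` (`SDL.unit`, `SDL.pres`, `SDL.log`; the auxiliary lemmas and `SDL.reg` of L2 do not use `Q` and can be used unchanged). `BdK B Q y` is replaced by `BdG k B y`: the first field gives `y b ≠ 0` for `b ∈ B j`, `y j ≠ 0`.
`SDL.unit` uses only this. For the second part: let `P` satisfy `BdP B y P` with the chart `j0`: `y j0 ≠ 0`, all `y i / y j0` regular, `0 < P.ord (y b / y j0)`, `b ∈ B j0`. The function `f0 = y b / y j0` has `D f0 / f0 = lch D B y j0 b`, which is regular (`SDL.reg`), and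
`P.ord f0 ≠ 0`; by `ld_dec` (L2) `D f0 / f0 = (P.ord f0) * (D s / s) + regular`, so `D s / s` is regular for a uniformizer `s`, and so `D f / f` is regular for all `f` (as in `SDL.log`).
-/

set_option autoImplicit false
set_option linter.overlappingInstances false
set_option linter.unusedSectionVars false

open FF MvPolynomial Pool.Agent.W603.LV Pool.Agent.W619.PQ Pool.Agent.Y174.BR
  Pool.Agent.W619.TW Pool.Agent.TH143.HE Pool.Agent.W619.Y
open Pool.Agent.H917.Lg (lch lch2 SDL PresB WL RegSymL lloc)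

namespace Pool.Agent.H917.Mg

variable {k C L : Type} [Field k] [Field C] [Field L] [Algebra k C] [Algebra C L] [Algebra k L]
  [IsScalarTower k C L] {D : Derivation k L L} {n m : ℕ} {y : Fin n → L}
  {B : Fin n → Finset (Fin n)}

namespace A5Baux

open Pool.Agent.H917.Lg.L2aux

theorem unitG (h : SDL C D B y m) (hm : 1 ≤ m)
    {P : Place C L} {j : Fin n} (hj : y j ≠ 0) (hreg : ∀ i, P.Reg (y i / y j))
    (hD : ∃ i, D (y i / y j) ≠ 0) : ∃ i, lch D B y j i ≠ 0 ∧ P.ord (lch D B y j i) = 0 := by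
  by_contra hall
  push Not at hall
  obtain ⟨t, ht0, ht⟩ := P.surj
  have hG' : ∀ i, P.Reg (t⁻¹ * lch D B y j i) := by
    intro i
    by_cases ha : lch D B y j i = 0
    · rw [ha, mul_zero]
      exact P.reg_zero
    · have h1 := (P.reg_iff ha).1 (h.reg hm hj hreg i)
      have h2 := hall i ha
      refine Or.inr ?_
      rw [P.ord_mul (inv_ne_zero ht0) ha, P.ord_inv, ht]
      omega
  obtain ⟨N, q, hq, hc, hb⟩ := h.rel j hj
  have hzero : ∀ l, aeval (lch2 D B y j) (q l) = 0 := by
    intro l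
    by_contra hne
    have h1 : P.Reg (aeval (Sum.elim (ch y j) fun i => t⁻¹ * lch D B y j i) (q l)) := by
      refine reg_aeval (q l) ?_
      rintro (i | i)
      · exact hreg i
      · exact hG' i
    have h2 := hq l (ch y j) (fun i => t⁻¹ * lch D B y j i) t
    have h3 : (fun i => t * (t⁻¹ * lch D B y j i)) = lch D B y j := by
      funext i
      rw [← mul_assoc, mul_inv_cancel₀ ht0, one_mul]
    rw [h3] at h2
    change aeval (lch2 D B y j) (q l) = _ at h2
    obtain ⟨c, hc⟩ := hc l
    have hc0 : c ≠ 0 := by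
      rintro rfl
      rw [map_zero] at hc
      exact hne hc
    have h4 : aeval (Sum.elim (ch y j) fun i => t⁻¹ * lch D B y j i) (q l) ≠ 0 := fun h0 =>
      hne (by rw [h2, h0, mul_zero])
    have h5 := (P.reg_iff h4).1 h1
    have h6 : P.ord (aeval (lch2 D B y j) (q l)) = 0 := by
      rw [hc, P.ord_const hc0]
    rw [h2, P.ord_mul (pow_ne_zero m ht0) h4, P.ord_pow, ht] at h6
    have h7 : (1 : ℤ) ≤ m := by exact_mod_cast hm
    omega
  obtain ⟨i, hi⟩ := hD
  apply hi
  obtain ⟨b, hb⟩ := hb fun _ => i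
  rw [Finset.prod_const, Finset.card_univ, Fintype.card_fin] at hb
  rw [Finset.sum_eq_zero fun l _ => by rw [hzero, mul_zero]] at hb
  have h8 : lch D B y j i = 0 := (pow_eq_zero_iff (by omega)).1 hb
  rcases der_ch D B y j i with h9 | h9
  · rw [h9, h8]
  · rw [h9, h8, mul_zero]

/-- The derivation is regular at the prime divisors which are not contracted. -/
theorem presG [CharZero k] [CharZero C] (h : SDL C D B y m) (hm : 1 ≤ m)
    (hDC : ∀ c : C, ∃ c' : C, D (algebraMap C L c) = algebraMap C L c')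
    (hess : Algebra.EssFiniteType C L) {e : ℕ} (he : Algebra.trdeg C L = (e + 1 : ℕ))
    (hD : ∃ i j, D (y i / y j) ≠ 0) (hgen : GenBy C D y) {P : Place C L} (hP : P ∈ VP y (e + 1)) :
    ∀ z, P.Reg z → P.Reg (D z) := by
  obtain ⟨j, hj, hreg, x, hx, hxi⟩ := hP
  have hL0 : CharZero L := charZero_of_injective_algebraMap (algebraMap C L).injective
  have hquot : ∀ i l, y i / y l = (y i / y j) / (y l / y j) := by
    intro i l
    rw [div_div_div_cancel_right₀ hj]
  have hD' : ∃ i, D (y i / y j) ≠ 0 := by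
    by_contra hcon
    push Not at hcon
    obtain ⟨a, b, hab⟩ := hD
    apply hab
    rw [hquot a b, div_eq_mul_inv, D.leibniz, D.leibniz_inv, hcon, hcon]
    simp
  obtain ⟨i0, hi0, hi1⟩ := unitG h hm hj hreg hD'
  obtain ⟨m', rfl⟩ : ∃ m', m = m' + 1 := ⟨m - 1, by omega⟩
  have hrel : ∀ a, lch D B y j a * lch D B y j i0 ^ m' ∈
      Algebra.adjoin C (Set.range fun l => y l / y j) := by
    intro a
    obtain ⟨N, q, -, hc, hb⟩ := h.rel j hj
    obtain ⟨b, hb⟩ := hb (Fin.cons a fun _ => i0)
    rw [Fin.prod_univ_succ] at hb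
    simp only [Fin.cons_zero, Fin.cons_succ, Finset.prod_const, Finset.card_univ,
      Fintype.card_fin] at hb
    rw [hb]
    refine sum_mem fun l _ => ?_
    obtain ⟨c, hc'⟩ := hc l
    rw [hc']
    exact mul_mem (aeval_mem y j (b l)) (Subalgebra.algebraMap_mem _ c)
  have hR := chart_RC' (v := P) (D := D) (fun l => y l / y j) (lch D B y j) hDC hreg
    (h.reg hm hj hreg) (der_ch D B y j) hi0 hi1 hrel
  have hR' : ∀ a, y a / y j ∈ RCinf P D := fun a => hR _ (Algebra.subset_adjoin ⟨a, rfl⟩)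
  have hfrac : Subfield.closure (RCinf P D : Set L) = ⊤ := by
    have h1 : ∀ a, y a / y j ∈ Subfield.closure (RCinf P D : Set L) := fun a =>
      Subfield.subset_closure (hR' a)
    have h2 : ∀ a, D (y a / y j) ∈ Subfield.closure (RCinf P D : Set L) := fun a =>
      Subfield.subset_closure (RCinf_der (hR' a))
    refine hgen _ (fun c => Subfield.subset_closure (mem_RCinf.2 fun j => RC_const hDC j c))
      (fun a b => ?_) fun a b => ?_
    · rw [hquot]
      exact Subfield.div_mem _ (h1 a) (h1 b)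
    · rw [hquot, div_eq_mul_inv, D.leibniz, D.leibniz_inv]
      simp only [smul_eq_mul]
      exact Subfield.add_mem _ (Subfield.mul_mem _ (h1 _) (Subfield.mul_mem _
        (Subfield.neg_mem _ (Subfield.pow_mem _ (Subfield.inv_mem _ (h1 _)) 2)) (h2 _)))
        (Subfield.mul_mem _ (Subfield.inv_mem _ (h1 _)) (h2 _))
  refine pres_of_ringC hess he P D hDC (RCinf P D) (fun z hz => RC_reg 0 (mem_RCinf.1 hz 0))
    (fun z hz => RCinf_der hz) hfrac (x := x) (fun i => ?_) hxi
  obtain ⟨a, ha, b, hb, hb0, hb1, hab⟩ := hx i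
  rw [hab, div_eq_mul_inv]
  refine Subring.mul_mem _ (hR a ha) (mem_RCinf.2 fun j => ?_)
  exact RC_inv (Or.inr (by rw [P.ord_inv, hb1]; norm_num)) j (mem_RCinf.1 (hR b hb) j)

/-- The derivation is logarithmic at the prime divisors over the boundary. -/
theorem logG [CharZero k] [CharZero C] (h : SDL C D B y m) (hm : 1 ≤ m) (hB : OffB B y)
    {P : Place C L} (hpres : ∀ z, P.Reg z → P.Reg (D z)) (hoff : BdP B y P) :
    ∀ f, P.Reg (D f / f) := by
  have hL0 : CharZero L := charZero_of_injective_algebraMap (algebraMap C L).injective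
  obtain ⟨j, hj, hreg, b, hb, hbo⟩ := hoff
  have hb0 : y b / y j ≠ 0 := div_ne_zero (hB j hj b hb) hj
  obtain ⟨s, hs0, hs⟩ := P.surj
  -- the logarithmic derivative of the uniformizer
  have hls : P.Reg (D s / s) := by
    obtain ⟨w, hw, hdec⟩ := ld_dec (P := P) D hs0 hs hb0
    have h1 : P.Reg (D (y b / y j) / (y b / y j)) := by
      have h2 := h.reg hm hj hreg b
      unfold lch at h2
      rwa [if_pos hb] at h2
    have h3 := reg_ld hpres hw
    have h4 : P.Reg (((P.ord (y b / y j) : ℤ) : L) * (D s / s)) := by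
      have h5 : ((P.ord (y b / y j) : ℤ) : L) * (D s / s) =
          D (y b / y j) / (y b / y j) + -(D w / w) := by
        rw [hdec]
        ring
      rw [h5]
      exact P.reg_add h1 (P.reg_neg h3)
    have h6 : ((P.ord (y b / y j) : ℤ) : L) ≠ 0 := by
      have : P.ord (y b / y j) ≠ 0 := by omega
      exact_mod_cast this
    have h7 : D s / s = algebraMap C L (((P.ord (y b / y j) : ℤ) : C)⁻¹) *
        (((P.ord (y b / y j) : ℤ) : L) * (D s / s)) := by
      rw [map_inv₀, map_intCast, ← mul_assoc, inv_mul_cancel₀ h6, one_mul]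
    rw [h7]
    exact P.reg_mul (P.reg_const _) h4
  intro f
  by_cases hf : f = 0
  · rw [hf, map_zero, zero_div]
    exact P.reg_zero
  obtain ⟨w, hw, hdec⟩ := ld_dec (P := P) D hs0 hs hf
  rw [hdec]
  refine P.reg_add (P.reg_mul ?_ hls) (reg_ld hpres hw)
  have h1 := P.reg_const ((P.ord f : ℤ) : C)
  rwa [map_intCast] at h1

end A5Baux

theorem sdl_presG [CharZero k] [CharZero C] (h : SDL C D B y m) (hm : 1 ≤ m) (hB : OffB B y)
    (hDC : ∀ c : C, ∃ c' : C, D (algebraMap C L c) = algebraMap C L c')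
    (hess : Algebra.EssFiniteType C L) {e : ℕ} (he : Algebra.trdeg C L = (e + 1 : ℕ))
    (hD : ∃ i j, D (y i / y j) ≠ 0) (hgen : GenBy C D y) {P : Place C L}
    (hP : P ∈ VP y (e + 1)) :
    (∀ z, P.Reg z → P.Reg (D z)) ∧ (BdP B y P → ∀ f, P.Reg (D f / f)) := by
  have hpres := A5Baux.presG h hm hDC hess he hD hgen hP
  exact ⟨hpres, fun hoff => A5Baux.logG h hm hB hpres hoff⟩

end Pool.Agent.H917.Mg
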