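import Pool.Agent.H917.A7
import Pool.Agent.H917.M.P0

/-!
# PROJECT BND (helper917), task A7B: pull-back of logarithmic forms

Port of `reg_form`, `descend_form` (`Pool/Agent/H917/A7.lean`) for logarithmic forms. Definitions `IsPluri`, `LogAt`, `RegAt`, `Divisorial`, `DerLog`, `DerReg`: `Pool/Graph/R_seed8/W602/GT/Defs.lean` (for the relation to `IsPluriForm`, `RegularAt`, `IsDivisorial`, `Pres` see the proof of `log_of_gt'` in B4.lean and the
proofs in `L/C0.lean`). In `reg_form` let `P` be a place of `L` over `C`, `G i` with `PresB (BdP B yL) P (G i)`, `yL i = algebraMap K L (y i)`, `v` the place of `K` over `k` under `P` (or `P` is trivial on `K`; that case is unchanged). If `BdP B y v` then `BdP B yL P` (`P.ord (algebraMap z) = e0 * v.ord z`), so the `G i` are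
logarithmic at `P`, and their components (restrictions to `K`) are logarithmic at `v`; use `LogAt v ω`. If not, use `RegAt v ω`.
-/

set_option autoImplicit false
set_option linter.overlappingInstances false
set_option linter.unusedSectionVars false

open FF MvPolynomial Pool.Agent.W603.LV Pool.Agent.W619.PQ Pool.Agent.Y174.BR
  Pool.Agent.W619.TW Pool.Agent.TH143.HE Pool.Agent.W619.Y Pool.Agent.W602.GT
open Pool.Agent.H917.Lg (PresB WL)

namespace Pool.Agent.H917.Mg

variable {k C K L : Type} [Field k] [CharZero k] [Field C] [CharZero C] [Field K] [Field L]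
  [Algebra k C] [Algebra C L] [Algebra k L] [IsScalarTower k C L] [Algebra k K] [Algebra K L]
  [IsScalarTower k K L]

namespace A7Baux

/-- a regular derivation which is logarithmic on a uniformizer is logarithmic -/
theorem log_of_unif {k K : Type} [Field k] [Field K] [Algebra k K] {v : Place k K}
    {D : Derivation k K K} (hD : ∀ f, v.Reg f → v.Reg (D f)) {s : K} (hs0 : s ≠ 0)
    (hs : v.ord s = 1) (hDs : v.Reg (D s / s)) (f : K) : v.Reg (D f / f) := by
  by_cases hf : f = 0
  · rw [hf, map_zero, zero_div]
    exact v.reg_zero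
  obtain ⟨u, hu⟩ : ∃ u, u = f * s ^ (-(v.ord f)) := ⟨_, rfl⟩
  have hu0 : u ≠ 0 := by
    rw [hu]
    exact mul_ne_zero hf (zpow_ne_zero _ hs0)
  have hu1 : v.ord u = 0 := by
    rw [hu, v.ord_mul hf (zpow_ne_zero _ hs0), v.ord_zpow, hs]
    ring
  have hfu : f = u * s ^ (v.ord f) := by
    rw [hu, mul_assoc, ← zpow_add₀ hs0]
    simp
  have h1 : D f / f = D u / u + (v.ord f : K) * (D s / s) := by
    conv_lhs => rw [hfu]
    rw [dlog_mul D hu0 (zpow_ne_zero _ hs0), dlog_zpow D hs0]
  rw [h1]
  have h2 : v.Reg (D u / u) := der_unit hD hu1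
  refine v.reg_add h2 (v.reg_mul ?_ hDs)
  have h3 := v.reg_const ((v.ord f : ℤ) : k)
  rwa [map_intCast] at h3

/-- The pull-back in terms of a frame. -/
theorem reg_core {w N : ℕ} {ω : (Fin w → Derivation k K K) → K} (hω : IsPluriForm k K w N ω)
    {x : Fin w → K} (hx : IsTranscendenceBasis k x) {E : Fin w → Derivation k K K}
    (hE : ∀ i j, E i (x j) = if i = j then 1 else 0) {P : Place C L}
    {G : Fin w → Derivation k L L} {y' : Fin w → K} {E' : Fin w → Derivation k K K}
    (hy' : IsTranscendenceBasis k y') (hE' : ∀ i j, E' i (y' j) = if i = j then 1 else 0)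
    {dd : Fin w → K} (hdd : ∀ c, dd c ≠ 0)
    (hv : P.Reg (algebraMap K L (ω fun c => dd c • E' c)))
    (hG : ∀ i c, P.Reg (G i (algebraMap K L (y' c)) / algebraMap K L (dd c))) :
    P.Reg ((Matrix.of fun i j => G i (algebraMap K L (x j))).det ^ N * algebraMap K L (ω E)) := by
  obtain ⟨E2, hE2⟩ : ∃ E2 : Fin w → Derivation k K K, E2 = fun c => dd c • E' c := ⟨_, rfl⟩
  obtain ⟨A, hA⟩ : ∃ A : Matrix (Fin w) (Fin w) K, A = Matrix.of fun c l => E2 c (x l) :=
    ⟨_, rfl⟩
  have h1 : ω E2 = A.det ^ N * ω E := by
    have h2 := hω A E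
    have h3 : (fun i => ∑ j, A i j • E j) = E2 := by
      funext i
      rw [hA]
      exact (Pool.Agent.W308.PG.YLOC.expandK x E hx hE (E2 i)).symm
    rw [h3] at h2
    exact h2
  have h2 : (Matrix.of fun i j => G i (algebraMap K L (x j))) =
      (Matrix.of fun i c => G i (algebraMap K L (y' c)) / algebraMap K L (dd c)) *
        A.map (algebraMap K L) := by
    ext i j
    rw [Matrix.of_apply, Matrix.mul_apply,
      Pool.Agent.W308.PG.YLOC.expand y' E' hy' hE' (G i) (x j)]
    refine Finset.sum_congr rfl fun c _ => ?_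
    have h4 : algebraMap K L (dd c) ≠ 0 := (map_ne_zero _).2 (hdd c)
    have h5 : E2 c (x j) = dd c * E' c (x j) := by
      rw [hE2, Derivation.smul_apply, smul_eq_mul]
    rw [Matrix.of_apply, Matrix.map_apply, hA, Matrix.of_apply, h5, map_mul]
    field_simp
  have h3 : (A.map (algebraMap K L)).det = algebraMap K L A.det :=
    ((algebraMap K L).map_det A).symm
  rw [h2, Matrix.det_mul, h3, mul_pow, mul_assoc, ← map_pow, ← map_mul, ← h1]
  rw [← hE2] at hv
  refine P.reg_mul (reg_pow' ?_ N) hv
  exact ge_det P _ fun i j => hG i j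

/-- The pull-back of a logarithmic pluricanonical form takes regular values on logarithmic vector
fields. -/
theorem reg_formL {w N : ℕ} (htrK : Algebra.trdeg k K = w)
    (hfinK : ∀ y : Fin w → K, IsTranscendenceBasis k y →
      FiniteDimensional (IntermediateField.adjoin k (Set.range y)) K)
    {n : ℕ} (B : Fin n → Finset (Fin n)) (y : Fin n → K)
    {ω : (Fin w → Derivation k K K) → K} (hω : IsPluriForm k K w N ω)
    (hlog : ∀ v : Place k K, Divisorial w v → LogAt v ω)
    (hreg : ∀ v : Place k K, Divisorial w v → ¬ BdP B y v → RegAt v ω) {x : Fin w → K}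
    (hx : IsTranscendenceBasis k x) {E : Fin w → Derivation k K K}
    (hE : ∀ i j, E i (x j) = if i = j then 1 else 0) {P : Place C L}
    (hdiv : ∀ (v : Place k K) (e0 : ℕ), Over (resPlace P : Place k L) v e0 → IsDivisorial v w)
    {G : Fin w → Derivation k L L} (hG : ∀ i z, P.Reg z → P.Reg (G i z))
    (hGl : BdP B (fun i => algebraMap K L (y i)) P → ∀ i f, P.Reg (G i f / f)) :
    P.Reg ((Matrix.of fun i j => G i (algebraMap K L (x j))).det ^ N * algebraMap K L (ω E)) := by
  by_cases htriv : ∃ f : K, (resPlace P : Place k L).ord (algebraMap K L f) ≠ 0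
  · obtain ⟨e0, v, hv⟩ := exists_over (resPlace P : Place k L) htriv
    have hdv := hdiv v e0 hv
    obtain ⟨y', E', i0, hy', hE', hord, hyr, hpres⟩ := pFRAME k K w htrK hfinK v hdv
    have hregL : ∀ f : K, v.Reg f → P.Reg (algebraMap K L f) := fun f hf => (hv.reg).2 hf
    by_cases hb : BdP B y v
    · have hbL : BdP B (fun i => algebraMap K L (y i)) P := by
        obtain ⟨j, hj0, hjr, b, hbB, hbo⟩ := hb
        refine ⟨j, (map_ne_zero _).2 hj0, fun i => ?_, b, hbB, ?_⟩
        · change P.Reg (algebraMap K L (y i) / algebraMap K L (y j))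
          rw [← map_div₀]
          exact hregL _ (hjr i)
        · change 0 < P.ord (algebraMap K L (y b) / algebraMap K L (y j))
          rw [← map_div₀]
          have h1 := hv.2 (y b / y j)
          have h2 : P.ord (algebraMap K L (y b / y j)) = e0 * v.ord (y b / y j) := h1
          rw [h2]
          exact mul_pos (by exact_mod_cast hv.1) hbo
      have hlogG := hGl hbL
      have hy0 : y' i0 ≠ 0 := by
        intro h0
        rw [h0, v.ord_zero] at hord
        exact absurd hord (by norm_num)
      obtain ⟨dd, hdd⟩ : ∃ dd : Fin w → K, dd = fun c => if c = i0 then y' i0 else 1 := ⟨_, rfl⟩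
      have hdd1 : dd i0 = y' i0 := by
        rw [hdd]
        exact if_pos rfl
      have hdd2 : ∀ c, c ≠ i0 → dd c = 1 := by
        intro c hc
        rw [hdd]
        exact if_neg hc
      refine reg_core hω hx hE hy' hE' (dd := dd) (fun c => ?_) (hregL _ ?_) fun i c => ?_
      · by_cases hc : c = i0
        · rw [hc, hdd1]
          exact hy0
        · rw [hdd2 c hc]
          exact one_ne_zero
      · refine hlog v hdv _ fun c => ?_
        intro f
        refine log_of_unif (fun f hf => ?_) hy0 hord ?_ f
        · rw [Derivation.smul_apply, smul_eq_mul]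
          refine v.reg_mul ?_ (hpres c f hf)
          by_cases hc : c = i0
          · rw [hc, hdd1]
            exact hyr i0
          · rw [hdd2 c hc]
            exact v.reg_one
        · rw [Derivation.smul_apply, smul_eq_mul, hE']
          by_cases hc : c = i0
          · rw [if_pos hc, hc, hdd1, mul_one, div_self hy0]
            exact v.reg_one
          · rw [if_neg hc, mul_zero, zero_div]
            exact v.reg_zero
      · by_cases hc : c = i0
        · rw [hc, hdd1]
          exact hlogG i _
        · rw [hdd2 c hc, map_one, div_one]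
          exact hG i _ (hregL _ (hyr c))
    · refine reg_core hω hx hE hy' hE' (dd := fun _ => 1) (fun c => one_ne_zero) (hregL _ ?_)
        fun i c => ?_
      · have h1 : (fun c => (1 : K) • E' c) = E' := by
          funext c
          exact one_smul _ _
        rw [h1]
        exact hreg v hdv hb E' hpres
      · rw [map_one, div_one]
        exact hG i _ (hregL _ (hyr c))
  · push Not at htriv
    have hregL : ∀ f : K, P.Reg (algebraMap K L f) := fun f => Or.inr (htriv f).ge
    refine P.reg_mul (reg_pow' ?_ N) (hregL _)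
    exact ge_det P _ fun i j => hG i _ (hregL _)

end A7Baux

theorem descend_formL {e r N : ℕ} (htrK : Algebra.trdeg k K = ((e + 1 + r : ℕ) : Cardinal))
    (hfinK : ∀ y : Fin (e + 1 + r) → K, IsTranscendenceBasis k y →
      FiniteDimensional (IntermediateField.adjoin k (Set.range y)) K)
    {x : Fin (e + 1 + r) → K} (hx : IsTranscendenceBasis k x)
    {E : Fin (e + 1 + r) → Derivation k K K}
    (hE : ∀ i j, E i (x j) = if i = j then 1 else 0)
    (htr : Algebra.trdeg C L = (e + 1 : ℕ)) (hess : Algebra.EssFiniteType C L)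
    (ht : IsTranscendenceBasis C fun i : Fin (e + 1) => algebraMap K L (x (Fin.castAdd r i)))
    {n : ℕ} (B : Fin n → Finset (Fin n)) (y : Fin n → K) :
    ∃ J : L, J ≠ 0 ∧ ∀ ω : (Fin (e + 1 + r) → Derivation k K K) → K,
      IsPluri N ω → (∀ v : Place k K, Divisorial (e + 1 + r) v → LogAt v ω) →
      (∀ v : Place k K, Divisorial (e + 1 + r) v → ¬ BdP B y v → RegAt v ω) →
      J ^ N * algebraMap K L (ω E) ∈
        WL (BdP B fun i => algebraMap K L (y i)) {P : Place C L | IsDivisorial P (e + 1)}
          (fun i : Fin (e + 1) => algebraMap K L (x (Fin.castAdd r i))) N := by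
  classical
  obtain ⟨t, htd⟩ : ∃ t : Fin (e + 1) → L, t = fun i => algebraMap K L (x (Fin.castAdd r i)) :=
    ⟨_, rfl⟩
  rw [← htd] at ht ⊢
  obtain ⟨x', hx'⟩ : ∃ x' : Fin r → L, x' = fun i => algebraMap K L (x (Fin.natAdd (e + 1) i)) :=
    ⟨_, rfl⟩
  obtain ⟨Bs, hB⟩ := exists_isTranscendenceBasis k C
  obtain ⟨c, hc⟩ : ∃ c : Bs → C, c = Subtype.val := ⟨_, rfl⟩
  rw [← hc] at hB
  have hbas := hB.sumElim_comp ht
  obtain ⟨Δ0, hΔ0⟩ := Pool.Agent.Y173.QA.exists_duals hbas
  obtain ⟨Δ, hΔ⟩ : ∃ Δ : Bs → Derivation k L L, ∀ β, Δ β = Δ0 (Sum.inr β) := ⟨_, fun _ => rfl⟩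
  have hΔt : ∀ β i, Δ β (t i) = 0 := by
    intro β i
    have := hΔ0 (Sum.inr β) (Sum.inl i)
    rw [if_neg (by simp)] at this
    rw [hΔ]
    exact this
  have hΔc : ∀ β γ, Δ β (algebraMap C L (c γ)) = if β = γ then 1 else 0 := by
    intro β γ
    have := hΔ0 (Sum.inr β) (Sum.inr γ)
    rw [hΔ]
    refine this.trans ?_
    simp
  -- the minor
  obtain ⟨α, hα⟩ : ∃ α : Fin r → Bs, (Matrix.of fun i j => Δ (α i) (x' j)).det ≠ 0 := by
    refine Pool.Agent.Y174.exists_det (fun β j => Δ β (x' j)) ?_
    by_contra hcon
    obtain ⟨f, hf0, hf⟩ := Submodule.exists_le_ker_of_lt_top _ (lt_top_iff_ne_top.2 hcon)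
    apply hf0
    obtain ⟨lam, hlam⟩ : ∃ lam : Fin r → L, ∀ j, lam j = f (Pi.single j 1) := ⟨_, fun _ => rfl⟩
    have hfl : ∀ v : Fin r → L, f v = ∑ j, v j * lam j := by
      intro v
      have h1 : v = ∑ j, v j • (Pi.single j (1 : L) : Fin r → L) := by
        funext i
        rw [Finset.sum_apply, Finset.sum_eq_single i]
        · simp
        · intro b _ hb
          simp [Pi.single_apply, Ne.symm hb]
        · intro hi
          exact absurd (Finset.mem_univ _) hi
      conv_lhs => rw [h1]
      rw [map_sum]
      refine Finset.sum_congr rfl fun j _ => ?_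
      rw [map_smul, hlam, smul_eq_mul]
    have hker : ∀ β, ∑ j, Δ β (x' j) * lam j = 0 := by
      intro β
      rw [← hfl]
      exact hf (Submodule.subset_span ⟨β, rfl⟩)
    -- all derivations which kill `t` satisfy the relation
    have hall : ∀ G : Derivation k L L, (∀ i, G (t i) = 0) → ∑ j, G (x' j) * lam j = 0 := by
      intro G hGt
      -- finitely many constants are enough for `x'`
      have hsup : ∀ j, ∃ S : Finset Bs, ∀ H : Derivation k L L, (∀ i, H (t i) = 0) →
          (∀ β ∈ S, H (algebraMap C L (c β)) = 0) → H (x' j) = 0 := by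
        intro j
        obtain ⟨T, hTS, hT⟩ := fin_support ((hbas.isAlgebraic_field).isAlgebraic (x' j))
        refine ⟨(T.finite_toSet.preimage (f := fun β : Bs => algebraMap C L (c β))
          (fun a _ b _ hab => ?_)).toFinset, fun H hHt hHS => ?_⟩
        · have h1 := (algebraMap C L).injective hab
          rw [hc] at h1
          exact Subtype.ext h1
        · have hcon : ∀ z ∈ (T : Set L), H z = 0 := by
            intro z hz
            obtain ⟨i, hi⟩ := hTS hz
            rcases i with i | β
            · rw [← hi]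
              exact hHt i
            · have h2 : algebraMap C L (c β) = z := hi
              rw [← h2]
              refine hHS β ?_
              rw [Set.Finite.mem_toFinset]
              change algebraMap C L (c β) ∈ (T : Set L)
              rw [h2]
              exact hz
          have h3 : ∀ z ∈ IntermediateField.adjoin k (T : Set L), H z = 0 := by
            intro z hz
            have h4 : IntermediateField.adjoin k (T : Set L) ≤
                Pool.Agent.W602.GT.consts H := by
              rw [IntermediateField.adjoin_le_iff]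
              intro s hs
              exact hcon s hs
            exact h4 hz
          have h5 : IsAlgebraic (Pool.Agent.W602.GT.consts H) (x' j) := by
            refine alg_of_range ?_ hT
            rintro ⟨a, ha⟩
            exact ⟨⟨a, h3 a ha⟩, rfl⟩
          exact der_zero_of_alg H h5
      choose S hS using hsup
      obtain ⟨S', hS'⟩ : ∃ S' : Finset Bs, S' = Finset.univ.biUnion S := ⟨_, rfl⟩
      have hexp : ∀ j, G (x' j) = ∑ β ∈ S', G (algebraMap C L (c β)) * Δ β (x' j) := by
        intro j
        have h1 := hS j (G - ∑ β ∈ S', G (algebraMap C L (c β)) • Δ β) (fun i => by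
          rw [Derivation.sub_apply, hGt, Pool.Agent.TH122.AB.sum_der,
            Finset.sum_eq_zero fun β _ => by rw [hΔt, mul_zero], sub_zero]) (fun γ hγ => by
          have hγ' : γ ∈ S' := by
            rw [hS']
            exact Finset.mem_biUnion.2 ⟨j, Finset.mem_univ j, hγ⟩
          rw [Derivation.sub_apply, Pool.Agent.TH122.AB.sum_der, Finset.sum_eq_single γ]
          · rw [hΔc, if_pos rfl, mul_one, sub_self]
          · intro β _ hβ
            rw [hΔc, if_neg hβ, mul_zero]
          · intro h
            exact absurd hγ' h)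
        rw [Derivation.sub_apply, Pool.Agent.TH122.AB.sum_der] at h1
        exact sub_eq_zero.1 h1
      have h2 : ∑ j, G (x' j) * lam j =
          ∑ β ∈ S', G (algebraMap C L (c β)) * ∑ j, Δ β (x' j) * lam j := by
        simp only [Finset.mul_sum]
        rw [Finset.sum_comm]
        refine Finset.sum_congr rfl fun j _ => ?_
        rw [hexp j, Finset.sum_mul]
        refine Finset.sum_congr rfl fun β _ => ?_
        ring
      rw [h2]
      exact Finset.sum_eq_zero fun β _ => by rw [hker, mul_zero]
    have hlam0 : ∀ j, lam j = 0 := by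
      intro j
      -- a derivation with given values on the coordinates
      have hxL : AlgebraicIndependent k fun i => algebraMap K L (x i) :=
        hx.1.map' (f := IsScalarTower.toAlgHom k K L) (algebraMap K L).injective
      obtain ⟨S, hxS, hS⟩ := exists_isTranscendenceBasis_superset hxL.to_subtype_range
      obtain ⟨G, hG⟩ := Pool.Agent.W602.GT.exists_der (fun s : S => (s : L)) hS
        (fun s => if (s : L) = x' j then 1 else 0)
      have hval : ∀ i, G (algebraMap K L (x i)) = if algebraMap K L (x i) = x' j then 1 else 0 := by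
        intro i
        exact hG ⟨_, hxS ⟨i, rfl⟩⟩
      have hinj : Function.Injective fun i => algebraMap K L (x i) := hxL.injective
      have h1 := hall G (fun i => by
        rw [htd]
        change G (algebraMap K L (x (Fin.castAdd r i))) = 0
        rw [hval, if_neg]
        intro h
        rw [hx'] at h
        have h2 := hinj h
        have h3 := congrArg Fin.val h2
        simp only [Fin.val_castAdd, Fin.val_natAdd] at h3
        omega)
      rw [Finset.sum_eq_single j] at h1
      · have h2 : G (x' j) = 1 := by
          have h3 := hval (Fin.natAdd (e + 1) j)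
          rw [hx']
          rw [hx', if_pos rfl] at h3
          exact h3
        rwa [h2, one_mul] at h1
      · intro b _ hb
        have h3 := hval (Fin.natAdd (e + 1) b)
        rw [if_neg] at h3
        · have h4 : G (x' b) = 0 := by
            rw [hx']
            exact h3
          rw [h4, zero_mul]
        · intro h
          rw [hx'] at h
          have h4 := hinj h
          exact hb (Fin.natAdd_injective _ _ h4)
      · intro h
        exact absurd (Finset.mem_univ _) h
    apply LinearMap.ext
    intro v
    rw [hfl, LinearMap.zero_apply]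
    exact Finset.sum_eq_zero fun j _ => by rw [hlam0, mul_zero]
  refine ⟨(Matrix.of fun i j => Δ (α i) (x' j)).det, hα, fun ω hω hlog hreg => ?_⟩
  intro P hP
  obtain ⟨s, u, F, hs0, hs, hu, hfr⟩ := exists_frmAt htr hess hP
  obtain ⟨z, hz⟩ : ∃ z : Fin (e + 1) → L, z = Fin.cons s u := ⟨_, rfl⟩
  rw [← hz] at hfr
  have hbas' := hB.sumElim_comp hfr.frm.bas
  obtain ⟨Δ0', hΔ0'⟩ := Pool.Agent.Y173.QA.exists_duals hbas'
  obtain ⟨Δ', hΔ'⟩ : ∃ Δ' : Bs → Derivation k L L, ∀ β, Δ' β = Δ0' (Sum.inr β) :=
    ⟨_, fun _ => rfl⟩
  have hΔz : ∀ β i, Δ' β (z i) = 0 := by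
    intro β i
    have := hΔ0' (Sum.inr β) (Sum.inl i)
    rw [if_neg (by simp)] at this
    rw [hΔ']
    exact this
  have hΔc' : ∀ β γ, Δ' β (algebraMap C L (c γ)) = if β = γ then 1 else 0 := by
    intro β γ
    have := hΔ0' (Sum.inr β) (Sum.inr γ)
    rw [hΔ']
    refine this.trans ?_
    simp
  have hpres : ∀ β w, P.Reg w → P.Reg (Δ' β w) := by
    intro β
    refine presG (k0 := k) htr (fun y hy => Pool.Agent.W824.PG.fin_adj hess y hy) P hs0 hs
      (y' := u) hu (Δ' β) (der_const hB (Δ' β) fun γ => ?_) ?_ fun i => ?_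
    · rw [hΔc']
      split_ifs
      · exact ⟨1, (map_one _).symm⟩
      · exact ⟨0, (map_zero _).symm⟩
    · have h1 := hΔz β 0
      rw [hz, Fin.cons_zero] at h1
      rw [h1]
      exact P.reg_zero
    · have h1 := hΔz β i.succ
      rw [hz, Fin.cons_succ] at h1
      rw [h1]
      exact P.reg_zero
  -- the difference
  have hdiff : ∀ β f, Δ' β f = Δ β f - ∑ a, Δ β (z a) * F a f := by
    intro β f
    have h1 := der_zero (Δ' β - Δ β + ∑ a, Δ β (z a) • (F a).restrictScalars k) _ hbas'
      (fun i => by
        rw [Derivation.add_apply, Derivation.sub_apply, Pool.Agent.TH122.AB.sum_der]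
        rcases i with i | γ
        · change Δ' β (z i) - Δ β (z i) + ∑ a, Δ β (z a) * F a (z i) = 0
          rw [hΔz, Finset.sum_eq_single i]
          · rw [hfr.frm.dual, if_pos rfl]
            ring
          · intro a _ ha
            rw [hfr.frm.dual, if_neg ha, mul_zero]
          · intro h
            exact absurd (Finset.mem_univ _) h
        · change Δ' β (algebraMap C L (c γ)) - Δ β (algebraMap C L (c γ)) +
            ∑ a, Δ β (z a) * F a (algebraMap C L (c γ)) = 0
          rw [hΔc, hΔc', Finset.sum_eq_zero fun a _ => by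
            rw [(F a).map_algebraMap, mul_zero]]
          ring) f
    rw [Derivation.add_apply, Derivation.sub_apply, Pool.Agent.TH122.AB.sum_der] at h1
    change Δ' β f - Δ β f + ∑ a, Δ β (z a) * F a f = 0 at h1
    linear_combination h1
  obtain ⟨G0, hG0⟩ : ∃ G0 : Fin (e + 1 + r) → Derivation k L L,
      G0 = Fin.append (fun a => (F a).restrictScalars k) fun i => Δ' (α i) := ⟨_, rfl⟩
  -- the determinant
  have hdet : (Matrix.of fun i j => G0 i (algebraMap K L (x j))).det =
      (Matrix.of fun i j => F i (t j)).det * (Matrix.of fun i j => Δ (α i) (x' j)).det := by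
    have h1 : (Matrix.of fun i j => G0 i (algebraMap K L (x j))).det =
        (Matrix.fromBlocks (1 : Matrix (Fin (e + 1)) (Fin (e + 1)) L) 0
          (Matrix.of fun i a => - Δ (α i) (z a)) (1 : Matrix (Fin r) (Fin r) L) *
        Matrix.fromBlocks (Matrix.of fun i j => F i (t j)) (Matrix.of fun i j => F i (x' j)) 0
          (Matrix.of fun i j => Δ (α i) (x' j))).det := by
      rw [← Matrix.det_reindex_self (finSumFinEquiv (m := e + 1) (n := r)).symm]
      congr 1
      rw [Matrix.fromBlocks_multiply]
      ext i j
      rw [Matrix.reindex_apply, Matrix.submatrix_apply]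
      rcases i with i | i <;> rcases j with j | j
      · simp [hG0, htd, Matrix.mul_apply]
      · simp [hG0, hx', Matrix.mul_apply]
      · have h2 : ∑ a, - Δ (α i) (z a) * F a (t j) = - ∑ a, Δ (α i) (z a) * F a (t j) := by
          simp
        simp only [hG0, Equiv.symm_symm, finSumFinEquiv_apply_right, finSumFinEquiv_apply_left,
          Matrix.of_apply, Fin.append_right, Matrix.fromBlocks_apply₂₁, Matrix.add_apply,
          Matrix.mul_apply, Matrix.mul_zero, Matrix.zero_apply, add_zero]
        rw [h2]
        have h3 := hdiff (α i) (t j)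
        rw [hΔt, zero_sub] at h3
        rw [← h3, htd]
      · have h2 : ∑ a, - Δ (α i) (z a) * F a (x' j) = - ∑ a, Δ (α i) (z a) * F a (x' j) := by
          simp
        simp only [hG0, Equiv.symm_symm, finSumFinEquiv_apply_right,
          Matrix.of_apply, Fin.append_right, Matrix.fromBlocks_apply₂₂, Matrix.add_apply,
          Matrix.mul_apply, Matrix.one_mul]
        rw [h2]
        have h3 := hdiff (α i) (x' j)
        rw [hx'] at h3 ⊢
        rw [h3]
        ring
    rw [h1, Matrix.det_mul, Matrix.det_fromBlocks_zero₁₂, Matrix.det_fromBlocks_zero₂₁,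
      Matrix.det_one, Matrix.det_one, one_mul, one_mul]
  -- the logarithmic frame
  obtain ⟨dd, hdd0, hddr, hddl, hddG⟩ : ∃ dd : Fin (e + 1) → L, (∀ a, dd a ≠ 0) ∧
      (∀ a, P.Reg (dd a)) ∧
      (BdP B (fun i => algebraMap K L (y i)) P → ∀ a, P.Reg (dd a * F a s / s)) ∧
      ∀ G' : Derivation C L L, PresB (BdP B fun i => algebraMap K L (y i)) P G' →
        ∀ a, P.Reg (G' (z a) / dd a) := by
    by_cases hb : BdP B (fun i => algebraMap K L (y i)) P
    · have hz0 : z 0 = s := by rw [hz, Fin.cons_zero]
      refine ⟨fun a => if a = 0 then s else 1, fun a => ?_, fun a => ?_, fun _ a => ?_,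
        fun G' hG' a => ?_⟩
      · by_cases ha : a = 0
        · simp only [ha, if_true]
          exact hs0
        · simp only [ha, if_false]
          exact one_ne_zero
      · by_cases ha : a = 0
        · simp only [ha, if_true]
          exact Or.inr (by rw [hs]; norm_num)
        · simp only [ha, if_false]
          exact P.reg_one
      · have h1 : F a s = if a = 0 then 1 else 0 := by
          rw [← hz0]
          exact hfr.frm.dual a 0
        rw [h1]
        by_cases ha : a = 0
        · simp only [ha, if_true]
          rw [mul_one, div_self hs0]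
          exact P.reg_one
        · simp only [ha, if_false]
          rw [mul_zero, zero_div]
          exact P.reg_zero
      · by_cases ha : a = 0
        · simp only [ha, if_true]
          rw [hz0]
          exact hG'.2 hb s
        · simp only [ha, if_false]
          rw [div_one]
          exact hG'.1 _ (hfr.reg a)
    · refine ⟨fun _ => 1, fun _ => one_ne_zero, fun _ => P.reg_one, fun h => absurd h hb,
        fun G' hG' a => ?_⟩
      change P.Reg (G' (z a) / 1)
      rw [div_one]
      exact hG'.1 _ (hfr.reg a)
  obtain ⟨D, hD⟩ : ∃ D : Fin (e + 1 + r) → L, D = Fin.append dd fun _ => 1 := ⟨_, rfl⟩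
  have hG0reg : ∀ i w, P.Reg w → P.Reg (G0 i w) := by
    intro i
    rw [hG0]
    refine Fin.addCases (fun i => ?_) (fun i => ?_) i
    · rw [Fin.append_left]
      exact hfr.pres i
    · rw [Fin.append_right]
      exact hpres (α i)
  have hDreg : ∀ i, P.Reg (D i) := by
    intro i
    rw [hD]
    refine Fin.addCases (fun i => ?_) (fun i => ?_) i
    · rw [Fin.append_left]
      exact hddr i
    · rw [Fin.append_right]
      exact P.reg_one
  obtain ⟨G, hG⟩ : ∃ G : Fin (e + 1 + r) → Derivation k L L, G = fun i => D i • G0 i := ⟨_, rfl⟩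
  have hGa : ∀ i f, G i f = D i * G0 i f := by
    intro i f
    rw [hG]
    rfl
  have hGreg : ∀ i w, P.Reg w → P.Reg (G i w) := by
    intro i w hw
    rw [hGa]
    exact P.reg_mul (hDreg i) (hG0reg i w hw)
  have hGlog : BdP B (fun i => algebraMap K L (y i)) P → ∀ i f, P.Reg (G i f / f) := by
    intro hb i f
    refine A7Baux.log_of_unif (v := (resPlace P : Place k L)) (D := G i) (hGreg i) hs0 hs ?_ f
    change P.Reg (G i s / s)
    rw [hGa, hD, hG0]
    refine Fin.addCases (fun i => ?_) (fun i => ?_) i
    · rw [Fin.append_left, Fin.append_left]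
      exact hddl hb i
    · rw [Fin.append_right, Fin.append_right]
      have h1 := hΔz (α i) 0
      rw [hz, Fin.cons_zero] at h1
      rw [h1, mul_zero, zero_div]
      exact P.reg_zero
  have hmain := A7Baux.reg_formL htrK hfinK B y hω hlog hreg hx hE (P := P)
    (fun v e0 hv => div_restrict htrK hs0 hs hu (by
      have := hfr.frm.bas
      rwa [hz] at this) hv) hGreg hGlog
  have hdetG : (Matrix.of fun i j => G i (algebraMap K L (x j))).det =
      (∏ a, dd a) * (Matrix.of fun i j => G0 i (algebraMap K L (x j))).det := by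
    have h1 : (Matrix.of fun i j => G i (algebraMap K L (x j))) =
        Matrix.of fun i j => D i * (Matrix.of fun i j => G0 i (algebraMap K L (x j))) i j := by
      ext i j
      rw [Matrix.of_apply, Matrix.of_apply, Matrix.of_apply, hGa]
    rw [h1, Matrix.det_mul_column, Fin.prod_univ_add, hD]
    simp
  intro G' hG'
  rw [hfr.frm.det_chain G' t]
  have hdet' : (Matrix.of fun i j => G' i (z j)).det =
      (∏ a, dd a) * (Matrix.of fun i j => G' i (z j) / dd j).det := by
    rw [← Matrix.det_mul_row]
    congr 1
    ext i j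
    rw [Matrix.of_apply, Matrix.of_apply, Matrix.of_apply, mul_div_cancel₀ _ (hdd0 j)]
  have hC : P.Reg (Matrix.of fun i j => G' i (z j) / dd j).det :=
    ge_det P _ fun i j => hddG (G' i) (hG' i) j
  rw [hdetG, hdet] at hmain
  rw [hdet']
  have hfin := P.reg_mul (reg_pow' hC N) hmain
  refine (congrArg P.Reg ?_).mp hfin
  ring

end Pool.Agent.H917.Mg
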