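import Pool.Agent.H917.A8
import Pool.Agent.H917.L.C0
import Pool.Agent.H917.M.P0

/-!
# PROJECT BND (helper917), task A8B: products of logarithmic forms

Port of `exists_mul`, `exists_mul_all`, `WN_hom` (`Pool/Agent/H917/A8.lean`) from `WN` to `WL Bd`; `WL_mul`, `WL_pow`, `WL_int`, `WL_one`, `WL_prod` are in `L/C0.lean` (namespace `Pool.Agent.H917.Lg.C0aux`).
-/

set_option autoImplicit false
set_option linter.overlappingInstances false
set_option linter.unusedSectionVars false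

open FF MvPolynomial Pool.Agent.W603.LV Pool.Agent.W619.PQ Pool.Agent.Y174.BR
  Pool.Agent.W619.TW Pool.Agent.TH143.HE Pool.Agent.W619.Y
open Pool.Agent.H917.Lg (PresB WL)

namespace Pool.Agent.H917.Mg

variable {C L : Type} [Field C] [CharZero C] [Field L] [Algebra C L]

namespace A8Baux

open Pool.Agent.H917.Lg.C0aux

variable {Bd : Place C L → Prop} {V : Set (Place C L)} {e : ℕ} {t : Fin e → L} {N : ℕ}

theorem WL_hom {w : ℕ} {g : Fin w → L} (hg : ∀ j, g j ∈ WL Bd V t N) {F : MvPolynomial (Fin w) C}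
    {d : ℕ} (hF : F.IsHomogeneous d) : aeval g F ∈ WL Bd V t (d * N) := by
  rw [aeval_def, eval₂_eq']
  refine Submodule.sum_mem _ fun m hm => ?_
  rw [← Algebra.smul_def]
  refine Submodule.smul_mem _ _ ?_
  have h1 := WL_prod (Bd := Bd) (V := V) (t := t) Finset.univ (fun j => g j ^ m j) (fun j => m j * N)
    (fun j _ => WL_pow (hg j) (m j))
  have h5 := hF (mem_support_iff.1 hm)
  rw [Finsupp.weight_apply, Finsupp.sum_fintype _ _ (fun _ => by simp)] at h5
  simp only [Pi.one_apply, smul_eq_mul, mul_one] at h5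
  rw [← Finset.sum_mul, h5] at h1
  exact h1

/-- **Multipliers.** -/
theorem exists_mulL {w : ℕ} {g : Fin (w + 1) → L} (hg : ∀ j, g j ∈ WL Bd V t N)
    (hg0 : g 0 ≠ 0) {z : L}
    (hz : IsAlgebraic (IntermediateField.adjoin C (Set.range fun i : Fin w => g i.succ / g 0)) z) :
    ∃ (N1 : ℕ) (a : L), a ≠ 0 ∧ a ∈ WL Bd V t N1 ∧ a * z ∈ WL Bd V t N1 := by
  classical
  obtain ⟨ρ, hρ⟩ : ∃ ρ : Fin w → L, ρ = fun i => g i.succ / g 0 := ⟨_, rfl⟩
  rw [← hρ] at hz
  have hz2 : IsAlgebraic (Algebra.adjoin C (Set.range ρ)) z := by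
    open scoped IntermediateField.algebraAdjoinAdjoin in
    have h4 : Algebra.IsAlgebraic (Algebra.adjoin C (Set.range ρ))
      (IntermediateField.adjoin C (Set.range ρ)) := inferInstance
    open scoped IntermediateField.algebraAdjoinAdjoin in
    exact hz.restrictScalars (Algebra.adjoin C (Set.range ρ))
  obtain ⟨p, hp, h0⟩ := hz2
  have hF : ∀ i, ∃ F : MvPolynomial (Fin w) C, aeval ρ F = ((p.coeff i : L)) := by
    intro i
    have h1 : (p.coeff i : L) ∈ (aeval ρ : MvPolynomial (Fin w) C →ₐ[C] L).range := by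
      rw [← Algebra.adjoin_range_eq_range_aeval]
      exact (p.coeff i).2
    exact h1
  choose F hF using hF
  obtain ⟨d, hd⟩ : ∃ d, d = p.natDegree := ⟨_, rfl⟩
  obtain ⟨δ, hδ⟩ : ∃ δ, δ = (Finset.range (d + 1)).sup fun i => (F i).totalDegree := ⟨_, rfl⟩
  have hδi : ∀ i ≤ d, (F i).totalDegree ≤ δ := by
    intro i hi
    rw [hδ]
    exact Finset.le_sup (f := fun i => (F i).totalDegree) (Finset.mem_range.2 (by omega))
  obtain ⟨a, ha⟩ : ∃ a : ℕ → L, ∀ i, a i = g 0 ^ δ * (p.coeff i : L) := ⟨_, fun _ => rfl⟩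
  have hai : ∀ i ≤ d, a i ∈ WL Bd V t (δ * N) := by
    intro i hi
    have h1 : a i = g 0 ^ (δ - (F i).totalDegree) * aeval g (hmg (F i)) := by
      rw [aeval_hmg g hg0, ha, ← hF, ← mul_assoc, ← pow_add, Nat.sub_add_cancel (hδi i hi), hρ]
    rw [h1]
    have h2 := WL_mul (WL_pow (hg 0) (δ - (F i).totalDegree)) (WL_hom hg (hmg_homog (F i)))
    rw [← Nat.add_mul, Nat.sub_add_cancel (hδi i hi)] at h2
    exact h2
  have had : a d ≠ 0 := by
    rw [ha]
    refine mul_ne_zero (pow_ne_zero _ hg0) ?_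
    intro h
    apply hp
    have h1 : p.leadingCoeff = 0 := by
      rw [Polynomial.leadingCoeff, ← hd]
      exact Subtype.ext h
    exact Polynomial.leadingCoeff_eq_zero.1 h1
  have hsum : ∑ i ∈ Finset.range (d + 1), a i * z ^ i = 0 := by
    rw [Polynomial.aeval_eq_sum_range, ← hd] at h0
    have h1 : ∀ i, a i * z ^ i = g 0 ^ δ * (p.coeff i • z ^ i) := by
      intro i
      rw [ha, Algebra.smul_def, mul_assoc]
      rfl
    rw [Finset.sum_congr rfl fun i _ => h1 i, ← Finset.mul_sum, h0, mul_zero]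
  exact ⟨δ * N, a d, had, hai d le_rfl, WL_int hai had hsum⟩

end A8Baux

open A8Baux Pool.Agent.H917.Lg.C0aux

/-- **Common multipliers.** -/
theorem exists_mul_allL {Bd : Place C L → Prop} {V : Set (Place C L)} {e : ℕ} {t : Fin e → L}
    {N : ℕ} {w : ℕ} {g : Fin (w + 1) → L} (hg : ∀ j, g j ∈ WL Bd V t N)
    (hg0 : g 0 ≠ 0) {n : ℕ} (z : Fin n → L)
    (hz : ∀ l, IsAlgebraic (IntermediateField.adjoin C
      (Set.range fun i : Fin w => g i.succ / g 0)) (z l)) (hN : 1 ≤ N) :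
    ∃ (N1 : ℕ) (a : L), 1 ≤ N1 ∧ a ≠ 0 ∧ a ∈ WL Bd V t N1 ∧
      ∀ l, a * z l ∈ WL Bd V t N1 := by
  classical
  choose N1 a ha0 ha haz using fun l => exists_mulL hg hg0 (hz l)
  refine ⟨N + ∑ l, N1 l, g 0 * ∏ l, a l, by omega,
    mul_ne_zero hg0 (Finset.prod_ne_zero_iff.2 fun l _ => ha0 l),
    WL_mul (hg 0) (WL_prod _ _ _ fun l _ => ha l), fun l => ?_⟩
  have h1 : g 0 * (∏ l, a l) * z l = g 0 * ∏ i, (if i = l then a l * z l else a i) := by
    rw [mul_assoc]
    congr 1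
    rw [← Finset.mul_prod_erase Finset.univ a (Finset.mem_univ l),
      ← Finset.mul_prod_erase Finset.univ (fun i => if i = l then a l * z l else a i)
        (Finset.mem_univ l), if_pos rfl]
    have h2 : ∏ i ∈ Finset.univ.erase l, (if i = l then a l * z l else a i) =
        ∏ i ∈ Finset.univ.erase l, a i :=
      Finset.prod_congr rfl fun i hi => if_neg (Finset.ne_of_mem_erase hi)
    rw [h2]
    ring
  rw [h1]
  refine WL_mul (hg 0) (WL_prod _ _ _ fun i _ => ?_)
  split_ifs with h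
  · subst h
    exact haz i
  · exact ha i

end Pool.Agent.H917.Mg
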