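import Pool.Agent.H917.L.L3
import Pool.Agent.H917.M.P0

/-!
# PROJECT BND (helper917), task FIN: finite-dimensionality of spaces of logarithmic forms

Combination of `fin_WN` (`Pool/Agent/H917/A4.lean`) and `fin_WQ`, `local_ge` (`L/L3.lean`). Let `H` be the product of all `X b` with `b ∈ B j`, `y j ≠ 0` (over all such `j`), a form of degree `d` with `H(y) ≠ 0` (`OffB`), and `Q = H ^ ((e + 1) * N)`, a form of degree `q = d (e + 1) N`.
Let `g ∈ WL (BdP B y) (VP y (e + 1)) t N` and `P ∈ VP y (e + 1)` with the chart `j`, `G i` with `Pres P (G i)`. If `¬ BdP B y P` then `det (G i (t j)) ^ N * g` is regular. If `BdP B y P`, let `s` be a uniformizer; then `s • G i` satisfies `PresB` (`s G f / f`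
is regular: `f = s ^ a w`), so `s ^ ((e + 1) N) * det (G i (t j)) ^ N * g` is regular. And `H (ch y j)` has positive order at `P` if `BdP B y P`: for the chart `j0` of `BdP`, `H (ch y j0)` has the factor `y b / y j0` of positive order and all other factors are regular; `y j0 / y j` is a unit at `P`
(both charts are regular), `H (ch y j) = H (ch y j0) * (y j0 / y j) ^ d`. So in all cases `Q (ch y j) * det (G i (t j)) ^ N * g` is regular at `P` (for all charts `j` which are regular at `P`). Now proceed as in `fin_WN`, with the additional factor as in `local_ge`: with `Z = Zc T`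
(the change from `t` to `Z` multiplies by the `N`-th power of a fixed determinant) one gets `Ge P (P.ord ((T c ^ q / aeval y Q) * (T c / T 0) ^ (2 (e + 1) N)))` for `det (G i (Z j)) ^ N * g`.
-/

set_option autoImplicit false
set_option linter.overlappingInstances false
set_option linter.unusedSectionVars false

open FF MvPolynomial Pool.Agent.W603.LV Pool.Agent.W619.PQ Pool.Agent.Y174.BR
  Pool.Agent.W619.TW Pool.Agent.TH143.HE Pool.Agent.W619.Y
open Pool.Agent.H917.Lg (PresB WL)

namespace Pool.Agent.H917.Mg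

namespace FINaux

section

variable {C L : Type} [Field C] [Field L] [Algebra C L]

theorem ord_prod {P : Place C L} {ι : Type} (s : Finset ι) (f : ι → L) (h : ∀ i ∈ s, f i ≠ 0) :
    P.ord (∏ i ∈ s, f i) = ∑ i ∈ s, P.ord (f i) := by
  classical
  induction s using Finset.induction_on with
  | empty => rw [Finset.prod_empty, Finset.sum_empty, P.ord_one]
  | insert a s ha ih =>
    rw [Finset.prod_insert ha, Finset.sum_insert ha,
      P.ord_mul (h a (Finset.mem_insert_self a s))
        (Finset.prod_ne_zero_iff.2 fun i hi => h i (Finset.mem_insert_of_mem hi)),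
      ih fun i hi => h i (Finset.mem_insert_of_mem hi)]

open Classical in
/-- the product of the boundary coordinates -/
noncomputable def Hy {n : ℕ} (B : Fin n → Finset (Fin n)) (y : Fin n → L) (a : L) : L :=
  ∏ j ∈ Finset.univ.filter (fun j => y j ≠ 0), ∏ b ∈ B j, y b / a

open Classical in
/-- its degree -/
noncomputable def dH {n : ℕ} (B : Fin n → Finset (Fin n)) (y : Fin n → L) : ℕ :=
  ∑ j ∈ Finset.univ.filter (fun j => y j ≠ 0), (B j).card

theorem Hy_eq {n : ℕ} (B : Fin n → Finset (Fin n)) (y : Fin n → L) (a : L) :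
    Hy B y a = Hy B y 1 / a ^ dH B y := by
  classical
  unfold Hy dH
  rw [← Finset.prod_pow_eq_pow_sum, ← Finset.prod_div_distrib]
  refine Finset.prod_congr rfl fun j _ => ?_
  rw [← Finset.prod_const, ← Finset.prod_div_distrib]
  refine Finset.prod_congr rfl fun b _ => ?_
  rw [div_one]

theorem Hy_ne {n : ℕ} {B : Fin n → Finset (Fin n)} {y : Fin n → L} (hoff : OffB B y) {a : L}
    (ha : a ≠ 0) : Hy B y a ≠ 0 := by
  classical
  unfold Hy
  refine Finset.prod_ne_zero_iff.2 fun j hj => Finset.prod_ne_zero_iff.2 fun b hb => ?_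
  exact div_ne_zero (hoff j (Finset.mem_filter.1 hj).2 b hb) ha

theorem Hy_ord {n : ℕ} {B : Fin n → Finset (Fin n)} {y : Fin n → L} (hoff : OffB B y)
    {P : Place C L} {j : Fin n} (hj : y j ≠ 0) (hr : ∀ i, P.Reg (y i / y j)) :
    0 ≤ P.ord (Hy B y (y j)) := by
  classical
  unfold Hy
  rw [ord_prod _ _ fun i hi => Finset.prod_ne_zero_iff.2 fun b hb =>
    div_ne_zero (hoff i (Finset.mem_filter.1 hi).2 b hb) hj]
  refine Finset.sum_nonneg fun i hi => ?_
  rw [ord_prod _ _ fun b hb => div_ne_zero (hoff i (Finset.mem_filter.1 hi).2 b hb) hj]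
  refine Finset.sum_nonneg fun b hb => ?_
  exact (hr b).resolve_left (div_ne_zero (hoff i (Finset.mem_filter.1 hi).2 b hb) hj)

theorem Hy_pos {n : ℕ} {B : Fin n → Finset (Fin n)} {y : Fin n → L} (hoff : OffB B y)
    {P : Place C L} {j : Fin n} (hj : y j ≠ 0) (hr : ∀ i, P.Reg (y i / y j)) {b : Fin n}
    (hb : b ∈ B j) (hpos : 0 < P.ord (y b / y j)) :
    1 ≤ P.ord (Hy B y (y j)) := by
  classical
  unfold Hy
  have hne : ∀ i ∈ Finset.univ.filter (fun j => y j ≠ 0), ∀ b ∈ B i, y b / y j ≠ 0 :=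
    fun i hi b hb => div_ne_zero (hoff i (Finset.mem_filter.1 hi).2 b hb) hj
  have hge : ∀ i ∈ Finset.univ.filter (fun j => y j ≠ 0), ∀ b ∈ B i, 0 ≤ P.ord (y b / y j) :=
    fun i hi b hb => (hr b).resolve_left (hne i hi b hb)
  rw [ord_prod _ _ fun i hi => Finset.prod_ne_zero_iff.2 fun b hb => hne i hi b hb]
  have hjm : j ∈ Finset.univ.filter (fun j => y j ≠ 0) :=
    Finset.mem_filter.2 ⟨Finset.mem_univ _, hj⟩
  have h1 : P.ord (∏ b ∈ B j, y b / y j) ≤
      ∑ i ∈ Finset.univ.filter (fun j => y j ≠ 0), P.ord (∏ b ∈ B i, y b / y j) := by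
    refine Finset.single_le_sum (f := fun i => P.ord (∏ b ∈ B i, y b / y j))
      (fun i hi => ?_) hjm
    change 0 ≤ P.ord (∏ b ∈ B i, y b / y j)
    rw [ord_prod _ _ fun b hb => hne i hi b hb]
    exact Finset.sum_nonneg fun b hb => hge i hi b hb
  refine le_trans ?_ h1
  rw [ord_prod _ _ fun b hb => hne j hjm b hb]
  have h2 : P.ord (y b / y j) ≤ ∑ b ∈ B j, P.ord (y b / y j) :=
    Finset.single_le_sum (f := fun b => P.ord (y b / y j)) (fun b hb => hge j hjm b hb) hb
  omega

variable [CharZero C]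

/-- the scaled derivation is logarithmic -/
theorem presB_smul {Bd : Place C L → Prop} {P : Place C L} {G : Derivation C L L} (hG : Pres P G)
    {s : L} (hs0 : s ≠ 0) (hs : P.ord s = 1) : PresB Bd P (s • G) := by
  have hs1 : Ge P 1 s := Or.inr (by rw [hs])
  refine ⟨fun f hf => ?_, fun _ f => ?_⟩
  · rw [Derivation.smul_apply, smul_eq_mul]
    exact P.reg_mul (Or.inr (by rw [hs]; norm_num)) (hG f hf)
  · rw [Derivation.smul_apply, smul_eq_mul]
    by_cases hf : f = 0
    · rw [hf, div_zero]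
      exact P.reg_zero
    · have h1 := pres_ge hG (f := f) (N := P.ord f) (Or.inr le_rfl)
      have h2 : Ge P (P.ord f - 1 + - P.ord f) (G f / f) := by
        rw [div_eq_mul_inv]
        exact h1.mul (Or.inr (by rw [P.ord_inv]))
      have h3 := hs1.mul h2
      rw [mul_div_assoc]
      exact (h3.mono (by omega) : Ge P 0 _)

theorem local_reg {n e : ℕ} {y : Fin n → L} {B : Fin n → Finset (Fin n)} (hoff : OffB B y)
    {V : Set (Place C L)} {t : Fin (e + 1) → L} {N : ℕ} {g : L}
    (hg : g ∈ WL (k := C) (BdP B y) V t N) {P : Place C L} (hP : P ∈ V)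
    {G : Fin (e + 1) → Derivation C L L} (hG : ∀ i, Pres P (G i)) {j : Fin n} (hj : y j ≠ 0)
    (hr : ∀ i, P.Reg (y i / y j)) :
    Ge P 0 (Hy B y (y j) ^ ((e + 1) * N) * ((Matrix.of fun i j => G i (t j)).det ^ N * g)) := by
  by_cases hbd : BdP B y P
  · obtain ⟨j0, hj0, hr0, b, hb, hpos⟩ := id hbd
    have h1 := Hy_pos hoff hj0 hr0 hb hpos
    have h2 : P.ord (y j) = P.ord (y j0) := by
      have h3 := (hr j0).resolve_left (div_ne_zero hj0 hj)
      have h4 := (hr0 j).resolve_left (div_ne_zero hj hj0)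
      rw [P.ord_div hj0 hj] at h3
      rw [P.ord_div hj hj0] at h4
      omega
    have h1' : 1 ≤ P.ord (Hy B y (y j)) := by
      rw [Hy_eq, P.ord_div (Hy_ne hoff one_ne_zero) (pow_ne_zero _ hj), P.ord_pow, h2]
      rw [Hy_eq, P.ord_div (Hy_ne hoff one_ne_zero) (pow_ne_zero _ hj0), P.ord_pow] at h1
      exact h1
    obtain ⟨s, hs0, hs⟩ := P.surj
    have h3 : P.Reg ((Matrix.of fun i j => (s • G i) (t j)).det ^ N * g) :=
      hg P hP (fun i => s • G i) fun i => presB_smul (hG i) hs0 hs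
    have h4 : (Matrix.of fun i j => (s • G i) (t j)) = s • (Matrix.of fun i j => G i (t j)) := by
      ext i j
      rfl
    rw [h4, Matrix.det_smul, Fintype.card_fin, mul_pow, ← pow_mul, mul_assoc] at h3
    have h5 : Ge P 0 (s ^ ((e + 1) * N) * ((Matrix.of fun i j => G i (t j)).det ^ N * g)) := h3
    have h6 := Ge.of_mul (pow_ne_zero _ hs0) h5
    rw [P.ord_pow, hs, mul_one] at h6
    have h7 : Ge P (((e + 1) * N : ℕ) : ℤ) (Hy B y (y j) ^ ((e + 1) * N)) := by
      right
      rw [P.ord_pow]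
      have h8 : (0 : ℤ) ≤ (((e + 1) * N : ℕ) : ℤ) := Int.natCast_nonneg _
      nlinarith
    exact (h7.mul h6).mono (by omega)
  · have h1 : Ge P 0 ((Matrix.of fun i j => G i (t j)).det ^ N * g) :=
      hg P hP G fun i => ⟨hG i, fun h => absurd h hbd⟩
    have h2 : Ge P 0 (Hy B y (y j) ^ ((e + 1) * N)) := by
      right
      rw [P.ord_pow]
      exact mul_nonneg (Int.natCast_nonneg _) (Hy_ord hoff hj hr)
    have h3 := h2.mul h1
    rwa [add_zero] at h3

theorem local_ge {n e : ℕ} {y : Fin n → L} {T : Fin (e + 2) → L} (hT : PNorm (C := C) y T)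
    (hne : ∀ i, T i ≠ 0) {B : Fin n → Finset (Fin n)} (hoff : OffB B y)
    {t : Fin (e + 1) → L} {N : ℕ} {g : L}
    (hg : g ∈ WL (k := C) (BdP B y) (VP y (e + 1)) t N) {P : Place C L} (hP : P ∈ VP y (e + 1))
    {G : Fin (e + 1) → Derivation C L L} (hG : ∀ i, Pres P (G i)) :
    ∃ c : Fin (e + 2), Ge P (P.ord ((T c ^ dH B y / Hy B y 1) ^ ((e + 1) * N)))
      ((Matrix.of fun i j => G i (t j)).det ^ N * g) := by
  obtain ⟨c, hc⟩ := Finite.exists_min fun i => P.ord (T i)
  refine ⟨c, ?_⟩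
  obtain ⟨j, hj0, hjr, -⟩ := id hP
  have hyj : P.ord (T c) ≤ P.ord (y j) :=
    (hT.reg P (P.ord (T c)) (fun i => Or.inr (hc i)) j).resolve_left hj0
  have h1 := local_reg hoff hg hP hG hj0 hjr
  have hne1 := Hy_ne hoff (one_ne_zero (α := L))
  refine (Ge.of_mul (pow_ne_zero _ (Hy_ne hoff hj0)) h1).mono ?_
  rw [P.ord_pow, P.ord_pow, Hy_eq B y (y j), P.ord_div hne1 (pow_ne_zero _ hj0), P.ord_pow,
    P.ord_div (pow_ne_zero _ (hne c)) hne1, P.ord_pow]
  have h2 : (0 : ℤ) ≤ (((e + 1) * N : ℕ) : ℤ) := Int.natCast_nonneg _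
  have h3 : (0 : ℤ) ≤ (dH B y : ℤ) := Int.natCast_nonneg _
  have h4 : (dH B y : ℤ) * P.ord (T c) ≤ (dH B y : ℤ) * P.ord (y j) :=
    mul_le_mul_of_nonneg_left hyj h3
  nlinarith

end

end FINaux

theorem fin_WL {C L : Type} [Field C] [Field L] [Algebra C L] [CharZero C] {n e : ℕ}
    {y : Fin n → L} {T : Fin (e + 2) → L} (hT : PNorm (C := C) y T)
    (hI : HI (C := C) T) (hZ : IsTranscendenceBasis C (Zc T))
    (hfd : FiniteDimensional (IntermediateField.adjoin C (Set.range (Zc T))) L)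
    {B : Fin n → Finset (Fin n)} (hoff : OffB B y)
    {t : Fin (e + 1) → L} (ht : IsTranscendenceBasis C t) {N : ℕ} (hN : 1 ≤ N) :
    Module.Finite C (WL (k := C) (BdP B y) (VP y (e + 1)) t N) := by
  classical
  obtain ⟨E, hE0⟩ := Pool.Agent.W602.GT.exists_dual hZ
  have hE : ∀ i j, E i (Zc T j) = if i = j then 1 else 0 := by
    intro i j
    have h1 := congrFun (congrFun hE0 i) j
    rw [Matrix.of_apply, Matrix.one_apply] at h1
    exact h1
  have hclr : ∀ b, ∃ Q : MvPolynomial (Fin (e + 1)) C, Q ≠ 0 ∧ ∀ p : MvPolynomial (Fin (e + 1)) C,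
      Irreducible p → ∀ P : Place C L, Pool.Agent.Y173.QA.Adic (Zc T) p P →
      Pres P (aeval (Zc T) Q • E b) := fun b => Pool.Agent.Y173.QA.exists_clear hZ hfd (E b)
  choose Q hQ0 hQ using hclr
  have hder : ∀ b (f : MvPolynomial (Fin (e + 1)) C), E b (aeval (Zc T) f) =
      aeval (Zc T) (pderiv b f) := by
    intro b f
    exact Pool.Agent.TH122.AB.der_aeval (hE b) f
  have hnu := Pool.Agent.TH756.PN.numLe_pairs (κ := Unit) (α := Fin (e + 1)) hZ hfd
    (fun _ => Finset.univ) (fun _ => 0) (fun _ => Finset.mem_univ _) (fun _ => e)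
    (fun _ => by simp) (fun _ => ()) (fun _ => Finset.mem_univ _) (fun _ => True)
    Q hQ0 (fun _ => ()) (fun t a h => absurd rfl h) (fun _ h => absurd trivial h)
    (VP y (e + 1)) (fun _ => 0) ?_ ?_
  · obtain ⟨c, hc⟩ := hnu (Finset.univ.image fun c : Fin (e + 2) =>
      (T c ^ FINaux.dH B y / FINaux.Hy B y 1) ^ ((e + 1) * N))
    obtain ⟨F, hF0⟩ := Pool.Agent.W602.GT.exists_dual ht
    rw [← Module.rank_lt_aleph0_iff]
    refine lt_of_le_of_lt (rank_le (n := c * N ^ (Finset.univ.filter fun _ : Fin (e + 1) =>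
      True).card) fun s hs => ?_) (Cardinal.natCast_lt_aleph0)
    refine hc N s.card hN ⟨fun l G => (Matrix.of fun i j => G i (t j)).det ^ N *
      ((s.equivFin.symm l).1 : L), ?_, fun l => ⟨?_, ?_⟩⟩
    · rw [Fintype.linearIndependent_iff]
      intro a ha
      have h1 := congrFun ha F
      rw [Finset.sum_apply, Pi.zero_apply] at h1
      simp only [Pi.smul_apply, hF0, Matrix.det_one, one_pow, one_mul] at h1
      have h2 := Fintype.linearIndependent_iff.1 hs (fun i => a (s.equivFin i)) (by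
        apply Subtype.ext
        rw [Submodule.coe_sum, Submodule.coe_zero, ← h1, ← s.equivFin.symm.sum_comp]
        refine Finset.sum_congr rfl fun l _ => ?_
        rw [Equiv.apply_symm_apply]
        rfl)
      intro l
      have h3 := h2 (s.equivFin.symm l)
      rwa [Equiv.apply_symm_apply] at h3
    · intro A G
      have h1 : (Matrix.of fun i j => (∑ l, A i l • G l) (t j)) =
          A * (Matrix.of fun i j => G i (t j)) := by
        ext i j
        rw [Matrix.of_apply, der_sum, Matrix.mul_apply]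
        rfl
      change (Matrix.of fun i j => (∑ l, A i l • G l) (t j)).det ^ N * _ = _ * (_ * _)
      rw [h1, Matrix.det_mul, mul_pow, mul_assoc]
    · intro P hP _ G hG
      obtain ⟨i, hi⟩ := FINaux.local_ge hT hI.ne hoff (s.equivFin.symm l).1.2 hP hG
      rcases hi with h1 | h1
      · exact Or.inl h1
      · right
        refine ⟨_, Finset.mem_image_of_mem _ (Finset.mem_univ i), ?_, ?_⟩
        · exact pow_ne_zero _ (div_ne_zero (pow_ne_zero _ (hI.ne i))
            (FINaux.Hy_ne hoff one_ne_zero))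
        · rw [mul_zero, sub_zero]
          exact_mod_cast h1
  · intro p hp P hP
    have hA : Pool.Agent.Y173.QA.Adic (Zc T) p P := hP
    refine ⟨VP_adic hT hI hp hA, ?_⟩
    by_cases hdvd : ∃ a, p ∣ Q a
    · obtain ⟨a, ha⟩ := hdvd
      exact Or.inr ⟨a, ha, by norm_num, fun h => absurd trivial h⟩
    · left
      push Not at hdvd
      refine ⟨?_, le_rfl⟩
      obtain ⟨b, hb0, hb⟩ := Pool.Agent.TH122.AB.exists_pderiv hp
      have h1 := hP p hp.ne_zero
      have h2 : P.ord (aeval (Zc T) p) ≠ 0 := fun h0 => (h1.2.1 h0) dvd_rfl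
      have h3 : P.ord (aeval (Zc T) (Q b)) = 0 := (hP (Q b) (hQ0 b)).2.2 (hdvd b)
      have h4 : P.ord (aeval (Zc T) (pderiv b p)) = 0 := (hP _ hb0).2.2 hb
      have hne : aeval (Zc T) (Q b) ≠ 0 := fun h0 =>
        hQ0 b ((injective_iff_map_eq_zero _).1 hZ.1 _ h0)
      have hne' : aeval (Zc T) (pderiv b p) ≠ 0 := fun h0 =>
        hb0 ((injective_iff_map_eq_zero _).1 hZ.1 _ h0)
      have h5 := pres_ge (hQ b p hp P hA) (f := aeval (Zc T) p)
        (N := P.ord (aeval (Zc T) p)) (Or.inr le_rfl)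
      rw [Derivation.smul_apply, smul_eq_mul, hder] at h5
      have h6 := h5.resolve_left (mul_ne_zero hne hne')
      rw [P.ord_mul hne hne', h3, h4] at h6
      omega
  · intro _ P e0 _ hP
    exact ⟨VP_deg hT hI hP, by norm_num, fun h => absurd trivial h⟩

end Pool.Agent.H917.Mg
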