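import Pool.Agent.H917.A2
import Pool.Agent.H917.M.P0

/-!
# PROJECT BND (helper917), task LIE: the Lie derivative of a logarithmic form

Port of `WN_lie` (`Pool/Agent/H917/A2.lean`) for `WL Bd V t N`. At a place `P ∈ V` with `¬ Bd P` the proof is unchanged (`PresB Bd P G ↔ Pres P G`). Let `Bd P`, `s, u, E` as in `hV`. The frame `G 0 = s • E 0`, `G i = E i` for `i > 0` satisfies `PresB` for all fields iff ..: note that
`E i f / f` for `i > 0` is regular: `f = s ^ a * w`, `w` a unit, `E i s = 0`; and `s E 0 f / f = a + s E 0 w / w`. Every `G'` with `∀ i, PresB Bd P (G' i)` is `G' i = ∑ l c_il G l` with `c_i0 = G' i s / s` and `c_il = G' i (u l)` regular, so it is enough (as in `reg_of_frm`, `mem_WN`) to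
consider the frame `G`: `det (G' i (t j)) = det c * det (G i (t j))`. Let `J = det (E i (t j))`, `J' = det (G i (t j)) = s J`. By `dvg_change`, `D J = J (dvg D t F - dvg D y E)` with `y = Fin.cons s u`, so `D J' = J' (D s / s + dvg D t F - dvg D y E)`, and
`D (J' ^ N g) = J' ^ N (D g + N (D s / s + dvg D t F - dvg D y E) g)`. So `J' ^ N (D g + N dvg D t F g) = D (J' ^ N g) + N (dvg D y E - D s / s) J' ^ N g`. `J' ^ N g` is regular (`hg`), and `dvg D y E - D s / s = ∑ E i (D (y i)) - D s / s` is regular: `D s = s a`, `a` regular by `hDB`, `E 0 (s a) = a + s E 0 a`.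
-/

set_option autoImplicit false
set_option linter.overlappingInstances false
set_option linter.unusedSectionVars false

open FF MvPolynomial IntermediateField Pool.Agent.W619.PQ Pool.Agent.W619.TW Pool.Agent.W619.PL
  Pool.Agent.W603.LV Pool.Agent.W619.Y
open Pool.Agent.H917.Lg (PresB WL)

namespace Pool.Agent.H917.Mg

variable {k C L : Type} [Field k] [Field C] [Field L] [CharZero C] [Algebra k L] [Algebra C L]

theorem LIEaux.reg_int (P : Place C L) (a : ℤ) : P.Reg (a : L) := by
  have h := P.reg_const (a : C)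
  rwa [map_intCast] at h

theorem LIEaux.reg_nat (P : Place C L) (a : ℕ) : P.Reg (a : L) := by
  have h := P.reg_const (a : C)
  rwa [map_natCast] at h

/-- a regular derivation which is logarithmic at a uniformizer is logarithmic -/
theorem LIEaux.logder {P : Place C L} {s : L} (hs0 : s ≠ 0) (hs1 : P.ord s = 1)
    {δ : Derivation C L L} (hδ : Pres P δ) (hδs : P.Reg (δ s / s)) (f : L) :
    P.Reg (δ f / f) := by
  rcases eq_or_ne f 0 with hf | hf
  · rw [hf, div_zero]
    exact P.reg_zero
  obtain ⟨a, ha⟩ : ∃ a, a = P.ord f := ⟨_, rfl⟩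
  have hsz : s ^ a ≠ 0 := zpow_ne_zero _ hs0
  have hw0 : f / s ^ a ≠ 0 := div_ne_zero hf hsz
  have hwo : P.ord (f / s ^ a) = 0 := by
    rw [P.ord_div hf hsz, P.ord_zpow, hs1, ← ha]
    ring
  have h1 : P.Reg (δ (f / s ^ a) / (f / s ^ a)) := der_unit hδ hwo
  have h2 : δ f / f = (a : L) * (δ s / s) + δ (f / s ^ a) / (f / s ^ a) := by
    rw [← dlog_zpow δ hs0 a, ← dlog_mul δ hsz hw0, mul_div_cancel₀ _ hsz]
  rw [h2]
  exact P.reg_add (P.reg_mul (LIEaux.reg_int P a) hδs) h1

/-- The Jacobian of a logarithmic frame with respect to the coordinates `s, u` is `s` times a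
regular function. -/
theorem LIEaux.det_log {P : Place C L} {e : ℕ} {s : L} {u : Fin e → L} (hs0 : s ≠ 0)
    (hu : ∀ l, P.Reg (u l)) {G : Fin (e + 1) → Derivation C L L} (hG : ∀ i, Pres P (G i))
    (hGs : ∀ i, P.Reg (G i s / s)) :
    ∃ c : L, P.Reg c ∧
      (Matrix.of fun i j => G i ((Fin.cons s u : Fin (e + 1) → L) j)).det = s * c := by
  refine ⟨(Matrix.of fun i j => (Fin.cons (G i s / s) (fun l => G i (u l)) :
    Fin (e + 1) → L) j).det, ?_, ?_⟩
  · refine Pool.Agent.W619.PQ.ge_det P _ fun i j => ?_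
    rw [Matrix.of_apply]
    refine Fin.cases ?_ (fun l => ?_) j
    · exact hGs i
    · exact hG i _ (hu l)
  · have h1 := Matrix.det_mul_row (Fin.cons s (fun _ : Fin e => (1 : L)) : Fin (e + 1) → L)
      (Matrix.of fun i j => (Fin.cons (G i s / s) (fun l => G i (u l)) : Fin (e + 1) → L) j)
    rw [Fin.prod_univ_succ] at h1
    simp only [Fin.cons_zero, Fin.cons_succ, Finset.prod_const_one, mul_one] at h1
    rw [← h1]
    refine congrArg Matrix.det ?_
    ext i j
    rw [Matrix.of_apply, Matrix.of_apply, Matrix.of_apply]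
    refine Fin.cases ?_ (fun l => ?_) j
    · simp only [Fin.cons_zero]
      rw [mul_div_cancel₀ _ hs0]
    · simp only [Fin.cons_succ]
      rw [one_mul]

theorem WL_lie {Bd : Place C L → Prop} {V : Set (Place C L)} {e : ℕ} {t : Fin (e + 1) → L} {N : ℕ}
    {D : Derivation k L L} (hD : ∀ c : C, ∃ c' : C, D (algebraMap C L c) = algebraMap C L c')
    (hV : ∀ P ∈ V, ∃ (s : L) (u : Fin e → L) (E : Fin (e + 1) → Derivation C L L), s ≠ 0 ∧
      P.ord s = 1 ∧ FrmAt P (Fin.cons s u : Fin (e + 1) → L) E)
    (hDV : ∀ P ∈ V, ∀ z, P.Reg z → P.Reg (D z))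
    (hDB : ∀ P ∈ V, Bd P → ∀ f, P.Reg (D f / f))
    {F : Fin (e + 1) → Derivation C L L} (hF : Frm t F) {g : L} (hg : g ∈ WL Bd V t N) :
    D g + N * dvg D t F * g ∈ WL Bd V t N := by
  classical
  intro P hP G hG
  obtain ⟨s, u, E, hs0, hs1, hy⟩ := hV P hP
  obtain ⟨J, hJ⟩ : ∃ J, J = (Matrix.of fun i j => E i (t j)).det := ⟨_, rfl⟩
  have h1 : D J = J * (dvg D t F - dvg D (Fin.cons s u : Fin (e + 1) → L) E) := by
    rw [hJ]
    exact dvg_change hD hF hy.frm
  have hDN : D (J ^ N) =
      N * J ^ N * (dvg D t F - dvg D (Fin.cons s u : Fin (e + 1) → L) E) := by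
    rw [D.leibniz_pow, h1, nsmul_eq_mul, smul_eq_mul]
    rcases Nat.eq_zero_or_pos N with h0 | h0
    · subst h0
      simp
    · obtain ⟨M, rfl⟩ := Nat.exists_eq_succ_of_ne_zero h0.ne'
      rw [Nat.succ_sub_one, pow_succ]
      ring
  by_cases hB : Bd P
  · -- the place is in the boundary
    have hus : ∀ l, P.Reg (u l) := fun l => by
      have h := hy.reg l.succ
      rwa [Fin.cons_succ] at h
    have hsr : P.Reg s := by
      have h := hy.reg 0
      rwa [Fin.cons_zero] at h
    have hEs : ∀ i, E i s = if i = 0 then 1 else 0 := fun i => by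
      have h := hy.frm.dual i 0
      rwa [Fin.cons_zero] at h
    have hEu : ∀ i l, E i (u l) = if i = Fin.succ l then 1 else 0 := fun i l => by
      have h := hy.frm.dual i l.succ
      rwa [Fin.cons_succ] at h
    -- the logarithmic frame
    obtain ⟨G0, hG0⟩ : ∃ G0 : Fin (e + 1) → Derivation C L L,
        G0 = Fin.cons (s • E 0) (fun l => E l.succ) := ⟨_, rfl⟩
    have hG00 : G0 0 = s • E 0 := by rw [hG0, Fin.cons_zero]
    have hG0s : ∀ l : Fin e, G0 l.succ = E l.succ := fun l => by rw [hG0, Fin.cons_succ]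
    have hG0P : ∀ i, Pres P (G0 i) := by
      intro i
      refine Fin.cases ?_ (fun l => ?_) i
      · rw [hG00]
        intro f hf
        rw [Derivation.smul_apply, smul_eq_mul]
        exact P.reg_mul hsr (hy.pres 0 f hf)
      · rw [hG0s]
        exact hy.pres _
    have hG0l : ∀ i, P.Reg (G0 i s / s) := by
      intro i
      refine Fin.cases ?_ (fun l => ?_) i
      · rw [hG00, Derivation.smul_apply, smul_eq_mul, hEs, if_pos rfl, mul_one, div_self hs0]
        exact P.reg_one
      · rw [hG0s, hEs, if_neg (Fin.succ_ne_zero l), zero_div]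
        exact P.reg_zero
    have hG0B : ∀ i, PresB Bd P (G0 i) := fun i =>
      ⟨hG0P i, fun _ f => LIEaux.logder hs0 hs1 (hG0P i) (hG0l i) f⟩
    have hdet0 : (Matrix.of fun i j => G0 i (t j)).det = s * J := by
      rw [hy.frm.det_chain G0 t, ← hJ]
      congr 1
      have h2 : (Matrix.of fun i j => G0 i ((Fin.cons s u : Fin (e + 1) → L) j)) =
          Matrix.diagonal (Fin.cons s (fun _ : Fin e => (1 : L)) : Fin (e + 1) → L) := by
        ext i j
        rw [Matrix.of_apply, Matrix.diagonal_apply]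
        refine Fin.cases ?_ (fun l => ?_) i
        · rw [hG00, Derivation.smul_apply, smul_eq_mul, hy.frm.dual, Fin.cons_zero]
          split_ifs
          · rw [mul_one]
          · rw [mul_zero]
        · rw [hG0s, hy.frm.dual, Fin.cons_succ]
      rw [h2, Matrix.det_diagonal, Fin.prod_univ_succ]
      simp only [Fin.cons_zero, Fin.cons_succ, Finset.prod_const_one, mul_one]
    have h2 : P.Reg ((s * J) ^ N * g) := by
      have h := hg P hP G0 hG0B
      rwa [hdet0] at h
    -- the divergence
    have hκ : P.Reg (dvg D (Fin.cons s u : Fin (e + 1) → L) E - D s / s) := by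
      have h3 : P.Reg (D s / s) := hDB P hP hB s
      have h4 : dvg D (Fin.cons s u : Fin (e + 1) → L) E - D s / s =
          s * E 0 (D s / s) + ∑ l : Fin e, E l.succ (D (u l)) := by
        unfold dvg
        rw [Fin.sum_univ_succ]
        simp only [Fin.cons_zero, Fin.cons_succ]
        have h5 : E 0 (D s) = D s / s + s * E 0 (D s / s) := by
          have h6 : D s = s * (D s / s) := (mul_div_cancel₀ _ hs0).symm
          have h7 : E 0 (D s) = E 0 (s * (D s / s)) := congrArg (E 0) h6
          rw [h7, (E 0).leibniz, hEs, if_pos rfl, smul_eq_mul, smul_eq_mul]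
          ring
        rw [h5]
        ring
      rw [h4]
      refine P.reg_add (P.reg_mul hsr (hy.pres 0 _ h3)) ?_
      exact Ge.sum _ _ fun l _ => hy.pres l.succ _ (hDV P hP _ (hus l))
    -- the Lie derivative for the frame `G0`
    have h3 : P.Reg ((s * J) ^ N * (D g + N * dvg D t F * g)) := by
      have h4 : (s * J) ^ N * (D g + N * dvg D t F * g) =
          D ((s * J) ^ N * g) +
            (N : L) * (dvg D (Fin.cons s u : Fin (e + 1) → L) E - D s / s) *
              ((s * J) ^ N * g) := by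
        have h5 : D (s ^ N) = N * s ^ N * (D s / s) := by
          rw [D.leibniz_pow, nsmul_eq_mul, smul_eq_mul]
          rcases Nat.eq_zero_or_pos N with h0 | h0
          · subst h0
            simp
          · obtain ⟨M, rfl⟩ := Nat.exists_eq_succ_of_ne_zero h0.ne'
            rw [Nat.succ_sub_one, pow_succ]
            field_simp
        rw [mul_pow, D.leibniz, D.leibniz, h5, hDN, smul_eq_mul, smul_eq_mul, smul_eq_mul,
          smul_eq_mul]
        ring
      rw [h4]
      exact P.reg_add (hDV P hP _ h2) (P.reg_mul (P.reg_mul (LIEaux.reg_nat P N) hκ) h2)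
    obtain ⟨c, hc, hcG⟩ := LIEaux.det_log (P := P) (u := u) hs0 hus (G := G)
      (fun i => (hG i).1) (fun i => (hG i).2 hB s)
    rw [hy.frm.det_chain G t, ← hJ, hcG, show s * c * J = c * (s * J) by ring, mul_pow,
      mul_assoc]
    exact P.reg_mul (reg_pow' hc N) h3
  · -- the place is not in the boundary
    refine reg_of_frm hy ?_ fun i => (hG i).1
    have h2 : P.Reg (J ^ N * g) := by
      rw [hJ]
      exact hg P hP E fun i => ⟨hy.pres i, fun h => absurd h hB⟩
    rw [← hJ]
    have h3 : J ^ N * (D g + N * dvg D t F * g) =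
        D (J ^ N * g) +
          (N : L) * dvg D (Fin.cons s u : Fin (e + 1) → L) E * (J ^ N * g) := by
      rw [D.leibniz, hDN, smul_eq_mul, smul_eq_mul]
      ring
    rw [h3]
    exact P.reg_add (hDV P hP _ h2)
      (P.reg_mul (P.reg_mul (LIEaux.reg_nat P N) (reg_dvg hy (hDV P hP))) h2)

end Pool.Agent.H917.Mg
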