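import Pool.Agent.H917.A9
import Pool.Agent.H917.L.L4
import Pool.Agent.H917.M.A5B
import Pool.Agent.H917.M.LIE
import Pool.Agent.H917.M.FIN
import Pool.Agent.H917.M.A7B
import Pool.Agent.H917.M.A8B

/-!
# PROJECT BND (helper917), task A9B: the derivation is a linear vector field

Port of `linSys_of_SD` (`Pool/Agent/H917/A9.lean`), with `SDL_alg` (`L/L4.lean`), `sdl_presG`, `WL_lie`, `fin_WL`, `descend_formL`, `exists_mul_allL` (stubs in M/, being proved by others). The places of `VP yL (e + 1)` are divisorial (`VP_div`), so `WL .. {P | IsDivisorial P (e + 1)} ⊆ WL .. (VP yL (e + 1))`;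
`hV` of `WL_lie` is `exists_frmAt` (A5).
-/

set_option autoImplicit false
set_option linter.overlappingInstances false
set_option linter.unusedSectionVars false

open FF MvPolynomial Pool.Agent.W603.LV Pool.Agent.W619.PQ Pool.Agent.Y174.BR
  Pool.Agent.W619.TW Pool.Agent.TH143.HE Pool.Agent.W619.Y
open Pool.Agent.H917.Lg (lch lch2 SDL PresB WL RegSymL lloc)

namespace Pool.Agent.H917.Mg

variable {k C K L : Type} [Field k] [CharZero k] [Field C] [CharZero C] [Field K] [Field L]
  [Algebra k C] [Algebra C L] [Algebra k L] [IsScalarTower k C L] [Algebra k K] [Algebra K L]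
  [IsScalarTower k K L]

theorem linSys_of_SDL {D : Derivation k L L} {n m w : ℕ} {y : Fin n → K} {i0 : Fin n}
    {B : Fin n → Finset (Fin n)}
    (hy0 : y i0 ≠ 0) (h : SDL C D B (fun i => algebraMap K L (y i)) m) (hm : 1 ≤ m)
    (hB : OffB B y)
    (hDC : ∀ c : C, ∃ c' : C, D (algebraMap C L c) = algebraMap C L c')
    (hess : Algebra.EssFiniteType C L) (hessK : Algebra.EssFiniteType k K)
    (hD : ∃ i j, D (algebraMap K L (y i) / algebraMap K L (y j)) ≠ 0)
    (hgen : GenBy C D fun i => algebraMap K L (y i))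
    (hLG : Pool.Agent.W602.GT.LogGeneralType k K w (BdP B y)) :
    LinSys C D (fun i => algebraMap K L (y i)) i0 := by
  classical
  have hL0 : CharZero L := charZero_of_injective_algebraMap (algebraMap k L).injective
  have hK0 : CharZero K := charZero_of_injective_algebraMap (algebraMap k K).injective
  obtain ⟨yL, hyL⟩ : ∃ yL : Fin n → L, yL = fun i => algebraMap K L (y i) := ⟨_, rfl⟩
  rw [← hyL] at h hgen ⊢
  have hyL0 : yL i0 ≠ 0 := by
    rw [hyL]
    exact (map_ne_zero _).2 hy0
  have hD' : ∃ i j, D (yL i / yL j) ≠ 0 := by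
    rw [hyL]
    exact hD
  have hoff : OffB B yL := by
    intro j hj b hb h0
    rw [hyL] at hj h0
    beta_reduce at hj h0
    exact hB j (fun h1 => hj (by rw [h1, map_zero])) b hb ((map_eq_zero _).1 h0)
  obtain ⟨e, he⟩ : ∃ e : ℕ, Algebra.trdeg C L = e := by
    obtain ⟨S, hS⟩ := IntermediateField.fg_top C L
    have h1 : Algebra.IsAlgebraic (Algebra.adjoin C (S : Set L)) L :=
      Pool.Agent.W619.PQ.alg_adjoin fun z => by
        rw [hS]
        exact isAlgebraic_algebraMap (⟨z, trivial⟩ : (⊤ : IntermediateField C L))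
    obtain ⟨T, hT, hTb⟩ := exists_isTranscendenceBasis_subset (R := C) (S : Set L)
    have hfin : Finite T := (S.finite_toSet.subset hT)
    refine ⟨Nat.card T, ?_⟩
    rw [← hTb.cardinalMk_eq_trdeg, Nat.card]
    exact (Cardinal.cast_toNat_of_lt_aleph0 (Cardinal.lt_aleph0_of_finite T)).symm
  have halg := Pool.Agent.H917.Lg.L4aux.SDL_alg h hm hgen
  rcases Nat.eq_zero_or_pos e with he0 | he0
  · -- an algebraic extension
    subst he0
    have halgL : Algebra.IsAlgebraic C L := by
      rw [← trdeg_eq_zero_iff]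
      exact_mod_cast he
    have hfin : FiniteDimensional C L := by
      obtain ⟨S, hS⟩ := IntermediateField.fg_top C L
      have h1 : FiniteDimensional C (IntermediateField.adjoin C (S : Set L)) :=
        IntermediateField.finiteDimensional_adjoin fun x _ => (halgL.isAlgebraic x).isIntegral
      rw [hS] at h1
      exact Module.Finite.equiv (IntermediateField.topEquiv (F := C) (E := L)).toLinearEquiv
    refine linSys_of_fin (⊤ : Submodule C L) (by infer_instance) (δ := 0) (fun g _ => trivial)
      hyL0 one_ne_zero fun i => trivial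
  · obtain ⟨e, rfl⟩ := Nat.exists_eq_succ_of_ne_zero he0.ne'
    -- the projection
    have hinf : Infinite C := inferInstance
    obtain ⟨r, T, hT, hI⟩ := exists_pnorm (C := C) yL
    obtain ⟨r, rfl⟩ : ∃ r', r = r' + 1 := by
      rcases Nat.eq_zero_or_pos r with h0 | h0
      · exfalso
        subst h0
        have h1 : Algebra.IsAlgebraic C L := by
          constructor
          intro z
          have h2 : ∀ i j, IsAlgebraic (IntermediateField.adjoin C (∅ : Set L)) (yL i / yL j) := by
            intro i j
            have h3 := hT.alg i j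
            have h4 : {z : L | ∃ k l, z = T k / T l} = ∅ := by
              ext z
              simp only [Set.mem_ofPred_eq, Set.mem_empty_iff_false, iff_false]
              rintro ⟨k, -⟩
              exact k.elim0
            rwa [h4] at h3
          have h3 : IsAlgebraic (IntermediateField.adjoin C (∅ : Set L)) z :=
            alg_trans (S := {z | ∃ i j, z = yL i / yL j}) (by
              rintro _ ⟨i, j, rfl⟩
              exact h2 i j) (halg z)
          refine alg_of_range ?_ h3
          rintro ⟨a, ha⟩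
          rw [IntermediateField.adjoin_empty, IntermediateField.mem_bot] at ha
          exact ha
        have h2 : Algebra.trdeg C L = 0 := trdeg_eq_zero_iff.2 h1
        rw [he] at h2
        norm_cast at h2
      · exact ⟨r - 1, by omega⟩
    have hZ := basis_Zc hT hI ⟨halg⟩
    obtain rfl : r = e + 1 := by
      have h1 := hZ.cardinalMk_eq_trdeg
      rw [he, Cardinal.mk_fin] at h1
      exact_mod_cast h1
    have hfd := Pool.Agent.W824.PG.fin_adj hess _ hZ
    -- the basis
    have halgK : ∀ z : L, IsAlgebraic (IntermediateField.adjoin C (Set.range (algebraMap K L))) z := by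
      intro z
      refine alg_mono ?_ (halg z)
      rw [IntermediateField.adjoin_le_iff]
      rintro _ ⟨i, j, rfl⟩
      rw [hyL]
      exact IntermediateField.subset_adjoin C _ ⟨y i / y j, map_div₀ _ _ _⟩
    obtain ⟨htrK, N, hN, ω, hω, hωlog, hωreg, D0, hD0, hind⟩ := hLG
    obtain ⟨r', rfl, x, hx, ht⟩ := exists_split htrK he halgK
    obtain ⟨E, hE0⟩ := Pool.Agent.W602.GT.exists_dual hx
    have hE : ∀ i j, E i (x j) = if i = j then 1 else 0 := by
      intro i j
      have h1 := congrFun (congrFun hE0 i) j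
      rw [Matrix.of_apply, Matrix.one_apply] at h1
      exact h1
    obtain ⟨J, hJ0, hJ⟩ := descend_formL (N := N) htrK
      (fun y hy => Pool.Agent.W824.PG.fin_adj hessK y hy) hx hE he hess ht B y
    rw [← hyL] at hJ
    obtain ⟨t, htd⟩ : ∃ t : Fin (e + 1) → L,
      t = fun i => algebraMap K L (x (Fin.castAdd r' i)) := ⟨_, rfl⟩
    rw [← htd] at ht hJ
    obtain ⟨g, hg⟩ : ∃ g : Fin (e + 1 + r' + 1) → L,
      ∀ j, g j = J ^ N * algebraMap K L (ω j E) := ⟨_, fun _ => rfl⟩
    have hgW : ∀ j, g j ∈ WL (k := C) (BdP B yL) {P : Place C L | IsDivisorial P (e + 1)} t N := by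
      intro j
      rw [hg]
      exact hJ (ω j) (hω j) (fun v hv => hωlog v hv j) fun v hv hb => hωreg v hv hb j
    -- the ratios
    have hωE : ∀ j, ω j D0 = (Matrix.of fun i l => D0 i (x l)).det ^ N * ω j E := by
      intro j
      have h2 := hω j (Matrix.of fun i l => D0 i (x l)) E
      have h3 : (fun i => ∑ l, (Matrix.of fun i l => D0 i (x l)) i l • E l) = D0 := by
        funext i
        exact (Pool.Agent.W308.PG.YLOC.expandK x E hx hE (D0 i)).symm
      rw [h3] at h2
      exact h2
    have hωE0 : ω 0 E ≠ 0 := fun h0 => hD0 (by rw [hωE, h0, mul_zero])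
    have hdet0 : (Matrix.of fun i l => D0 i (x l)).det ^ N ≠ 0 := fun h0 =>
      hD0 (by rw [hωE, h0, zero_mul])
    have hg0 : g 0 ≠ 0 := by
      rw [hg]
      exact mul_ne_zero (pow_ne_zero _ hJ0) ((map_ne_zero _).2 hωE0)
    have hrat : ∀ i : Fin (e + 1 + r'), g i.succ / g 0 =
        algebraMap K L (ω i.succ D0 / ω 0 D0) := by
      intro i
      rw [hg, hg, hωE, hωE, mul_div_mul_left _ _ (pow_ne_zero _ hJ0), mul_div_mul_left _ _ hdet0,
        map_div₀]
    have hbasK : IsTranscendenceBasis k fun i : Fin (e + 1 + r') => ω i.succ D0 / ω 0 D0 := by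
      apply hind.isTranscendenceBasis_of_lift_trdeg_le_of_finite
      rw [htrK]
      simp
    have halgg : ∀ z : L, IsAlgebraic (IntermediateField.adjoin C
        (Set.range fun i : Fin (e + 1 + r') => g i.succ / g 0)) z := by
      intro z
      refine alg_trans (S := Set.range (algebraMap K L)) ?_ (halgK z)
      rintro _ ⟨f, rfl⟩
      have h1 : IsAlgebraic (IntermediateField.adjoin k
        (Set.range fun i : Fin (e + 1 + r') => ω i.succ D0 / ω 0 D0)) (algebraMap K L f) :=
        ((hbasK.isAlgebraic_field).isAlgebraic f).algebraMap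
      refine alg_of_range ?_ h1
      rintro ⟨a, ha⟩
      have h4 := IntermediateField.adjoin_map k
        (Set.range fun i : Fin (e + 1 + r') => ω i.succ D0 / ω 0 D0)
          (IsScalarTower.toAlgHom k K L)
      have h5 : algebraMap K L a ∈ (IntermediateField.adjoin k
        (Set.range fun i : Fin (e + 1 + r') => ω i.succ D0 / ω 0 D0)).map
          (IsScalarTower.toAlgHom k K L) := ⟨_, ha, rfl⟩
      rw [h4] at h5
      have h6 : IntermediateField.adjoin k ((IsScalarTower.toAlgHom k K L) ''
          (Set.range fun i : Fin (e + 1 + r') => ω i.succ D0 / ω 0 D0)) ≤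
          (IntermediateField.adjoin C
            (Set.range fun i : Fin (e + 1 + r') => g i.succ / g 0)).restrictScalars k := by
        rw [IntermediateField.adjoin_le_iff]
        rintro _ ⟨_, ⟨i, rfl⟩, rfl⟩
        change algebraMap K L (ω i.succ D0 / ω 0 D0) ∈ IntermediateField.adjoin C
            (Set.range fun i : Fin (e + 1 + r') => g i.succ / g 0)
        rw [← hrat]
        exact IntermediateField.subset_adjoin C _ ⟨i, rfl⟩
      exact ⟨⟨_, h6 h5⟩, rfl⟩
    obtain ⟨N1, a, hN1, ha0, ha, haz⟩ := exists_mul_allL hgW hg0 (fun i => yL i / yL i0)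
      (fun l => halgg _) hN
    -- the space
    obtain ⟨F, hF0⟩ := Pool.Agent.W602.GT.exists_dual ht
    have hF : Frm t F := ⟨ht, fun i j => by
      have h1 := congrFun (congrFun hF0 i) j
      rw [Matrix.of_apply, Matrix.one_apply] at h1
      exact h1⟩
    have hfinW := fin_WL hT hI hZ hfd hoff ht hN1
    have hV : ∀ P ∈ VP yL (e + 1), ∃ (s : L) (u : Fin e → L) (E : Fin (e + 1) → Derivation C L L),
        s ≠ 0 ∧ P.ord s = 1 ∧ FrmAt P (Fin.cons s u : Fin (e + 1) → L) E := by
      intro P hP
      obtain ⟨s, u, E, hs0, hs1, -, hfr⟩ := exists_frmAt he hess (VP_div hP)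
      exact ⟨s, u, E, hs0, hs1, hfr⟩
    have hsub : ∀ g, g ∈ WL (k := C) (BdP B yL) {P : Place C L | IsDivisorial P (e + 1)} t N1 →
        g ∈ WL (k := C) (BdP B yL) (VP yL (e + 1)) t N1 :=
      fun g hg P hP G hG => hg P (VP_div hP) G hG
    refine linSys_of_fin (WL (k := C) (BdP B yL) (VP yL (e + 1)) t N1) hfinW
      (δ := - (N1 * dvg D t F)) (fun g hg => ?_) hyL0 ha0 fun i => hsub _ (haz i)
    have h1 := WL_lie hDC hV
      (fun P hP => (sdl_presG h hm hoff hDC hess he hD' hgen hP).1)
      (fun P hP => (sdl_presG h hm hoff hDC hess he hD' hgen hP).2) hF hg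
    have h2 : D g - -(N1 * dvg D t F) * g = D g + N1 * dvg D t F * g := by ring
    rw [h2]
    exact h1


end Pool.Agent.H917.Mg
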