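import Pool.Agent.H917.L.L1a
import Pool.Agent.H917.M.P0

/-!
# PROJECT BND (helper917), task P1a: transfer to fields

`null`, `lloc_div`, `lloc_der`, `lclear_den`, `L1aaux` of `L/L1a.lean` can be used unchanged (they do not involve `Q`).
* `offB_iff`: for `x ∈ Pts p` with `x j ≠ 0`: if all `x b ≠ 0`, `b ∈ B j`, then by `BdC` (contrapositive, from the chart `i` to the chart `j`) all `x b ≠ 0`, `b ∈ B i`, whenever `x i ≠ 0`.
* `bdg_tr`: Nullstellensatz (`null` of L1a in the chart `j`, `F = (∏ b' ∈ B j, X b') * X i`, `G = X b`): for `u ∈ Pts p`, `u j = 1`, `u b = 0` with `b ∈ B i`: if `u i ≠ 0` then by `BdC` some `u b' = 0` with `b' ∈ B j`; so `F u = 0` in any case.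
* `offB_R`: over a field `R`: if `x i ≠ 0`, `b ∈ B i` and `x b = 0`, then `bdg_tr` at `u = x / x j` gives `((∏ b' ∈ B j, x b' / x j) * (x i / x j)) ^ N = 0`, a contradiction (`p` is homogeneous, so `x / x j` is a zero of `p`).
* `btransfer`: as `ltransfer` in `L/L1a.lean`: apply `transfer` (B1) to `F * ∏ b ∈ B j, X (Sum.inl b)`.
* `bdg_of_bdc`: from `bdg_tr` for `u = x / x j`.
-/

set_option autoImplicit false
set_option linter.overlappingInstances false
set_option linter.unusedSectionVars false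

open FF MvPolynomial Metric Set
open Pool.Agent.H917.Lg (lch lch2 SDL PresB WL RegSymL lloc)

namespace Pool.Agent.H917.Mg

variable {n : ℕ} {p : Ideal (MvPolynomial (Fin (n + 1)) ℂ)}
  {B : Fin (n + 1) → Finset (Fin (n + 1))}

theorem offB_iff (hB : BdC p B) {x : Fin (n + 1) → ℂ} (hx : x ∈ Pts p) {j : Fin (n + 1)}
    (hj : x j ≠ 0) : OffB B x ↔ ∀ b ∈ B j, x b ≠ 0 := by
  constructor
  · intro h
    exact h j hj
  · intro h i hi b hb h0
    obtain ⟨b', hb', h0'⟩ := hB x hx i j hi hj ⟨b, hb, h0⟩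
    exact h b' hb' h0'

theorem bdg_tr (hB : BdC p B) (i j : Fin (n + 1)) {b : Fin (n + 1)} (hb : b ∈ B i) :
    ∃ (N : ℕ) (c : MvPolynomial (Fin (n + 1)) ℂ), ∀ (R : Type) [Field R] [Algebra ℂ R]
      (u : Fin (n + 1) → R), (∀ H ∈ p, aeval u H = 0) → u j = 1 →
      ((∏ b' ∈ B j, u b') * u i) ^ N = u b * aeval u c := by
  obtain ⟨N, c, h⟩ := Pool.Agent.H917.Lg.L1aaux.null (p := p) (j := j)
    (F := (∏ b' ∈ B j, X b') * X i) (G := X b) (fun u hu huj h0 => by
      rw [eval_X] at h0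
      rw [map_mul, map_prod, eval_X]
      by_cases hi : u i = 0
      · rw [hi, mul_zero]
      · obtain ⟨b', hb', h0'⟩ := hB u hu i j hi (by rw [huj]; exact one_ne_zero) ⟨b, hb, h0⟩
        rw [Finset.prod_eq_zero hb' (by rw [eval_X, h0']), zero_mul])
  refine ⟨N, c, fun R _ _ u hu huj => ?_⟩
  have h1 := h R u hu huj
  rw [map_mul, map_prod, aeval_X, aeval_X] at h1
  simp only [aeval_X] at h1
  exact h1

namespace P1aaux

/-- the point in the chart is a zero of `p` -/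
theorem zero_ch (hp : Pool.Agent.W603.PV.IsHomog p) {R : Type} [Field R] [Algebra ℂ R]
    {x : Fin (n + 1) → R} (hX : ∀ H ∈ p, aeval x H = 0) (j : Fin (n + 1)) :
    ∀ H ∈ p, aeval (fun k => x k / x j) H = 0 := by
  intro H hH
  have h4 : (fun k => x k / x j) = fun k => (x j)⁻¹ * x k := by
    funext k
    rw [div_eq_inv_mul]
  rw [← sum_homogeneousComponent H, map_sum]
  refine Finset.sum_eq_zero fun d _ => ?_
  have h3 := Pool.Agent.W603.PV.aeval_scale (homogeneousComponent_isHomogeneous d H) x (x j)⁻¹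
  rw [h4, h3, hX _ (hp H hH d), mul_zero]

end P1aaux

theorem offB_R (hp : Pool.Agent.W603.PV.IsHomog p) (hB : BdC p B) {R : Type} [Field R]
    [Algebra ℂ R] {x : Fin (n + 1) → R} (hX : ∀ H ∈ p, aeval x H = 0) {j : Fin (n + 1)}
    (hj : x j ≠ 0) (h : ∀ b ∈ B j, x b ≠ 0) : OffB B x := by
  intro i hi b hb h0
  obtain ⟨N, c, h1⟩ := bdg_tr hB i j hb
  have h2 := h1 R (fun k => x k / x j) (P1aaux.zero_ch hp hX j) (div_self hj)
  have h3 : x b / x j * aeval (fun k => x k / x j) c = 0 := by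
    rw [h0, zero_div, zero_mul]
  have h4 := h2.trans h3
  refine pow_ne_zero N ?_ h4
  refine mul_ne_zero ?_ (div_ne_zero hi hj)
  exact Finset.prod_ne_zero_iff.2 fun b' hb' => div_ne_zero (h b' hb') hj

theorem btransfer (hB : BdC p B) {j : Fin (n + 1)}
    {F : MvPolynomial (Fin (n + 1) ⊕ Fin (n + 1)) ℂ}
    (hF : ∀ u v : Fin (n + 1) → ℂ, TanVec p u v → u j = 1 → v j = 0 → OffB B u →
      eval (Sum.elim u v) F = 0)
    {R : Type} [Field R] [Algebra ℂ R] {u v : Fin (n + 1) → R} (h : TanVec p u v) (hu : u j = 1)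
    (hv : v j = 0) (hb : ∀ b ∈ B j, u b ≠ 0) : aeval (Sum.elim u v) F = 0 := by
  have h1 := transfer (p := p) (j := j) (F := F * ∏ b ∈ B j, X (Sum.inl b))
    (fun u v huv hu hv => by
      rw [map_mul, map_prod]
      by_cases h0 : ∃ b ∈ B j, u b = 0
      · obtain ⟨b, hb, hb0⟩ := h0
        rw [Finset.prod_eq_zero hb (by rw [eval_X, Sum.elim_inl, hb0]), mul_zero]
      · have hx : u ∈ Pts p := ⟨huv.ne, fun H hH => by
          rw [← ae]
          exact huv.mem H hH⟩
        have hoff : OffB B u := (offB_iff hB hx (by rw [hu]; exact one_ne_zero)).2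
          fun b hb hb0 => h0 ⟨b, hb, hb0⟩
        rw [hF u v huv hu hv hoff, zero_mul]) h hu hv
  rw [map_mul, map_prod] at h1
  refine (mul_eq_zero.1 h1).resolve_right ?_
  refine Finset.prod_ne_zero_iff.2 fun b hb' => ?_
  rw [aeval_X, Sum.elim_inl]
  exact hb b hb'

theorem bdg_of_bdc (hp : Pool.Agent.W603.PV.IsHomog p) (hB : BdC p B) {L : Type} [Field L]
    [Algebra ℂ L] {y : Fin (n + 1) → L} (hm : ∀ H ∈ p, aeval y H = 0) (hoff : OffB B y) :
    BdG ℂ B y := by
  refine ⟨hoff, fun i j hi hj b hb => ?_⟩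
  obtain ⟨N, c, h1⟩ := bdg_tr hB i j hb
  exact ⟨N, c, h1 L (fun k => y k / y j) (P1aaux.zero_ch hp hm j) (div_self hj)⟩

end Pool.Agent.H917.Mg
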