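import Pool.Agent.H917.L.L1
import Pool.Agent.H917.L.L5
import Pool.Agent.H917.L.U1
import Pool.Agent.H917.M.P1a

/-!
# PROJECT BND (helper917), task P1b: values of logarithmic symmetric differentials over fields

Ports of `L/L1.lean` (`compatR`, `val_eq`, `genR`, `sdl_of_gens`; `MM`, `aeval_MM`, .. of L1 can be used unchanged), of `L5aux.lval_map` (`L/L5.lean`) and of `val_constL` (`L/U1.lean`): replace `aeval x Q ≠ 0` by `OffB B x`,
`ltransfer` by `btransfer`, `Bdry.ne` by `OffB` itself.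
-/

set_option autoImplicit false
set_option linter.overlappingInstances false
set_option linter.unusedSectionVars false

open FF MvPolynomial Metric Set
open Pool.Agent.H917.Lg (lch lch2 SDL PresB WL RegSymL lloc lclear_den lloc_div lloc_der)
open Pool.Agent.H917.Lg.L1aux (MM aeval_MM eval_MM ne_of_MM MM_ne)

namespace Pool.Agent.H917.Mg

variable {n : ℕ} {p : Ideal (MvPolynomial (Fin (n + 1)) ℂ)}
  {B : Fin (n + 1) → Finset (Fin (n + 1))}

namespace P1baux

theorem offB_div {R : Type} [Field R] {x : Fin (n + 1) → R} (hoff : OffB B x) {i j : Fin (n + 1)}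
    (hi : x i ≠ 0) (hj : x j ≠ 0) : ∀ b ∈ B i, x b / x j ≠ 0 := fun b hb =>
  div_ne_zero (hoff i hi b hb) hj

/-- a polynomial in the logarithmic chart coordinates which vanishes at the complex tangent vectors
off the boundary vanishes over fields -/
theorem btransfer2 (hp : Pool.Agent.W603.PV.IsHomog p) (hB : BdC p B) {j : Fin (n + 1)}
    {G : MvPolynomial (Fin (n + 1) ⊕ Fin (n + 1)) ℂ}
    (hG : ∀ u v : Fin (n + 1) → ℂ, TanVec p u v → OffB B u → u j ≠ 0 →
      eval (lloc B j u v) G = 0)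
    {R : Type} [Field R] [Algebra ℂ R] {x x' : Fin (n + 1) → R} (h : TanVec p x x')
    (hoff : OffB B x) (hj : x j ≠ 0) : aeval (lloc B j x x') G = 0 := by
  obtain ⟨K, P, hP⟩ := lclear_den (B := B) j G
  have hne : ∀ b ∈ B j, x b / x j ≠ 0 := offB_div hoff hj hj
  have hjj : x j / x j ≠ 0 := div_ne_zero hj hj
  have h1 := btransfer (p := p) (B := B) hB (j := j) (F := MM B j * P)
    (fun u v huv hu hv hou => by
      rw [map_mul, eval_MM]
      by_cases h0 : u j * ∏ b ∈ B j, u b = 0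
      · rw [h0, zero_mul]
      · obtain ⟨h2, h3⟩ := ne_of_MM h0
        have h4 := hP ℂ u v h2 h3
        rw [ae, ae, hG u v huv hou h2, mul_zero] at h4
        rw [h4, mul_zero]) (h.loc hp hj) (div_self hj) (by rw [mul_comm (x' j), sub_self, zero_div])
      hne
  have h2 := hP R (fun k => x k / x j) (fun k => (x' k * x j - x k * x' j) / x j ^ 2) hjj hne
  rw [lloc_div hj hj] at h2
  rw [map_mul, aeval_MM, h2] at h1
  have h3 := MM_ne (B := B) (i := j) (u := fun k => x k / x j) hjj hne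
  exact (mul_eq_zero.1 ((mul_eq_zero.1 h1).resolve_left h3)).resolve_left (pow_ne_zero _ h3)

end P1baux

theorem BSymDiff.compatR (hp : Pool.Agent.W603.PV.IsHomog p) (hB : BdC p B) {m : ℕ}
    (s : BSymDiff p B m) {R : Type} [Field R] [Algebra ℂ R]
    {x x' : Fin (n + 1) → R} (h : TanVec p x x') (hoff : OffB B x) {i j : Fin (n + 1)}
    (hi : x i ≠ 0) (hj : x j ≠ 0) :
    aeval (lloc B i x x') (s.pol i) = aeval (lloc B j x x') (s.pol j) := by
  obtain ⟨Ki, Pi, hPi⟩ := lclear_den (B := B) i (s.pol i)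
  obtain ⟨Kj, Pj, hPj⟩ := lclear_den (B := B) j (s.pol j)
  have hnei : ∀ b ∈ B i, x b / x j ≠ 0 := P1baux.offB_div hoff hi hj
  have hnej : ∀ b ∈ B j, x b / x j ≠ 0 := P1baux.offB_div hoff hj hj
  have h1 := btransfer (p := p) (B := B) hB (j := j) (F := MM B i * (MM B j *
    (MM B j ^ Kj * Pi - MM B i ^ Ki * Pj))) (fun u v huv hu hv hou => by
      rw [map_mul, map_mul, map_sub, map_mul, map_mul, map_pow, map_pow, eval_MM, eval_MM]
      by_cases h0 : u i * ∏ b ∈ B i, u b = 0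
      · rw [h0, zero_mul]
      by_cases h0' : u j * ∏ b ∈ B j, u b = 0
      · rw [h0', zero_mul, mul_zero]
      obtain ⟨h2, h3⟩ := ne_of_MM h0
      obtain ⟨h2', h3'⟩ := ne_of_MM h0'
      have h4 := hPi ℂ u v h2 h3
      have h4' := hPj ℂ u v h2' h3'
      rw [ae, ae] at h4 h4'
      rw [h4, h4', s.compat i j u v huv hou h2 h2']
      ring) (h.loc hp hj) (div_self hj) (by rw [mul_comm (x' j), sub_self, zero_div]) hnej
  have hij : x i / x j ≠ 0 := div_ne_zero hi hj
  have hjj : x j / x j ≠ 0 := div_ne_zero hj hj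
  have h2 := hPi R (fun k => x k / x j) (fun k => (x' k * x j - x k * x' j) / x j ^ 2) hij hnei
  have h2' := hPj R (fun k => x k / x j) (fun k => (x' k * x j - x k * x' j) / x j ^ 2) hjj hnej
  rw [lloc_div hi hj] at h2
  rw [lloc_div hj hj] at h2'
  rw [map_mul, map_mul, map_sub, map_mul, map_mul, map_pow, map_pow, aeval_MM,
    aeval_MM, h2, h2'] at h1
  have h3 := MM_ne (B := B) (i := i) (u := fun k => x k / x j) hij hnei
  have h3' := MM_ne (B := B) (i := j) (u := fun k => x k / x j) hjj hnej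
  have h4 := (mul_eq_zero.1 ((mul_eq_zero.1 h1).resolve_left h3)).resolve_left h3'
  have h5 : (x j / x j * ∏ b ∈ B j, x b / x j) ^ Kj * (x i / x j * ∏ b ∈ B i, x b / x j) ^ Ki *
      (aeval (lloc B i x x') (s.pol i) - aeval (lloc B j x x') (s.pol j)) = 0 := by
    linear_combination h4
  have h6 := (mul_eq_zero.1 h5).resolve_left
    (mul_ne_zero (pow_ne_zero _ h3') (pow_ne_zero _ h3))
  exact sub_eq_zero.1 h6

theorem BSymDiff.val_eq (hp : Pool.Agent.W603.PV.IsHomog p) (hB : BdC p B) {m : ℕ}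
    (s : BSymDiff p B m) {R : Type} [Field R] [Algebra ℂ R]
    {x x' : Fin (n + 1) → R} (h : TanVec p x x') (hoff : OffB B x) {j : Fin (n + 1)}
    (hj : x j ≠ 0) : s.val x x' = aeval (lloc B j x x') (s.pol j) := by
  unfold BSymDiff.val
  have h0 : ∃ j, x j ≠ 0 := ⟨j, hj⟩
  rw [dif_pos h0]
  exact s.compatR hp hB h hoff h0.choose_spec hj

theorem BGens.genR (hp : Pool.Agent.W603.PV.IsHomog p) (hB : BdC p B) {m N : ℕ}
    {s : Fin N → BSymDiff p B m} (hs : BGens p B m s)
    (j : Fin (n + 1)) (I : Fin m → Fin (n + 1)) :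
    ∃ b : Fin N → MvPolynomial (Fin (n + 1)) ℂ, ∀ (R : Type) [Field R] [Algebra ℂ R]
      (x x' : Fin (n + 1) → R), TanVec p x x' → OffB B x → x j ≠ 0 →
      ∏ k, lloc B j x x' (Sum.inr (I k)) =
        ∑ l, aeval (fun i => x i / x j) (b l) * aeval (lloc B j x x') ((s l).pol j) := by
  obtain ⟨b, hb⟩ := hs j I
  refine ⟨b, fun R _ _ x x' h hoff hj => ?_⟩
  have h1 := P1baux.btransfer2 (p := p) (B := B) (j := j) hp hB
    (G := ∏ k, X (Sum.inr (I k)) - ∑ l, rename Sum.inl (b l) * (s l).pol j)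
    (fun u v huv hou hj => by
      have h2 := hb u v huv hou hj
      rw [map_sub, map_prod, map_sum, sub_eq_zero]
      simp only [eval_X, map_mul, eval_rename]
      exact h2) h hoff hj
  rw [map_sub, map_prod, map_sum, sub_eq_zero] at h1
  simp only [aeval_X, map_mul, aeval_rename] at h1
  exact h1

theorem bsdl_of_gens (hp : Pool.Agent.W603.PV.IsHomog p) (hB : BdC p B) {m N : ℕ}
    {s : Fin N → BSymDiff p B m} (hs : BGens p B m s)
    {C L : Type} [Field C] [Field L] [Algebra C L] [Algebra ℂ C] [Algebra ℂ L]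
    [IsScalarTower ℂ C L] (D : Derivation ℂ L L) {y : Fin (n + 1) → L}
    (hy : y ≠ 0) (hm : ∀ H ∈ p, aeval y H = 0) (hoff : OffB B y)
    (hc : ∀ l, ∃ c : C, (s l).val y (fun i => D (y i)) = algebraMap C L c) : SDL C D B y m := by
  have ht := tanVec_der (p := p) D hy hm
  refine ⟨fun j hj => ⟨N, fun l => (s l).pol j, fun l u v c => aeval_scale_inr ((s l).hom j) u v c,
    fun l => ?_, fun I => ?_⟩⟩
  · obtain ⟨c, hc⟩ := hc l
    refine ⟨c, ?_⟩
    rw [← hc, (s l).val_eq hp hB ht hoff hj, lloc_der D y hj]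
  · obtain ⟨b, hb⟩ := hs.genR hp hB j I
    refine ⟨b, ?_⟩
    have h1 := hb L y _ ht hoff hj
    rw [lloc_der D y hj] at h1
    exact h1

theorem bval_map (hp : Pool.Agent.W603.PV.IsHomog p) (hB : BdC p B) {m : ℕ}
    (s : BSymDiff p B m) {R R' : Type}
    [Field R] [Algebra ℂ R] [Field R'] [Algebra ℂ R'] (ψ : R →ₐ[ℂ] R')
    {x x' : Fin (n + 1) → R} {y y' : Fin (n + 1) → R'} (hx : TanVec p x x') (hy : TanVec p y y')
    (hox : OffB B x) (hoy : OffB B y)
    {j : Fin (n + 1)} (hxj : x j ≠ 0) (hyj : y j ≠ 0)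
    (h : ∀ k, ψ (lloc B j x x' k) = lloc B j y y' k) : ψ (s.val x x') = s.val y y' := by
  rw [s.val_eq hp hB hx hox hxj, s.val_eq hp hB hy hoy hyj, comp_aeval_apply]
  have h1 : (fun k => ψ (lloc B j x x' k)) = lloc B j y y' := funext h
  rw [h1]

theorem bval_const (hp : Pool.Agent.W603.PV.IsHomog p) (hB : BdC p B) {m : ℕ} (hm : 1 ≤ m)
    (s : BSymDiff p B m)
    {M : Type} [Field M] [Algebra ℂ M] (D : Derivation ℂ M M) {x : Fin (n + 1) → M} (hx : x ≠ 0)
    (hX : ∀ H ∈ p, aeval x H = 0) (hoff : OffB B x) (h : ∀ i j, D (x i / x j) = 0) :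
    s.val x (fun i => D (x i)) = 0 := by
  obtain ⟨j0, hj0⟩ := Function.ne_iff.1 hx
  rw [s.val_eq hp hB (tanVec_der D hx hX) hoff hj0]
  have h0 : ∀ k, D (x k) * x j0 - x k * D (x j0) = 0 := by
    intro k
    have h1 : (D (x k) * x j0 - x k * D (x j0)) / x j0 ^ 2 = D (x k / x j0) :=
      congrFun (loc_der D x hj0) (Sum.inr k)
    rw [h, div_eq_zero_iff] at h1
    exact h1.resolve_right (pow_ne_zero 2 hj0)
  have h1 : lloc B j0 x (fun i => D (x i)) =
      Sum.elim (ch x j0) fun i => (0 : M) * (fun _ => (0 : M)) i := by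
    funext k
    rcases k with k | k
    · rfl
    · change (if k ∈ B j0 then (D (x k) * x j0 - x k * D (x j0)) / (x k * x j0) else
        (D (x k) * x j0 - x k * D (x j0)) / x j0 ^ 2) = 0 * 0
      rw [h0, zero_div, zero_div, ite_self, mul_zero]
  rw [h1, aeval_scale_inr (s.hom j0), zero_pow (by omega), zero_mul]

end Pool.Agent.H917.Mg
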