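import Pool.Agent.H917.E4
import Pool.Agent.H917.M.P0

/-!
# PROJECT BND (helper917), task E4B: the polynomial system for logarithmic derivatives

Port of `Pool/Agent/H917/E4.lean` (`gP`, `aeval_gP`, `mk4`, `vU`, .. are used unchanged): `v i` is now the derivative of `u i` for `i ∉ Bj` and the logarithmic derivative for `i ∈ Bj`, so `D (u i) = μ_i * v i` with `μ_i = u i` or `1`.
-/

set_option autoImplicit false
set_option linter.overlappingInstances false
set_option linter.unusedSectionVars false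

open MvPolynomial Filter Topology

namespace Pool.Agent.H917.Mg

variable {n N : ℕ}

/-- the factors of the derivatives -/
noncomputable def muB (Bj : Finset (Fin (n + 1))) (i : Fin (n + 1)) : MvPolynomial (Vs n N) ℂ :=
  if i ∈ Bj then X (vU i) else 1

/-- the derivatives of the products of the logarithmic derivatives -/
noncomputable def dgPB (Bj : Finset (Fin (n + 1)))
    (b : Fin (n + 1) → Fin N → MvPolynomial (Fin (n + 1)) ℂ) (k : Fin (n + 1)) :
    MvPolynomial (Vs n N) ℂ :=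
  ∑ l, (∑ i, rename vU (pderiv i (b k l)) * (muB Bj i * X (vV i))) * X (vZ l)

/-- the polynomial system -/
noncomputable def thB (m' : ℕ) (i0 : Fin (n + 1)) (Bj : Finset (Fin (n + 1)))
    (b : Fin (n + 1) → Fin N → MvPolynomial (Fin (n + 1)) ℂ) : Vs n N → MvPolynomial (Vs n N) ℂ :=
  Sum.elim (fun i => muB Bj i * X (vV i)) (Sum.elim
    (fun k => X vW ^ m' * dgPB Bj b k - C ((m' : ℂ) / (m' + 1)) * gP b k * X vW ^ (2 * m' + 1) *
      dgPB Bj b i0)
    (Sum.elim (fun _ => -(C ((m' + 1 : ℂ)⁻¹) * X vW ^ (m' + 2) * dgPB Bj b i0)) fun _ => 0))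

namespace E4Baux

variable {K : Type} [Field K] [Algebra ℂ K] {b : Fin (n + 1) → Fin N → MvPolynomial (Fin (n + 1)) ℂ}
  {u v : Fin (n + 1) → K} {w : K} {Z : Fin N → K} {Bj : Finset (Fin (n + 1))}

theorem aeval_muB (i : Fin (n + 1)) :
    aeval (mk4 u v w Z) (muB Bj i : MvPolynomial (Vs n N) ℂ) = if i ∈ Bj then u i else 1 := by
  unfold muB
  split_ifs
  · rw [aeval_X]
    rfl
  · rw [map_one]

theorem aeval_dgPB (k : Fin (n + 1)) : aeval (mk4 u v w Z) (dgPB Bj b k) =
    ∑ l, (∑ i, aeval u (pderiv i (b k l)) * ((if i ∈ Bj then u i else 1) * v i)) * Z l := by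
  rw [dgPB, map_sum]
  refine Finset.sum_congr rfl fun l _ => ?_
  rw [map_mul, aeval_X, map_sum]
  refine congrArg (fun x => x * Z l) ?_
  refine Finset.sum_congr rfl fun i _ => ?_
  rw [map_mul, aeval_rename, map_mul, aeval_X, aeval_muB]
  rfl

/-- the values of the components of the system -/
theorem aeval_thB {v' : Fin (n + 1) → K} {w' : K} {m' : ℕ} {i0 : Fin (n + 1)}
    (hw : w * v i0 = 1) (hw' : w' = -(w ^ 2 * v' i0))
    (hg : ∀ k, v k * v i0 ^ m' = ∑ l, aeval u (b k l) * Z l)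
    (hdg : ∀ k, v' k * v i0 ^ m' + v k * (m' * v i0 ^ (m' - 1) * v' i0) =
      ∑ l, (∑ i, aeval u (pderiv i (b k l)) * ((if i ∈ Bj then u i else 1) * v i)) * Z l)
    (a : Vs n N) :
    aeval (mk4 u v w Z) (thB m' i0 Bj b a) =
      mk4 (fun i => (if i ∈ Bj then u i else 1) * v i) v' w' (fun _ => (0 : K)) a := by
  have hK0 : CharZero K := charZero_of_injective_algebraMap (algebraMap ℂ K).injective
  obtain ⟨h1, h2⟩ := alg_step hw hg hdg
  have hW : aeval (mk4 u v w Z) (X (vW : Vs n N) : MvPolynomial (Vs n N) ℂ) = w := by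
    rw [aeval_X]
    rfl
  rcases a with i | k | ⟨⟩ | l
  · change aeval (mk4 u v w Z) (muB Bj i * X (vV i : Vs n N) : MvPolynomial (Vs n N) ℂ) =
      (if i ∈ Bj then u i else 1) * v i
    rw [map_mul, aeval_muB, aeval_X]
    rfl
  · change aeval (mk4 u v w Z) (X vW ^ m' * dgPB Bj b k - C ((m' : ℂ) / (m' + 1)) * gP b k *
      X vW ^ (2 * m' + 1) * dgPB Bj b i0) = v' k
    rw [map_sub, map_mul, map_mul, map_mul, map_mul, map_pow, map_pow, hW, aeval_dgPB, aeval_gP,
      aeval_dgPB, aeval_C, h2 k, map_div₀, map_add, map_natCast, map_one]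
  · change aeval (mk4 u v w Z) (-(C ((m' + 1 : ℂ)⁻¹) * X vW ^ (m' + 2) * dgPB Bj b i0)) = w'
    rw [map_neg, map_mul, map_mul, map_pow, hW, aeval_dgPB, aeval_C, hw', h1, map_inv₀, map_add,
      map_natCast, map_one]
    ring
  · change aeval (mk4 u v w Z) (0 : MvPolynomial (Vs n N) ℂ) = 0
    rw [map_zero]

end E4Baux

open E4Baux

theorem sys_derB {K : Type} [Field K] [Algebra ℂ K]
    {b : Fin (n + 1) → Fin N → MvPolynomial (Fin (n + 1)) ℂ}
    {u v : Fin (n + 1) → K} {w : K} {Z : Fin N → K} {D : Derivation ℂ K K} {m' : ℕ}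
    {i0 : Fin (n + 1)} {Bj : Finset (Fin (n + 1))}
    (hu : ∀ i, D (u i) = (if i ∈ Bj then u i else 1) * v i)
    (hZ : ∀ l, D (Z l) = 0) (hw : w * v i0 = 1)
    (hg : ∀ k, v k * v i0 ^ m' = ∑ l, aeval u (b k l) * Z l) (P : MvPolynomial (Vs n N) ℂ) :
    D (aeval (mk4 u v w Z) P) = aeval (mk4 u v w Z) (vf (thB m' i0 Bj b) P) := by
  have h0 : v i0 ≠ 0 := fun h => by
    rw [h, mul_zero] at hw
    exact zero_ne_one hw
  have hw1 : w = (v i0)⁻¹ := eq_inv_of_mul_eq_one_left hw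
  have hdg : ∀ k, D (v k) * v i0 ^ m' + v k * (m' * v i0 ^ (m' - 1) * D (v i0)) =
      ∑ l, (∑ i, aeval u (pderiv i (b k l)) * ((if i ∈ Bj then u i else 1) * v i)) * Z l := by
    intro k
    have h1 := congrArg D (hg k)
    rw [D.leibniz, D.leibniz_pow, map_sum] at h1
    simp only [smul_eq_mul, nsmul_eq_mul, D.leibniz, hZ, mul_zero, zero_add, der_aeval' D, hu]
      at h1
    have h2 : ∑ l, (∑ i, aeval u (pderiv i (b k l)) * ((if i ∈ Bj then u i else 1) * v i)) * Z l =
        ∑ l, Z l * ∑ i, aeval u (pderiv i (b k l)) * ((if i ∈ Bj then u i else 1) * v i) :=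
      Finset.sum_congr rfl fun l _ => mul_comm _ _
    rw [h2, ← h1]
    ring
  have hgen := aeval_thB (v' := fun k => D (v k)) (w' := D w) hw (by
    rw [hw1, D.leibniz_inv, smul_eq_mul, inv_pow, neg_mul]) hg hdg
  induction P using MvPolynomial.induction_on with
  | C a =>
    rw [vf_C, map_zero, aeval_C, D.map_algebraMap]
  | add p q hp hq => rw [map_add, map_add, hp, hq, map_add, map_add]
  | mul_X p a hp =>
    have h3 : D (aeval (mk4 u v w Z) (X a : MvPolynomial (Vs n N) ℂ)) =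
        aeval (mk4 u v w Z) (vf (thB m' i0 Bj b) (X a)) := by
      rw [vf_X, hgen a, aeval_X]
      rcases a with i | k | ⟨⟩ | l
      · exact hu i
      · rfl
      · rfl
      · exact hZ l
    rw [map_mul, D.leibniz, Derivation.leibniz, map_add, hp, h3]
    simp only [smul_eq_mul, map_mul]

theorem sys_anB {u v : ℂ → Fin (n + 1) → ℂ} {z0 : ℂ}
    (hu : ∀ i, AnalyticAt ℂ (fun z => u z i) z0) (hv : ∀ i, AnalyticAt ℂ (fun z => v z i) z0)
    {ζ : Fin N → ℂ} {m' : ℕ} {i0 : Fin (n + 1)} {Bj : Finset (Fin (n + 1))}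
    {b : Fin (n + 1) → Fin N → MvPolynomial (Fin (n + 1)) ℂ}
    (huv : ∀ᶠ z in 𝓝 z0, ∀ i, deriv (fun w => u w i) z = (if i ∈ Bj then u z i else 1) * v z i)
    (h0 : v z0 i0 ≠ 0)
    (hg : ∀ᶠ z in 𝓝 z0, ∀ k, v z k * v z i0 ^ m' = ∑ l, eval (u z) (b k l) * ζ l) :
    ∀ᶠ z in 𝓝 z0, ∀ a, HasDerivAt
      (fun w => (mk4 (u w) (v w) (v w i0)⁻¹ ζ : Vs n N → ℂ) a)
      (eval (mk4 (u z) (v z) (v z i0)⁻¹ ζ) (thB m' i0 Bj b a)) z := by
  have hd1 : ∀ᶠ z in 𝓝 z0, ∀ i, DifferentiableAt ℂ (fun w => u w i) z :=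
    Filter.eventually_all.2 fun i => (hu i).eventually_analyticAt.mono fun z hz =>
      hz.differentiableAt
  have hd2 : ∀ᶠ z in 𝓝 z0, ∀ i, DifferentiableAt ℂ (fun w => v w i) z :=
    Filter.eventually_all.2 fun i => (hv i).eventually_analyticAt.mono fun z hz =>
      hz.differentiableAt
  have hne : ∀ᶠ z in 𝓝 z0, v z i0 ≠ 0 :=
    (hv i0).continuousAt.eventually_ne h0
  filter_upwards [hg.eventually_nhds, hd1, hd2, hne, huv] with z h1 h2 h3 h4 huz
  have hdu : ∀ i, HasDerivAt (fun w => u w i) ((if i ∈ Bj then u z i else 1) * v z i) z :=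
    fun i => by
      rw [← huz i]
      exact (h2 i).hasDerivAt
  have hdv : ∀ i, HasDerivAt (fun w => v w i) (deriv (fun w => v w i) z) z :=
    fun i => (h3 i).hasDerivAt
  have hdw : HasDerivAt (fun w => (v w i0)⁻¹)
      (-(((v z i0)⁻¹) ^ 2 * deriv (fun w => v w i0) z)) z := by
    refine ((hdv i0).inv h4).congr_deriv ?_
    rw [inv_pow]
    ring
  have hgen := aeval_thB (K := ℂ) (u := u z) (v := v z) (w := (v z i0)⁻¹) (Z := ζ) (b := b)
    (Bj := Bj) (v' := fun i => deriv (fun w => v w i) z)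
    (w' := -(((v z i0)⁻¹) ^ 2 * deriv (fun w => v w i0) z)) (m' := m') (i0 := i0)
    (inv_mul_cancel₀ h4) rfl (fun k => by
      have h5 := h1.self_of_nhds k
      simp only [ae]
      exact h5) (fun k => by
      have h5 : (fun w => v w k * v w i0 ^ m') =ᶠ[𝓝 z]
          fun w => ∑ l, eval (u w) (b k l) * ζ l := h1.mono fun w hw => hw k
      have h6 := h5.deriv_eq
      have h7 : HasDerivAt (fun w => v w k * v w i0 ^ m')
        (deriv (fun w => v w k) z * v z i0 ^ m' + v z k *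
          (m' * v z i0 ^ (m' - 1) * deriv (fun w => v w i0) z)) z :=
        (hdv k).mul ((hdv i0).pow m')
      have h8 : HasDerivAt (fun w => ∑ l, eval (u w) (b k l) * ζ l)
          (∑ l, (∑ i, eval (u z) (pderiv i (b k l)) * deriv (fun w => u w i) z) * ζ l) z :=
        HasDerivAt.fun_sum fun l _ => (hasDeriv_eval h2 (b k l)).mul_const _
      rw [h7.deriv, h8.deriv] at h6
      simp only [ae]
      rw [h6]
      refine Finset.sum_congr rfl fun l _ => ?_
      refine congrArg (fun x => x * ζ l) (Finset.sum_congr rfl fun i _ => ?_)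
      rw [huz i])
  intro a
  have h5 := hgen a
  rw [ae] at h5
  rw [h5]
  rcases a with i | k | ⟨⟩ | l
  · exact hdu i
  · exact hdv k
  · exact hdw
  · exact hasDerivAt_const z _

end Pool.Agent.H917.Mg
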