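import Pool.Agent.H917.E5
import Pool.Agent.H917.L.L6
import Pool.Agent.H917.M.E4B
import Pool.Agent.H917.M.P1b

/-!
# PROJECT BND (helper917), task E5B: initial curves with constant logarithmic symmetric differentials

Port of `exists_initial` (`Pool/Agent/H917/E5.lean`) with `sys_derB` (M/E4B, stub) and `BSymDiff.val_eq`, `BGens.genR` (M/P1b, stubs); chart `j` with `y j ≠ 0`, `u = y i / y j`, `v i = lch D B y j i`, `i0` with `v i0 ≠ 0` (if all `v i = 0` all values are `0`), `w = (v i0)⁻¹`, `Z l` the values. Specialize as in E5: a complex point of the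
closure of `(u, v, w, Z)` outside a product of polynomials which do not vanish at the generic point; include the factors `u b`, `b ∈ B j` (they are not zero, `OffB`), the factor `G` and some `Z l ≠ 0`. The curve given by the flow (`exists_flow` in E2 for the system `thB m' i0 (B j) b`, see E5) has `u b' = u b v b`, so `u b` has no zeros on a ball
(after shrinking the radius: `u b (0) ≠ 0`), which gives `off` by `offB_iff` (M/P1a). The value along the curve: `lalong_eq`-type computation: the derivative of `u i` is `μ_i v i`, so the entries of `lloc B j (g z) (dv g z)` are `u`, `v`; compare `lloc_curve` in `L/L6.lean` (`Pool.Agent.H917.Lg.L6aux` or `L8aux`).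
-/

set_option autoImplicit false
set_option linter.overlappingInstances false
set_option linter.unusedSectionVars false

open MvPolynomial Filter Topology Metric Set
open Pool.Agent.H917.Lg (lch lch2 lloc)

namespace Pool.Agent.H917.Mg

variable {n N m' : ℕ} {p : Ideal (MvPolynomial (Fin (n + 1)) ℂ)}
  {B : Fin (n + 1) → Finset (Fin (n + 1))} {s : Fin N → BSymDiff p B (m' + 1)}

namespace E5Baux

/-- the products in the relations -/
theorem prod_cons {K : Type} [Field K] (F : Fin (n + 1) → K) (i0 k : Fin (n + 1)) :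
    ∏ a, F ((Fin.cons k fun _ => i0 : Fin (m' + 1) → Fin (n + 1)) a) = F k * F i0 ^ m' := by
  rw [Fin.prod_univ_succ, Fin.cons_zero]
  simp only [Fin.cons_succ, Finset.prod_const, Finset.card_univ, Fintype.card_fin]

/-- the value of the factor of the derivative -/
theorem eval_muB (Bj : Finset (Fin (n + 1))) (i : Fin (n + 1)) (x : Vs n N → ℂ) :
    eval x (muB Bj i : MvPolynomial (Vs n N) ℂ) = if i ∈ Bj then x (vU i) else 1 := by
  unfold muB
  split_ifs
  · rw [eval_X]
  · rw [map_one]

end E5Baux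

/-- `g` is a holomorphic curve in the complement of the boundary, in homogeneous coordinates, on
which the logarithmic symmetric differentials have the values `ζ` -/
structure SlB (s : Fin N → BSymDiff p B (m' + 1)) (ζ : Fin N → ℂ) (Ω : Set ℂ)
    (g : ℂ → Fin (n + 1) → ℂ) : Prop where
  an : ∀ i, AnalyticOnNhd ℂ (fun z => g z i) Ω
  ne : ∀ z ∈ Ω, g z ≠ 0
  mem : ∀ z ∈ Ω, ∀ H ∈ p, eval (g z) H = 0
  off : ∀ z ∈ Ω, OffB B (g z)
  val : ∀ z ∈ Ω, ∀ l, (s l).along g z = ζ l

theorem exists_initialB (hp : Pool.Agent.W603.PV.IsHomog p) (hB : BdC p B)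
    (hs : BGens p B (m' + 1) s) {M : Type}
    [Field M] [Algebra ℂ M] (D : Derivation ℂ M M) {y : Fin (n + 1) → M} (hy : y ≠ 0)
    (hmem : ∀ H ∈ p, aeval y H = 0) (hoff : OffB B y)
    (hD : ∀ l, D ((s l).val y fun i => D (y i)) = 0)
    (hval : ∃ l, (s l).val y (fun i => D (y i)) ≠ 0) {G : MvPolynomial (Fin (n + 1)) ℂ}
    (hG : ∃ k, G.IsHomogeneous k) (hGy : aeval y G ≠ 0) :
    ∃ ζ : Fin N → ℂ, (∃ l, ζ l ≠ 0) ∧ ∃ R > 0, ∃ g : ℂ → Fin (n + 1) → ℂ,
      SlB s ζ (ball 0 R) g ∧ eval (g 0) G ≠ 0 := by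
  classical
  obtain ⟨j0, hj0⟩ := Function.ne_iff.1 hy
  have hj0 : y j0 ≠ 0 := hj0
  obtain ⟨l0, hl0⟩ := hval
  have htan := tanVec_der (p := p) D hy hmem
  obtain ⟨u, hu⟩ : ∃ u : Fin (n + 1) → M, ∀ i, u i = y i / y j0 := ⟨_, fun _ => rfl⟩
  obtain ⟨v, hv⟩ : ∃ v : Fin (n + 1) → M, ∀ i, v i = lch D B y j0 i := ⟨_, fun _ => rfl⟩
  obtain ⟨Z, hZ⟩ : ∃ Z : Fin N → M, ∀ l, Z l = (s l).val y fun i => D (y i) := ⟨_, fun _ => rfl⟩
  have hub : ∀ b ∈ B j0, u b ≠ 0 := fun b hb => by
    rw [hu]
    exact div_ne_zero (hoff j0 hj0 b hb) hj0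
  have hDu : ∀ i, D (u i) = (if i ∈ B j0 then u i else 1) * v i := by
    intro i
    rw [hv]
    unfold lch
    split_ifs with h
    · rw [← hu i, mul_div_cancel₀ _ (hub i h)]
    · rw [one_mul, hu]
  have hloc : lloc B j0 y (fun i => D (y i)) = Sum.elim u v := by
    rw [Pool.Agent.H917.Lg.lloc_der D y hj0]
    funext k
    rcases k with k | k
    · exact (hu k).symm
    · exact (hv k).symm
  have hZ' : ∀ l, Z l = aeval (Sum.elim u v) ((s l).pol j0) := by
    intro l
    rw [hZ, (s l).val_eq hp hB htan hoff hj0, hloc]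
  -- a nonzero derivative
  obtain ⟨i0, hi0⟩ : ∃ i0, v i0 ≠ 0 := by
    by_contra hcon
    push Not at hcon
    apply hl0
    rw [← hZ, hZ']
    have h1 : (Sum.elim u v : Fin (n + 1) ⊕ Fin (n + 1) → M) =
        Sum.elim u fun i => (0 : M) * (fun _ => (0 : M)) i := by
      funext k
      rcases k with k | k
      · rfl
      · change v k = 0 * 0
        rw [hcon, mul_zero]
    rw [h1, aeval_scale_inr ((s l0).hom j0), zero_pow (by omega), zero_mul]
  obtain ⟨w, hw⟩ : ∃ w, w * v i0 = 1 := ⟨(v i0)⁻¹, inv_mul_cancel₀ hi0⟩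
  choose b hb using fun k => hs.genR hp hB j0 (Fin.cons k fun _ => i0)
  have hrel : ∀ k, v k * v i0 ^ m' = ∑ l, aeval u (b k l) * Z l := by
    intro k
    have h1 := hb k M y _ htan hoff hj0
    rw [hloc, E5Baux.prod_cons (fun i => (Sum.elim u v : Fin (n + 1) ⊕ Fin (n + 1) → M)
      (Sum.inr i))] at h1
    rw [show v k * v i0 ^ m' = Sum.elim u v (Sum.inr k) * Sum.elim u v (Sum.inr i0) ^ m' from rfl,
      h1]
    refine Finset.sum_congr rfl fun l _ => ?_
    rw [hZ']
    congr 3
    funext i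
    exact (hu i).symm
  -- the specialization
  obtain ⟨ev, hev⟩ : ∃ ev : MvPolynomial (Vs n N) ℂ →ₐ[ℂ] M, ev = aeval (mk4 u v w Z) := ⟨_, rfl⟩
  have hst : ∀ P, ev P = 0 → ∀ k, ev ((vf (thB m' i0 (B j0) b))^[k] P) = 0 := by
    intro P hP k
    induction k with
    | zero => exact hP
    | succ k ih =>
      rw [Function.iterate_succ_apply', hev, ← sys_derB hDu
        (fun l => by rw [hZ]; exact hD l) hw hrel, ← hev, ih, map_zero]
  have hevU : ∀ H : MvPolynomial (Fin (n + 1)) ℂ, ev (rename vU H) = aeval u H := by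
    intro H
    rw [hev, aeval_rename]
    rfl
  have huH : ∀ (H : MvPolynomial (Fin (n + 1)) ℂ) (k : ℕ), H.IsHomogeneous k →
      aeval u H = (y j0)⁻¹ ^ k * aeval y H := by
    intro H k hH
    have h1 : u = fun i => (y j0)⁻¹ * y i := by
      funext i
      rw [hu, div_eq_inv_mul]
    rw [h1, aeval_smul_homog _ _ hH]
  have huG : aeval u G ≠ 0 := by
    obtain ⟨k, hk⟩ := hG
    rw [huH G k hk]
    exact mul_ne_zero (pow_ne_zero _ (inv_ne_zero hj0)) hGy
  have huH0 : ∀ H ∈ p, aeval u H = 0 := by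
    intro H hH
    rw [← sum_homogeneousComponent H, map_sum]
    refine Finset.sum_eq_zero fun k _ => ?_
    rw [huH _ k (homogeneousComponent_isHomogeneous k H), hmem _ (hp H hH k), mul_zero]
  obtain ⟨I, hI⟩ : ∃ I : Ideal (MvPolynomial (Vs n N) ℂ), I = RingHom.ker ev := ⟨_, rfl⟩
  have hIp : I.IsPrime := by
    rw [hI]
    exact RingHom.ker_isPrime _
  have hgI : rename vU G * X (vZ l0) * rename vU (∏ b ∈ B j0, X b) ∉ I := by
    rw [hI, RingHom.mem_ker, map_mul, map_mul, hevU, hevU, hev, aeval_X, map_prod]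
    refine mul_ne_zero (mul_ne_zero huG ?_) (Finset.prod_ne_zero_iff.2 fun b hb => ?_)
    · change Z l0 ≠ 0
      rw [hZ]
      exact hl0
    · rw [aeval_X]
      exact hub b hb
  obtain ⟨ω, hω, hωg⟩ : ∃ ω : Vs n N → ℂ, (∀ Q ∈ I, aeval ω Q = 0) ∧
      aeval ω (rename vU G * X (vZ l0) * rename vU (∏ b ∈ B j0, X b) :
        MvPolynomial (Vs n N) ℂ) ≠ 0 := by
    by_contra hcon
    push Not at hcon
    apply hgI
    rw [← hIp.radical, ← vanishingIdeal_zeroLocus_eq_radical (K := ℂ), mem_vanishingIdeal_iff]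
    intro ω hω
    rw [mem_zeroLocus_iff] at hω
    exact hcon ω hω
  rw [ae, map_mul, map_mul, eval_X] at hωg
  have hωb : ∀ b ∈ B j0, ω (vU b) ≠ 0 := by
    have h1 := right_ne_zero_of_mul hωg
    rw [eval_rename, map_prod] at h1
    intro b hb
    have h2 := Finset.prod_ne_zero_iff.1 h1 b hb
    rw [eval_X] at h2
    exact h2
  have hωg := left_ne_zero_of_mul hωg
  -- the solution
  obtain ⟨R, hR, hRb⟩ := exists_radius (thB m' i0 (B j0) b) (ρ := 1 + ∑ a, ‖ω a‖)
    (le_add_of_nonneg_right (Finset.sum_nonneg fun _ _ => norm_nonneg _))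
  obtain ⟨f, hf0, hfd, hfz⟩ := exists_flow (thB m' i0 (B j0) b) ω hR (hRb ω fun a => by
    have := Finset.single_le_sum (f := fun a => ‖ω a‖) (fun _ _ => norm_nonneg _)
      (Finset.mem_univ a)
    linarith)
  have hker : ∀ P, ev P = 0 → ∀ z, ‖z‖ < R → eval (f z) P = 0 := by
    intro P hP z hz
    refine hfz P (fun k => ?_) z hz
    rw [← ae]
    refine hω _ ?_
    rw [hI, RingHom.mem_ker]
    exact hst P hP k
  have hfZ : ∀ l, ∀ z, ‖z‖ < R → f z (vZ l) = ω (vZ l) := by
    intro l z hz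
    have h1 := hfz (X (vZ l) - C (ω (vZ l))) (fun k => by
      rcases Nat.eq_zero_or_pos k with rfl | hk
      · simp
      · obtain ⟨k, rfl⟩ : ∃ k', k = k' + 1 := ⟨k - 1, by omega⟩
        rw [Function.iterate_succ_apply, map_sub, vf_X, vf_C, sub_zero]
        have h2 : thB m' i0 (B j0) b (vZ l) = 0 := rfl
        rw [h2]
        have h3 : (vf (thB m' i0 (B j0) b))^[k] 0 = 0 := by
          induction k with
          | zero => rfl
          | succ k ih => rw [Function.iterate_succ_apply', ih (by omega), map_zero]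
        rw [h3, map_zero]) z hz
    rw [map_sub, eval_X, eval_C, sub_eq_zero] at h1
    exact h1
  -- a smaller ball where the boundary coordinates do not vanish
  obtain ⟨R', hR', hR'R, hfb⟩ : ∃ R' > 0, R' ≤ R ∧ ∀ z, ‖z‖ < R' → ∀ b ∈ B j0, f z (vU b) ≠ 0 := by
    have h1 : ∀ᶠ z in 𝓝 (0 : ℂ), ∀ b ∈ B j0, f z (vU b) ≠ 0 := by
      rw [Filter.eventually_all_finset]
      intro b hb
      have h2 : ContinuousAt (fun z => f z (vU b)) 0 :=
        (hfd 0 (by rw [norm_zero]; exact hR) (vU b)).continuousAt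
      exact h2.eventually_ne (by rw [hf0]; exact hωb b hb)
    obtain ⟨r, hr, hrb⟩ := Metric.eventually_nhds_iff.1 h1
    refine ⟨min r R, lt_min hr hR, min_le_right _ _, fun z hz => hrb ?_⟩
    rw [dist_zero_right]
    exact hz.trans_le (min_le_left _ _)
  have hball : ∀ z, z ∈ ball (0 : ℂ) R' → ‖z‖ < R := fun z hz =>
    (mem_ball_zero_iff.1 hz).trans_le hR'R
  have hgj0 : ∀ z, ‖z‖ < R → f z (vU j0) = 1 := by
    intro z hz
    have h1 := hker (X (vU j0) - 1) (by
      rw [map_sub, map_one, hev, aeval_X, sub_eq_zero]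
      change u j0 = 1
      rw [hu, div_self hj0]) z hz
    rw [map_sub, map_one, eval_X, sub_eq_zero] at h1
    exact h1
  have hgan : ∀ i, AnalyticOnNhd ℂ (fun z => f z (vU i)) (ball (0 : ℂ) R') := by
    intro i
    refine DifferentiableOn.analyticOnNhd (fun z hz => ?_) isOpen_ball
    exact ((hfd z (hball z hz) (vU i)).differentiableAt).differentiableWithinAt
  have hgne : ∀ z ∈ ball (0 : ℂ) R', (fun i => f z (vU i)) ≠ 0 := by
    intro z hz h0
    have h1 := congrFun h0 j0
    simp only [hgj0 z (hball z hz)] at h1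
    exact one_ne_zero h1
  have hgmem : ∀ z ∈ ball (0 : ℂ) R', ∀ H ∈ p, eval (fun i => f z (vU i)) H = 0 := by
    intro z hz H hH
    have h1 := hker (rename vU H) (by rw [hevU, huH0 H hH]) z (hball z hz)
    rw [eval_rename] at h1
    exact h1
  have hgoff : ∀ z ∈ ball (0 : ℂ) R', OffB B (fun i => f z (vU i)) := by
    intro z hz
    refine (offB_iff hB ⟨hgne z hz, hgmem z hz⟩ (j := j0) ?_).2
      (hfb z (mem_ball_zero_iff.1 hz))
    show f z (vU j0) ≠ 0
    rw [hgj0 z (hball z hz)]
    exact one_ne_zero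
  refine ⟨fun l => ω (vZ l), ⟨l0, right_ne_zero_of_mul hωg⟩, R', hR',
    fun z i => f z (vU i), ⟨hgan, hgne, hgmem, hgoff, fun z hz l => ?_⟩, ?_⟩
  · have hz' := hball z hz
    have hgj : (fun z i => f z (vU i)) z j0 ≠ 0 := by
      show f z (vU j0) ≠ 0
      rw [hgj0 z hz']
      exact one_ne_zero
    have e1 : (s l).along (fun z i => f z (vU i)) z =
        aeval (lloc B j0 ((fun z i => f z (vU i)) z) (dv (fun z i => f z (vU i)) z))
          ((s l).pol j0) :=
      (s l).val_eq hp hB (tanVec_curve isOpen_ball hgan hgne hgmem hz) (hgoff z hz) hgj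
    rw [e1, Pool.Agent.H917.Lg.L6aux.lloc_curve
      (fun i => (hgan i z hz).differentiableAt) hgj (hfb z (mem_ball_zero_iff.1 hz))]
    have h1 : ∀ i, deriv (fun w => f w (vU i) / f w (vU j0)) z =
        (if i ∈ B j0 then f z (vU i) else 1) * f z (vV i) := by
      intro i
      have h2 : (fun w => f w (vU i) / f w (vU j0)) =ᶠ[𝓝 z] fun w => f w (vU i) := by
        filter_upwards [isOpen_ball.mem_nhds hz] with w hw
        rw [hgj0 w (hball w hw), div_one]
      rw [h2.deriv_eq, (hfd z hz' (vU i)).deriv]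
      change eval (f z) (muB (B j0) i * X (vV i)) = _
      rw [map_mul, eval_X, E5Baux.eval_muB]
    have h3 : (Sum.elim (fun i => f z (vU i) / f z (vU j0)) fun i =>
        if i ∈ B j0 then deriv (fun w => f w (vU i) / f w (vU j0)) z /
          (f z (vU i) / f z (vU j0)) else deriv (fun w => f w (vU i) / f w (vU j0)) z) =
        Sum.elim (fun i => f z (vU i)) fun i => f z (vV i) := by
      funext k
      rcases k with k | k
      · show f z (vU k) / f z (vU j0) = f z (vU k)
        rw [hgj0 z hz', div_one]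
      · show (if k ∈ B j0 then deriv (fun w => f w (vU k) / f w (vU j0)) z /
          (f z (vU k) / f z (vU j0)) else deriv (fun w => f w (vU k) / f w (vU j0)) z) =
          f z (vV k)
        rw [h1, hgj0 z hz', div_one]
        split_ifs with hk
        · rw [mul_div_assoc, mul_div_cancel₀]
          exact hfb z (mem_ball_zero_iff.1 hz) k hk
        · rw [one_mul]
    have h4 := hker (rename (Sum.elim vU vV) ((s l).pol j0) - X (vZ l)) (by
      rw [map_sub, hev, aeval_rename, aeval_X, sub_eq_zero]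
      change _ = Z l
      rw [hZ']
      congr 2
      funext k
      rcases k with k | k <;> rfl) z hz'
    rw [map_sub, eval_rename, eval_X, sub_eq_zero, hfZ l z hz'] at h4
    rw [ae, h3, ← h4]
    congr 2
    funext k
    rcases k with k | k <;> rfl
  · have h1 := left_ne_zero_of_mul hωg
    rw [eval_rename] at h1
    simp only [hf0]
    exact h1

end Pool.Agent.H917.Mg
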