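import Pool.Agent.H917.L.L6
import Pool.Agent.H917.M.P1b

/-!
# PROJECT BND (helper917), task L6B: logarithmic symmetric differentials along curves

Port of `L/L6.lean`: replace `eval (f z) Q ≠ 0` by `OffB B (f z)`. (For `lalong_small`: the functions `f_b / f_j`, `b ∈ B j`, are units where `f_j ≠ 0`; the estimate of the logarithmic derivatives is as in L6.)
-/

set_option autoImplicit false
set_option linter.overlappingInstances false
set_option linter.unusedSectionVars false

open MvPolynomial Metric Set Filter Topology FF Pool.Agent.W602.GT Pool.Agent.W603.BP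
  Pool.Agent.Helper4K9.IP Pool.Agent.Helper4K9.AP Pool.Agent.Helper4K9.MP Pool.Agent.TH143
  Pool.Agent.TH143.GT Pool.Agent.Y377.EL Pool.Agent.Y377.IL Pool.Agent.W603.GR
open Pool.Agent.H917.Lg (lch lch2 lloc)

namespace Pool.Agent.H917.Mg

variable {n : ℕ} {p : Ideal (MvPolynomial (Fin (n + 1)) ℂ)}
  {B : Fin (n + 1) → Finset (Fin (n + 1))} {f : ℂ → Fin (n + 1) → ℂ} {Ω : Set ℂ}

namespace L6Baux

/-- the local coordinates of a curve -/
theorem lloc_curve {z : ℂ} (hd : ∀ j, DifferentiableAt ℂ (fun w => f w j) z) {j : Fin (n + 1)}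
    (hj : f z j ≠ 0) (hb : ∀ b ∈ B j, f z b ≠ 0) : lloc B j (f z) (dv f z) =
      Sum.elim (fun i => f z i / f z j) fun i =>
        if i ∈ B j then deriv (fun w => f w i / f w j) z / (f z i / f z j)
        else deriv (fun w => f w i / f w j) z := by
  funext k
  rcases k with k | k
  · rfl
  · change (if k ∈ B j then (dv f z k * f z j - f z k * dv f z j) / (f z k * f z j)
      else (dv f z k * f z j - f z k * dv f z j) / f z j ^ 2) =
      if k ∈ B j then deriv (fun w => f w k / f w j) z / (f z k / f z j)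
        else deriv (fun w => f w k / f w j) z
    rw [deriv_fun_div (hd k) (hd j) hj]
    by_cases hk : k ∈ B j
    · rw [if_pos hk, if_pos hk]
      have hk0 := hb k hk
      unfold dv
      field_simp
    · rw [if_neg hk, if_neg hk]
      rfl

end L6Baux

theorem balong_eq (hp : Pool.Agent.W603.PV.IsHomog p) (hB : BdC p B) {m : ℕ}
    (s : BSymDiff p B m) (hΩ : IsOpen Ω)
    (han : ∀ j, AnalyticOnNhd ℂ (fun w => f w j) Ω)
    (hne : ∀ z ∈ Ω, f z ≠ 0) (hm : ∀ z ∈ Ω, ∀ H ∈ p, eval (f z) H = 0)
    (hoff : ∀ z ∈ Ω, OffB B (f z)) {z : ℂ} (hz : z ∈ Ω)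
    {j : Fin (n + 1)} (hj : f z j ≠ 0) : s.along f z = eval
      (Sum.elim (fun i => f z i / f z j) fun i =>
        if i ∈ B j then deriv (fun w => f w i / f w j) z / (f z i / f z j)
        else deriv (fun w => f w i / f w j) z) (s.pol j) := by
  unfold BSymDiff.along
  rw [s.val_eq hp hB (tanVec_curve hΩ han hne hm hz) (hoff z hz) hj, ae,
    L6Baux.lloc_curve (fun j => (han j z hz).differentiableAt) hj fun b hb =>
      hoff z hz j hj b hb]

theorem balong_an (hp : Pool.Agent.W603.PV.IsHomog p) (hB : BdC p B) {m : ℕ}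
    (s : BSymDiff p B m) (hΩ : IsOpen Ω)
    (han : ∀ j, AnalyticOnNhd ℂ (fun w => f w j) Ω)
    (hne : ∀ z ∈ Ω, f z ≠ 0) (hm : ∀ z ∈ Ω, ∀ H ∈ p, eval (f z) H = 0)
    (hoff : ∀ z ∈ Ω, OffB B (f z)) : AnalyticOnNhd ℂ (s.along f) Ω := by
  intro z hz
  obtain ⟨j, hj⟩ := Function.ne_iff.1 (hne z hz)
  have hj' : f z j ≠ 0 := hj
  have h1 : AnalyticAt ℂ (fun w => eval (Sum.elim (fun i => f w i / f w j) fun i =>
      if i ∈ B j then deriv (fun w => f w i / f w j) w / (f w i / f w j)
        else deriv (fun w => f w i / f w j) w) (s.pol j)) z := by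
    apply eval_an2
    rintro (i | i)
    · exact (han i z hz).fun_div (han j z hz) hj'
    · by_cases hi : i ∈ B j
      · simp only [Sum.elim_inr, if_pos hi]
        exact ((han i z hz).fun_div (han j z hz) hj').deriv.fun_div
          ((han i z hz).fun_div (han j z hz) hj')
          (div_ne_zero (hoff z hz j hj' i hi) hj')
      · simp only [Sum.elim_inr, if_neg hi]
        exact ((han i z hz).fun_div (han j z hz) hj').deriv
  refine h1.congr ?_
  filter_upwards [hΩ.mem_nhds hz, (han j z hz).continuousAt.eventually_ne hj'] with w hw hw2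
  exact (balong_eq hp hB s hΩ han hne hm hoff hw hw2).symm

/-- **The values of logarithmic symmetric differentials along a curve near a puncture are small.** -/
theorem balong_small (hp : Pool.Agent.W603.PV.IsHomog p) (hB : BdC p B) {m : ℕ}
    (s : BSymDiff p B m)
    (han : ∀ j, AnalyticOnNhd ℂ (fun w => f w j) (PB 1))
    (hne : ∀ z ∈ PB 1, f z ≠ 0) (hm : ∀ z ∈ PB 1, ∀ H ∈ p, eval (f z) H = 0)
    (hoff : ∀ z ∈ PB 1, OffB B (f z)) :
    s.along f ∈ smallRing one_pos f := by
  classical
  have hA := balong_an hp hB s (PB_open 1) han hne hm hoff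
  refine ⟨by rw [pb_eq]; exact hA, ?_⟩
  -- the logarithmic derivatives
  let T : Finset (Fin (n + 1) × Fin (n + 1)) := Finset.univ.filter fun a =>
    (∃ w ∈ PB 1, f w a.1 ≠ 0) ∧ ∃ w ∈ PB 1, f w a.2 ≠ 0
  have hT : ∀ a ∈ T, SS 1 f (logDeriv fun z => f z a.1 / f z a.2) := by
    intro a ha
    obtain ⟨h1, h2⟩ := (Finset.mem_filter.1 ha).2
    have h3 : OO 1 f fun z => f z a.1 / f z a.2 :=
      oo_quot one_pos le_rfl han hne (han a.1) (han a.2) h2 (k := 1) (C := 1) le_rfl
        (fun w _ => by
          rw [one_mul, pow_one]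
          exact norm_le_pi_norm (f w) a.1) (fun w _ => by
          rw [one_mul, pow_one]
          exact norm_le_pi_norm (f w) a.2)
    refine h3.logDeriv one_pos le_rfl fun h4 => ?_
    obtain ⟨w, hw, e1, e2, e3⟩ := cd_exists (PB_open 1) (PB_nonempty one_pos)
      ((an_ne one_pos (han a.1) h1).and ((an_ne one_pos (han a.2) h2).and h4))
    exact div_ne_zero e1 e2 e3
  choose C d hC hb using fun j => eval_bound (s.pol j)
  obtain ⟨C', hC'⟩ : ∃ C' : ℝ, ∀ j, Real.log (C j) ≤ C' :=
    ⟨∑ j, Real.log (C j), fun j => Finset.single_le_sum (f := fun j => Real.log (C j))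
      (fun j _ => Real.log_nonneg (hC j)) (Finset.mem_univ j)⟩
  have hl2 : 0 ≤ Real.log 2 := Real.log_nonneg (by norm_num)
  let e : ℕ := ∑ j, d j
  have hde : ∀ j, d j ≤ e := fun j => Finset.single_le_sum (f := d) (fun j _ => Nat.zero_le _)
    (Finset.mem_univ j)
  let K : ℝ := |C'| + e * (n + 1) * Real.log 2
  have key : ∀ r, (1 : ℝ)⁻¹ < r → mP (s.along f) r ≤
      (e * ∑ a ∈ T, mP (logDeriv fun z => f z a.1 / f z a.2) r) + K := by
    intro r hr
    have hr0 : 0 < r := lt_trans (by norm_num) hr
    have ci : ∀ a ∈ T, CircleIntegrable (fun z => Real.posLog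
        ‖logDeriv (fun z => f z a.1 / f z a.2) z⁻¹‖) 0 r := fun a ha =>
      ci_mPm one_pos ((hT a ha).oo.den.mero one_pos) hr
    have ciS : CircleIntegrable (fun z => ∑ a ∈ T, Real.posLog
        ‖logDeriv (fun z => f z a.1 / f z a.2) z⁻¹‖) 0 r := by
      have := CircleIntegrable.fun_sum T (f := fun a z => Real.posLog
        ‖logDeriv (fun z => f z a.1 / f z a.2) z⁻¹‖) ci
      exact this
    have ciE : CircleIntegrable (fun z => (e : ℝ) * ∑ a ∈ T, Real.posLog
        ‖logDeriv (fun z => f z a.1 / f z a.2) z⁻¹‖) 0 r := by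
      have := ciS.const_fun_smul (a := (e : ℝ))
      simpa [smul_eq_mul] using this
    have h1 : mP (s.along f) r ≤ Real.circleAverage (fun z => ((e : ℝ) * ∑ a ∈ T, Real.posLog
        ‖logDeriv (fun z => f z a.1 / f z a.2) z⁻¹‖) + K) 0 r := by
      unfold mP
      apply Pool.Agent.H159R3.NV.avg_le_cod (ci_mP one_pos hA hr)
        (ciE.add (circleIntegrable_const _ _ _)) hr0.ne'
      have hnz : ∀ᶠ w in codiscreteWithin (PB 1), ∀ i, (∃ w ∈ PB 1, f w i ≠ 0) → f w i ≠ 0 := by
        rw [eventually_all]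
        intro i
        by_cases hi : ∃ w ∈ PB 1, f w i ≠ 0
        · filter_upwards [an_ne one_pos (han i) hi] with w hw _
          exact hw
        · exact Eventually.of_forall fun w h => absurd h hi
      filter_upwards [cd_circle one_pos hnz hr, cd_circle one_pos (cd_self (Ω := PB 1)) hr]
        with z hz hzΩ
      obtain ⟨j, -, hjmax⟩ := Finset.exists_max_image Finset.univ (fun j => ‖f z⁻¹ j‖)
        ⟨0, Finset.mem_univ _⟩
      have hj0 : f z⁻¹ j ≠ 0 := by
        intro h0
        apply hne _ hzΩ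
        funext i
        have h2 := hjmax i (Finset.mem_univ i)
        rw [h0, norm_zero] at h2
        exact norm_le_zero_iff.1 h2
      have hjT : ∃ w ∈ PB 1, f w j ≠ 0 := ⟨_, hzΩ, hj0⟩
      have e1 := balong_eq hp hB s (PB_open 1) han hne hm hoff hzΩ hj0
      have hB0 : ∀ b ∈ B j, f z⁻¹ b ≠ 0 := fun b hb' =>
        hoff _ hzΩ j hj0 b hb'
      obtain ⟨V, hV⟩ : ∃ V : Fin (n + 1) → ℂ, V = fun i =>
        if i ∈ B j then deriv (fun w => f w i / f w j) z⁻¹ / (f z⁻¹ i / f z⁻¹ j)
        else deriv (fun w => f w i / f w j) z⁻¹ := ⟨_, rfl⟩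
      rw [← hV] at e1
      have hu : ∀ i, ‖f z⁻¹ i / f z⁻¹ j‖ ≤ 1 := by
        intro i
        rw [norm_div, div_le_one (norm_pos_iff.2 hj0)]
        exact hjmax i (Finset.mem_univ i)
      have e2 := hb j _ V hu
      rw [← e1] at e2
      have hv : ∀ i, Real.log (1 + ‖V i‖) ≤ Real.log 2 +
          if (i, j) ∈ T then Real.posLog ‖logDeriv (fun w => f w i / f w j) z⁻¹‖ else 0 := by
        intro i
        by_cases hi : ∃ w ∈ PB 1, f w i ≠ 0
        · rw [if_pos (Finset.mem_filter.2 ⟨Finset.mem_univ _, hi, hjT⟩)]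
          have e3 : ‖V i‖ ≤ ‖logDeriv (fun w => f w i / f w j) z⁻¹‖ := by
            by_cases hiB : i ∈ B j
            · have h5 : V i = logDeriv (fun w => f w i / f w j) z⁻¹ := by
                rw [hV, logDeriv_apply]
                simp only [if_pos hiB]
              rw [h5]
            · have h5 : V i =
                  logDeriv (fun w => f w i / f w j) z⁻¹ * (f z⁻¹ i / f z⁻¹ j) := by
                rw [hV, logDeriv_apply, div_mul_cancel₀]
                · simp only [if_neg hiB]
                · exact div_ne_zero (hz i hi) hj0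
              rw [h5, norm_mul]
              exact mul_le_of_le_one_right (norm_nonneg _) (hu i)
          have e4 : Real.log (1 + ‖V i‖) ≤
              Real.posLog (1 + ‖logDeriv (fun w => f w i / f w j) z⁻¹‖) := by
            refine (Real.log_le_log (by positivity) (add_le_add le_rfl e3)).trans ?_
            exact Pool.Agent.H159R3.NV.log_le_posLog _
          refine e4.trans ?_
          have e5 := Real.posLog_add (x := 1)
            (y := ‖logDeriv (fun w => f w i / f w j) z⁻¹‖)
          have e6 : Real.posLog (1 : ℝ) = 0 := by simp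
          linarith
        · have hiB : i ∉ B j := fun hiB => hi ⟨_, hzΩ, hB0 i hiB⟩
          have h5 : V i = 0 := by
            have h6 : (fun w => f w i / f w j) =ᶠ[𝓝 z⁻¹] fun _ => 0 := by
              filter_upwards [(PB_open 1).mem_nhds hzΩ] with w hw
              push Not at hi
              rw [hi w hw, zero_div]
            rw [hV]
            simp only [if_neg hiB]
            rw [h6.deriv_eq, deriv_const]
          rw [h5, norm_zero, add_zero, Real.log_one]
          refine add_nonneg hl2 ?_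
          split_ifs
          · exact Real.posLog_nonneg
          · exact le_rfl
      have hprod : 1 ≤ ∏ i, (1 + ‖V i‖) ^ d j := by
        refine Finset.prod_induction _ (fun x : ℝ => 1 ≤ x)
          (fun a b ha hb => one_le_mul_of_one_le_of_one_le ha hb) le_rfl fun i _ => ?_
        exact one_le_pow₀ (by linarith [norm_nonneg (V i)])
      have e7 : Real.posLog ‖s.along f z⁻¹‖ ≤ Real.log (C j) +
          d j * ∑ i, Real.log (1 + ‖V i‖) := by
        have h5 : Real.posLog ‖s.along f z⁻¹‖ ≤ Real.posLog (C j *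
            ∏ i, (1 + ‖V i‖) ^ d j) :=
          Real.posLog_le_posLog (norm_nonneg _) e2
        refine h5.trans ?_
        have h6 : 1 ≤ C j * ∏ i, (1 + ‖V i‖) ^ d j :=
          one_le_mul_of_one_le_of_one_le (hC j) hprod
        rw [Real.posLog_apply, max_eq_right (Real.log_nonneg h6),
          Real.log_mul (by linarith [hC j]) (by linarith), Real.log_prod]
        · rw [Finset.mul_sum]
          refine add_le_add le_rfl (Finset.sum_le_sum fun i _ => ?_)
          rw [Real.log_pow]
        · intro i _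
          positivity
      change Real.posLog ‖s.along f z⁻¹‖ ≤ ((e : ℝ) * ∑ a ∈ T, Real.posLog
        ‖logDeriv (fun z => f z a.1 / f z a.2) z⁻¹‖) + K
      have h8 : ∑ i, Real.log (1 + ‖V i‖) ≤
          (n + 1) * Real.log 2 + ∑ a ∈ T, Real.posLog
            ‖logDeriv (fun z => f z a.1 / f z a.2) z⁻¹‖ := by
        refine (Finset.sum_le_sum fun i _ => hv i).trans ?_
        rw [Finset.sum_add_distrib, Finset.sum_const, Finset.card_univ, Fintype.card_fin,
          nsmul_eq_mul]
        push_cast
        refine add_le_add le_rfl ?_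
        have h9 : ∑ i, (if (i, j) ∈ T then
            Real.posLog ‖logDeriv (fun w => f w i / f w j) z⁻¹‖ else 0) =
            ∑ a ∈ (Finset.univ.image fun i => (i, j)), if a ∈ T then
              Real.posLog ‖logDeriv (fun w => f w a.1 / f w a.2) z⁻¹‖ else 0 := by
          rw [Finset.sum_image]
          intro a _ b _ hab
          exact congrArg Prod.fst hab
        rw [h9, ← Finset.sum_filter]
        refine Finset.sum_le_sum_of_subset_of_nonneg ?_ fun _ _ _ => Real.posLog_nonneg
        intro a ha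
        exact (Finset.mem_filter.1 ha).2
      have h10 : 0 ≤ ∑ i, Real.log (1 + ‖V i‖) :=
        Finset.sum_nonneg fun i _ => Real.log_nonneg
          (by linarith [norm_nonneg (V i)])
      have h11 : (d j : ℝ) * ∑ i, Real.log (1 + ‖V i‖) ≤
          e * ((n + 1) * Real.log 2 + ∑ a ∈ T, Real.posLog
            ‖logDeriv (fun z => f z a.1 / f z a.2) z⁻¹‖) := by
        refine mul_le_mul ?_ h8 h10 (Nat.cast_nonneg _)
        exact_mod_cast hde j
      have h12 : Real.log (C j) ≤ |C'| := (hC' j).trans (le_abs_self _)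
      have h13 : (e : ℝ) * ((n + 1) * Real.log 2 + ∑ a ∈ T, Real.posLog
            ‖logDeriv (fun z => f z a.1 / f z a.2) z⁻¹‖) = e * (n + 1) * Real.log 2 +
            e * ∑ a ∈ T, Real.posLog ‖logDeriv (fun z => f z a.1 / f z a.2) z⁻¹‖ := by ring
      have h14 : K = |C'| + e * (n + 1) * Real.log 2 := rfl
      linarith
    rw [Real.circleAverage_fun_add ciE (circleIntegrable_const _ _ _),
      Real.circleAverage_const] at h1
    have h2 : Real.circleAverage (fun z => (e : ℝ) * ∑ a ∈ T, Real.posLog
        ‖logDeriv (fun z => f z a.1 / f z a.2) z⁻¹‖) 0 r =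
        e * ∑ a ∈ T, mP (logDeriv fun z => f z a.1 / f z a.2) r := by
      have h3 := Real.circleAverage_fun_smul (a := (e : ℝ)) (c := 0) (R := r)
        (f := fun z => ∑ a ∈ T, Real.posLog ‖logDeriv (fun z => f z a.1 / f z a.2) z⁻¹‖)
      simp only [smul_eq_mul] at h3
      rw [h3, Real.circleAverage_fun_sum ci]
      rfl
    rw [h2] at h1
    exact h1
  have hsml : Sml f (mP (s.along f)) := by
    refine (gr_sml f).mono _ _ (gr_nsmul (gr_sml f) e _ (gr_sum (gr_sml f) T _ fun a ha =>
      (hT a ha).sml)) ⟨|K|, ?_⟩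
    filter_upwards [cofin_gt 1] with r hr
    have h1 := key r (by rw [inv_one]; exact hr)
    have h2 : 0 ≤ |K| * Real.log r := mul_nonneg (abs_nonneg _) (Real.log_nonneg hr.le)
    have h3 := le_abs_self K
    have h4 : |K| * (1 + Real.log r) = |K| + |K| * Real.log r := by ring
    rw [h4]
    linarith
  exact hsml

end Pool.Agent.H917.Mg
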