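import Pool.Agent.H917.E6
import Pool.Agent.H917.M.E5B
import Pool.Agent.H917.M.L6B

/-!
# PROJECT BND (helper917), task E6B: continuation of curves with a uniform radius

Port of `Pool/Agent/H917/E6.lean` with the system `thB` (M/E4B): `u = g i / g j` for the chart `j` with `|g z0 j|` maximal (so `|u i| ≤ 1` at `z0`), `v i` the derivative of `u i` for `i ∉ B j` and the logarithmic derivative for `i ∈ B j`.
-/

set_option autoImplicit false
set_option linter.overlappingInstances false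
set_option linter.unusedSectionVars false

open MvPolynomial Filter Topology Metric Set
open Pool.Agent.H917.Lg (lch lch2 lloc)

namespace Pool.Agent.H917.Mg

namespace E6Baux

variable {n : ℕ} {B : Fin (n + 1) → Finset (Fin (n + 1))}

/-- the derivatives, logarithmic derivatives for the indices in `Bj` -/
noncomputable def lv (Bj : Finset (Fin (n + 1))) (u : ℂ → Fin (n + 1) → ℂ) (z : ℂ)
    (i : Fin (n + 1)) : ℂ := if i ∈ Bj then dv u z i / u z i else dv u z i

theorem lloc_self {j : Fin (n + 1)} {u : ℂ → Fin (n + 1) → ℂ} {z : ℂ} (hu : u z j = 1)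
    (hd : dv u z j = 0) : lloc B j (u z) (dv u z) = Sum.elim (u z) (lv (B j) u z) := by
  funext k
  rcases k with k | k
  · change u z k / u z j = u z k
    rw [hu, div_one]
  · change (if k ∈ B j then (dv u z k * u z j - u z k * dv u z j) / (u z k * u z j)
      else (dv u z k * u z j - u z k * dv u z j) / u z j ^ 2) =
      if k ∈ B j then dv u z k / u z k else dv u z k
    rw [hu, hd]
    simp only [mul_one, mul_zero, sub_zero, one_pow, div_one]

theorem prod_lloc {K : Type} [Field K] {m' : ℕ} (j i0 k : Fin (n + 1)) (x x' : Fin (n + 1) → K) :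
    ∏ a, lloc B j x x' (Sum.inr ((Fin.cons k fun _ => i0 : Fin (m' + 1) → Fin (n + 1)) a)) =
      lloc B j x x' (Sum.inr k) * lloc B j x x' (Sum.inr i0) ^ m' := by
  rw [Fin.prod_univ_succ, Fin.cons_zero]
  simp only [Fin.cons_succ, Finset.prod_const, Finset.card_univ, Fintype.card_fin]

/-- solutions of a homogeneous linear equation have no zeros -/
theorem ne_zero_of_lin {f v : ℂ → ℂ} {c : ℂ} {R : ℝ} (hR : 0 < R)
    (hv : DifferentiableOn ℂ v (ball c R))
    (hf : ∀ z ∈ ball c R, HasDerivAt f (f z * v z) z) (h0 : f c ≠ 0) :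
    ∀ z ∈ ball c R, f z ≠ 0 := by
  obtain ⟨V, hV⟩ := hv.isExactOn_ball
  have hd : ∀ z ∈ ball c R, HasDerivAt (fun w => f w * Complex.exp (-V w)) 0 z := by
    intro z hz
    have h1 := (hf z hz).mul ((hV z hz).neg.cexp)
    have e : f z * v z * Complex.exp (-V z) + f z * (Complex.exp (-V z) * -v z) = 0 := by ring
    rw [← e]
    exact h1
  intro z hz hfz
  have hconst : f c * Complex.exp (-V c) = f z * Complex.exp (-V z) := by
    refine (convex_ball c R).is_const_of_fderivWithin_eq_zero (𝕜 := ℂ)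
      (f := fun w => f w * Complex.exp (-V w)) ?_ ?_ (mem_ball_self hR) hz
    · intro w hw
      exact (hd w hw).differentiableAt.differentiableWithinAt
    · intro w hw
      rw [fderivWithin_of_isOpen isOpen_ball hw]
      have h2 := (hd w hw).hasFDerivAt.fderiv
      rw [h2]
      ext
      simp
  rw [hfz, zero_mul] at hconst
  exact (mul_ne_zero h0 (Complex.exp_ne_zero _)) hconst

end E6Baux

open E6Baux

variable {n N m' : ℕ} {p : Ideal (MvPolynomial (Fin (n + 1)) ℂ)}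
  {B : Fin (n + 1) → Finset (Fin (n + 1))} {s : Fin N → BSymDiff p B (m' + 1)}

theorem along_congrB {m : ℕ} (s : BSymDiff p B m) {f g : ℂ → Fin (n + 1) → ℂ} {z : ℂ}
    (h : f =ᶠ[𝓝 z] g) : s.along f z = s.along g z := by
  unfold BSymDiff.along
  rw [h.self_of_nhds]
  congr 1
  funext i
  unfold dv
  have h1 : (fun w => f w i) =ᶠ[𝓝 z] fun w => g w i := h.mono fun w hw => congrFun hw i
  exact h1.deriv_eq

theorem SlB.scale (hp : Pool.Agent.W603.PV.IsHomog p) (hB : BdC p B) {ζ : Fin N → ℂ} {Ω : Set ℂ}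
    (hΩ : IsOpen Ω)
    {g h : ℂ → Fin (n + 1) → ℂ} (hg : SlB s ζ Ω g) (han : ∀ i, AnalyticOnNhd ℂ (fun z => h z i) Ω)
    (hgh : ∀ z ∈ Ω, ∃ c : ℂ, c ≠ 0 ∧ ∀ i, h z i = c * g z i) : SlB s ζ Ω h := by
  have hne : ∀ z ∈ Ω, h z ≠ 0 := by
    intro z hz h0
    obtain ⟨c, hc, hcz⟩ := hgh z hz
    apply hg.ne z hz
    funext i
    have h1 := hcz i
    rw [h0] at h1
    exact (mul_eq_zero.1 h1.symm).resolve_left hc
  have hmem : ∀ z ∈ Ω, ∀ H ∈ p, eval (h z) H = 0 := by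
    intro z hz H hH
    obtain ⟨c, hc, hcz⟩ := hgh z hz
    have h1 : h z = fun i => c * g z i := funext hcz
    rw [← sum_homogeneousComponent H, map_sum]
    refine Finset.sum_eq_zero fun k _ => ?_
    rw [h1, ← ae, aeval_smul_homog _ _ (homogeneousComponent_isHomogeneous k H), ae,
      hg.mem z hz _ (hp H hH k), mul_zero]
  have hoff : ∀ z ∈ Ω, OffB B (h z) := by
    intro z hz j hj b hb
    obtain ⟨c, hc, hcz⟩ := hgh z hz
    rw [hcz] at hj ⊢
    exact mul_ne_zero hc (hg.off z hz j (right_ne_zero_of_mul hj) b hb)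
  refine ⟨han, hne, hmem, hoff, fun z hz l => ?_⟩
  obtain ⟨j, hj⟩ := Function.ne_iff.1 (hne z hz)
  have hj : h z j ≠ 0 := hj
  have hgj : g z j ≠ 0 := by
    obtain ⟨c, hc, hcz⟩ := hgh z hz
    intro h0
    apply hj
    rw [hcz, h0, mul_zero]
  rw [balong_eq hp hB (s l) hΩ han hne hmem hoff hz hj, ← hg.val z hz l,
    balong_eq hp hB (s l) hΩ hg.an hg.ne hg.mem hg.off hz hgj]
  have hq : ∀ w ∈ Ω, g w j ≠ 0 → ∀ i, h w i / h w j = g w i / g w j := by
    intro w hw hgw i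
    obtain ⟨c, hc, hcz⟩ := hgh w hw
    rw [hcz, hcz]
    field_simp
  have hev : ∀ i, (fun w => h w i / h w j) =ᶠ[𝓝 z] fun w => g w i / g w j := by
    intro i
    filter_upwards [hΩ.mem_nhds hz, (hg.an j z hz).continuousAt.eventually_ne hgj] with w h1 h2
    exact hq w h1 h2 i
  congr 2
  funext k
  rcases k with k | k
  · exact hq z hz hgj k
  · change (if k ∈ B j then deriv (fun w => h w k / h w j) z / (h z k / h z j)
      else deriv (fun w => h w k / h w j) z) =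
      if k ∈ B j then deriv (fun w => g w k / g w j) z / (g z k / g z j)
      else deriv (fun w => g w k / g w j) z
    rw [(hev k).deriv_eq, hq z hz hgj k]

theorem SlB.mono {ζ : Fin N → ℂ} {Ω Ω' : Set ℂ} (h : Ω' ⊆ Ω) {g : ℂ → Fin (n + 1) → ℂ}
    (hg : SlB s ζ Ω g) : SlB s ζ Ω' g :=
  ⟨fun i z hz => hg.an i z (h hz), fun z hz => hg.ne z (h hz), fun z hz => hg.mem z (h hz),
    fun z hz => hg.off z (h hz), fun z hz => hg.val z (h hz)⟩

theorem exists_extB (hp : Pool.Agent.W603.PV.IsHomog p) (hB : BdC p B)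
    (hs : BGens p B (m' + 1) s) {ζ : Fin N → ℂ}
    (hζ : ∃ l, ζ l ≠ 0) : ∃ R > 0, ∀ (z0 : ℂ) (Ω : Set ℂ) (g : ℂ → Fin (n + 1) → ℂ), IsOpen Ω →
      z0 ∈ Ω → SlB s ζ Ω g → ∃ G : ℂ → Fin (n + 1) → ℂ, SlB s ζ (ball z0 R) G ∧
        ∀ᶠ z in 𝓝 z0, ∃ c : ℂ, c ≠ 0 ∧ ∀ i, g z i = c * G z i := by
  classical
  obtain ⟨l0, hl0⟩ := hζ
  choose b hb using fun j i0 k => BGens.genR hp hB hs j (Fin.cons k fun _ => i0)
  -- the bounds
  obtain ⟨C1, hC1, hC1b⟩ : ∃ C1 : ℝ, 1 ≤ C1 ∧ ∀ (j i : Fin (n + 1)) (u : Fin (n + 1) → ℂ),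
      (∀ i, ‖u i‖ ≤ 1) → ‖∑ l, eval u (b j i i l) * ζ l‖ ≤ C1 := by
    choose Bo hBo0 hBo using fun (a : Fin (n + 1) × Fin (n + 1)) (l : Fin N) =>
      poly_bound (b a.1 a.2 a.2 l)
    refine ⟨1 + ∑ a, ∑ l, Bo a l * ‖ζ l‖, le_add_of_nonneg_right (Finset.sum_nonneg fun a _ =>
      Finset.sum_nonneg fun l _ => mul_nonneg (hBo0 a l) (norm_nonneg _)), fun j i u hu => ?_⟩
    have h1 : ‖∑ l, eval u (b j i i l) * ζ l‖ ≤ ∑ l, Bo (j, i) l * ‖ζ l‖ := by
      refine (norm_sum_le _ _).trans (Finset.sum_le_sum fun l _ => ?_)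
      rw [norm_mul]
      exact mul_le_mul_of_nonneg_right (hBo (j, i) l u hu) (norm_nonneg _)
    have h2 := Finset.single_le_sum (f := fun a => ∑ l, Bo a l * ‖ζ l‖) (fun a _ =>
      Finset.sum_nonneg fun l _ => mul_nonneg (hBo0 a l) (norm_nonneg _)) (Finset.mem_univ (j, i))
    linarith
  obtain ⟨C3, hC3, hC3b⟩ : ∃ C3 : ℝ, 1 ≤ C3 ∧ ∀ (j : Fin (n + 1)) (x : Fin (n + 1) ⊕ Fin (n + 1) → ℂ),
      (∀ i, ‖x i‖ ≤ 1) → ‖eval x ((s l0).pol j)‖ ≤ C3 := by
    choose Bo hBo0 hBo using fun (j : Fin (n + 1)) => poly_bound ((s l0).pol j)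
    refine ⟨1 + ∑ j, Bo j, le_add_of_nonneg_right (Finset.sum_nonneg fun j _ => hBo0 j),
      fun j x hx => ?_⟩
    have h1 := hBo j x hx
    have h2 := Finset.single_le_sum (f := fun j => Bo j) (fun j _ => hBo0 j) (Finset.mem_univ j)
    linarith
  have hζ0 : 0 < ‖ζ l0‖ := norm_pos_iff.2 hl0
  obtain ⟨C4, hC4, hC4b⟩ : ∃ C4 : ℝ, 1 ≤ C4 ∧ C3 / ‖ζ l0‖ ≤ C4 :=
    ⟨1 + C3 / ‖ζ l0‖, le_add_of_nonneg_right (by positivity), by linarith⟩
  obtain ⟨ρ, hρ⟩ : ∃ ρ : ℝ, ρ = C1 + C4 + ∑ l, ‖ζ l‖ := ⟨_, rfl⟩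
  have hζs : 0 ≤ ∑ l, ‖ζ l‖ := Finset.sum_nonneg fun _ _ => norm_nonneg _
  have hρ1 : 1 ≤ ρ := by linarith
  -- the radius
  choose R hR hRb using fun a : Fin (n + 1) × Fin (n + 1) =>
    exists_radius (thB m' a.2 (B a.1) (b a.1 a.2)) hρ1
  obtain ⟨a0, -, ha0⟩ := Finset.exists_min_image Finset.univ R Finset.univ_nonempty
  refine ⟨R a0, hR a0, fun z0 Ω g hΩ hz0 hg => ?_⟩
  -- the chart
  obtain ⟨j, -, hj⟩ := Finset.exists_max_image Finset.univ (fun i => ‖g z0 i‖)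
    Finset.univ_nonempty
  have hgj : g z0 j ≠ 0 := by
    intro h0
    apply hg.ne z0 hz0
    funext i
    have h1 := hj i (Finset.mem_univ i)
    rw [h0, norm_zero] at h1
    exact norm_le_zero_iff.1 h1
  obtain ⟨Ω', hΩ'⟩ : ∃ Ω' : Set ℂ, Ω' = Ω ∩ {z | z ∈ Ω ∧ g z j ≠ 0} := ⟨_, rfl⟩
  have hΩ'o : IsOpen Ω' := by
    rw [isOpen_iff_mem_nhds]
    intro z hz
    rw [hΩ'] at hz ⊢
    filter_upwards [hΩ.mem_nhds hz.1, (hg.an j z hz.1).continuousAt.eventually_ne hz.2.2]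
      with w h1 h2
    exact ⟨h1, h1, h2⟩
  have hΩ's : ∀ z ∈ Ω', z ∈ Ω ∧ g z j ≠ 0 := fun z hz => by
    rw [hΩ'] at hz
    exact ⟨hz.1, hz.2.2⟩
  have hz0' : z0 ∈ Ω' := by
    rw [hΩ']
    exact ⟨hz0, hz0, hgj⟩
  obtain ⟨u, hu⟩ : ∃ u : ℂ → Fin (n + 1) → ℂ, ∀ z i, u z i = g z i / g z j :=
    ⟨_, fun _ _ => rfl⟩
  have huan : ∀ i, AnalyticOnNhd ℂ (fun z => u z i) Ω' := by
    intro i z hz
    simp only [hu]
    exact (hg.an i z (hΩ's z hz).1).fun_div (hg.an j z (hΩ's z hz).1) (hΩ's z hz).2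
  have huS : SlB s ζ Ω' u := by
    refine (hg.mono fun z hz => (hΩ's z hz).1).scale hp hB hΩ'o huan fun z hz =>
      ⟨(g z j)⁻¹, inv_ne_zero (hΩ's z hz).2, fun i => ?_⟩
    rw [hu, div_eq_inv_mul]
  have huj : ∀ z ∈ Ω', u z j = 1 := fun z hz => by rw [hu, div_self (hΩ's z hz).2]
  have hduj : ∀ z ∈ Ω', dv u z j = 0 := by
    intro z hz
    have h1 : (fun w => u w j) =ᶠ[𝓝 z] fun _ => 1 := by
      filter_upwards [hΩ'o.mem_nhds hz] with w hw
      exact huj w hw
    unfold dv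
    rw [h1.deriv_eq, deriv_const]
  have hu1 : ∀ i, ‖u z0 i‖ ≤ 1 := by
    intro i
    rw [hu, norm_div]
    exact (div_le_one (norm_pos_iff.2 hgj)).2 (hj i (Finset.mem_univ i))
  have htan : ∀ z ∈ Ω', TanVec p (u z) (dv u z) := fun z hz =>
    tanVec_curve hΩ'o huan huS.ne huS.mem hz
  obtain ⟨v, hv⟩ : ∃ v : ℂ → Fin (n + 1) → ℂ, ∀ z, v z = lv (B j) u z := ⟨_, fun _ => rfl⟩
  have hub : ∀ z ∈ Ω', ∀ b' ∈ B j, u z b' ≠ 0 := fun z hz b' hb' =>
    huS.off z hz j (by rw [huj z hz]; exact one_ne_zero) b' hb'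
  have hllv : ∀ z ∈ Ω', lloc B j (u z) (dv u z) = Sum.elim (u z) (v z) := fun z hz => by
    rw [lloc_self (huj z hz) (hduj z hz), hv]
  have hvan : ∀ i, AnalyticAt ℂ (fun z => v z i) z0 := by
    intro i
    have hd : AnalyticAt ℂ (fun z => dv u z i) z0 := (huan i z0 hz0').deriv
    simp only [hv]
    unfold lv
    by_cases hi : i ∈ B j
    · simp only [if_pos hi]
      exact hd.fun_div (huan i z0 hz0') (hub z0 hz0' i hi)
    · simp only [if_neg hi]
      exact hd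
  have hval : ∀ z ∈ Ω', ∀ l, eval (Sum.elim (u z) (v z)) ((s l).pol j) = ζ l := by
    intro z hz l
    have h1 := huS.val z hz l
    unfold BSymDiff.along at h1
    rw [(s l).val_eq hp hB (htan z hz) (huS.off z hz) (j := j)
      (by rw [huj z hz]; exact one_ne_zero), hllv z hz, ae] at h1
    exact h1
  have hrel : ∀ (i0 k : Fin (n + 1)), ∀ z ∈ Ω', v z k * v z i0 ^ m' =
      ∑ l, eval (u z) (b j i0 k l) * ζ l := by
    intro i0 k z hz
    have h1 := hb j i0 k ℂ (u z) _ (htan z hz) (huS.off z hz)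
      (by rw [huj z hz]; exact one_ne_zero)
    rw [prod_lloc, hllv z hz] at h1
    rw [show v z k * v z i0 ^ m' = Sum.elim (u z) (v z) (Sum.inr k) *
      Sum.elim (u z) (v z) (Sum.inr i0) ^ m' from rfl, h1]
    refine Finset.sum_congr rfl fun l _ => ?_
    rw [ae, ae, hval z hz l]
    congr 3
    funext i
    rw [huj z hz, div_one]
  -- the largest derivative
  obtain ⟨i0, -, hi0⟩ := Finset.exists_max_image Finset.univ (fun i => ‖v z0 i‖)
    Finset.univ_nonempty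
  have hi0b : ‖v z0 i0‖ ≤ C1 := by
    refine le_of_pow_le (m' := m') (norm_nonneg _) hC1 ?_
    rw [← norm_pow, pow_succ, mul_comm, hrel i0 i0 z0 hz0']
    exact hC1b j i0 (u z0) hu1
  have hvi0 : v z0 i0 ≠ 0 := by
    intro h0
    apply hl0
    rw [← hval z0 hz0' l0]
    have h1 : (Sum.elim (u z0) (v z0) : Fin (n + 1) ⊕ Fin (n + 1) → ℂ) =
        Sum.elim (u z0) fun i => (0 : ℂ) * (fun _ => (0 : ℂ)) i := by
      funext k
      rcases k with k | k
      · rfl
      · have h2 := hi0 k (Finset.mem_univ k)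
        rw [h0, norm_zero] at h2
        change v z0 k = 0 * 0
        rw [norm_le_zero_iff.1 h2, mul_zero]
    rw [h1, ← ae, aeval_scale_inr ((s l0).hom j), zero_pow (by omega), zero_mul]
  have hwb : ‖(v z0 i0)⁻¹‖ ≤ C4 := by
    refine le_of_pow_le (m' := m') (norm_nonneg _) hC4 (le_trans ?_ hC4b)
    have h1 := hval z0 hz0' l0
    have h2 : (Sum.elim (u z0) (v z0) : Fin (n + 1) ⊕ Fin (n + 1) → ℂ) =
        Sum.elim (u z0) fun i => v z0 i0 * (fun i => v z0 i / v z0 i0) i := by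
      funext k
      rcases k with k | k
      · rfl
      · change v z0 k = v z0 i0 * (v z0 k / v z0 i0)
        field_simp
    rw [h2, ← ae, aeval_scale_inr ((s l0).hom j), ae] at h1
    have h3 := hC3b j (Sum.elim (u z0) fun i => v z0 i / v z0 i0) (by
      rintro (i | i)
      · exact hu1 i
      · change ‖v z0 i / v z0 i0‖ ≤ 1
        rw [norm_div]
        exact (div_le_one (norm_pos_iff.2 hvi0)).2 (hi0 i (Finset.mem_univ i)))
    have h4 : ‖ζ l0‖ ≤ ‖v z0 i0‖ ^ (m' + 1) * C3 := by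
      rw [← h1, norm_mul, norm_pow]
      exact mul_le_mul_of_nonneg_left h3 (by positivity)
    have h5 : 0 < ‖v z0 i0‖ ^ (m' + 1) := pow_pos (norm_pos_iff.2 hvi0) _
    rw [norm_inv, inv_pow, le_div_iff₀ hζ0, ← div_eq_inv_mul, div_le_iff₀ h5, mul_comm C3]
    exact h4
  -- the system
  have huv : ∀ᶠ z in 𝓝 z0, ∀ i, deriv (fun w => u w i) z =
      (if i ∈ B j then u z i else 1) * v z i := by
    filter_upwards [hΩ'o.mem_nhds hz0'] with z hz
    intro i
    rw [hv]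
    unfold lv
    by_cases hi : i ∈ B j
    · rw [if_pos hi, if_pos hi]
      have h2 := hub z hz i hi
      change dv u z i = u z i * (dv u z i / u z i)
      field_simp
    · rw [if_neg hi, if_neg hi, one_mul]
      rfl
  have hsys := sys_anB (b := b j i0) (ζ := ζ) (m' := m') (i0 := i0) (Bj := B j)
    (fun i => huan i z0 hz0') hvan huv hvi0
    (by
      filter_upwards [hΩ'o.mem_nhds hz0'] with z hz
      exact fun k => hrel i0 k z hz)
  obtain ⟨x, hx⟩ : ∃ x : ℂ → Vs n N → ℂ, ∀ z, x z = mk4 (u z) (v z) (v z i0)⁻¹ ζ :=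
    ⟨_, fun _ => rfl⟩
  have hsys' : ∀ᶠ z in 𝓝 z0, ∀ a, HasDerivAt (fun w => x w a)
      (eval (x z) (thB m' i0 (B j) (b j i0) a)) z := by
    filter_upwards [hsys] with z hz a
    simp only [hx]
    exact hz a
  have hxb : ∀ a, ‖x z0 a‖ ≤ ρ := by
    intro a
    rw [hx]
    rcases a with i | i | ⟨⟩ | l
    · change ‖u z0 i‖ ≤ ρ
      exact (hu1 i).trans hρ1
    · change ‖v z0 i‖ ≤ ρ
      have h1 := (hi0 i (Finset.mem_univ i)).trans hi0b
      linarith
    · change ‖(v z0 i0)⁻¹‖ ≤ ρ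
      linarith
    · change ‖ζ l‖ ≤ ρ
      have h1 := Finset.single_le_sum (f := fun l => ‖ζ l‖) (fun _ _ => norm_nonneg _)
        (Finset.mem_univ l)
      linarith
  have hxR : ∀ (v : Vs n N) (k : ℕ), ‖eval (x z0) ((vf (thB m' i0 (B j) (b j i0)))^[k] (X v))‖ /
      k.factorial * R a0 ^ k ≤ ρ := by
    intro v k
    refine le_trans ?_ (hRb (j, i0) (x z0) hxb v k)
    exact mul_le_mul_of_nonneg_left (pow_le_pow_left₀ (hR a0).le (ha0 _ (Finset.mem_univ _)) k)
      (by positivity)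
  obtain ⟨f, hf0, hfd, -⟩ := exists_flow (thB m' i0 (B j) (b j i0)) (x z0) (hR a0) hxR
  obtain ⟨F, hF⟩ : ∃ F : ℂ → Vs n N → ℂ, ∀ z, F z = f (z - z0) := ⟨_, fun _ => rfl⟩
  have hball : ∀ z, z ∈ ball z0 (R a0) ↔ ‖z - z0‖ < R a0 := fun z => mem_ball_iff_norm
  have hFd : ∀ z ∈ ball z0 (R a0), ∀ a, HasDerivAt (fun w => F w a)
      (eval (F z) (thB m' i0 (B j) (b j i0) a)) z := by
    intro z hz a
    simp only [hF]
    exact (hfd (z - z0) ((hball z).1 hz) a).comp_sub_const z z0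
  have hball0 : ball z0 (R a0) ∈ 𝓝 z0 := ball_mem_nhds z0 (hR a0)
  have hxF : ∀ᶠ z in 𝓝 z0, x z = F z := by
    refine flow_unique hsys' ?_ ?_
    · filter_upwards [hball0] with z hz
      exact hFd z hz
    · rw [hF, sub_self, hf0]
  obtain ⟨G, hG⟩ : ∃ G : ℂ → Fin (n + 1) → ℂ, ∀ z i, G z i = F z (vU i) := ⟨_, fun _ _ => rfl⟩
  have huG : ∀ᶠ z in 𝓝 z0, u z = G z := by
    filter_upwards [hxF] with z hz
    funext i
    rw [hG, ← hz, hx]
    rfl
  have hGan : ∀ i, AnalyticOnNhd ℂ (fun z => G z i) (ball z0 (R a0)) := by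
    intro i
    refine DifferentiableOn.analyticOnNhd (fun z hz => ?_) isOpen_ball
    simp only [hG]
    exact ((hFd z hz (vU i)).differentiableAt).differentiableWithinAt
  have hpre : IsPreconnected (ball z0 (R a0)) := (convex_ball z0 (R a0)).isPreconnected
  have hz0b : z0 ∈ ball z0 (R a0) := mem_ball_self (hR a0)
  have hGj : ∀ z ∈ ball z0 (R a0), G z j = 1 := by
    intro z hz
    have h1 := ((hGan j).sub
        (analyticOnNhd_const (v := (1 : ℂ)))).eqOn_zero_of_preconnected_of_eventuallyEq_zero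
      hpre hz0b (by
        filter_upwards [huG, hΩ'o.mem_nhds hz0'] with w h2 h3
        change G w j - 1 = 0
        rw [← h2, huj w h3, sub_self]) hz
    exact sub_eq_zero.1 h1
  have hGne : ∀ z ∈ ball z0 (R a0), G z ≠ 0 := by
    intro z hz h0
    have h1 := hGj z hz
    rw [h0] at h1
    exact zero_ne_one h1
  have hGmem : ∀ z ∈ ball z0 (R a0), ∀ H ∈ p, eval (G z) H = 0 := by
    intro z hz H hH
    have h0 : AnalyticOnNhd ℂ (fun z => eval (G z) H) (ball z0 (R a0)) := fun w hw =>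
      eval_an2 (fun i => hGan i w hw) H
    refine h0.eqOn_zero_of_preconnected_of_eventuallyEq_zero hpre hz0b ?_ hz
    filter_upwards [huG, hΩ'o.mem_nhds hz0'] with w h2 h3
    change eval (G w) H = 0
    rw [← h2]
    exact huS.mem w h3 H hH
  have hGb : ∀ b' ∈ B j, ∀ z ∈ ball z0 (R a0), G z b' ≠ 0 := by
    intro b' hb'
    refine ne_zero_of_lin (v := fun z => F z (vV b')) (hR a0) ?_ ?_ ?_
    · intro z hz
      exact ((hFd z hz (vV b')).differentiableAt).differentiableWithinAt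
    · intro z hz
      have h1 := hFd z hz (vU b')
      have h2 : eval (F z) (thB m' i0 (B j) (b j i0) (vU b')) = G z b' * F z (vV b') := by
        change eval (F z) (muB (B j) b' * X (vV b')) = _
        unfold muB
        rw [if_pos hb', map_mul, eval_X, eval_X, hG]
      rw [h2] at h1
      simp only [hG]
      rw [hG] at h1
      exact h1
    · rw [← huG.self_of_nhds]
      exact hub z0 hz0' b' hb'
  have hGoff : ∀ z ∈ ball z0 (R a0), OffB B (G z) := by
    intro z hz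
    refine (offB_iff hB (x := G z) ?_ (j := j) (by rw [hGj z hz]; exact one_ne_zero)).2
      fun b' hb' => hGb b' hb' z hz
    exact ⟨hGne z hz, hGmem z hz⟩
  refine ⟨G, ⟨hGan, hGne, hGmem, hGoff, fun z hz l => ?_⟩, ?_⟩
  · have h0 := balong_an hp hB (s l) isOpen_ball hGan hGne hGmem hGoff
    have h1 := (h0.sub (analyticOnNhd_const (v := ζ l))).eqOn_zero_of_preconnected_of_eventuallyEq_zero
      hpre hz0b (by
        filter_upwards [huG.eventually_nhds, hΩ'o.mem_nhds hz0'] with w h2 h3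
        change (s l).along G w - ζ l = 0
        rw [← along_congrB (s l) h2, huS.val w h3 l, sub_self]) hz
    exact sub_eq_zero.1 h1
  · filter_upwards [huG, hΩ'o.mem_nhds hz0'] with z h1 h2
    refine ⟨g z j, (hΩ's z h2).2, fun i => ?_⟩
    rw [← h1, hu, mul_div_cancel₀]
    exact (hΩ's z h2).2

end Pool.Agent.H917.Mg
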