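import Pool.Agent.H917.E9
import Pool.Agent.H917.M.E6B

/-!
# PROJECT BND (helper917), task E9B: entire curves with constant logarithmic symmetric differentials

Port of `Pool/Agent/H917/E7.lean` (`Lc` and its lemmas, with `SlB` in place of `Sl`; `Pe` is used unchanged) and of `Pool/Agent/H917/E9.lean` (`exists_entire`, `Sl.nonconst`, `Sl.entCurve`, `Sl.puncCurve`, `Sl.not_extends`), with `exists_initialB`, `exists_extB`, `SlB.scale`, `SlB.mono` (stubs in M/E5B, M/E6B). A constant curve has the values `0`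
(all entries of `lloc B j x 0` in the second part are `0`, `pol j` is homogeneous of degree `m' + 1 ≥ 1` in them).
-/

set_option autoImplicit false
set_option linter.overlappingInstances false
set_option linter.unusedSectionVars false

open MvPolynomial Filter Topology Metric Set
open Pool.Agent.H917.Lg (lch lch2 lloc)

namespace Pool.Agent.H917.Mg

variable {n N m' : ℕ} {p : Ideal (MvPolynomial (Fin (n + 1)) ℂ)}
  {B : Fin (n + 1) → Finset (Fin (n + 1))} {s : Fin N → BSymDiff p B (m' + 1)}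

section lc

variable {ζ : Fin N → ℂ}

/-- a holomorphic curve given by local homogeneous coordinates -/
def LcB (s : Fin N → BSymDiff p B (m' + 1)) (ζ : Fin N → ℂ) (U : Set ℂ) (f : ℂ → Fin (n + 1) → ℂ) :
    Prop :=
  ∀ z0 ∈ U, ∃ Ω, IsOpen Ω ∧ z0 ∈ Ω ∧ ∃ g, SlB s ζ Ω g ∧ ∀ z ∈ Ω, Pe (f z) (g z)

theorem LcB.mono {U V : Set ℂ} {f : ℂ → Fin (n + 1) → ℂ} (h : V ⊆ U) (hf : LcB s ζ U f) :
    LcB s ζ V f := fun z hz => hf z (h hz)

theorem SlB.lc {U : Set ℂ} {g : ℂ → Fin (n + 1) → ℂ} (hU : IsOpen U) (hg : SlB s ζ U g) :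
    LcB s ζ U g := fun _ hz => ⟨U, hU, hz, g, hg, fun _ _ => Pe.refl _⟩

/-- **The identity theorem.** -/
theorem LcB.ident {U : Set ℂ} {f1 f2 : ℂ → Fin (n + 1) → ℂ} (hU : IsPreconnected U)
    (h1 : LcB s ζ U f1) (h2 : LcB s ζ U f2) {z0 : ℂ} (hz0 : z0 ∈ U)
    (h : ∀ᶠ z in 𝓝 z0, Pe (f1 z) (f2 z)) : ∀ z ∈ U, Pe (f1 z) (f2 z) := by
  obtain ⟨A, hA'⟩ : ∃ A : Set ℂ, ∀ z, z ∈ A ↔ ∀ᶠ w in 𝓝 z, Pe (f1 w) (f2 w) :=
    ⟨{z | ∀ᶠ w in 𝓝 z, Pe (f1 w) (f2 w)}, fun _ => Iff.rfl⟩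
  have hA : IsOpen A := by
    rw [isOpen_iff_mem_nhds]
    intro z hz
    filter_upwards [((hA' z).1 hz).eventually_nhds] with w hw
    exact (hA' w).2 hw
  have hsub : U ⊆ A := by
    refine hU.subset_of_closure_inter_subset hA ⟨z0, hz0, (hA' z0).2 h⟩ ?_
    rintro z1 ⟨hz1, hz1U⟩
    obtain ⟨Ω1, ho1, hm1, g1, hg1, hf1⟩ := h1 z1 hz1U
    obtain ⟨Ω2, ho2, hm2, g2, hg2, hf2⟩ := h2 z1 hz1U
    obtain ⟨r, hr, hrs⟩ := Metric.mem_nhds_iff.1 (inter_mem (ho1.mem_nhds hm1) (ho2.mem_nhds hm2))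
    obtain ⟨z2, hz2A, hz2⟩ := Metric.mem_closure_iff.1 hz1 r hr
    have hz2b : z2 ∈ ball z1 r := by
      rw [mem_ball, dist_comm]
      exact hz2
    have hmin : ∀ i j, ∀ z ∈ ball z1 r, g1 z i * g2 z j - g1 z j * g2 z i = 0 := by
      intro i j z hz
      have han : AnalyticOnNhd ℂ (fun z => g1 z i * g2 z j - g1 z j * g2 z i) (ball z1 r) :=
        fun z hz => ((hg1.an i z (hrs hz).1).fun_mul (hg2.an j z (hrs hz).2)).fun_sub
          ((hg1.an j z (hrs hz).1).fun_mul (hg2.an i z (hrs hz).2))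
      refine han.eqOn_zero_of_preconnected_of_eventuallyEq_zero (convex_ball z1 r).isPreconnected
        hz2b ?_ hz
      filter_upwards [(hA' z2).1 hz2A, isOpen_ball.mem_nhds hz2b] with w hw hwb
      exact (((hf1 w (hrs hwb).1).symm.trans hw).trans (hf2 w (hrs hwb).2)).minor i j
    rw [hA']
    filter_upwards [ball_mem_nhds z1 hr] with w hw
    exact ((hf1 w (hrs hw).1).trans (pe_of_minor (hg1.ne w (hrs hw).1) (hg2.ne w (hrs hw).2)
      fun i j => hmin i j w hw)).trans (hf2 w (hrs hw).2).symm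
  exact fun z hz => ((hA' z).1 (hsub hz)).self_of_nhds

/-- **The extension of a curve to a larger disc.** -/
theorem LcB.step {R0 : ℝ} (hR0 : 0 < R0) (hext : ∀ (z0 : ℂ) (Ω : Set ℂ) (g : ℂ → Fin (n + 1) → ℂ),
      IsOpen Ω → z0 ∈ Ω → SlB s ζ Ω g → ∃ G : ℂ → Fin (n + 1) → ℂ, SlB s ζ (ball z0 R0) G ∧
        ∀ᶠ z in 𝓝 z0, ∃ c : ℂ, c ≠ 0 ∧ ∀ i, g z i = c * G z i)
    {R : ℝ} (hR : 0 < R) {f : ℂ → Fin (n + 1) → ℂ} (hf : LcB s ζ (ball 0 R) f) :
    ∃ f' : ℂ → Fin (n + 1) → ℂ, LcB s ζ (ball 0 (R + R0 / 2)) f' ∧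
      ∀ z ∈ ball (0 : ℂ) R, Pe (f' z) (f z) := by
  have hG0 : ∀ z0 : ℂ, z0 ∈ ball (0 : ℂ) R → ∃ G : ℂ → Fin (n + 1) → ℂ, SlB s ζ (ball z0 R0) G ∧
      ∀ᶠ z in 𝓝 z0, Pe (f z) (G z) := by
    intro z0 hz0
    obtain ⟨Ω, ho, hm, g, hg, hfg⟩ := hf z0 hz0
    obtain ⟨G, hG, hgG⟩ := hext z0 Ω g ho hm hg
    refine ⟨G, hG, ?_⟩
    filter_upwards [hgG, ho.mem_nhds hm] with z h1 h2
    exact (hfg z h2).trans h1
  choose! G hGs hGe using hG0
  -- comparison with the curve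
  have hK : ∀ z0 ∈ ball (0 : ℂ) R, ∀ w ∈ ball (0 : ℂ) R ∩ ball z0 R0, Pe (f w) (G z0 w) := by
    intro z0 hz0
    exact LcB.ident ((convex_ball _ _).inter (convex_ball _ _)).isPreconnected
      (hf.mono inter_subset_left) (((hGs z0 hz0).lc isOpen_ball).mono inter_subset_right)
      ⟨hz0, mem_ball_self hR0⟩ (hGe z0 hz0)
  have hL : ∀ z0 ∈ ball (0 : ℂ) R, ∀ z1 ∈ ball (0 : ℂ) R, dist z0 z1 < R0 →
      ∀ w ∈ ball z0 R0 ∩ ball z1 R0, Pe (G z0 w) (G z1 w) := by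
    intro z0 hz0 z1 hz1 hd
    refine LcB.ident (z0 := z0) ((convex_ball _ _).inter (convex_ball _ _)).isPreconnected
      (((hGs z0 hz0).lc isOpen_ball).mono inter_subset_left)
      (((hGs z1 hz1).lc isOpen_ball).mono inter_subset_right) ⟨mem_ball_self hR0, hd⟩ ?_
    have h1 : ball (0 : ℂ) R ∩ (ball z0 R0 ∩ ball z1 R0) ∈ 𝓝 z0 :=
      (isOpen_ball.inter (isOpen_ball.inter isOpen_ball)).mem_nhds
        ⟨hz0, mem_ball_self hR0, hd⟩
    filter_upwards [h1] with w hw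
    exact (hK z0 hz0 w ⟨hw.1, hw.2.1⟩).symm.trans (hK z1 hz1 w ⟨hw.1, hw.2.2⟩)
  -- the contraction
  have hR' : 0 < R + R0 / 2 := by linarith
  obtain ⟨q, hq⟩ : ∃ q : ℝ, q = R / (R + R0 / 2) := ⟨_, rfl⟩
  have hq0 : 0 < q := by
    rw [hq]
    exact div_pos hR hR'
  have hq1 : q < 1 := by
    rw [hq, div_lt_one hR']
    linarith
  have hqR : q * (R + R0 / 2) = R := by
    rw [hq]
    field_simp
  obtain ⟨t, ht⟩ : ∃ t : ℂ → ℂ, ∀ z, t z = (q : ℂ) * z := ⟨_, fun _ => rfl⟩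
  have hnq : ‖(q : ℂ)‖ = q := by
    rw [Complex.norm_real, Real.norm_of_nonneg hq0.le]
  have htR : ∀ z ∈ ball (0 : ℂ) (R + R0 / 2), t z ∈ ball (0 : ℂ) R := by
    intro z hz
    rw [mem_ball_zero_iff] at hz ⊢
    rw [ht, norm_mul, hnq]
    calc q * ‖z‖ < q * (R + R0 / 2) := mul_lt_mul_of_pos_left hz hq0
      _ = R := hqR
  have htz : ∀ z ∈ ball (0 : ℂ) (R + R0 / 2), dist z (t z) < R0 / 2 := by
    intro z hz
    rw [mem_ball_zero_iff] at hz
    rw [dist_eq_norm, ht]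
    have h1 : z - (q : ℂ) * z = ((1 - q : ℝ) : ℂ) * z := by
      push_cast
      ring
    rw [h1, norm_mul, Complex.norm_real, Real.norm_of_nonneg (by linarith)]
    calc (1 - q) * ‖z‖ < (1 - q) * (R + R0 / 2) := mul_lt_mul_of_pos_left hz (by linarith)
      _ = R0 / 2 := by rw [sub_mul, hqR]; ring
  have htt : ∀ z w : ℂ, dist (t z) (t w) ≤ dist z w := by
    intro z w
    rw [dist_eq_norm, dist_eq_norm, ht, ht, ← mul_sub, norm_mul, hnq]
    exact mul_le_of_le_one_left (norm_nonneg _) hq1.le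
  refine ⟨fun z => G (t z) z, fun z1 hz1 => ?_, fun z hz => ?_⟩
  · refine ⟨ball 0 (R + R0 / 2) ∩ ball z1 (R0 / 2), isOpen_ball.inter isOpen_ball,
      ⟨hz1, mem_ball_self (by linarith)⟩, G (t z1), ?_, fun z hz => ?_⟩
    · refine (hGs _ (htR z1 hz1)).mono fun z hz => ?_
      have h1 : dist z z1 < R0 / 2 := hz.2
      have h2 := htz z1 hz1
      have h3 := dist_triangle z z1 (t z1)
      rw [mem_ball]
      linarith
    · have h1 : dist z z1 < R0 / 2 := hz.2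
      have h2 := htz z1 hz1
      have h3 := dist_triangle z z1 (t z1)
      have h4 := htz z hz.1
      have h5 := htt z z1
      refine hL (t z) (htR z hz.1) (t z1) (htR z1 hz1) (by linarith) z ⟨?_, ?_⟩
      · rw [mem_ball]
        linarith
      · rw [mem_ball]
        linarith
  · have hz' : z ∈ ball (0 : ℂ) (R + R0 / 2) := ball_subset_ball (by linarith) hz
    refine (hK (t z) (htR z hz') z ⟨hz, ?_⟩).symm
    have h4 := htz z hz'
    rw [mem_ball]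
    linarith

theorem exists_LcB {R0 : ℝ} (hR0 : 0 < R0) (hext : ∀ (z0 : ℂ) (Ω : Set ℂ) (g : ℂ → Fin (n + 1) → ℂ),
      IsOpen Ω → z0 ∈ Ω → SlB s ζ Ω g → ∃ G : ℂ → Fin (n + 1) → ℂ, SlB s ζ (ball z0 R0) G ∧
        ∀ᶠ z in 𝓝 z0, ∃ c : ℂ, c ≠ 0 ∧ ∀ i, g z i = c * G z i)
    {R1 : ℝ} (hR1 : 0 < R1) {g : ℂ → Fin (n + 1) → ℂ} (hg : SlB s ζ (ball 0 R1) g) (k : ℕ) :
    ∃ f : ℂ → Fin (n + 1) → ℂ, LcB s ζ (ball 0 (R1 + k * (R0 / 2))) f ∧
      ∀ᶠ z in 𝓝 0, Pe (f z) (g z) := by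
  induction k with
  | zero =>
    refine ⟨g, ?_, Eventually.of_forall fun z => Pe.refl _⟩
    rw [Nat.cast_zero, zero_mul, add_zero]
    exact hg.lc isOpen_ball
  | succ k ih =>
    obtain ⟨f, hf, hfg⟩ := ih
    have hk : 0 < R1 + k * (R0 / 2) := by positivity
    obtain ⟨f', hf', hff⟩ := hf.step hR0 hext hk
    refine ⟨f', ?_, ?_⟩
    · have e : R1 + ((k + 1 : ℕ) : ℝ) * (R0 / 2) = R1 + k * (R0 / 2) + R0 / 2 := by
        push_cast
        ring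
      rw [e]
      exact hf'
    · filter_upwards [hfg, ball_mem_nhds (0 : ℂ) hk] with z h1 h2
      exact (hff z h2).trans h1

/-- **The global curve.** -/
theorem exists_LcB_univ {R0 : ℝ} (hR0 : 0 < R0)
    (hext : ∀ (z0 : ℂ) (Ω : Set ℂ) (g : ℂ → Fin (n + 1) → ℂ),
      IsOpen Ω → z0 ∈ Ω → SlB s ζ Ω g → ∃ G : ℂ → Fin (n + 1) → ℂ, SlB s ζ (ball z0 R0) G ∧
        ∀ᶠ z in 𝓝 z0, ∃ c : ℂ, c ≠ 0 ∧ ∀ i, g z i = c * G z i)
    {R1 : ℝ} (hR1 : 0 < R1) {g : ℂ → Fin (n + 1) → ℂ} (hg : SlB s ζ (ball 0 R1) g) :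
    ∃ f : ℂ → Fin (n + 1) → ℂ, LcB s ζ univ f ∧ Pe (f 0) (g 0) := by
  choose f hf hfg using exists_LcB hR0 hext hR1 hg
  have hk : ∀ z : ℂ, ∃ k : ℕ, z ∈ ball (0 : ℂ) (R1 + k * (R0 / 2)) := by
    intro z
    obtain ⟨k, hk⟩ := exists_nat_gt (‖z‖ / (R0 / 2))
    refine ⟨k, ?_⟩
    rw [div_lt_iff₀ (by linarith)] at hk
    rw [mem_ball_zero_iff]
    linarith
  choose k hk using hk
  have hcomp : ∀ a b : ℕ, ∀ z ∈ ball (0 : ℂ) (R1 + a * (R0 / 2)) ∩ ball 0 (R1 + b * (R0 / 2)),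
      Pe (f a z) (f b z) := by
    intro a b
    refine LcB.ident (z0 := 0) ((convex_ball _ _).inter (convex_ball _ _)).isPreconnected
      ((hf a).mono inter_subset_left) ((hf b).mono inter_subset_right)
      ⟨mem_ball_self (by positivity), mem_ball_self (by positivity)⟩ ?_
    filter_upwards [hfg a, hfg b] with z h1 h2
    exact h1.trans h2.symm
  refine ⟨fun z => f (k z) z, fun z0 _ => ?_, (hfg (k 0)).self_of_nhds⟩
  obtain ⟨Ω, ho, hm, g', hg', hfg'⟩ := hf (k z0) z0 (hk z0)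
  refine ⟨Ω ∩ ball 0 (R1 + k z0 * (R0 / 2)), ho.inter isOpen_ball, ⟨hm, hk z0⟩, g',
    hg'.mono inter_subset_left, fun z hz => ?_⟩
  exact (hcomp (k z) (k z0) z ⟨hk z, hz.2⟩).trans (hfg' z hz.1)


end lc

theorem exists_entireB (hp : Pool.Agent.W603.PV.IsHomog p) (hB : BdC p B)
    (hs : BGens p B (m' + 1) s) {M : Type}
    [Field M] [Algebra ℂ M] (D : Derivation ℂ M M) {y : Fin (n + 1) → M} (hy : y ≠ 0)
    (hmem : ∀ H ∈ p, aeval y H = 0) (hoff : OffB B y)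
    (hD : ∀ l, D ((s l).val y fun i => D (y i)) = 0)
    (hval : ∃ l, (s l).val y (fun i => D (y i)) ≠ 0) {G : MvPolynomial (Fin (n + 1)) ℂ}
    (hG : ∃ k, G.IsHomogeneous k) (hGy : aeval y G ≠ 0) :
    ∃ ζ : Fin N → ℂ, (∃ l, ζ l ≠ 0) ∧ ∃ F : ℂ → Fin (n + 1) → ℂ,
      SlB s ζ univ F ∧ eval (F 0) G ≠ 0 := by
  obtain ⟨ζ, hζ, R, hR, g, hg, hgG⟩ := exists_initialB hp hB hs D hy hmem hoff hD hval hG hGy
  obtain ⟨R0, hR0, hext⟩ := exists_extB hp hB hs hζ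
  obtain ⟨f, hf, hf0⟩ := exists_LcB_univ hR0 hext hR hg
  obtain ⟨F, hFd, hFf⟩ := exists_lift (f := f) fun z0 => by
    obtain ⟨Ω, hΩ, hz0, g', hg', hfg⟩ := hf z0 (mem_univ _)
    refine ⟨g', fun i => hg'.an i z0 hz0, hg'.ne z0 hz0, ?_⟩
    filter_upwards [hΩ.mem_nhds hz0] with z hz
    exact hfg z hz
  have hloc : ∀ z0, ∃ Ω, IsOpen Ω ∧ z0 ∈ Ω ∧ SlB s ζ Ω F := by
    intro z0
    obtain ⟨Ω, hΩ, hz0, g', hg', hfg⟩ := hf z0 (mem_univ _)
    exact ⟨Ω, hΩ, hz0, hg'.scale hp hB hΩ (fun i z _ => (hFd i).analyticAt z) fun z hz =>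
      (hFf z).trans (hfg z hz)⟩
  refine ⟨ζ, hζ, F, ⟨fun i z _ => (hFd i).analyticAt z, fun z _ => ?_, fun z _ => ?_,
    fun z _ => ?_, fun z _ => ?_⟩, ?_⟩
  · obtain ⟨Ω, hΩ, hz0, h⟩ := hloc z
    exact h.ne z hz0
  · obtain ⟨Ω, hΩ, hz0, h⟩ := hloc z
    exact h.mem z hz0
  · obtain ⟨Ω, hΩ, hz0, h⟩ := hloc z
    exact h.off z hz0
  · obtain ⟨Ω, hΩ, hz0, h⟩ := hloc z
    exact h.val z hz0
  · exact ((hFf 0).trans hf0).eval_ne hG hgG

/-- curves with nonzero values of the logarithmic symmetric differentials are not constant -/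
theorem SlB.nonconst {ζ : Fin N → ℂ} (hζ : ∃ l, ζ l ≠ 0)
    {F : ℂ → Fin (n + 1) → ℂ} (hF : SlB s ζ univ F) {x : Fin (n + 1) → ℂ} :
    ¬ ∀ z, z ≠ 0 → Pe (F z) x := by
  intro h
  obtain ⟨l, hl⟩ := hζ
  apply hl
  rw [← hF.val 1 (mem_univ _) l]
  have hd : ∀ i, DifferentiableAt ℂ (fun w => F w i) 1 := fun i =>
    (hF.an i 1 (mem_univ _)).differentiableAt
  -- the minors of the derivative with `x`
  have h1 : ∀ i j, dv F 1 i * x j - dv F 1 j * x i = 0 := by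
    intro i j
    have h2 : (fun w => F w i * x j - F w j * x i) =ᶠ[𝓝 1] fun _ => 0 := by
      filter_upwards [isOpen_ne.mem_nhds (one_ne_zero (α := ℂ))] with w hw
      exact (h w hw).minor i j
    have h3 := h2.deriv_eq
    rw [deriv_const, deriv_fun_sub ((hd i).mul_const _) ((hd j).mul_const _),
      deriv_mul_const (hd i), deriv_mul_const (hd j)] at h3
    exact h3
  obtain ⟨c, hc, hcx⟩ := h 1 one_ne_zero
  have h4 : ∀ i j, dv F 1 i * F 1 j - F 1 i * dv F 1 j = 0 := by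
    intro i j
    rw [hcx, hcx]
    linear_combination c * h1 i j
  have h5 : ∃ j, F 1 j ≠ 0 := Function.ne_iff.1 (hF.ne 1 (mem_univ _))
  unfold BSymDiff.along BSymDiff.val
  rw [dif_pos h5]
  have h6 : lloc B h5.choose (F 1) (dv F 1) =
      Sum.elim (fun i => F 1 i / F 1 h5.choose) fun i => (0 : ℂ) * (fun _ => (0 : ℂ)) i := by
    funext k
    rcases k with k | k
    · rfl
    · change (if k ∈ B h5.choose then _ / _ else _ / _) = (0 : ℂ) * 0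
      rw [h4, zero_div, zero_div, mul_zero, ite_self]
  rw [h6, aeval_scale_inr ((s l).hom _), zero_pow (by omega), zero_mul]

theorem SlB.entCurve (hp : Pool.Agent.W603.PV.IsHomog p) (hB : BdC p B) {ζ : Fin N → ℂ}
    (hζ : ∃ l, ζ l ≠ 0)
    {F : ℂ → Fin (n + 1) → ℂ} (hF : SlB s ζ univ F) : EntCurve p F := by
  refine ⟨fun z => differentiableAt_pi.2 fun i => (hF.an i z (mem_univ _)).differentiableAt,
    fun z => ⟨hF.ne z (mem_univ _), hF.mem z (mem_univ _)⟩, ?_⟩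
  by_contra hcon
  push Not at hcon
  refine hF.nonconst hζ (x := F 0) fun z _ => ?_
  obtain ⟨c, hc⟩ := hcon z 0
  refine ⟨c, ?_, fun i => ?_⟩
  · rintro rfl
    rw [zero_smul] at hc
    exact hF.ne z (mem_univ _) hc
  · rw [hc]
    rfl

theorem SlB.puncCurve {ζ : Fin N → ℂ} {F : ℂ → Fin (n + 1) → ℂ} (hF : SlB s ζ univ F) :
    PuncCurve p fun w => F (Complex.exp w⁻¹) := by
  refine ⟨fun w hw => ?_, fun w _ => ⟨hF.ne _ (mem_univ _), hF.mem _ (mem_univ _)⟩⟩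
  have hw0 : w ≠ 0 := fun h => hw.2 h
  refine (differentiableAt_pi.2 fun i => ?_).differentiableWithinAt
  have h1 : DifferentiableAt ℂ (fun w : ℂ => Complex.exp w⁻¹) w :=
    (differentiableAt_inv hw0).cexp
  exact (hF.an i _ (mem_univ _)).differentiableAt.comp w h1

open Pool.Agent.TH143 (exists_exp_inv) in
theorem SlB.not_extends (hp : Pool.Agent.W603.PV.IsHomog p) (hB : BdC p B) {ζ : Fin N → ℂ}
    (hζ : ∃ l, ζ l ≠ 0)
    {F : ℂ → Fin (n + 1) → ℂ} (hF : SlB s ζ univ F) :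
    ¬ Extends fun w => F (Complex.exp w⁻¹) := by
  rintro ⟨g, hgd, hgne, hg⟩
  have hg00 : g 0 ≠ 0 := hgne 0 (mem_ball_self one_pos)
  refine hF.nonconst hζ (x := g 0) fun t ht => ?_
  refine pe_of_minor (hF.ne t (mem_univ _)) hg00 fun i j => ?_
  -- points with the given value of the exponential
  have hw : ∀ k : ℕ, ∃ w : ℂ, w ≠ 0 ∧ ‖w‖ < 1 / ((k : ℝ) + 1) ∧ Complex.exp w⁻¹ = t := by
    intro k
    obtain ⟨w, hw, hwt⟩ := exists_exp_inv ht (ε := 1 / ((k : ℝ) + 1)) Nat.one_div_pos_of_nat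
    exact ⟨w, hw.1, hw.2, hwt⟩
  choose w hw0 hw1 hwt using hw
  have hwlim : Tendsto w atTop (𝓝 0) := by
    rw [tendsto_zero_iff_norm_tendsto_zero]
    exact squeeze_zero (fun k => norm_nonneg _) (fun k => (hw1 k).le)
      tendsto_one_div_add_atTop_nhds_zero_nat
  have hgc : ∀ i, Tendsto (fun k => g (w k) i) atTop (𝓝 (g 0 i)) := by
    intro i
    have h1 : DifferentiableOn ℂ (fun z => g z i) (ball 0 1) := fun z hz =>
      (differentiableWithinAt_pi.1 (hgd z hz)) i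
    have h2 : ContinuousAt (fun z => g z i) 0 :=
      (h1.differentiableAt (isOpen_ball.mem_nhds (mem_ball_self one_pos))).continuousAt
    exact h2.tendsto.comp hwlim
  have h1 : ∀ k, F t i * g (w k) j - F t j * g (w k) i = 0 := by
    intro k
    have h2 : w k ∈ ball (0 : ℂ) 1 \ {0} := by
      refine ⟨?_, hw0 k⟩
      rw [mem_ball_zero_iff]
      refine (hw1 k).trans_le ?_
      rw [div_le_one (by positivity)]
      have : (0 : ℝ) ≤ k := Nat.cast_nonneg k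
      linarith
    obtain ⟨c, hc⟩ := hg (w k) h2
    simp only [hwt] at hc
    rw [hc, Pi.smul_apply, Pi.smul_apply, smul_eq_mul, smul_eq_mul]
    ring
  have h2 : Tendsto (fun k => F t i * g (w k) j - F t j * g (w k) i) atTop
      (𝓝 (F t i * g 0 j - F t j * g 0 i)) :=
    ((hgc j).const_mul _).sub ((hgc i).const_mul _)
  simp only [h1] at h2
  exact (tendsto_nhds_unique h2 tendsto_const_nhds)

end Pool.Agent.H917.Mg
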