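import Pool.Agent.H917.M.N0

/-!
# PROJECT BND (helper917), task N2: locally nilpotent derivations

## Paper proof
As `δ x ≠ 0` for some `x ∈ frac S` there is `b ∈ S` with `δ b ≠ 0` (`x = u / r` with `u, r ∈ S`). By local nilpotency there is a last nonzero iterate; so there is `a ∈ S` with `δ a ≠ 0`, `δ (δ a) = 0`. Let `τ = a / δ a ∈ frac S`;
then `δ τ = 1` (so `τ ≠ 0`). `F0` = the elements `z` of `frac S` with `δ z = 0` (an intermediate field). Taylor formula: for `b ∈ S` let `ρ b = ∑_k (-τ)^k / k! δ^k b` (a finite sum); then `δ (ρ b) = 0` and `ρ b ∈ frac S`, so `ρ b ∈ F0`; and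
`b = ∑_k τ^k / k! ρ (δ^k b)`. (Alternatively, by induction on the least `k` with `δ^k b = 0`: `δ b = f(τ)` for a polynomial `f` over `F0`; let `g` be a polynomial over `F0` with `g' = f`; then `δ (b - g(τ)) = 0`, so
`b - g(τ) ∈ F0`.) The second way is the shortest. The exponent of `τ` is `0`.
-/

set_option autoImplicit false
set_option linter.overlappingInstances false
set_option linter.unusedSectionVars false

namespace Pool.Agent.H917.Mg

open Pool.Agent.Y377.EL Pool.Agent.Y377.IL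

variable {K : Type} [Field K] [Algebra ℂ K]

namespace N2aux

/-- the constants of the derivation in the fraction field -/
noncomputable def cF (δ : Derivation ℂ K K) (S : Subalgebra ℂ K) : IntermediateField ℂ K where
  carrier := {z | z ∈ frac S ∧ δ z = 0}
  mul_mem' := by
    rintro x y ⟨hx, hx0⟩ ⟨hy, hy0⟩
    refine ⟨(frac S).mul_mem hx hy, ?_⟩
    rw [δ.leibniz, hx0, hy0, smul_zero, smul_zero, add_zero]
  add_mem' := by
    rintro x y ⟨hx, hx0⟩ ⟨hy, hy0⟩
    refine ⟨(frac S).add_mem hx hy, ?_⟩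
    rw [map_add, hx0, hy0, add_zero]
  algebraMap_mem' := fun c => ⟨(frac S).algebraMap_mem c, δ.map_algebraMap c⟩
  inv_mem' := by
    rintro x ⟨hx, hx0⟩
    refine ⟨(frac S).inv_mem hx, ?_⟩
    rw [δ.leibniz_inv, hx0, smul_zero]

theorem mem_cF {δ : Derivation ℂ K K} {S : Subalgebra ℂ K} (z : K) :
    z ∈ cF δ S ↔ z ∈ frac S ∧ δ z = 0 := Iff.rfl

theorem aev_mem {S : Subalgebra ℂ K} {F0 : IntermediateField ℂ K} {τ : K}
    (h0 : ∀ z ∈ F0, z ∈ frac S) (hτ : τ ∈ frac S) (f : Polynomial F0) :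
    Polynomial.aeval τ f ∈ frac S := by
  induction f using Polynomial.induction_on' with
  | add p q hp hq =>
    rw [map_add]
    exact (frac S).add_mem hp hq
  | monomial n a =>
    rw [Polynomial.aeval_monomial]
    exact (frac S).mul_mem (h0 _ a.2) (pow_mem hτ n)

theorem der_aev {δ : Derivation ℂ K K} {F0 : IntermediateField ℂ K} {τ : K}
    (h0 : ∀ z ∈ F0, δ z = 0) (hτ : δ τ = 1) (f : Polynomial F0) :
    δ (Polynomial.aeval τ f) = Polynomial.aeval τ (Polynomial.derivative f) := by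
  induction f using Polynomial.induction_on' with
  | add p q hp hq =>
    rw [map_add, map_add, map_add, map_add, hp, hq]
  | monomial n a =>
    rw [Polynomial.aeval_monomial, Polynomial.derivative_monomial, Polynomial.aeval_monomial,
      δ.leibniz, δ.leibniz_pow, hτ]
    have h1 : δ ((algebraMap F0 K) a) = 0 := h0 _ a.2
    rw [h1, smul_zero, add_zero, map_mul, map_natCast]
    simp only [smul_eq_mul, nsmul_eq_mul, mul_one]
    ring

theorem ex_anti {F0 : IntermediateField ℂ K} (f : Polynomial F0) :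
    ∃ g : Polynomial F0, Polynomial.derivative g = f := by
  induction f using Polynomial.induction_on' with
  | add p q hp hq =>
    obtain ⟨g1, h1⟩ := hp
    obtain ⟨g2, h2⟩ := hq
    exact ⟨g1 + g2, by rw [map_add, h1, h2]⟩
  | monomial n a =>
    refine ⟨Polynomial.monomial (n + 1) (a / ((n + 1 : ℕ) : F0)), ?_⟩
    have hn : (((n + 1 : ℕ) : F0)) ≠ 0 := by
      have : CharZero F0 := charZero_of_injective_algebraMap (algebraMap ℂ F0).injective
      exact Nat.cast_ne_zero.mpr (Nat.succ_ne_zero n)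
    rw [Polynomial.derivative_monomial, Nat.add_sub_cancel, div_mul_cancel₀ _ hn]

theorem it_mem {δ : Derivation ℂ K K} {S : Subalgebra ℂ K} (hδ : Stab δ S) {b : K} (hb : b ∈ S)
    (k : ℕ) : (en δ ^ k) b ∈ S := by
  induction k with
  | zero => simpa using hb
  | succ k ih =>
    rw [pow_succ', Module.End.mul_apply]
    exact hδ _ ih

theorem main_aux {δ : Derivation ℂ K K} {S : Subalgebra ℂ K} (hδ : Stab δ S)
    {F0 : IntermediateField ℂ K} {τ : K} (hF : ∀ z, z ∈ F0 ↔ z ∈ frac S ∧ δ z = 0)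
    (hτ : τ ∈ frac S) (hτ1 : δ τ = 1) (k : ℕ) : ∀ b ∈ S, (en δ ^ k) b = 0 →
    ∃ f : Polynomial F0, b = Polynomial.aeval τ f := by
  induction k with
  | zero =>
    intro b hb h
    refine ⟨0, ?_⟩
    rw [map_zero]
    simpa using h
  | succ k ih =>
    intro b hb h
    rw [pow_succ, Module.End.mul_apply] at h
    obtain ⟨f, hf⟩ := ih (δ b) (hδ b hb) h
    obtain ⟨g, hg⟩ := ex_anti f
    have h1 : b - Polynomial.aeval τ g ∈ F0 := by
      rw [hF]
      refine ⟨(frac S).sub_mem (le_frac S hb)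
        (aev_mem (fun z hz => ((hF z).mp hz).1) hτ g), ?_⟩
      rw [map_sub, der_aev (fun z hz => ((hF z).mp hz).2) hτ1 g, hg, hf, sub_self]
    refine ⟨g + Polynomial.C ⟨_, h1⟩, ?_⟩
    rw [map_add, Polynomial.aeval_C]
    have h2 : (algebraMap F0 K) ⟨b - Polynomial.aeval τ g, h1⟩ = b - Polynomial.aeval τ g := rfl
    rw [h2]
    ring

theorem ex_a {δ : Derivation ℂ K K} {S : Subalgebra ℂ K} (hδ : Stab δ S) (hnil : LNil δ S)
    {x : K} (hx : x ∈ frac S) (hδx : δ x ≠ 0) : ∃ a ∈ S, δ a ≠ 0 ∧ δ (δ a) = 0 := by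
  classical
  obtain ⟨b, hb, hb0⟩ : ∃ b ∈ S, δ b ≠ 0 := by
    obtain ⟨r, hr, hr0, hrx⟩ := mem_frac.mp hx
    by_contra hc
    push Not at hc
    have h1 := hc _ hrx
    rw [δ.leibniz, hc r hr, smul_zero, add_zero, smul_eq_mul] at h1
    exact hδx ((mul_eq_zero.mp h1).resolve_left hr0)
  have hex := hnil b hb
  have hk := Nat.find_spec hex
  have hmin := fun m (hm : m < Nat.find hex) => Nat.find_min hex hm
  generalize Nat.find hex = k at hk hmin
  match k, hk, hmin with
  | 0, hk, _ =>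
    have h0 : b = 0 := by simpa using hk
    exact absurd (by rw [h0, map_zero]) hb0
  | 1, hk, _ =>
    have h0 : δ b = 0 := by
      rw [pow_one] at hk
      exact hk
    exact absurd h0 hb0
  | (m + 2), hk, hmin =>
    refine ⟨(en δ ^ m) b, it_mem hδ hb m, ?_, ?_⟩
    · have h1 := hmin (m + 1) (by omega)
      rw [pow_succ', Module.End.mul_apply] at h1
      exact h1
    · rw [pow_succ', pow_succ', Module.End.mul_apply, Module.End.mul_apply] at hk
      exact hk

end N2aux

open N2aux in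
theorem line_nil (δ : Derivation ℂ K K) (S : Subalgebra ℂ K) (hδ : Stab δ S) (hnil : LNil δ S)
    {x : K} (hx : x ∈ frac S) (hδx : δ x ≠ 0) :
    ∃ (F0 : IntermediateField ℂ K) (τ : K), Line δ S F0 τ := by
  obtain ⟨a, ha, ha1, ha2⟩ := ex_a hδ hnil hx hδx
  have hτ : a * (δ a)⁻¹ ∈ frac S :=
    (frac S).mul_mem (le_frac S ha) ((frac S).inv_mem (le_frac S (hδ a ha)))
  have hτ1 : δ (a * (δ a)⁻¹) = 1 := by
    rw [δ.leibniz, δ.leibniz_inv, ha2, smul_zero, smul_zero, zero_add, smul_eq_mul,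
      inv_mul_cancel₀ ha1]
  refine ⟨cF δ S, a * (δ a)⁻¹, mem_cF, hτ, ?_, Or.inl hτ1, ?_⟩
  · intro h
    rw [h, map_zero] at hτ1
    exact zero_ne_one hτ1
  · intro s hs
    obtain ⟨k, hk⟩ := hnil s hs
    obtain ⟨f, hf⟩ := main_aux hδ mem_cF hτ hτ1 k s hs hk
    exact ⟨f, 0, by rw [pow_zero, mul_one]; exact hf⟩

end Pool.Agent.H917.Mg
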