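import Pool.Agent.H917.M.N0

/-!
# PROJECT BND (helper917), task N3: gradings

## Paper proof
Let `S_q` be the set of `b ∈ S` with `δ b = q b` (`q : ℤ`). By `LInt` each element of `S` is a finite sum of elements of the `S_q`. The set of the integers `q` with `S_q ≠ 0` generates a subgroup of `ℤ`, `g ℤ`, and
`g ≠ 0` because `δ x ≠ 0`. The set of the integers `wt` such that there is a nonzero `z ∈ frac S` with `δ z = wt z` is a subgroup which contains all these `q` (products and inverses), so it contains `g`: there is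
`τ0 ∈ frac S`, `τ0 ≠ 0`, `δ τ0 = g τ0`. For `b ∈ S_q`, `q = g e`: `b / τ0^e ∈ F0`, where `F0` = the elements `z` of `frac S` with `δ z = 0`.
The conclusion is for the derivation `δ / g`, i.e. with `c = g⁻¹`: `(c • δ) τ0 = τ0`, and the elements of `S` are Laurent polynomials in `τ0` over `F0`.
-/

set_option autoImplicit false
set_option linter.overlappingInstances false
set_option linter.unusedSectionVars false

namespace Pool.Agent.H917.Mg

open Pool.Agent.Y377.EL Pool.Agent.Y377.IL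

variable {K : Type} [Field K] [Algebra ℂ K]

namespace N3aux

theorem der_pow {δ : Derivation ℂ K K} {z : K} {q : ℂ} (h : δ z = q • z) (n : ℕ) :
    δ (z ^ n) = ((n : ℂ) * q) • z ^ n := by
  induction n with
  | zero => simp
  | succ n ih =>
    rw [pow_succ, Derivation.leibniz, ih, h]
    simp only [smul_eq_mul, Algebra.smul_def, Nat.cast_add, Nat.cast_one, map_mul, map_add, map_one]
    ring

theorem der_mul {δ : Derivation ℂ K K} {y z : K} {p q : ℂ} (hy : δ y = p • y) (hz : δ z = q • z) :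
    δ (y * z) = (p + q) • (y * z) := by
  rw [Derivation.leibniz, hy, hz]
  simp only [smul_eq_mul, Algebra.smul_def, map_add]
  ring

theorem der_inv {δ : Derivation ℂ K K} {z : K} {q : ℂ} (hz0 : z ≠ 0) (hz : δ z = q • z) :
    δ z⁻¹ = (-q) • z⁻¹ := by
  have h1 : δ (z * z⁻¹) = 0 := by
    rw [mul_inv_cancel₀ hz0]
    exact δ.map_one_eq_zero
  rw [Derivation.leibniz, hz] at h1
  simp only [smul_eq_mul, Algebra.smul_def] at h1
  simp only [Algebra.smul_def, map_neg]
  have h2 : z * δ z⁻¹ = - (algebraMap ℂ K q) := by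
    have h3 : z⁻¹ * (algebraMap ℂ K q * z) = algebraMap ℂ K q := by
      field_simp
    rw [h3] at h1
    linear_combination h1
  have h4 : z * (δ z⁻¹) = z * (- algebraMap ℂ K q * z⁻¹) := by
    rw [h2]
    field_simp
  exact mul_left_cancel₀ hz0 h4

/-- the weights -/
def wts (δ : Derivation ℂ K K) (F : IntermediateField ℂ K) : AddSubgroup ℤ where
  carrier := {q | ∃ z ∈ F, z ≠ 0 ∧ δ z = (q : ℂ) • z}
  zero_mem' := ⟨1, F.one_mem, one_ne_zero, by simp⟩
  add_mem' := by
    rintro a b ⟨y, hy, hy0, hya⟩ ⟨z, hz, hz0, hzb⟩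
    refine ⟨y * z, F.mul_mem hy hz, mul_ne_zero hy0 hz0, ?_⟩
    rw [der_mul hya hzb]
    push_cast
    rfl
  neg_mem' := by
    rintro a ⟨y, hy, hy0, hya⟩
    refine ⟨y⁻¹, F.inv_mem hy, inv_ne_zero hy0, ?_⟩
    rw [der_inv hy0 hya]
    push_cast
    rfl

/-- the constants -/
def cst (δ : Derivation ℂ K K) (F : IntermediateField ℂ K) : IntermediateField ℂ K where
  carrier := {z | z ∈ F ∧ δ z = 0}
  mul_mem' := by
    rintro a b ⟨ha, ha0⟩ ⟨hb, hb0⟩
    refine ⟨F.mul_mem ha hb, ?_⟩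
    rw [Derivation.leibniz, ha0, hb0]
    simp
  add_mem' := by
    rintro a b ⟨ha, ha0⟩ ⟨hb, hb0⟩
    refine ⟨F.add_mem ha hb, ?_⟩
    rw [map_add, ha0, hb0, add_zero]
  algebraMap_mem' := fun r => ⟨F.algebraMap_mem r, δ.map_algebraMap r⟩
  inv_mem' := by
    rintro a ⟨ha, ha0⟩
    refine ⟨F.inv_mem ha, ?_⟩
    by_cases h : a = 0
    · rw [h, inv_zero, map_zero]
    · have h1 : δ a = (0 : ℂ) • a := by rw [ha0, zero_smul]
      rw [der_inv h h1, neg_zero, zero_smul]

theorem mem_cst {δ : Derivation ℂ K K} {F : IntermediateField ℂ K} {z : K} :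
    z ∈ cst δ F ↔ z ∈ F ∧ δ z = 0 := Iff.rfl

end N3aux

theorem line_int (δ : Derivation ℂ K K) (S : Subalgebra ℂ K) (hδ : Stab δ S) (hint : LInt δ S)
    {x : K} (hx : x ∈ frac S) (hδx : δ x ≠ 0) :
    ∃ (c : ℂ) (F0 : IntermediateField ℂ K) (τ : K), c ≠ 0 ∧ Line (c • δ) S F0 τ := by
  classical
  obtain ⟨g, hg⟩ := Int.subgroup_cyclic (N3aux.wts δ (frac S))
  have hmemw : ∀ (q : ℤ) (b : K), b ∈ S → b ≠ 0 → δ b = (q : ℂ) • b → g ∣ q := by
    intro q b hb hb0 hbq
    have h1 : q ∈ N3aux.wts δ (frac S) := ⟨b, le_frac S hb, hb0, hbq⟩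
    rw [hg, AddSubgroup.mem_closure_singleton] at h1
    obtain ⟨n, hn⟩ := h1
    exact ⟨n, by rw [← hn, smul_eq_mul, mul_comm]⟩
  have hg0 : g ≠ 0 := by
    intro h0
    apply hδx
    have hS : ∀ b ∈ S, δ b = 0 := by
      intro b hb
      have h1 := hint b hb
      refine Submodule.iSup_induction _ (motive := fun b => δ b = 0) h1 ?_ ?_ ?_
      · intro q b hb
        obtain ⟨hb1, hb2⟩ := Submodule.mem_inf.mp hb
        rw [Module.End.mem_eigenspace_iff] at hb2
        have hb3 : δ b = (q : ℂ) • b := hb2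
        by_cases hb0 : b = 0
        · rw [hb0, map_zero]
        · have h2 := hmemw q b hb1 hb0 hb3
          rw [h0, zero_dvd_iff] at h2
          rw [hb3, h2]
          simp
      · exact map_zero δ
      · intro a b ha hb
        rw [map_add, ha, hb, add_zero]
    obtain ⟨r, hr, hr0, hrx⟩ := hx
    have h3 := hS _ hrx
    rw [Derivation.leibniz, hS r hr, smul_zero, add_zero, smul_eq_mul] at h3
    exact (mul_eq_zero.mp h3).resolve_left hr0
  have hgmem : g ∈ N3aux.wts δ (frac S) := by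
    rw [hg]
    exact AddSubgroup.subset_closure (Set.mem_singleton g)
  obtain ⟨τ, hτ, hτ0, hτg⟩ := hgmem
  have hgC : (g : ℂ) ≠ 0 := by exact_mod_cast hg0
  have hFτ : ∀ (e : ℤ) (b : K), b ∈ S → δ b = ((g * e : ℤ) : ℂ) • b →
      b * τ ^ (-e) ∈ N3aux.cst δ (frac S) := by
    intro e b hb hbe
    rw [N3aux.mem_cst]
    refine ⟨(frac S).mul_mem (le_frac S hb) (zpow_mem hτ _), ?_⟩
    have hz : δ (τ ^ (-e)) = ((-e : ℤ) * (g : ℂ)) • τ ^ (-e) := by
      rcases Int.eq_nat_or_neg (-e) with ⟨n, hn | hn⟩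
      · rw [hn, zpow_natCast, N3aux.der_pow hτg n]
        push_cast
        rfl
      · rw [hn, zpow_neg, zpow_natCast, N3aux.der_inv (pow_ne_zero n hτ0) (N3aux.der_pow hτg n)]
        congr 1
        push_cast
        ring
    rw [N3aux.der_mul hbe hz]
    have h0 : (((g * e : ℤ) : ℂ) + ((-e : ℤ) : ℂ) * (g : ℂ)) = 0 := by
      push_cast
      ring
    rw [h0, zero_smul]
  refine ⟨(g : ℂ)⁻¹, N3aux.cst δ (frac S), τ, inv_ne_zero hgC, ?_⟩
  refine ⟨?_, hτ, hτ0, Or.inr ?_, ?_⟩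
  · intro z
    rw [N3aux.mem_cst, Derivation.smul_apply, smul_eq_zero]
    constructor
    · rintro ⟨h1, h2⟩
      exact ⟨h1, Or.inr h2⟩
    · rintro ⟨h1, h2⟩
      exact ⟨h1, h2.resolve_left (inv_ne_zero hgC)⟩
  · rw [Derivation.smul_apply, hτg, smul_smul, inv_mul_cancel₀ hgC, one_smul]
  · intro s hs
    have h1 := hint s hs
    refine Submodule.iSup_induction _ (motive := fun s => ∃ (f : Polynomial
      (N3aux.cst δ (frac S))) (k : ℕ), s * τ ^ k = Polynomial.aeval τ f) h1 ?_ ?_ ?_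
    · intro q b hb
      obtain ⟨hb1, hb2⟩ := Submodule.mem_inf.mp hb
      rw [Module.End.mem_eigenspace_iff] at hb2
      have hb3 : δ b = (q : ℂ) • b := hb2
      by_cases hb0 : b = 0
      · exact ⟨0, 0, by rw [hb0, zero_mul, map_zero]⟩
      · obtain ⟨e, he⟩ := hmemw q b hb1 hb0 hb3
        rw [he] at hb3
        have hc := hFτ e b hb1 hb3
        rcases Int.eq_nat_or_neg e with ⟨n, hn | hn⟩
        · refine ⟨Polynomial.C ⟨_, hc⟩ * Polynomial.X ^ n, 0, ?_⟩
          rw [map_mul, Polynomial.aeval_C, map_pow, Polynomial.aeval_X, pow_zero, mul_one]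
          change b = (b * τ ^ (-e)) * τ ^ n
          rw [hn, zpow_neg, zpow_natCast, mul_assoc, inv_mul_cancel₀ (pow_ne_zero n hτ0), mul_one]
        · refine ⟨Polynomial.C ⟨_, hc⟩, n, ?_⟩
          rw [Polynomial.aeval_C]
          change b * τ ^ n = (b * τ ^ (-e))
          rw [hn, neg_neg, zpow_natCast]
    · exact ⟨0, 0, by rw [zero_mul, map_zero]⟩
    · rintro a b ⟨f, k, hf⟩ ⟨f', k', hf'⟩
      refine ⟨f * Polynomial.X ^ k' + f' * Polynomial.X ^ k, k + k', ?_⟩
      rw [map_add, map_mul, map_mul, map_pow, map_pow, Polynomial.aeval_X, ← hf, ← hf']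
      ring

end Pool.Agent.H917.Mg
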