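import Pool.Agent.H917.M.N4b
import Pool.Agent.H917.M.P0

/-!
# PROJECT BND (helper917), task N4: the line does not meet the boundary outside `0`

## Paper proof
(`prime_dvd` of `M/N4b.lean` is the divisibility argument in (3); it is being proved by another helper, use it.) `F0`, `τ` as in `Line δ S F0 τ`. (1) `D` and `δ` commute on `frac S` (they commute on `S`; write `z = u / r`), and `frac S` is stable under `D` and `δ`. So `D z ∈ F0` for `z ∈ F0`. If `δ τ = 1` then `δ (D τ) = D 1 = 0`, so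
`D τ ∈ F0`; if `δ τ = τ` then `δ (D τ) = D τ`, so `D τ / τ ∈ F0`. `τ` is transcendental over `F0` (`δ` is zero on `F0`, so it is zero on algebraic elements, but `δ τ ≠ 0`). So there is a derivation (additive map with the Leibniz rule) `D'` of
`Polynomial F0` with `D' (C a) = C (D a)`, `D' X = C a0` (resp. `C b0 * X`), and `aeval τ (D' f) = D (aeval τ f)`.
(2) By `laur` every element of `S`, so every element of `frac S`, is a quotient of polynomials in `τ` over `F0`. So (common denominator, `x j0 ≠ 0`) there are `W i : Polynomial F0` and `W i (τ) / W j0 (τ) = x i / x j0`, and after division by the gcd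
(`Polynomial F0` is a PID) `∑ a i * W i = 1`. Then `W i = 0 ↔ x i = 0` and for a form `G` of degree `d`: `(aeval W G) (τ) = (W j0 (τ) / x j0)^d * aeval x G`. If all ratios `W i / W j` had zero derivative, then they would be constants in `F0`, and
`δ (x i / x j) = 0` for all `i, j`, a contradiction to `hδx`.
(3) Boundary: let `W j ≠ 0`, `b ∈ B j`; then `W b ≠ 0` by `hoff`. Claim: every prime factor `π` of `W b` divides `X * W j` (so `W b ∣ (X * W j) ^ N` for large `N`, in a UFD). Suppose not. Let `e ≥ 1` be the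
multiplicity of `π` in `W b` and `E = D' (W b) * W j - W b * D' (W j)`, `λ = D (x b / x j) / (x b / x j) = E(τ) / (W b W j)(τ)`. By `hrel`, `λ ^ m` times a power of `W j (τ)` is the value at `τ` of a polynomial over `F0` (`c l ∈ L0 ⊆ F0`, the coefficients from `k` are in `L0`
as well, `x i / x j = W i (τ) / W j (τ)`). So `E ^ m * W j ^ a = (W b * W j) ^ m * P0`, and as `π ∤ W j`: `π ^ (e m) ∣ E ^ m`, so `π ^ e ∣ E`, so `π ^ e ∣ D' (W b)`. With `W b = π ^ e V`, `π ∤ V`: `D' (W b) = e π^(e-1) (D' π) V + π ^ e D' V`, so `π ∣ D' π`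
(characteristic zero). So the ideal `(π)` is stable under `D'`. Let `I = {s ∈ S | ∃ f k, s * τ ^ k = aeval τ f ∧ π ∣ f}`: an `S`-submodule of `K` contained in `S`, stable under `D` (`D (s τ^k) = ..`; `D τ` is in `F0` or in `F0 τ`: if `D τ = a0` multiply by one more `τ`),
and `1 ∉ I` (`τ ^ k = f (τ)` implies `f = X ^ k`, and `π ∤ X`). By `DSimple` (definition in `Pool/Graph/R_seed8/Y377/IL/Basic.lean`), `I = 0`. But `π (τ) ∈ frac S` is nonzero: `r * π (τ) = s ∈ S`, `r ∈ S`, `r ≠ 0`, `r τ^k = f (τ)`, so `s τ^k = (f π)(τ)`, `s ∈ I`,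
`s ≠ 0`, a contradiction.
Take `M = F0`. (`Algebra k F0` is given by `hk`: `algebraMap k K c ∈ L0 ⊆ S` and `δ` is zero on it.)
-/

set_option autoImplicit false
set_option linter.overlappingInstances false
set_option linter.unusedSectionVars false

open MvPolynomial

namespace Pool.Agent.H917.Mg

open Pool.Agent.Y377.EL Pool.Agent.Y377.IL

namespace N4aux

variable {K : Type} [Field K] [Algebra ℂ K] {D δ : Derivation ℂ K K}
  {S : Subalgebra ℂ K} {F0 : IntermediateField ℂ K} {τ : K}

theorem comm_frac (hcomm : ∀ b ∈ S, D (δ b) = δ (D b)) {z : K} (hz : z ∈ frac S) :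
    D (δ z) = δ (D z) := by
  obtain ⟨r, hr, hr0, hrz⟩ := hz
  have h1 := hcomm r hr
  have h2 := hcomm (r * z) hrz
  simp only [Derivation.leibniz, smul_eq_mul, map_add] at h2
  have h3 : r * (D (δ z) - δ (D z)) = 0 := by
    linear_combination h2 - z * h1
  have h4 := (mul_eq_zero.1 h3).resolve_left hr0
  exact sub_eq_zero.1 h4

theorem D_mem (hS : Stab D S) (hcomm : ∀ b ∈ S, D (δ b) = δ (D b)) (hl : Line δ S F0 τ) {z : K}
    (hz : z ∈ F0) : D z ∈ F0 := by
  rw [hl.mem] at hz ⊢
  refine ⟨stab_frac hS hz.1, ?_⟩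
  rw [← comm_frac hcomm hz.1, hz.2, map_zero]

theorem exists_Dtau (hS : Stab D S) (hcomm : ∀ b ∈ S, D (δ b) = δ (D b)) (hl : Line δ S F0 τ) :
    ∃ g : Polynomial F0, Polynomial.aeval τ g = D τ := by
  have hfr := stab_frac hS hl.tau
  have hc := comm_frac hcomm hl.tau
  rcases hl.der with h | h
  · rw [h] at hc
    have h1 : D τ ∈ F0 := (hl.mem _).2 ⟨hfr, by
      rw [← hc]
      exact D.map_one_eq_zero⟩
    exact ⟨Polynomial.C ⟨D τ, h1⟩, by
      rw [Polynomial.aeval_C]
      rfl⟩
  · rw [h] at hc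
    have h1 : D τ / τ ∈ F0 := (hl.mem _).2 ⟨(frac S).div_mem hfr hl.tau, by
      rw [Derivation.leibniz_div, h, ← hc]
      simp only [smul_eq_mul]
      ring⟩
    exact ⟨Polynomial.C ⟨D τ / τ, h1⟩ * Polynomial.X, by
      rw [map_mul, Polynomial.aeval_C, Polynomial.aeval_X]
      show D τ / τ * τ = D τ
      exact div_mul_cancel₀ _ hl.ne⟩

theorem delta_aeval (hl : Line δ S F0 τ) (f : Polynomial F0) :
    δ (Polynomial.aeval τ f) = Polynomial.aeval τ (Polynomial.derivative f) * δ τ := by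
  induction f using Polynomial.induction_on' with
  | add p q hp hq =>
    rw [map_add, map_add, hp, hq, map_add, map_add, add_mul]
  | monomial n a =>
    have ha : δ (algebraMap F0 K a) = 0 := ((hl.mem _).1 a.2).2
    rw [Polynomial.aeval_monomial, Polynomial.derivative_monomial, Polynomial.aeval_monomial,
      δ.leibniz, Derivation.leibniz_pow, ha, map_mul, map_natCast]
    simp only [smul_eq_mul, mul_zero, add_zero, nsmul_eq_mul]
    ring

theorem delta_tau_ne (hl : Line δ S F0 τ) : δ τ ≠ 0 := by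
  rcases hl.der with h | h
  · rw [h]
    exact one_ne_zero
  · rw [h]
    exact hl.ne

theorem inj (hl : Line δ S F0 τ) :
    Function.Injective (Polynomial.aeval τ : Polynomial F0 →ₐ[F0] K) := by
  rw [injective_iff_map_eq_zero]
  have base : ∀ f : Polynomial F0, f.natDegree = 0 → Polynomial.aeval τ f = 0 → f = 0 := by
    intro f hf h
    rw [Polynomial.eq_C_of_natDegree_eq_zero hf, Polynomial.aeval_C] at h
    have h1 : f.coeff 0 = 0 := by
      rwa [map_eq_zero] at h
    rw [Polynomial.eq_C_of_natDegree_eq_zero hf, h1, map_zero]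
  have key : ∀ n : ℕ, ∀ f : Polynomial F0, f.natDegree ≤ n → Polynomial.aeval τ f = 0 → f = 0 := by
    intro n
    induction n with
    | zero => exact fun f hf h => base f (Nat.le_zero.1 hf) h
    | succ n ih =>
      intro f hf h
      have h1 := delta_aeval hl f
      rw [h, map_zero] at h1
      have h2 := (mul_eq_zero.1 h1.symm).resolve_right (delta_tau_ne hl)
      have h3 : Polynomial.derivative f = 0 :=
        ih _ ((Polynomial.natDegree_derivative_le f).trans (by omega)) h2
      exact base f (Polynomial.derivative_eq_zero.1 h3) h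
  exact fun f h => key _ f le_rfl h

theorem exists_pre (hS : Stab D S) (hcomm : ∀ b ∈ S, D (δ b) = δ (D b)) (hl : Line δ S F0 τ)
    (f : Polynomial F0) : ∃ g : Polynomial F0, Polynomial.aeval τ g = D (Polynomial.aeval τ f) := by
  obtain ⟨g0, hg0⟩ := exists_Dtau hS hcomm hl
  induction f using Polynomial.induction_on with
  | C a =>
    exact ⟨Polynomial.C ⟨D (a : K), D_mem hS hcomm hl a.2⟩, by
      rw [Polynomial.aeval_C, Polynomial.aeval_C]
      rfl⟩
  | add p q hp hq =>
    obtain ⟨g, hg⟩ := hp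
    obtain ⟨h, hh⟩ := hq
    exact ⟨g + h, by rw [map_add, map_add, map_add, hg, hh]⟩
  | monomial n a ih =>
    obtain ⟨g, hg⟩ := ih
    refine ⟨g * Polynomial.X + Polynomial.C a * Polynomial.X ^ n * g0, ?_⟩
    rw [pow_succ, ← mul_assoc, map_add, map_mul, map_mul _ _ g0, hg, hg0,
      map_mul _ (Polynomial.C a * Polynomial.X ^ n) Polynomial.X, D.leibniz, Polynomial.aeval_X]
    simp only [smul_eq_mul]
    ring

theorem exists_D' (hS : Stab D S) (hcomm : ∀ b ∈ S, D (δ b) = δ (D b)) (hl : Line δ S F0 τ) :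
    ∃ D' : Polynomial F0 →+ Polynomial F0, (∀ f g, D' (f * g) = D' f * g + f * D' g) ∧
      ∀ f, Polynomial.aeval τ (D' f) = D (Polynomial.aeval τ f) := by
  choose D' hD' using exists_pre hS hcomm hl
  have hinj := inj hl
  refine ⟨{ toFun := D', map_zero' := ?_, map_add' := ?_ }, ?_, hD'⟩
  · apply hinj
    rw [hD', map_zero, map_zero]
  · intro f g
    apply hinj
    rw [hD', map_add, map_add, map_add, hD', hD']
  · intro f g
    show D' (f * g) = D' f * g + f * D' g
    apply hinj
    rw [hD', map_mul, D.leibniz, map_add, map_mul, map_mul, hD', hD']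
    simp only [smul_eq_mul]
    ring

theorem frac_quot (hl : Line δ S F0 τ) {z : K} (hz : z ∈ frac S) :
    ∃ p q : Polynomial F0, q ≠ 0 ∧ z * Polynomial.aeval τ q = Polynomial.aeval τ p := by
  obtain ⟨r, hr, hr0, hrz⟩ := hz
  obtain ⟨f, k, hf⟩ := hl.laur r hr
  obtain ⟨g, l, hg⟩ := hl.laur _ hrz
  refine ⟨g * Polynomial.X ^ k, f * Polynomial.X ^ l, ?_, ?_⟩
  · refine mul_ne_zero ?_ (pow_ne_zero _ Polynomial.X_ne_zero)
    rintro rfl
    rw [map_zero] at hf
    exact mul_ne_zero hr0 (pow_ne_zero _ hl.ne) hf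
  · rw [map_mul, map_mul, map_pow, map_pow, Polynomial.aeval_X, ← hf, ← hg]
    ring

theorem exists_W (hl : Line δ S F0 τ) {n : ℕ} {x : Fin (n + 1) → K} (hx : x ≠ 0)
    (hxS : ∀ i j, x i / x j ∈ frac S) :
    ∃ (W a : Fin (n + 1) → Polynomial F0) (ρ : K), ρ ≠ 0 ∧ ∑ i, a i * W i = 1 ∧
      ∀ i, Polynomial.aeval τ (W i) = ρ * x i := by
  classical
  obtain ⟨j0, hj0⟩ : ∃ j, x j ≠ 0 := by
    by_contra h
    push Not at h
    exact hx (funext h)
  have hinj := inj hl
  choose p q hq hpq using fun i => frac_quot hl (hxS i j0)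
  set Q : Polynomial F0 := ∏ i, q i with hQ
  have hQ0 : Q ≠ 0 := Finset.prod_ne_zero_iff.2 fun i _ => hq i
  have hQτ : Polynomial.aeval τ Q ≠ 0 := fun h => hQ0 (hinj (by rw [h, map_zero]))
  set V : Fin (n + 1) → Polynomial F0 := fun i => p i * ∏ l ∈ Finset.univ.erase i, q l with hV
  have hVτ : ∀ i, Polynomial.aeval τ (V i) = x i / x j0 * Polynomial.aeval τ Q := by
    intro i
    have h1 : Q = q i * ∏ l ∈ Finset.univ.erase i, q l :=
      (Finset.mul_prod_erase Finset.univ q (Finset.mem_univ i)).symm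
    have h2 : Polynomial.aeval τ (V i) = Polynomial.aeval τ (p i) *
        Polynomial.aeval τ (∏ l ∈ Finset.univ.erase i, q l) := map_mul _ _ _
    rw [h2, h1, map_mul, ← mul_assoc, hpq i]
  -- the gcd
  let J : Ideal (Polynomial F0) := Ideal.span (Set.range V)
  obtain ⟨h, hh⟩ := (IsPrincipalIdealRing.principal J).principal
  have hVJ : ∀ i, V i ∈ J := fun i => Ideal.subset_span ⟨i, rfl⟩
  have hdiv : ∀ i, ∃ w, V i = h * w := by
    intro i
    have h1 := hVJ i
    rw [hh] at h1
    exact Ideal.mem_span_singleton'.1 h1 |>.imp fun w hw => by rw [← hw, mul_comm]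
  choose W hW using hdiv
  have hhJ : h ∈ J := by
    rw [hh]
    exact Submodule.mem_span_singleton_self h
  obtain ⟨a, ha⟩ : ∃ a : Fin (n + 1) → Polynomial F0, ∑ i, a i * V i = h := by
    have h1 := (Ideal.mem_span_range_iff_exists_fun (R := Polynomial F0)).1 hhJ
    exact h1
  have hh0 : h ≠ 0 := by
    intro h0
    have h1 := hVτ j0
    rw [hW j0, h0, zero_mul, map_zero, div_self hj0, one_mul] at h1
    exact hQτ h1.symm
  have hhτ : Polynomial.aeval τ h ≠ 0 := fun h' => hh0 (hinj (by rw [h', map_zero]))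
  refine ⟨W, a, Polynomial.aeval τ Q / (Polynomial.aeval τ h * x j0),
    div_ne_zero hQτ (mul_ne_zero hhτ hj0), ?_, ?_⟩
  · have h1 : h * ∑ i, a i * W i = h * 1 := by
      rw [mul_one, Finset.mul_sum]
      calc ∑ i, h * (a i * W i) = ∑ i, a i * V i := Finset.sum_congr rfl fun i _ => by
            rw [hW i]
            ring
        _ = h := ha
    exact mul_left_cancel₀ hh0 h1
  · intro i
    have h1 := hVτ i
    rw [hW i, map_mul] at h1
    field_simp
    field_simp at h1
    linear_combination h1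

theorem dvd_pow_of_prime {F : Type} [Field F] {b : Polynomial F} (a : Polynomial F) (ha : a ≠ 0)
    (h : ∀ π, Prime π → π ∣ a → π ∣ b) : ∃ N : ℕ, a ∣ b ^ N := by
  induction a using WfDvdMonoid.induction_on_irreducible with
  | zero => exact absurd rfl ha
  | unit u hu => exact ⟨0, by
      rw [pow_zero]
      exact hu.dvd⟩
  | mul a i ha0 hi ih =>
    obtain ⟨N, hN⟩ := ih ha0 fun π hπ hd => h π hπ (hd.mul_left i)
    have h1 : i ∣ b := h i hi.prime (dvd_mul_right i a)
    exact ⟨N + 1, by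
      rw [pow_succ, mul_comm i a]
      exact mul_dvd_mul hN h1⟩

/-- the elements `z` with `z * w ^ N ∈ F0[τ]` -/
def Loc (F0 : IntermediateField ℂ K) (τ w z : K) : Prop :=
  ∃ (N : ℕ) (P : Polynomial F0), z * w ^ N = Polynomial.aeval τ P

theorem Loc.add {q : Polynomial F0} {z z' : K} (h : Loc F0 τ (Polynomial.aeval τ q) z)
    (h' : Loc F0 τ (Polynomial.aeval τ q) z') : Loc F0 τ (Polynomial.aeval τ q) (z + z') := by
  obtain ⟨N, P, hP⟩ := h
  obtain ⟨N', P', hP'⟩ := h'
  refine ⟨N + N', P * q ^ N' + P' * q ^ N, ?_⟩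
  rw [map_add, map_mul, map_mul, map_pow, map_pow, ← hP, ← hP']
  ring

theorem Loc.mul {w z z' : K} (h : Loc F0 τ w z) (h' : Loc F0 τ w z') : Loc F0 τ w (z * z') := by
  obtain ⟨N, P, hP⟩ := h
  obtain ⟨N', P', hP'⟩ := h'
  refine ⟨N + N', P * P', ?_⟩
  rw [map_mul, ← hP, ← hP']
  ring

theorem Loc.mem {w z : K} (h : z ∈ F0) : Loc F0 τ w z :=
  ⟨0, Polynomial.C ⟨z, h⟩, by
    rw [pow_zero, mul_one, Polynomial.aeval_C]
    rfl⟩

theorem Loc.sum {q : Polynomial F0} {N : ℕ} (g : Fin N → K)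
    (h : ∀ l, Loc F0 τ (Polynomial.aeval τ q) (g l)) :
    Loc F0 τ (Polynomial.aeval τ q) (∑ l, g l) := by
  classical
  have key : ∀ s : Finset (Fin N), Loc F0 τ (Polynomial.aeval τ q) (∑ l ∈ s, g l) := by
    intro s
    induction s using Finset.induction_on with
    | empty =>
      rw [Finset.sum_empty]
      exact Loc.mem F0.zero_mem
    | insert a s ha ih =>
      rw [Finset.sum_insert ha]
      exact (h a).add ih
  exact key _

theorem Loc.aeval {q : Polynomial F0} {k : Type} [Field k] [Algebra k K]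
    (hk : ∀ c : k, algebraMap k K c ∈ F0) {n : ℕ} {y : Fin (n + 1) → K}
    (h : ∀ i, Loc F0 τ (Polynomial.aeval τ q) (y i)) (β : MvPolynomial (Fin (n + 1)) k) :
    Loc F0 τ (Polynomial.aeval τ q) (MvPolynomial.aeval y β) := by
  induction β using MvPolynomial.induction_on with
  | C a =>
    rw [MvPolynomial.aeval_C]
    exact Loc.mem (hk a)
  | add p p' hp hp' =>
    rw [map_add]
    exact hp.add hp'
  | mul_X p i hp =>
    rw [map_mul, MvPolynomial.aeval_X]
    exact hp.mul (h i)

/-- a `D'`-stable prime is associated to `X` -/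
theorem no_prime (hS : Stab D S) (hsim : DSimple D S) (hcomm : ∀ b ∈ S, D (δ b) = δ (D b))
    (hl : Line δ S F0 τ) {D' : Polynomial F0 →+ Polynomial F0}
    (hmul : ∀ f g, D' (f * g) = D' f * g + f * D' g)
    (haev : ∀ f, Polynomial.aeval τ (D' f) = D (Polynomial.aeval τ f)) {π : Polynomial F0}
    (hπ : Prime π) (hd : π ∣ D' π) : π ∣ Polynomial.X := by
  by_contra hX
  obtain ⟨g, hg⟩ := exists_Dtau hS hcomm hl
  have hinj := inj hl
  let I : Submodule S K :=
    { carrier := {s | s ∈ S ∧ ∃ (f : Polynomial F0) (k : ℕ), s * τ ^ k = Polynomial.aeval τ f ∧ π ∣ f}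
      add_mem' := by
        rintro a b ⟨ha, f, k, hf, hf'⟩ ⟨hb, g, l, hg, hg'⟩
        refine ⟨S.add_mem ha hb, f * Polynomial.X ^ l + g * Polynomial.X ^ k, k + l, ?_,
          dvd_add (hf'.mul_right _) (hg'.mul_right _)⟩
        rw [map_add, map_mul, map_mul, map_pow, map_pow, Polynomial.aeval_X, ← hf, ← hg]
        ring
      zero_mem' := ⟨S.zero_mem, 0, 0, by rw [map_zero, zero_mul], dvd_zero _⟩
      smul_mem' := by
        rintro c a ⟨ha, f, k, hf, hf'⟩
        obtain ⟨g, l, hg⟩ := hl.laur c c.2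
        refine ⟨S.mul_mem c.2 ha, g * f, l + k, ?_, hf'.mul_left _⟩
        rw [map_mul, ← hf, ← hg]
        show (c : K) * a * τ ^ (l + k) = _
        ring }
  have h1 : (1 : K) ∈ I := by
    apply hsim I (fun x hx => hx.1)
    · rintro s ⟨hs, f, k, hf, hf'⟩
      refine ⟨hS s hs, Polynomial.X * D' f - (k : Polynomial F0) * f * g, k + 1, ?_, ?_⟩
      · have h2 : D (s * τ ^ k) = Polynomial.aeval τ (D' f) := by rw [haev, hf]
        rw [D.leibniz, Derivation.leibniz_pow] at h2
        simp only [smul_eq_mul, nsmul_eq_mul] at h2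
        rw [map_sub, map_mul, map_mul, map_mul, map_natCast, Polynomial.aeval_X, ← h2, hg, ← hf]
        rcases k with _ | k
        · simp
          ring
        · rw [Nat.add_sub_cancel]
          ring
      · obtain ⟨h, rfl⟩ := hf'
        have h3 : π ∣ D' (π * h) := by
          rw [hmul]
          exact dvd_add (hd.mul_right _) (dvd_mul_right _ _)
        refine dvd_sub (h3.mul_left _) ?_
        exact ((dvd_mul_right π h).mul_left _).mul_right _
    · -- a nonzero element
      have hπτ : Polynomial.aeval τ π ≠ 0 := fun h => hπ.ne_zero (hinj (by rw [h, map_zero]))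
      have hfr : Polynomial.aeval τ π ∈ frac S := by
        rw [Polynomial.aeval_eq_sum_range]
        refine (frac S).sum_mem fun i _ => ?_
        rw [Algebra.smul_def]
        exact (frac S).mul_mem ((hl.mem _).1 (π.coeff i).2).1 (show τ ^ i ∈ frac S from pow_mem hl.tau i)
      obtain ⟨r, hr, hr0, hrz⟩ := hfr
      obtain ⟨f, k, hf⟩ := hl.laur r hr
      refine ⟨r * Polynomial.aeval τ π, ⟨hrz, f * π, k, ?_, dvd_mul_left _ _⟩,
        mul_ne_zero hr0 hπτ⟩
      rw [map_mul, ← hf]
      ring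
  obtain ⟨_, f, k, hf, hf'⟩ := h1
  have h2 : f = Polynomial.X ^ k := by
    apply hinj
    rw [← hf, one_mul, map_pow, Polynomial.aeval_X]
  rw [h2] at hf'
  exact hX (hπ.dvd_of_dvd_pow hf')

theorem aeval_hom {k : Type} [Field k] [Algebra k K] {n d : ℕ} (ρ : K) (x : Fin (n + 1) → K)
    (G : MvPolynomial (Fin (n + 1)) k) (hG : G.IsHomogeneous d) :
    MvPolynomial.aeval (fun i => ρ * x i) G = ρ ^ d * MvPolynomial.aeval x G := by
  rw [MvPolynomial.aeval_def, MvPolynomial.aeval_def, MvPolynomial.eval₂_eq, MvPolynomial.eval₂_eq,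
    Finset.mul_sum]
  refine Finset.sum_congr rfl fun m hm => ?_
  have h1 : ∑ i ∈ m.support, m i = d := by
    have h2 := hG (MvPolynomial.mem_support_iff.1 hm)
    rw [Finsupp.weight_apply] at h2
    rw [← h2, Finsupp.sum]
    exact Finset.sum_congr rfl fun i _ => by simp
  have h3 : ∏ i ∈ m.support, (ρ * x i) ^ m i = ρ ^ d * ∏ i ∈ m.support, x i ^ m i := by
    rw [← h1, ← Finset.prod_pow_eq_pow_sum, ← Finset.prod_mul_distrib]
    exact Finset.prod_congr rfl fun i _ => mul_pow _ _ _
  rw [h3]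
  ring

end N4aux

open N4aux in
theorem line_curve {K : Type} [Field K] [Algebra ℂ K] {D δ : Derivation ℂ K K}
    {S : Subalgebra ℂ K} {F0 : IntermediateField ℂ K} {τ : K} (hS : Stab D S)
    (hsim : DSimple D S) (hδ : Stab δ S) (hcomm : ∀ b ∈ S, D (δ b) = δ (D b))
    (hl : Line δ S F0 τ) {L0 : Subalgebra ℂ K} (hL0 : L0 ≤ S) (hδ0 : ∀ a ∈ L0, δ a = 0)
    {k : Type} [Field k] [Algebra k K] (hk : ∀ c : k, algebraMap k K c ∈ L0) {n m : ℕ}
    (hm : 1 ≤ m) {B : Fin (n + 1) → Finset (Fin (n + 1))} {x : Fin (n + 1) → K} (hx : x ≠ 0)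
    (hxS : ∀ i j, x i / x j ∈ frac S) (hoff : OffB B x) (hδx : ∃ i j, δ (x i / x j) ≠ 0)
    (hrel : ∀ j, x j ≠ 0 → ∀ b ∈ B j, ∃ (N : ℕ) (β : Fin N → MvPolynomial (Fin (n + 1)) k)
      (c : Fin N → K), (∀ l, c l ∈ L0) ∧ (D (x b / x j) / (x b / x j)) ^ m =
        ∑ l, aeval (fun i => x i / x j) (β l) * c l) :
    ∃ (M : Type) (_ : Field M) (_ : Algebra k M) (W : Fin (n + 1) → Polynomial M),
      (∀ G : MvPolynomial (Fin (n + 1)) k, (∃ d, G.IsHomogeneous d) →
        (aeval W G = 0 ↔ aeval x G = 0)) ∧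
      (∃ a : Fin (n + 1) → Polynomial M, ∑ i, a i * W i = 1) ∧
      (∀ j, W j ≠ 0 → ∀ b ∈ B j, ∃ N : ℕ, W b ∣ (Polynomial.X * W j) ^ N) ∧
      ∃ i j, Polynomial.derivative (W i) * W j ≠ W i * Polynomial.derivative (W j) := by
  classical
  have hLF : ∀ a ∈ L0, a ∈ F0 := fun a ha => (hl.mem a).2 ⟨le_frac S (hL0 ha), hδ0 a ha⟩
  have hkF : ∀ c : k, algebraMap k K c ∈ F0 := fun c => hLF _ (hk c)
  have hinj := inj hl
  obtain ⟨W, a, ρ, hρ, hbez, hWτ⟩ := exists_W hl hx hxS
  obtain ⟨D', hmul, haev⟩ := exists_D' hS hcomm hl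
  have hW0 : ∀ i, W i = 0 ↔ x i = 0 := by
    intro i
    constructor
    · intro h
      have h1 := hWτ i
      rw [h, map_zero] at h1
      exact (mul_eq_zero.1 h1.symm).resolve_left hρ
    · intro h
      apply hinj
      rw [hWτ, h, mul_zero, map_zero]
  have hquot : ∀ i j, x i / x j = Polynomial.aeval τ (W i) / Polynomial.aeval τ (W j) := by
    intro i j
    rw [hWτ, hWτ, mul_div_mul_left _ _ hρ]
  let φ : k →+* F0 := (algebraMap k K).codRestrict F0.toSubfield hkF
  letI alg : Algebra k F0 := φ.toAlgebra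
  haveI tow : IsScalarTower k F0 K := IsScalarTower.of_algebraMap_eq fun c => rfl
  refine ⟨F0, inferInstance, alg, W, ?_, ⟨a, hbez⟩, ?_, ?_⟩
  · rintro G ⟨d, hG⟩
    have h1 : Polynomial.aeval τ (aeval W G) = ρ ^ d * aeval x G := by
      have h2 : Polynomial.aeval τ (aeval W G) =
          aeval (fun i => Polynomial.aeval τ (W i)) G := by
        have h3 := MvPolynomial.comp_aeval_apply (R := k) (f := W)
          ((Polynomial.aeval τ : Polynomial F0 →ₐ[F0] K).restrictScalars k) G
        exact h3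
      rw [h2, ← aeval_hom ρ x G hG]
      congr 2
      funext i
      exact hWτ i
    constructor
    · intro h
      rw [h, map_zero] at h1
      exact (mul_eq_zero.1 h1.symm).resolve_left (pow_ne_zero _ hρ)
    · intro h
      apply hinj
      rw [h1, h, mul_zero, map_zero]
  · intro j hWj b hb
    have hxj : x j ≠ 0 := fun h => hWj ((hW0 j).2 h)
    have hxb : x b ≠ 0 := hoff j hxj b hb
    have hWb : W b ≠ 0 := fun h => hxb ((hW0 b).1 h)
    refine dvd_pow_of_prime (W b) hWb ?_
    intro π hπ hπb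
    by_contra hπn
    have hπX : ¬ π ∣ Polynomial.X := fun h => hπn (h.mul_right _)
    have hπj : ¬ π ∣ W j := fun h => hπn (h.mul_left _)
    have hwj : Polynomial.aeval τ (W j) ≠ 0 := fun h => hWj (hinj (by rw [h, map_zero]))
    have hwb : Polynomial.aeval τ (W b) ≠ 0 := fun h => hWb (hinj (by rw [h, map_zero]))
    obtain ⟨N, β, c, hc, hlam⟩ := hrel j hxj b hb
    have hloc : Loc F0 τ (Polynomial.aeval τ (W j)) ((D (x b / x j) / (x b / x j)) ^ m) := by
      rw [hlam]
      refine Loc.sum _ fun l => ?_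
      refine Loc.mul (Loc.aeval hkF (fun i => ?_) (β l)) (Loc.mem (hLF _ (hc l)))
      refine ⟨1, W i, ?_⟩
      rw [hquot, pow_one, div_mul_cancel₀ _ hwj]
    obtain ⟨s, P0, hP0⟩ := hloc
    have hE : D (x b / x j) / (x b / x j) = Polynomial.aeval τ (D' (W b) * W j - W b * D' (W j)) /
        (Polynomial.aeval τ (W b) * Polynomial.aeval τ (W j)) := by
      rw [hquot, Derivation.leibniz_div, map_sub, map_mul, map_mul, haev, haev]
      simp only [smul_eq_mul]
      field_simp
    have h4 : (D' (W b) * W j - W b * D' (W j)) ^ m * W j ^ s = (W b * W j) ^ m * P0 := by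
      apply hinj
      rw [hE] at hP0
      rw [map_mul _ _ P0, ← hP0, map_mul, map_pow, map_pow, map_pow, map_mul _ (W b) (W j), div_pow]
      field_simp
    exact hπX (no_prime hS hsim hcomm hl hmul haev hπ (prime_dvd D' hmul hm hWb h4 hπ hπb hπj))
  · by_contra hcon
    push Not at hcon
    obtain ⟨i, j, hij⟩ := hδx
    apply hij
    rw [hquot, Derivation.leibniz_div, delta_aeval hl, delta_aeval hl]
    have h1 := congrArg (Polynomial.aeval τ) (hcon i j)
    rw [map_mul, map_mul] at h1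
    simp only [smul_eq_mul]
    linear_combination ((Polynomial.aeval τ (W j))⁻¹ ^ 2 * δ τ) * h1

end Pool.Agent.H917.Mg
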