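import Pool.Graph.R_seed8.Y405.IL.Lgt
import Pool.Agent.H917.M.P0

/-!
# PROJECT BND (helper917), task N5: varieties covered by punctured lines outside the boundary

## Paper proof
This is the statement `t_LGT` (`Pool/Graph/R_seed8/Y405/IL/Lgt.lean`) for a general boundary.
(1) Descent (port of `desc` in `Pool/Graph/R_seed8/TH143/GT/Desc.lean`): the finitely many polynomials `W i`, `a i` and the cofactors `H` with `(X * W j) ^ N = W b * H` have coefficients in a finitely generated subfield `M'` of `M` over `ℂ`, so one may assume that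
`Algebra.trdeg ℂ M = m` is finite.
(2) Port of `Fam.main` (third statement, `Pool/Graph/R_seed8/TH143/GT/Sec.lean`), `Fam.const`, `Fam.emb`, `Fam.ne` (`Fam.lean`): the embedding `φ : K → RatFunc M` with `φ (y i / y j) = W i / W j`, the derivation `δ = X d/dX` (`exists_delta`), and `core_const`
(`Core.lean`) with `Bd = BdP B y`. The only new point is the replacement of `Fam.bound`: let `P` be a place of `RatFunc M` over `ℂ`, with `P.ord c = 0` for `c ∈ M`, `c ≠ 0`, and `P.ord X = 0`, `Over P v e`; show `¬ BdP B y v`. All polynomials are regular at `P`. Let `j` be as in `BdP`: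
`y j ≠ 0`, all `y i / y j` regular at `v`, so all `W i / W j` are regular at `P`, i.e. `P.ord (W i) ≥ P.ord (W j)` (if `W i ≠ 0`); by `∑ a i * W i = 1` not all `W i` have positive order, so `P.ord (W j) = 0`. For `b ∈ B j`, `W b * H = (X * W j) ^ N` has
order `0`, so `P.ord (W b) = 0` and `v.ord (y b / y j) = 0` (`Over`: `P.ord (φ z) = e * v.ord z`), a contradiction to `0 < v.ord (y b / y j)`. (`W b ≠ 0` because `y b ≠ 0`, by `hoff`.)
-/

set_option autoImplicit false
set_option linter.overlappingInstances false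
set_option linter.unusedSectionVars false

open MvPolynomial FF

namespace Pool.Agent.H917.Mg

open Pool.Agent.W602.GT (LogGeneralType coords)

namespace N5aux

open Pool.Agent.TH143.GT Pool.Agent.W603.LV
open Pool.Agent.W602.GT (IsPluri Divisorial DerReg DerLog RegAt LogAt)

/-- the places over the boundary -/
theorem bound {K M : Type} [Field K] [Field M] [Algebra ℂ K] [Algebra ℂ M] {n : ℕ}
    {B : Fin (n + 1) → Finset (Fin (n + 1))} {y : Fin (n + 1) → K} (hoff : OffB B y)
    {W : Fin (n + 1) → Polynomial M} (hne : ∀ i, y i ≠ 0 ↔ W i ≠ 0)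
    [Algebra K (RatFunc M)] [IsScalarTower ℂ K (RatFunc M)]
    (hφ : ∀ i j, y j ≠ 0 → algebraMap K (RatFunc M) (y i / y j) = rf (W i) / rf (W j))
    {a : Fin (n + 1) → Polynomial M} (ha : ∑ i, a i * W i = 1)
    (hbd : ∀ j, W j ≠ 0 → ∀ b ∈ B j, ∃ (N : ℕ) (H : Polynomial M),
      (Polynomial.X * W j) ^ N = W b * H)
    (P : Place ℂ (RatFunc M)) (hP : ∀ c : M, c ≠ 0 → P.ord (algebraMap M (RatFunc M) c) = 0)
    (hX : P.ord (RatFunc.X : RatFunc M) = 0) (v : Place ℂ K) (e : ℕ) (hv : Over P v e) :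
    ¬ BdP B y v := by
  rintro ⟨j, hj, hreg, b, hb, hlt⟩
  have hXn : (RatFunc.X : RatFunc M) ≠ 0 := RatFunc.X_ne_zero
  have hWj : rf (W j) ≠ 0 := by
    rw [Ne, rf_zero]
    exact (hne j).1 hj
  -- polynomials are regular
  have hpr : ∀ p : Polynomial M, P.Reg (rf p) := by
    intro p
    induction p using Polynomial.induction_on' with
    | add p q hp hq =>
      unfold rf at hp hq ⊢
      rw [map_add]
      exact P.reg_add hp hq
    | monomial n a =>
      unfold rf
      rw [← Polynomial.C_mul_X_pow_eq_monomial, map_mul, map_pow, RatFunc.algebraMap_X,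
        RatFunc.algebraMap_C]
      refine P.reg_mul ?_ ?_
      · by_cases ha : a = 0
        · left
          rw [ha, map_zero]
        · right
          exact (hP a ha).ge
      · right
        rw [P.ord_pow, hX, mul_zero]
  -- the coordinates
  have h1 : ∀ i, P.Reg (rf (W i) / rf (W j)) := by
    intro i
    rw [← hφ i j hj, hv.reg]
    exact hreg i
  have h2 : P.Reg (rf (W j))⁻¹ := by
    have h3 : (rf (W j))⁻¹ = ∑ i, rf (a i) * (rf (W i) / rf (W j)) := by
      have h4 : ∑ i, rf (a i) * (rf (W i) / rf (W j)) = (∑ i, rf (a i) * rf (W i)) / rf (W j) := by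
        rw [Finset.sum_div]
        refine Finset.sum_congr rfl fun i _ => ?_
        rw [mul_div_assoc]
      have h5 : ∑ i, rf (a i) * rf (W i) = 1 := by
        have h6 : rf (∑ i, a i * W i) = 1 := by
          rw [ha]
          exact map_one _
        rw [← h6]
        unfold rf
        rw [map_sum]
        refine Finset.sum_congr rfl fun i _ => ?_
        rw [map_mul]
      rw [h4, h5, one_div]
    rw [h3]
    refine Finset.sum_induction _ (fun z => P.Reg z) (fun x y hx hy => P.reg_add hx hy) P.reg_zero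
      fun i _ => ?_
    exact P.reg_mul (hpr _) (h1 i)
  have h3 : P.ord (rf (W j)) = 0 := by
    have h4 := (P.reg_iff hWj).1 (hpr (W j))
    have h5 := (P.reg_iff (inv_ne_zero hWj)).1 h2
    rw [P.ord_inv] at h5
    omega
  obtain ⟨N, H, hH⟩ := hbd j ((hne j).1 hj) b hb
  have hyb : y b ≠ 0 := hoff j hj b hb
  have hWb : rf (W b) ≠ 0 := by
    rw [Ne, rf_zero]
    exact (hne b).1 hyb
  have hH' : rf (W b) * rf H = (RatFunc.X * rf (W j)) ^ N := by
    rw [← rf_mul, ← hH]
    unfold rf
    rw [map_pow, map_mul, RatFunc.algebraMap_X]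
  have hHn : rf H ≠ 0 := by
    intro h0
    rw [h0, mul_zero] at hH'
    exact pow_ne_zero N (mul_ne_zero hXn hWj) hH'.symm
  have h6 : P.ord (rf (W b)) + P.ord (rf H) = 0 := by
    rw [← P.ord_mul hWb hHn, hH', P.ord_pow, P.ord_mul hXn hWj, hX, h3, add_zero, mul_zero]
  have h7 : P.ord (rf (W b)) = 0 := by
    have h8 := (P.reg_iff hWb).1 (hpr (W b))
    have h9 := (P.reg_iff hHn).1 (hpr H)
    omega
  have h8 := hv.2 (y b / y j)
  rw [hφ b j hj, P.ord_div hWb hWj, h7, h3, sub_zero] at h8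
  have h9 : 0 < (e : ℤ) * v.ord (y b / y j) := mul_pos (by exact_mod_cast hv.1) hlt
  omega

/-- the statement for families parametrised by a field of finite transcendence degree -/
theorem flat {K : Type} [Field K] [Algebra ℂ K] {n w m : ℕ}
    {B : Fin (n + 1) → Finset (Fin (n + 1))} {y : Fin (n + 1) → K} (hy : y ≠ 0)
    (hgen : coords ℂ y = ⊤) (hdim : Algebra.trdeg ℂ K = w) (hoff : OffB B y)
    {M : Type} [Field M] [Algebra ℂ M] (hm : Algebra.trdeg ℂ M = m)
    (W : Fin (n + 1) → Polynomial M)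
    (hrel : ∀ G : MvPolynomial (Fin (n + 1)) ℂ, (∃ d, G.IsHomogeneous d) →
      (aeval y G = 0 ↔ aeval W G = 0))
    {a : Fin (n + 1) → Polynomial M} (ha : ∑ i, a i * W i = 1)
    (hbd : ∀ j, W j ≠ 0 → ∀ b ∈ B j, ∃ (N : ℕ) (H : Polynomial M),
      (Polynomial.X * W j) ^ N = W b * H)
    (hL : LogGeneralType ℂ K w (BdP B y)) (i j : Fin (n + 1)) (hj : W j ≠ 0) :
    Polynomial.derivative (W i) * W j = W i * Polynomial.derivative (W j) := by
  classical
  have hF : Fam y (1 : MvPolynomial (Fin (n + 1)) ℂ) W 0 := by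
    refine ⟨fun G hG => hrel G hG, 1, one_ne_zero, ?_⟩
    rw [map_one, map_one, pow_zero, mul_one]
  have hne : ∀ i, y i ≠ 0 ↔ W i ≠ 0 := fun i => hF.ne i
  obtain ⟨φ, hφ⟩ := hF.emb hy hgen
  obtain ⟨δ, hδ, htop⟩ := exists_delta ℂ M
  have hess : Algebra.EssFiniteType ℂ K := ess_of_coords hgen
  let _ : Algebra K (RatFunc M) := φ.toRingHom.toAlgebra
  have t1 : IsScalarTower ℂ K (RatFunc M) := IsScalarTower.of_algebraMap_eq fun c => by
    change _ = φ (algebraMap ℂ K c)
    rw [φ.commutes]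
  have hφ1 : ∀ i j, y j ≠ 0 → algebraMap K (RatFunc M) (y i / y j) = rf (W i) / rf (W j) := by
    intro i j hj
    have h1 := hφ 1 (X i) (X j) (isHomogeneous_X ℂ i) (isHomogeneous_X ℂ j) (by
      unfold Pool.Agent.W602.GT.val
      rw [aeval_X]
      exact hj)
    unfold Pool.Agent.W602.GT.val at h1
    rw [aeval_X, aeval_X, aeval_X, aeval_X] at h1
    exact h1
  have hLd : Algebra.trdeg ℂ (RatFunc M) = (m + 1 : ℕ) := trdeg_ratFunc ℂ M hm
  have hX0 : (RatFunc.X : RatFunc M) ≠ 0 := RatFunc.X_ne_zero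
  have hX : δ (RatFunc.X : RatFunc M) = RatFunc.X := by
    have := hδ Polynomial.X
    rwa [RatFunc.algebraMap_X, Polynomial.derivative_X, map_one, mul_one] at this
  have hcM : ∀ c : M, δ (algebraMap M (RatFunc M) c) = 0 := by
    intro c
    have := hδ (Polynomial.C c)
    rw [Polynomial.derivative_C, map_zero, mul_zero, RatFunc.algebraMap_C] at this
    exact this
  obtain ⟨y0, hy0⟩ : ∃ y0 : Fin w → K, IsTranscendenceBasis ℂ y0 := by
    obtain ⟨B, hB⟩ := exists_isTranscendenceBasis ℂ K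
    have hcard := hB.cardinalMk_eq_trdeg
    rw [hdim] at hcard
    have hfin : Finite B := by
      rw [← Cardinal.lt_aleph0_iff_finite, hcard]
      exact Cardinal.natCast_lt_aleph0
    obtain ⟨m', ⟨e⟩⟩ := Finite.exists_equiv_fin B
    obtain rfl : m' = w := by
      rw [Cardinal.mk_congr e, Cardinal.mk_fin] at hcard
      exact_mod_cast hcard
    exact ⟨fun i => (e.symm i : K), hB.comp_equiv e.symm⟩
  choose E' hE' using fun i => Pool.Agent.W602.GT.exists_der y0 hy0 (fun j => if i = j then (1 : K) else 0)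
  have hD : Dual y0 E' := ⟨hy0, hE'⟩
  have hbdP : ∀ P : Place ℂ (RatFunc M), (∀ c : RatFunc M, δ c = 0 → c ≠ 0 → P.ord c = 0) →
      P.ord (RatFunc.X : RatFunc M) = 0 →
      ∀ (v : Place ℂ K) e, Over P v e → ¬ BdP B y v := by
    intro P hP h1 v e hv
    refine bound hoff hne hφ1 ha hbd P (fun c hc => hP _ (hcM c) ?_) h1 v e hv
    rwa [Ne, map_eq_zero]
  obtain ⟨θ, E, hθ, hθE⟩ := exists_det_form (k := ℂ) (K := K) hdim
  have hθ' : (θ : MultilinearMap K (fun _ : Fin w => Derivation ℂ K K) K) ≠ 0 := by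
    intro h0
    apply hθ
    ext D
    exact congrFun (congrArg DFunLike.coe h0) D
  have hratio : ∀ (N : ℕ) (ω0 ω1 : (Fin w → Derivation ℂ K K) → K), 0 < N → IsPluri N ω0 →
      IsPluri N ω1 → ∀ D, ω0 D ≠ 0 → ω1 D / ω0 D = ω1 E / ω0 E := by
    intro N ω0 ω1 hN i0 i1 D hD
    rw [← hθE N ω0 i0 D, ← hθE N ω1 i1 D]
    have h4 : θ D ^ N ≠ 0 := by
      intro h5
      apply hD
      rw [← hθE N ω0 i0 D, h5, mul_zero]
    rw [mul_div_mul_right _ _ h4]
  obtain ⟨-, N, hN, ω, hpl, hlog, hreg, D, hD0, hind⟩ := hL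
  have h4 : ∀ j0 j1 : Fin (w + 1), δ (algebraMap K (RatFunc M) (ω j1 E / ω j0 E)) = 0 := by
    intro j0 j1
    exact core_const hdim hLd (θ : MultilinearMap K (fun _ : Fin w => Derivation ℂ K K) K) hθ' hN
      (fun j : Fin (w + 1) => ω j E) (Bd := BdP B y) (by
      intro v hv D hD' j
      change v.Reg (ω j E * θ D ^ N)
      rw [hθE N (ω j) (hpl j)]
      exact hlog v hv j D hD') (by
      intro v hv hB D hD' j
      change v.Reg (ω j E * θ D ^ N)
      rw [hθE N (ω j) (hpl j)]
      exact hreg v hv hB j D hD') hD δ hX0 hX htop hbdP j0 j1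
  have h5 : ∀ i : Fin w, δ (algebraMap K (RatFunc M) (ω i.succ D / ω 0 D)) = 0 := by
    intro i
    rw [hratio N (ω 0) (ω i.succ) hN (hpl _) (hpl _) D hD0]
    exact h4 0 i.succ
  have hbasis : IsTranscendenceBasis ℂ (fun i : Fin w => ω i.succ D / ω 0 D) := by
    refine hind.isTranscendenceBasis_of_lift_trdeg_le_of_finite ?_
    rw [hdim]
    simp
  have h6 : ∀ r : K, δ (algebraMap K (RatFunc M) r) = 0 := fun r =>
    Pool.Agent.W619.TW.der_zero (δ.compAlgebraMap K) _ hbasis (fun i => h5 i) r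
  have h7 := h6 (y i / y j)
  rw [hφ1 i j ((hne j).2 hj)] at h7
  exact deriv_of_delta hδ hj h7

/-- descent to a finitely generated field -/
theorem desc {M : Type} [Field M] [Algebra ℂ M] {ι : Type} [Fintype ι] (p : ι → Polynomial M) :
    ∃ (M' : IntermediateField ℂ M) (m : ℕ), Algebra.trdeg ℂ M' = m ∧
      ∃ p' : ι → Polynomial M', ∀ i, (p' i).map (M'.val : M' →+* M) = p i := by
  classical
  let T : Finset M := Finset.univ.biUnion fun j => (p j).support.image fun n => (p j).coeff n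
  let M' : IntermediateField ℂ M := IntermediateField.adjoin ℂ (T : Set M)
  have hess : Algebra.EssFiniteType ℂ M' :=
    IntermediateField.essFiniteType_iff.2 ⟨T, rfl⟩
  have hlt := trdeg_lt_aleph0 ℂ M'
  obtain ⟨m, hm⟩ := Cardinal.lt_aleph0.1 hlt
  have hl : ∀ j, ∃ w : Polynomial M', w.map (M'.val : M' →+* M) = p j := by
    intro j
    have h1 : p j ∈ Polynomial.lifts (M'.val : M' →+* M) := by
      rw [Polynomial.lifts_iff_coeff_lifts]
      intro n
      by_cases hn : (p j).coeff n = 0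
      · rw [hn]
        exact ⟨0, map_zero _⟩
      · have h2 : (p j).coeff n ∈ M' := by
          apply IntermediateField.subset_adjoin
          simp only [T, Finset.coe_biUnion, Finset.mem_coe, Finset.mem_univ, Set.iUnion_true,
            Set.mem_iUnion, Finset.mem_image]
          exact ⟨j, n, Polynomial.mem_support_iff.2 hn, rfl⟩
        exact ⟨⟨_, h2⟩, rfl⟩
    exact (Polynomial.mem_lifts _).1 h1
  choose p' hp' using hl
  exact ⟨M', m, hm, p', hp'⟩

end N5aux

theorem not_lgt_of_curve {K : Type} [Field K] [Algebra ℂ K] {n w : ℕ}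
    {B : Fin (n + 1) → Finset (Fin (n + 1))} {y : Fin (n + 1) → K} (hy : y ≠ 0)
    (hgen : coords ℂ y = ⊤) (hdim : Algebra.trdeg ℂ K = w) (hoff : OffB B y)
    {M : Type} [Field M] [Algebra ℂ M] (W : Fin (n + 1) → Polynomial M)
    (hrel : ∀ G : MvPolynomial (Fin (n + 1)) ℂ, (∃ d, G.IsHomogeneous d) →
      (aeval y G = 0 ↔ aeval W G = 0))
    (hbez : ∃ a : Fin (n + 1) → Polynomial M, ∑ i, a i * W i = 1)
    (hbd : ∀ j, W j ≠ 0 → ∀ b ∈ B j, ∃ N : ℕ, W b ∣ (Polynomial.X * W j) ^ N)
    (hnc : ∃ i j, Polynomial.derivative (W i) * W j ≠ W i * Polynomial.derivative (W j)) :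
    ¬ LogGeneralType ℂ K w (BdP B y) := by
  classical
  intro hL
  obtain ⟨i, j, hij⟩ := hnc
  obtain ⟨a, ha⟩ := hbez
  have hbd' : ∀ j b, ∃ (N : ℕ) (H : Polynomial M), W j ≠ 0 → b ∈ B j →
      (Polynomial.X * W j) ^ N = W b * H := by
    intro j b
    by_cases h1 : W j ≠ 0 ∧ b ∈ B j
    · obtain ⟨N, H, hH⟩ := hbd j h1.1 b h1.2
      exact ⟨N, H, fun _ _ => hH⟩
    · exact ⟨0, 0, fun h2 h3 => absurd ⟨h2, h3⟩ h1⟩
  choose N H hH using hbd'
  obtain ⟨M', m, hm, p', hp'⟩ := N5aux.desc
    (fun t : Fin (n + 1) ⊕ (Fin (n + 1) ⊕ (Fin (n + 1) × Fin (n + 1))) =>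
      Sum.elim W (Sum.elim a fun s => H s.1 s.2) t)
  have hinj : Function.Injective (M'.val : M' →+* M) := M'.val.toRingHom.injective
  have hpi : Function.Injective (Polynomial.map (M'.val : M' →+* M)) :=
    Polynomial.map_injective _ hinj
  let W' : Fin (n + 1) → Polynomial M' := fun t => p' (Sum.inl t)
  let a' : Fin (n + 1) → Polynomial M' := fun t => p' (Sum.inr (Sum.inl t))
  let H' : Fin (n + 1) → Fin (n + 1) → Polynomial M' := fun s t => p' (Sum.inr (Sum.inr (s, t)))
  have hW : ∀ t, (W' t).map (M'.val : M' →+* M) = W t := fun t => hp' (Sum.inl t)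
  have haa : ∀ t, (a' t).map (M'.val : M' →+* M) = a t := fun t => hp' (Sum.inr (Sum.inl t))
  have hHH : ∀ s t, (H' s t).map (M'.val : M' →+* M) = H s t :=
    fun s t => hp' (Sum.inr (Sum.inr (s, t)))
  have hW0 : ∀ t, W' t ≠ 0 → W t ≠ 0 := by
    intro t ht h0
    apply ht
    apply hpi
    rw [hW, h0, Polynomial.map_zero]
  have hWj : W' j ≠ 0 := by
    intro h0
    apply hij
    rw [← hW j, h0, Polynomial.map_zero, Polynomial.derivative_zero, mul_zero, mul_zero]
  have h1 := N5aux.flat hy hgen hdim hoff hm W' (by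
    intro G hG
    rw [hrel G hG, ← Polynomial.map_eq_zero_iff hinj (p := aeval W' G), Pool.Agent.TH143.GT.map_aeval' M'.val W' G]
    have h2 : (fun t => (W' t).map (M'.val : M' →+* M)) = W := funext hW
    rw [h2]) (a := a') (by
    apply hpi
    rw [Polynomial.map_one, Polynomial.map_sum, ← ha]
    refine Finset.sum_congr rfl fun t _ => ?_
    rw [Polynomial.map_mul, hW, haa]) (by
    intro j' hj' b hb
    refine ⟨N j' b, H' j' b, ?_⟩
    apply hpi
    rw [Polynomial.map_pow, Polynomial.map_mul, Polynomial.map_mul, Polynomial.map_X, hW, hW, hHH]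
    exact hH j' b (hW0 j' hj') hb) hL i j hWj
  apply hij
  have h2 := congrArg (Polynomial.map (M'.val : M' →+* M)) h1
  rw [Polynomial.map_mul, Polynomial.map_mul, ← Polynomial.derivative_map,
    ← Polynomial.derivative_map, hW, hW] at h2
  exact h2

end Pool.Agent.H917.Mg
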