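import Pool.Agent.H917.M.N1
import Pool.Agent.H917.M.N2
import Pool.Agent.H917.M.N3
import Pool.Agent.H917.M.N4
import Pool.Agent.H917.M.N5

/-!
# PROJECT BND (helper917), task N6: points given by linear differential systems are not in varieties of log general type

Assembly. (1) Put the `ℂ`-algebra structure `ι` on `K` given by `e : ℂ ≃+* C0` (use `letI`, and pass the two `ℂ`-algebra structures explicitly with `@` where necessary: the given instance `Algebra ℂ K` is the base field `k = ℂ` of `line_curve` (N4) and `not_lgt_of_curve` (N5); the structure `ι` is the structure `[Algebra ℂ K]` of `symm_exists`, `line_nil`,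
`line_int`, `line_curve`). It may be easier to first prove the statement with a field `k` in place of the base field `ℂ` up to the conclusion of `line_curve`, and with `C0 = ℂ`, in a separate theorem without any other `ℂ`-algebra structure, and then to apply it with `k := ℂ`. `L0`, `Sub` are the same sets.
(2) `i, j` with `x i / x j` not algebraic over `L0`, `symm_exists` for this element: `δ`; `line_nil` or `line_int` (in the second case replace `δ` by `c • δ`; commutation with `D` and vanishing on `L0` remain true): `F0`, `τ`. `line_curve` gives `M`, `W`. With the generic point `y` (`hrel'`): `not_lgt_of_curve`.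
(`OffB B y` follows from `OffB B x` and `hrel'` for the forms `X i`.)
-/

set_option autoImplicit false
set_option linter.overlappingInstances false
set_option linter.unusedSectionVars false

open MvPolynomial FF
open Pool.Agent.Y377.EL Pool.Agent.Y377.IL
open Pool.Agent.W602.GT (LogGeneralType coords)

namespace Pool.Agent.H917.Mg

namespace N6aux

theorem fund_curve {K : Type} [Field K] [Algebra ℂ K] (D : Derivation ℂ K K) (hC : Cst D)
    (L0 : Subalgebra ℂ K) (hL : Stab D L0) (hinv : ∀ x ∈ L0, x⁻¹ ∈ L0) {r : ℕ}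
    {X Y A : Matrix (Fin r) (Fin r) K} (hF : Fund D L0 X Y A)
    {k : Type} [Field k] [Algebra k K] (hk : ∀ c : k, algebraMap k K c ∈ L0) {n m : ℕ}
    (hm : 1 ≤ m) {B : Fin (n + 1) → Finset (Fin (n + 1))} {x : Fin (n + 1) → K} (hx : x ≠ 0)
    (hoff : OffB B x) (hxS : ∀ i j, x i / x j ∈ frac (mat L0 X Y))
    (hna : ∃ i j, ¬ IsAlgebraic L0 (x i / x j))
    (hrel : ∀ j, x j ≠ 0 → ∀ b ∈ B j, ∃ (N : ℕ) (β : Fin N → MvPolynomial (Fin (n + 1)) k)
      (c : Fin N → K), (∀ l, c l ∈ L0) ∧ (D (x b / x j) / (x b / x j)) ^ m =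
        ∑ l, aeval (fun i => x i / x j) (β l) * c l) :
    ∃ (M : Type) (_ : Field M) (_ : Algebra k M) (W : Fin (n + 1) → Polynomial M),
      (∀ G : MvPolynomial (Fin (n + 1)) k, (∃ d, G.IsHomogeneous d) →
        (aeval W G = 0 ↔ aeval x G = 0)) ∧
      (∃ a : Fin (n + 1) → Polynomial M, ∑ i, a i * W i = 1) ∧
      (∀ j, W j ≠ 0 → ∀ b ∈ B j, ∃ N : ℕ, W b ∣ (Polynomial.X * W j) ^ N) ∧
      ∃ i j, Polynomial.derivative (W i) * W j ≠ W i * Polynomial.derivative (W j) := by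
  obtain ⟨i0, j0, hna⟩ := hna
  obtain ⟨hS, hsim, δ, hδ, hcomm, hδ0, hδx, hor⟩ :=
    symm_exists D hC L0 hL hinv hF (hxS i0 j0) hna
  have hL0 : L0 ≤ mat L0 X Y := le_sup_left
  rcases hor with hnil | hint
  · obtain ⟨F0, τ, hl⟩ := line_nil δ _ hδ hnil (hxS i0 j0) hδx
    exact line_curve hS hsim hδ hcomm hl hL0 hδ0 hk hm hx hxS hoff ⟨i0, j0, hδx⟩ hrel
  · obtain ⟨c, F0, τ, hc, hl⟩ := line_int δ _ hδ hint (hxS i0 j0) hδx
    have h1 : ∀ z, (c • δ) z = c • δ z := fun z => rfl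
    refine line_curve (δ := c • δ) hS hsim ?_ ?_ hl hL0 ?_ hk hm hx hxS hoff
      ⟨i0, j0, ?_⟩ hrel
    · intro b hb
      rw [h1]
      exact Subalgebra.smul_mem _ (hδ b hb) c
    · intro b hb
      rw [h1, h1, D.map_smul, hcomm b hb]
    · intro a ha
      rw [h1, hδ0 a ha, smul_zero]
    · rw [h1]
      exact smul_ne_zero hc hδx

theorem fund_curve' {K : Type} [Field K] {C0 : Type} [Field C0] [Algebra C0 K]
    (e : ℂ ≃+* C0) (D : Derivation C0 K K) (hC : ∀ x, D x = 0 → ∃ c : C0, x = algebraMap C0 K c)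
    (L0 : Subalgebra C0 K) (hL : ∀ x ∈ L0, D x ∈ L0) (hinv : ∀ x ∈ L0, x⁻¹ ∈ L0) {r : ℕ}
    {X Y A : Matrix (Fin r) (Fin r) K} (hXY : X * Y = 1) (hA : ∀ i j, A i j ∈ L0)
    (hXA : ∀ i j, D (X i j) = ∑ l, A i l * X l j)
    {k : Type} [Field k] [Algebra k K] (hk : ∀ c : k, algebraMap k K c ∈ L0) {n m : ℕ}
    (hm : 1 ≤ m)
    {B : Fin (n + 1) → Finset (Fin (n + 1))} {x : Fin (n + 1) → K} (hx : x ≠ 0) (hoff : OffB B x)
    (Sub : Subalgebra C0 K)
    (hSub : Sub = L0 ⊔ Algebra.adjoin C0 {z | ∃ i j, z = X i j ∨ z = Y i j})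
    (hxS : ∀ i j, ∃ u ∈ Sub, ∃ v ∈ Sub, v ≠ 0 ∧ x i / x j = u / v)
    (hna : ∃ i j, ¬ IsAlgebraic L0 (x i / x j))
    (hrel : ∀ j, x j ≠ 0 → ∀ b ∈ B j, ∃ (N : ℕ) (β : Fin N → MvPolynomial (Fin (n + 1)) k)
      (c : Fin N → K), (∀ l, c l ∈ L0) ∧ (D (x b / x j) / (x b / x j)) ^ m =
        ∑ l, aeval (fun i => x i / x j) (β l) * c l) :
    ∃ (M : Type) (_ : Field M) (_ : Algebra k M) (W : Fin (n + 1) → Polynomial M),
      (∀ G : MvPolynomial (Fin (n + 1)) k, (∃ d, G.IsHomogeneous d) →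
        (aeval W G = 0 ↔ aeval x G = 0)) ∧
      (∃ a : Fin (n + 1) → Polynomial M, ∑ i, a i * W i = 1) ∧
      (∀ j, W j ≠ 0 → ∀ b ∈ B j, ∃ N : ℕ, W b ∣ (Polynomial.X * W j) ^ N) ∧
      ∃ i j, Polynomial.derivative (W i) * W j ≠ W i * Polynomial.derivative (W j) := by
  letI ι : Algebra ℂ K := ((algebraMap C0 K).comp (e : ℂ →+* C0)).toAlgebra
  have hι : ∀ c : ℂ, algebraMap ℂ K c = algebraMap C0 K (e c) := fun _ => rfl
  have hsm : ∀ (c : ℂ) (z : K), c • z = e c • z := by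
    intro c z
    rw [Algebra.smul_def, Algebra.smul_def, hι]
  let D' : Derivation ℂ K K := Derivation.mk'
    { toFun := D
      map_add' := D.map_add
      map_smul' := fun c z => by
        rw [hsm, D.map_smul, RingHom.id_apply, hsm] } (fun a b => D.leibniz a b)
  have hD' : ∀ z, D' z = D z := fun _ => rfl
  let L0' : Subalgebra ℂ K :=
    { carrier := {z | z ∈ L0}
      mul_mem' := fun ha hb => L0.mul_mem ha hb
      add_mem' := fun ha hb => L0.add_mem ha hb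
      algebraMap_mem' := fun c => L0.algebraMap_mem (e c) }
  have hmem : ∀ z, z ∈ L0' ↔ z ∈ L0 := fun _ => Iff.rfl
  have hLM : L0' ≤ mat L0' X Y := le_sup_left
  have hSM : ∀ z ∈ Sub, z ∈ mat L0' X Y := by
    let T : Subalgebra C0 K :=
      { carrier := {z | z ∈ mat L0' X Y}
        mul_mem' := fun ha hb => (mat L0' X Y).mul_mem ha hb
        add_mem' := fun ha hb => (mat L0' X Y).add_mem ha hb
        algebraMap_mem' := fun c => hLM ((hmem _).2 (L0.algebraMap_mem c)) }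
    have hT : ∀ z, z ∈ T ↔ z ∈ mat L0' X Y := fun _ => Iff.rfl
    have h1 : Sub ≤ T := by
      rw [hSub]
      refine sup_le (fun z hz => (hT z).2 (hLM ((hmem z).2 hz))) (Algebra.adjoin_le ?_)
      intro z hz
      exact (hT z).2 ((le_sup_right : Algebra.adjoin ℂ _ ≤ mat L0' X Y) (Algebra.subset_adjoin hz))
    intro z hz
    exact (hT z).1 (h1 hz)
  have hC' : Cst D' := by
    intro z hz
    obtain ⟨c, hc⟩ := hC z hz
    refine ⟨e.symm c, ?_⟩
    rw [hι, RingEquiv.apply_symm_apply]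
    exact hc
  have hF : Fund D' L0' X Y A := ⟨hXY, hA, hXA⟩
  refine fund_curve D' hC' L0' hL hinv hF hk hm hx hoff ?_ ?_ hrel
  · intro i j
    obtain ⟨u, hu, v, hv, hv0, h1⟩ := hxS i j
    refine ⟨v, hSM v hv, hv0, ?_⟩
    rw [h1, mul_div_cancel₀ _ hv0]
    exact hSM u hu
  · obtain ⟨i, j, h1⟩ := hna
    refine ⟨i, j, fun h2 => h1 ?_⟩
    exact h2

end N6aux

theorem not_lgt_of_fund {K : Type} [Field K] {C0 : Type} [Field C0] [Algebra C0 K]
    (e : ℂ ≃+* C0) (D : Derivation C0 K K) (hC : ∀ x, D x = 0 → ∃ c : C0, x = algebraMap C0 K c)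
    (L0 : Subalgebra C0 K) (hL : ∀ x ∈ L0, D x ∈ L0) (hinv : ∀ x ∈ L0, x⁻¹ ∈ L0) {r : ℕ}
    {X Y A : Matrix (Fin r) (Fin r) K} (hXY : X * Y = 1) (hA : ∀ i j, A i j ∈ L0)
    (hXA : ∀ i j, D (X i j) = ∑ l, A i l * X l j)
    [Algebra ℂ K] (hk : ∀ c : ℂ, algebraMap ℂ K c ∈ L0) {n m : ℕ} (hm : 1 ≤ m)
    {B : Fin (n + 1) → Finset (Fin (n + 1))} {x : Fin (n + 1) → K} (hx : x ≠ 0) (hoff : OffB B x)
    (Sub : Subalgebra C0 K)
    (hSub : Sub = L0 ⊔ Algebra.adjoin C0 {z | ∃ i j, z = X i j ∨ z = Y i j})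
    (hxS : ∀ i j, ∃ u ∈ Sub, ∃ v ∈ Sub, v ≠ 0 ∧ x i / x j = u / v)
    (hna : ∃ i j, ¬ IsAlgebraic L0 (x i / x j))
    (hrel : ∀ j, x j ≠ 0 → ∀ b ∈ B j, ∃ (N : ℕ) (β : Fin N → MvPolynomial (Fin (n + 1)) ℂ)
      (c : Fin N → K), (∀ l, c l ∈ L0) ∧ (D (x b / x j) / (x b / x j)) ^ m =
        ∑ l, aeval (fun i => x i / x j) (β l) * c l)
    {K' : Type} [Field K'] [Algebra ℂ K'] {w : ℕ} {y : Fin (n + 1) → K'} (hy : y ≠ 0)
    (hgen : coords ℂ y = ⊤) (hdim : Algebra.trdeg ℂ K' = w)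
    (hrel' : ∀ G : MvPolynomial (Fin (n + 1)) ℂ, (∃ d, G.IsHomogeneous d) →
      (aeval y G = 0 ↔ aeval x G = 0)) : ¬ LogGeneralType ℂ K' w (BdP B y) := by
  obtain ⟨M, _, _, W, hW, hbez, hbd, hnc⟩ := N6aux.fund_curve' e D hC L0 hL hinv hXY hA hXA hk hm
    hx hoff Sub hSub hxS hna hrel
  have hcoord : ∀ j, y j = 0 ↔ x j = 0 := by
    intro j
    have h1 := hrel' (MvPolynomial.X j) ⟨1, MvPolynomial.isHomogeneous_X ℂ j⟩
    rwa [aeval_X, aeval_X] at h1
  have hoffy : OffB B y := fun j hj b hb h0 =>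
    hoff j (fun h => hj ((hcoord j).2 h)) b hb ((hcoord b).1 h0)
  exact not_lgt_of_curve hy hgen hdim hoffy W (fun G hG => (hrel' G hG).trans (hW G hG).symm)
    hbez hbd hnc

end Pool.Agent.H917.Mg
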