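import Mathlib
import Pool.Graph.R_seed8.Y377.IL.MerA
import Pool.Graph.R_seed8.H563R2.Deriv

/-!
# PROJECT BND (helper917), task N9: formal power series: fundamental matrices, the derivation of the fraction field

`fund_ps`: the entries of `X` by recursion on the coefficients (`X(0) = 1`, `(k + 1) X_{k+1} = ∑_{a + b = k} A_a X_b`); `Y`: the same for the system `Y' = - Y A`, `Y(0) = 1`; then `(Y X)' = 0`, so `Y X = 1` and `X Y = 1` (`Matrix.mul_eq_one_comm`). (Compare `Pool/Graph/R_seed8/Y592/IL/ENT.lean`, `FUND.lean`.)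
`exists_dfrac`: for `F = ℂ` see `Pool/Graph/R_seed8/Y377/IL/MerA.lean` (`LK` and its derivation; copy). Constants: an element of the fraction field of `F⟦t⟧` is `t ^ (-a) f` with `f(0) ≠ 0` (or `0`); `∂ (t^(-a) f) = t^(-a-1) (- a f + t f')`, which vanishes only if `a = 0` and `f' = 0` (look at the constant coefficient `- a f(0)`).
-/

set_option autoImplicit false
set_option linter.overlappingInstances false
set_option linter.unusedSectionVars false

open PowerSeries

namespace Pool.Agent.H917.Mg

namespace N9aux

/-- the coefficients of the solution -/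
noncomputable def co {F : Type} [Field F] {n : ℕ} (A : ℕ → Matrix (Fin n) (Fin n) F) :
    ℕ → Matrix (Fin n) (Fin n) F
  | 0 => 1
  | m + 1 => ((m : F) + 1)⁻¹ • ∑ l : Fin (m + 1), A l * co A (m - l)
termination_by m => m
decreasing_by omega

theorem co_succ {F : Type} [Field F] [CharZero F] {n : ℕ} (A : ℕ → Matrix (Fin n) (Fin n) F)
    (m : ℕ) (i j : Fin n) : ((m : F) + 1) * co A (m + 1) i j =
      ∑ l ∈ Finset.range (m + 1), ∑ k, A l i k * co A (m - l) k j := by
  rw [co, Matrix.smul_apply, smul_eq_mul, ← mul_assoc,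
    mul_inv_cancel₀ (Nat.cast_add_one_ne_zero m), one_mul, Finset.sum_range, Matrix.sum_apply]
  rfl

/-- a power series with derivative `0` is a constant -/
theorem const_of {F : Type} [Field F] [CharZero F] (f : PowerSeries F)
    (h : PowerSeries.derivative F f = 0) : f = PowerSeries.C (PowerSeries.constantCoeff f) := by
  refine PowerSeries.derivative.ext ?_ ?_
  · rw [h]
    exact (PowerSeries.derivative_C).symm
  · simp

end N9aux

theorem fund_ps {F : Type} [Field F] [CharZero F] {r : ℕ}
    (A : Matrix (Fin r) (Fin r) (PowerSeries F)) :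
    ∃ X Y : Matrix (Fin r) (Fin r) (PowerSeries F), X * Y = 1 ∧
      ∀ i j, PowerSeries.derivative F (X i j) = ∑ l, A i l * X l j := by
  set B : ℕ → Matrix (Fin r) (Fin r) F := fun m => Matrix.of fun i j => PowerSeries.coeff m (A i j)
    with hB
  set X : Matrix (Fin r) (Fin r) (PowerSeries F) :=
    Matrix.of fun i j => PowerSeries.mk fun m => N9aux.co B m i j with hX
  have hdet : IsUnit X.det := by
    rw [PowerSeries.isUnit_iff_constantCoeff, RingHom.map_det]
    have h1 : (PowerSeries.constantCoeff (R := F)).mapMatrix X = 1 := by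
      ext i j
      rw [RingHom.mapMatrix_apply, Matrix.map_apply, hX, Matrix.of_apply,
        ← PowerSeries.coeff_zero_eq_constantCoeff_apply, PowerSeries.coeff_mk, N9aux.co]
    rw [h1, Matrix.det_one]
    exact isUnit_one
  refine ⟨X, X⁻¹, Matrix.mul_nonsing_inv X hdet, fun i j => ?_⟩
  ext m
  rw [PowerSeries.coeff_derivative, map_sum]
  have h1 : PowerSeries.coeff (m + 1) (X i j) = N9aux.co B (m + 1) i j := by
    rw [hX, Matrix.of_apply, PowerSeries.coeff_mk]
  rw [h1, mul_comm, N9aux.co_succ, Finset.sum_comm]
  refine Finset.sum_congr rfl fun l _ => ?_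
  rw [PowerSeries.coeff_mul, Finset.Nat.sum_antidiagonal_eq_sum_range_succ_mk]
  refine Finset.sum_congr rfl fun a _ => ?_
  rw [hX, Matrix.of_apply, PowerSeries.coeff_mk]
  rfl

theorem exists_dfrac (F : Type) [Field F] [CharZero F] :
    ∃ D : Derivation F (FractionRing (PowerSeries F)) (FractionRing (PowerSeries F)),
      (∀ f : PowerSeries F, D (algebraMap _ _ f) = algebraMap _ _ (PowerSeries.derivative F f)) ∧
      ∀ x, D x = 0 → ∃ c : F, x = algebraMap F (FractionRing (PowerSeries F)) c := by
  have hK : ∀ c : F, algebraMap F (FractionRing (PowerSeries F)) c =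
      algebraMap (PowerSeries F) (FractionRing (PowerSeries F)) (PowerSeries.C c) := by
    intro c
    rw [IsScalarTower.algebraMap_apply F (PowerSeries F) (FractionRing (PowerSeries F))]
    rfl
  set d : FractionRing (PowerSeries F) → FractionRing (PowerSeries F) :=
    H563R2.Deriv.dd (PowerSeries.derivative F) with hd
  have hdF : ∀ c : F, d (algebraMap F (FractionRing (PowerSeries F)) c) = 0 := by
    intro c
    rw [hK, hd, H563R2.Deriv.dd_algebraMap, PowerSeries.derivative_C, map_zero]
  let L : FractionRing (PowerSeries F) →ₗ[F] FractionRing (PowerSeries F) :=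
    { toFun := d
      map_add' := H563R2.Deriv.dd_add _
      map_smul' := fun c x => by
        have h1 : d (algebraMap F (FractionRing (PowerSeries F)) c * x) =
            algebraMap F (FractionRing (PowerSeries F)) c * d x + x * d (algebraMap F _ c) :=
          H563R2.Deriv.dd_mul _ _ _
        rw [Algebra.smul_def, h1, hdF, mul_zero, add_zero, RingHom.id_apply, Algebra.smul_def] }
  let D : Derivation F (FractionRing (PowerSeries F)) (FractionRing (PowerSeries F)) :=
    Derivation.mk' L fun a b => by
      rw [smul_eq_mul, smul_eq_mul]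
      exact H563R2.Deriv.dd_mul _ a b
  have hD : ∀ f : PowerSeries F,
      D (algebraMap _ _ f) = algebraMap _ _ (PowerSeries.derivative F f) :=
    fun f => H563R2.Deriv.dd_algebraMap (PowerSeries.derivative F) f
  have hinj : Function.Injective (algebraMap (PowerSeries F) (FractionRing (PowerSeries F))) :=
    IsFractionRing.injective _ _
  have hint : ∀ f : PowerSeries F, D (algebraMap _ _ f) = 0 →
      ∃ c : F, algebraMap (PowerSeries F) (FractionRing (PowerSeries F)) f =
        algebraMap F (FractionRing (PowerSeries F)) c := by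
    intro f hf
    rw [hD] at hf
    have h1 : PowerSeries.derivative F f = 0 := hinj (by rw [hf, map_zero])
    refine ⟨PowerSeries.constantCoeff f, ?_⟩
    rw [hK, ← N9aux.const_of f h1]
  refine ⟨D, hD, fun x hx => ?_⟩
  rcases eq_or_ne x 0 with h0 | h0
  · exact ⟨0, by rw [h0, map_zero]⟩
  rcases ValuationRing.isInteger_or_isInteger (PowerSeries F) x with ⟨f, hf⟩ | ⟨f, hf⟩
  · obtain ⟨c, hc⟩ := hint f (by rw [hf]; exact hx)
    exact ⟨c, by rw [← hf, hc]⟩
  · have h1 : D x⁻¹ = 0 := by
      rw [Derivation.leibniz_inv, hx, smul_zero]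
    obtain ⟨c, hc⟩ := hint f (by rw [hf]; exact h1)
    refine ⟨c⁻¹, ?_⟩
    rw [map_inv₀, ← hc, hf, inv_inv]

end Pool.Agent.H917.Mg
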