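import Pool.Agent.H917.B4
import Pool.Agent.H917.L.L7
import Pool.Agent.H917.M.N9
import Pool.Agent.H917.M.N6
import Pool.Agent.H917.M.B3B
import Pool.Agent.H917.M.L6B

/-!
# PROJECT BND (helper917), task L7B: curves with small logarithmic symmetric differentials in varieties of log general type

`alg_of_lgtB`: as `alg_of_gt` (B4.lean) / `alg_of_lgt` (L/L7.lean): `M` is the fraction field of `Hol Ω`, `D` its derivation, `x = i F`, `C = frac A0` the fractions of elements of `B'`. The constant case is word for word the same (if all `D (x i / x j) = 0`). The values of the logarithmic symmetric differentials (`hvalx`): as in `L/L7.lean`.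
Otherwise `linSys_ambB` (stub in M/B3B) gives `h, δ, A, b` with `A, b` in `C`. Claim: all `x i / x j` are algebraic over `C` (then finish as in B4). Suppose not. Choose `z0 ∈ Ω` where a common denominator `q0` (a nonzero holomorphic function, `common_frac`) of the `A i j` does not vanish. The Taylor expansion at `z0` is an injective homomorphism of rings `Hol Ω → ℂ⟦t⟧`
(library: `tay`, `S_TAY` is proved, see `Pool/Graph/R_seed8/Y377/IL/StmA.lean`, `MerA.lean`, `Cur.lean`), which extends to a homomorphism of differential fields `Ty : M → K = FractionRing (PowerSeries ℂ)` (`exists_dfrac`, M/N9, stub). The `Ty (A i j)` are power series; let `X, Y` be from `fund_ps` (M/N9, stub). The vector `c = Y Ty(h)` satisfies `∂ c = Ty(δ) c`, so the ratios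
of its components are constants (complex numbers), `c i = μ * c0 i`; so `Ty (h i) = μ ∑ j X i j c0 j`, and `Ty (x i / x j) = (∑ l, b i l Ty(h l)) / (∑ l, b j l Ty(h l))` is a quotient of elements of `Sub = L0 ⊔ adjoin (X, Y)`, with `L0` the image of `C` under `Ty` (closed under inverse, stable under the derivation). `Ty (x i / x j)` is not algebraic over `L0` for some `i, j`.
`hrel` of `not_lgt_of_fund` (M/N6, stub): by `bsdl_of_gens` (M/P1b, stub), `SDL.rel` with `I = fun _ => b`: `(D z / z) ^ m = ∑ l, aeval (ch x j) (β l) * c l`, `z = x b / x j`, `c l ∈ C`; apply `Ty`. So `not_lgt_of_fund` with `C0 = ℂ`, `e = RingEquiv.refl ℂ` contradicts `hLG` (generic point: `GenPt`, as in B4).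
`pcurve_lextB`: as `pcurve_ext` (B4) / `pcurve_lext` (L7), with `balong_small` (M/L6B, stub).
-/

set_option autoImplicit false
set_option linter.overlappingInstances false
set_option linter.unusedSectionVars false

open MvPolynomial Metric Set Filter Topology FF Pool.Agent.W602.GT Pool.Agent.W603.BP
  Pool.Agent.Helper4K9.IP Pool.Agent.Helper4K9.AP Pool.Agent.Helper4K9.MP Pool.Agent.TH143
  Pool.Agent.TH143.GT Pool.Agent.Y377.EL Pool.Agent.Y377.IL
open Pool.Agent.H917.Lg (lch lch2 SDL lloc lclear_den lloc_der)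

namespace Pool.Agent.H917.Mg

variable {n : ℕ} {p : Ideal (MvPolynomial (Fin (n + 1)) ℂ)}
  {B : Fin (n + 1) → Finset (Fin (n + 1))} {f : ℂ → Fin (n + 1) → ℂ} {Ω : Set ℂ}

/-- Taylor series of polynomials in analytic functions -/
theorem L7Baux.ty_evalG (hT : S_TAY) {σ : Type} {z0 : ℂ} {h : σ → ℂ → ℂ}
    (hh : ∀ j, AnalyticAt ℂ (h j) z0) (G : MvPolynomial σ ℂ) :
    AnalyticAt ℂ (fun z => eval (fun j => h j z) G) z0 ∧
      ty z0 (fun z => eval (fun j => h j z) G) = aeval (fun j => ty z0 (h j)) G := by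
  induction G using MvPolynomial.induction_on with
  | C a =>
    simp only [eval_C, algHom_C]
    exact ⟨analyticAt_const, ty_const hT a⟩
  | add p q hp hq =>
    simp only [map_add]
    exact ⟨hp.1.add hq.1, by rw [ty_add hT hp.1 hq.1, hp.2, hq.2]⟩
  | mul_X p j hp =>
    simp only [map_mul, eval_X, aeval_X]
    exact ⟨hp.1.mul (hh j), by rw [ty_mul hT hp.1 (hh j), hp.2]⟩

/-- the linear system, in terms of functions on a disc -/
theorem L7Baux.sys (hΩ : IsOpen Ω) (hΩc : IsPreconnected Ω) (hΩn : Ω.Nonempty)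
    (B' : Subalgebra ℂ (ℂ → ℂ)) (hBan : ∀ b ∈ B', AnalyticOnNhd ℂ b Ω)
    (hBd : ∀ b ∈ B', deriv b ∈ B')
    (hp : Pool.Agent.W603.PV.IsHomog p) (hB : BdC p B) {m N : ℕ} {s : Fin N → BSymDiff p B m}
    (hs : BGens p B m s)
    (hm : 1 ≤ m) (han : ∀ j, AnalyticOnNhd ℂ (fun w => f w j) Ω) (hne : ∀ z ∈ Ω, f z ≠ 0)
    (hX : ∀ z ∈ Ω, ∀ H ∈ p, eval (f z) H = 0) (hoff : ∀ z ∈ Ω, OffB B (f z))
    (hS : ∀ l, (s l).along f ∈ B')
    {K : Type} [Field K] [Algebra ℂ K] {w : ℕ} {y : Fin (n + 1) → K} (hy : GenPt f Ω K w y)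
    (hLG : LogGeneralType ℂ K w (BdP B y)) :
    (∃ j0, ∀ j, ∃ c : ℂ, ∀ z ∈ Ω, f z j = c * f z j0) ∨
      ∃ (z1 : ℂ) (ρ : ℝ) (r : ℕ) (q : ℂ → ℂ) (α : Fin r → Fin r → ℂ → ℂ)
        (β : Fin (n + 1) → Fin r → ℂ → ℂ) (g : Fin r → ℂ → ℂ) (j0 : Fin (n + 1)),
        0 < ρ ∧ ball z1 ρ ⊆ Ω ∧ q ∈ B' ∧ (∀ a c, α a c ∈ B') ∧ (∀ a c, β a c ∈ B') ∧
        (∀ z ∈ ball z1 ρ, q z ≠ 0) ∧ (∀ z ∈ ball z1 ρ, f z j0 ≠ 0) ∧
        (∀ a, ∀ z ∈ ball z1 ρ, HasDerivAt (g a) (∑ c, α a c z / q z * g c z) z) ∧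
        (∀ z ∈ ball z1 ρ, ∑ c, β j0 c z * g c z ≠ 0) ∧
        ∀ a, ∀ z ∈ ball z1 ρ, f z a * ∑ c, β j0 c z * g c z = f z j0 * ∑ c, β a c z * g c z := by
  classical
  have hdom : IsDomain (Hol Ω) := hol_domain hΩc hΩn
  obtain ⟨d, hd⟩ := exists_holDer hΩ
  obtain ⟨D, hD⟩ := exists_derFrac d
  let M := FractionRing (Hol Ω)
  let i : Hol Ω →ₐ[ℂ] M := IsScalarTower.toAlgHom ℂ (Hol Ω) M
  have hi : Function.Injective i := IsFractionRing.injective (Hol Ω) M
  have hDi : ∀ (g : ℂ → ℂ) (hg : AnalyticOnNhd ℂ g Ω), D (i (toHol g hg)) =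
      i (toHol (deriv g) hg.deriv) := by
    intro g hg
    have h1 : D (i (toHol g hg)) = i (d (toHol g hg)) := hD _
    rw [h1]
    congr 1
    apply hol_ext
    intro z
    rw [hd (toHol g hg) g hg (fun z => rfl) z, evz_toHol]
  have hi0 : ∀ (g : ℂ → ℂ) (hg : AnalyticOnNhd ℂ g Ω), i (toHol g hg) = 0 ↔ ∀ z ∈ Ω, g z = 0 :=
    fun g hg => (map_eq_zero_iff i hi).trans (hol_zero hg)
  have hieq : ∀ (g g' : ℂ → ℂ) (hg : AnalyticOnNhd ℂ g Ω) (hg' : AnalyticOnNhd ℂ g' Ω),
      i (toHol g hg) = i (toHol g' hg') → ∀ z ∈ Ω, g z = g' z := by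
    intro g g' hg hg' h z hz
    have h1 := congrArg (evz (⟨z, hz⟩ : Ω)) (hi h)
    rwa [evz_toHol, evz_toHol] at h1
  let F : Fin (n + 1) → Hol Ω := fun j => toHol (fun w => f w j) (han j)
  let x : Fin (n + 1) → M := fun j => i (F j)
  have hxa : ∀ G : MvPolynomial (Fin (n + 1)) ℂ, aeval x G = i (aeval F G) := fun G =>
    (comp_aeval_apply F i G).symm
  have hev : ∀ (G : MvPolynomial (Fin (n + 1)) ℂ) (z : Ω), evz z (aeval F G) = eval (f z) G := by
    intro G z
    rw [comp_aeval_apply F (evz z) G, ← ae]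
    rfl
  have hx0 : ∀ G : MvPolynomial (Fin (n + 1)) ℂ, aeval x G = 0 ↔ ∀ z ∈ Ω, eval (f z) G = 0 := by
    intro G
    rw [hxa, map_eq_zero_iff i hi]
    constructor
    · intro h z hz
      rw [← hev G ⟨z, hz⟩, h, map_zero]
    · intro h
      apply hol_ext
      intro z
      rw [hev, h z z.2, map_zero]
  obtain ⟨z0, hz0⟩ := hΩn
  obtain ⟨j0, hj0⟩ := Function.ne_iff.1 (hne z0 hz0)
  have hj0' : f z0 j0 ≠ 0 := hj0
  have hxj0 : x j0 ≠ 0 := fun h0 => hj0' ((hi0 _ (han j0)).1 h0 z0 hz0)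
  -- the constant case
  by_cases hnc : ∃ a b, D (x a / x b) ≠ 0
  swap
  · left
    push Not at hnc
    refine ⟨j0, fun j => ⟨f z0 j / f z0 j0, ?_⟩⟩
    have h1 := hnc j j0
    have h2 : D (x j) * x j0 - x j * D (x j0) = 0 := by
      have h3 : x j = x j / x j0 * x j0 := (div_mul_cancel₀ _ hxj0).symm
      have h4 : D (x j) = x j / x j0 * D (x j0) := by
        conv_lhs => rw [h3]
        rw [D.leibniz, h1]
        simp
      rw [h4]
      field_simp
      ring
    have h3 : ∀ z ∈ Ω, deriv (fun w => f w j) z * f z j0 - f z j * deriv (fun w => f w j0) z = 0 := by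
      have h4 : D (x j) * x j0 - x j * D (x j0) = i (toHol (fun z => deriv (fun w => f w j) z * f z j0 -
          f z j * deriv (fun w => f w j0) z)
          (((han j).deriv.mul (han j0)).sub ((han j).mul (han j0).deriv))) := by
        change D (i (toHol _ (han j))) * i (toHol _ (han j0)) - i (toHol _ (han j)) *
          D (i (toHol _ (han j0))) = _
        rw [hDi, hDi, ← map_mul, ← map_mul, ← map_sub]
        rfl
      rw [h4, hi0] at h2
      exact h2
    have h5 : AnalyticOnNhd ℂ (fun z => f z j - f z0 j / f z0 j0 * f z j0) Ω :=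
      (han j).sub (analyticOnNhd_const.mul (han j0))
    have h6 : ∀ᶠ z in 𝓝 z0, f z j - f z0 j / f z0 j0 * f z j0 = 0 := by
      obtain ⟨r, hr, hrs⟩ := Metric.mem_nhds_iff.1 (Filter.inter_mem (hΩ.mem_nhds hz0)
        ((han j0 z0 hz0).continuousAt.eventually_ne hj0'))
      filter_upwards [ball_mem_nhds z0 hr] with z hz
      have h7 : f z j / f z j0 = f z0 j / f z0 j0 := by
        have h8 : ∀ w ∈ ball z0 r, HasDerivWithinAt (fun w => f w j / f w j0) 0 (ball z0 r) w := by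
          intro w hw
          have h9 := ((han j w (hrs hw).1).differentiableAt.hasDerivAt.div
            (han j0 w (hrs hw).1).differentiableAt.hasDerivAt (hrs hw).2)
          rw [h3 w (hrs hw).1, zero_div] at h9
          exact h9.hasDerivWithinAt
        have h9 := (convex_ball z0 r).norm_image_sub_le_of_norm_hasDerivWithin_le
          (f := fun w => f w j / f w j0) (f' := fun _ => 0) (C := 0) h8 (fun w _ => by simp)
          (mem_ball_self hr) hz
        rw [zero_mul] at h9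
        exact sub_eq_zero.1 (norm_le_zero_iff.1 h9)
      rw [← h7, div_mul_cancel₀ _ (hrs hz).2, sub_self]
    intro z hz
    have h7 := h5.eqOn_zero_of_preconnected_of_eventuallyEq_zero hΩc hz0 h6 hz
    exact sub_eq_zero.1 h7
  right
  -- the constants
  let A0 : Subalgebra ℂ M :=
    { carrier := {z | ∃ (g : ℂ → ℂ) (hg : g ∈ B'), z = i (toHol g (hBan g hg))}
      mul_mem' := by
        rintro _ _ ⟨g, hg, rfl⟩ ⟨h, hh, rfl⟩
        exact ⟨g * h, B'.mul_mem hg hh, (map_mul i _ _).symm⟩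
      add_mem' := by
        rintro _ _ ⟨g, hg, rfl⟩ ⟨h, hh, rfl⟩
        exact ⟨g + h, B'.add_mem hg hh, (map_add i _ _).symm⟩
      algebraMap_mem' := by
        intro c
        exact ⟨algebraMap ℂ (ℂ → ℂ) c, B'.algebraMap_mem c, (i.commutes c).symm⟩ }
  have hA0D : Stab D A0 := by
    rintro _ ⟨g, hg, rfl⟩
    exact ⟨deriv g, hBd g hg, hDi g (hBan g hg)⟩
  -- the values of the symmetric differentials
  have hxm : ∀ H ∈ p, aeval x H = 0 := fun H hH => (hx0 H).2 fun z hz => hX z hz H hH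
  have hxne : x ≠ 0 := fun h0 => hxj0 (congrFun h0 j0)
  have hoffx : OffB B x := by
    intro j hj c hc h0
    apply hj
    rw [hi0 _ (han j)]
    intro z hz
    by_contra h3
    exact hoff z hz j h3 c hc ((hi0 _ (han c)).1 h0 z hz)
  have htx := tanVec_der (p := p) D hxne hxm
  have hSan : ∀ l, AnalyticOnNhd ℂ ((s l).along f) Ω := fun l =>
    balong_an hp hB (s l) hΩ han hne hX hoff
  have hvalx : ∀ l, (s l).val x (fun j => D (x j)) = i (toHol _ (hSan l)) := by
    intro l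
    obtain ⟨k, P, hP⟩ := lclear_den (B := B) j0 ((s l).pol j0)
    have h1 := hP M x (fun j => D (x j)) hxj0 fun b hb => hoffx j0 hxj0 b hb
    rw [← (s l).val_eq hp hB htx hoffx hxj0] at h1
    -- the polynomial as a function
    let G : Fin (n + 1) ⊕ Fin (n + 1) → Hol Ω := Sum.elim F fun j =>
      toHol (deriv fun w => f w j) (han j).deriv
    have hG : (fun a => i (G a)) = Sum.elim x fun j => D (x j) := by
      funext a
      rcases a with a | a
      · rfl
      · exact (hDi _ (han a)).symm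
    have h2 : aeval (Sum.elim x fun j => D (x j)) P = i (aeval G P) := by
      rw [comp_aeval_apply G i P, hG]
    have h3 : ∀ z : Ω, evz z (aeval G P) = eval (Sum.elim (f z) (dv f z)) P := by
      intro z
      rw [comp_aeval_apply G (evz z) P, ← ae]
      congr 2
      funext a
      rcases a with a | a <;> rfl
    have h4 : aeval G P = (F j0 * ∏ b ∈ B j0, F b) ^ k * toHol _ (hSan l) := by
      have h5 : F j0 * (aeval G P - (F j0 * ∏ b ∈ B j0, F b) ^ k * toHol _ (hSan l)) = 0 := by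
        apply hol_ext
        intro z
        rw [map_mul, map_sub, map_mul, map_pow, map_mul, map_prod, map_zero, h3]
        change f z j0 * (_ - (f z j0 * ∏ b ∈ B j0, f z b) ^ k * (s l).along f z) = 0
        by_cases hz : f z j0 = 0
        · rw [hz, zero_mul]
        · have h6 := hP ℂ (f z) (dv f z) hz fun b hb => hoff z z.2 j0 hz b hb
          have h7 : (s l).along f z = aeval (lloc B j0 (f z) (dv f z)) ((s l).pol j0) :=
            (s l).val_eq hp hB (tanVec_curve hΩ han hne hX z.2) (hoff z z.2) hz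
          rw [← h7, ae] at h6
          rw [h6, sub_self, mul_zero]
      have h6 : F j0 ≠ 0 := fun h0 => hxj0 (by
        change i (F j0) = 0
        rw [h0, map_zero])
      exact sub_eq_zero.1 ((mul_eq_zero.1 h5).resolve_left h6)
    rw [h2, h4, map_mul, map_pow, map_mul, map_prod] at h1
    have h8 : i (F j0) * ∏ b ∈ B j0, i (F b) ≠ 0 := mul_ne_zero hxj0
      (Finset.prod_ne_zero_iff.2 fun b hb => hoffx j0 hxj0 b hb)
    exact (mul_left_cancel₀ (pow_ne_zero k h8) h1).symm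
  have hrel : ∀ G : MvPolynomial (Fin (n + 1)) ℂ, IsForm G →
      (W602.GT.val y G = 0 ↔ W602.GT.val x G = 0) := fun G hG =>
    (hy.rel G hG).trans (hx0 G).symm
  obtain ⟨r, h, δ, A, b, hA, hb, h1, h2, h3⟩ := linSys_ambB D (frac A0)
    (fun c hc => stab_frac hA0D hc) hp hB hs hm hxj0 hxm hoffx
    (fun l => le_frac _ ⟨(s l).along f, hS l, hvalx l⟩) hnc hy.gen hrel hLG
  -- denominators
  obtain ⟨q', hq', hq0, hqc⟩ := common_frac A0 (fun a : (Fin r × Fin r) ⊕ (Fin (n + 1) × Fin r) =>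
    Sum.elim (fun a => A a.1 a.2) (fun a => b a.1 a.2) a) (by
      rintro (a | a)
      · exact hA _ _
      · exact hb _ _)
  obtain ⟨q, hq, rfl⟩ := hq'
  have hqA : ∀ a c, ∃ (g : ℂ → ℂ) (hg : g ∈ B'), i (toHol q (hBan q hq)) * A a c =
      i (toHol g (hBan g hg)) := fun a c => hqc (Sum.inl (a, c))
  have hqb : ∀ a c, ∃ (g : ℂ → ℂ) (hg : g ∈ B'), i (toHol q (hBan q hq)) * b a c =
      i (toHol g (hBan g hg)) := fun a c => hqc (Sum.inr (a, c))
  choose α hα hαe using hqA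
  choose β hβ hβe using hqb
  obtain ⟨Q', ⟨Q0, hQ0⟩, hQne, hQc⟩ := common_frac i.range (fun a : Fin r ⊕ Unit =>
    Sum.elim h (fun _ => δ) a) (by
      intro a
      obtain ⟨u, v, hv, huv⟩ := IsFractionRing.div_surjective (A := Hol Ω)
        (Sum.elim h (fun _ => δ) a)
      refine ⟨i v, ⟨v, rfl⟩, ?_, ⟨u, ?_⟩⟩
      · rw [Ne, map_eq_zero_iff i hi]
        exact nonZeroDivisors.ne_zero hv
      · rw [← huv]
        change i u = i v * (i u / i v)
        have hv0 : i v ≠ 0 := by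
          rw [Ne, map_eq_zero_iff i hi]
          exact nonZeroDivisors.ne_zero hv
        rw [mul_div_assoc', mul_div_cancel_left₀ _ hv0])
  have hho : ∀ H : Hol Ω, ∃ (g : ℂ → ℂ) (hg : AnalyticOnNhd ℂ g Ω), H = toHol g hg := by
    intro H
    obtain ⟨g, hg, hgH⟩ := hol_an H
    exact ⟨g, hg, hol_ext fun z => by rw [hgH z, evz_toHol]⟩
  obtain ⟨Q, hQan, rfl⟩ := hho Q0
  have hQ0' : i (toHol Q hQan) = Q' := hQ0
  subst hQ0'
  have hPa : ∀ a, ∃ (g : ℂ → ℂ) (hg : AnalyticOnNhd ℂ g Ω), i (toHol Q hQan) * h a =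
      i (toHol g hg) := by
    intro a
    obtain ⟨H, hH⟩ := hQc (Sum.inl a)
    obtain ⟨g, hg, rfl⟩ := hho H
    exact ⟨g, hg, hH.symm⟩
  choose P hPan hPe using hPa
  obtain ⟨E, hEan, hEe⟩ : ∃ (E : ℂ → ℂ) (hE : AnalyticOnNhd ℂ E Ω), i (toHol Q hQan) * δ =
      i (toHol E hE) := by
    obtain ⟨H, hH⟩ := hQc (Sum.inr ())
    obtain ⟨g, hg, rfl⟩ := hho H
    exact ⟨g, hg, hH.symm⟩
  -- the identities between functions
  have hid1 : ∀ a, ∀ z ∈ Ω, q z * (deriv (P a) z * Q z - P a z * deriv Q z) =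
      q z * (E z * P a z) + Q z * ∑ c, α a c z * P c z := by
    intro a
    have e1 : D (i (toHol Q hQan) * h a) = i (toHol (deriv (P a)) (hPan a).deriv) := by
      rw [hPe, hDi]
    rw [D.leibniz, hDi] at e1
    simp only [smul_eq_mul] at e1
    have e2 : i (toHol q (hBan q hq)) * (i (toHol (deriv (P a)) (hPan a).deriv) * i (toHol Q hQan) -
        i (toHol _ (hPan a)) * i (toHol (deriv Q) hQan.deriv)) =
        i (toHol q (hBan q hq)) * (i (toHol E hEan) * i (toHol _ (hPan a))) +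
          i (toHol Q hQan) * ∑ c, i (toHol (α a c) (hBan _ (hα a c))) * i (toHol _ (hPan c)) := by
      rw [← e1, ← hPe a, ← hEe]
      have e3 : ∀ c, i (toHol (α a c) (hBan _ (hα a c))) * i (toHol _ (hPan c)) =
          i (toHol q (hBan q hq)) * i (toHol Q hQan) * (A a c * h c) := by
        intro c
        rw [← hαe, ← hPe]
        ring
      rw [Finset.sum_congr rfl fun c _ => e3 c, ← Finset.mul_sum, h1 a]
      ring
    have e4 := hieq (fun z => q z * (deriv (P a) z * Q z - P a z * deriv Q z))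
      (fun z => q z * (E z * P a z) + Q z * ∑ c, α a c z * P c z)
      ((hBan q hq).mul (((hPan a).deriv.mul hQan).sub ((hPan a).mul hQan.deriv)))
      (fun z hz => ((hBan q hq z hz).fun_mul ((hEan z hz).fun_mul (hPan a z hz))).fun_add
        ((hQan z hz).fun_mul (Finset.analyticAt_fun_sum _ fun c _ =>
          (hBan _ (hα a c) z hz).fun_mul (hPan c z hz)))) ?_
    · exact e4
    · have e5 : toHol (fun z => q z * (deriv (P a) z * Q z - P a z * deriv Q z))
          ((hBan q hq).mul (((hPan a).deriv.mul hQan).sub ((hPan a).mul hQan.deriv))) =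
          toHol q (hBan q hq) * (toHol (deriv (P a)) (hPan a).deriv * toHol Q hQan -
            toHol _ (hPan a) * toHol (deriv Q) hQan.deriv) := rfl
      have e6 : toHol (fun z => q z * (E z * P a z) + Q z * ∑ c, α a c z * P c z)
          (fun z hz => ((hBan q hq z hz).fun_mul ((hEan z hz).fun_mul (hPan a z hz))).fun_add
        ((hQan z hz).fun_mul (Finset.analyticAt_fun_sum _ fun c _ =>
          (hBan _ (hα a c) z hz).fun_mul (hPan c z hz)))) =
          toHol q (hBan q hq) * (toHol E hEan * toHol _ (hPan a)) + toHol Q hQan *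
            ∑ c, toHol (α a c) (hBan _ (hα a c)) * toHol _ (hPan c) := by
        apply hol_ext
        intro z
        simp only [map_add, map_mul, map_sum, evz_toHol] <;> rfl
      rw [e5, e6]
      simp only [map_add, map_mul, map_sub, map_sum]
      exact e2
  have hid2 : ∀ a, ∀ z ∈ Ω, f z a * ∑ c, β j0 c z * P c z = f z j0 * ∑ c, β a c z * P c z := by
    intro a
    have han1 : ∀ a' c', AnalyticOnNhd ℂ (fun z => f z a' * ∑ c, β c' c z * P c z) Ω :=
      fun a' c' z hz => (han a' z hz).fun_mul (Finset.analyticAt_fun_sum _ fun c _ =>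
        (hBan _ (hβ c' c) z hz).fun_mul (hPan c z hz))
    refine hieq _ _ (han1 a j0) (han1 j0 a) ?_
    have e5 : ∀ a' c', i (toHol _ (han1 a' c')) = i (toHol q (hBan q hq)) * i (toHol Q hQan) *
        (x a' * ∑ c, b c' c * h c) := by
      intro a' c'
      have e6 : toHol _ (han1 a' c') = toHol _ (han a') *
          ∑ c, toHol (β c' c) (hBan _ (hβ c' c)) * toHol _ (hPan c) := by
        apply hol_ext
        intro z
        simp only [map_mul, map_sum, evz_toHol]
      rw [e6]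
      simp only [map_mul, map_sum]
      have e7 : ∀ c, i (toHol (β c' c) (hBan _ (hβ c' c))) * i (toHol _ (hPan c)) =
          i (toHol q (hBan q hq)) * i (toHol Q hQan) * (b c' c * h c) := by
        intro c
        rw [← hβe, ← hPe]
        ring
      rw [Finset.sum_congr rfl fun c _ => e7 c, ← Finset.mul_sum]
      change x a' * _ = _
      ring
    rw [e5, e5, h3 a]
  have hid3 : ∃ z ∈ Ω, ∑ c, β j0 c z * P c z ≠ 0 := by
    by_contra hcon
    push Not at hcon
    have han1 : AnalyticOnNhd ℂ (fun z => ∑ c, β j0 c z * P c z) Ω := fun z hz =>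
      Finset.analyticAt_fun_sum _ fun c _ => (hBan _ (hβ j0 c) z hz).fun_mul (hPan c z hz)
    have e1 := (hi0 _ han1).2 hcon
    have e6 : toHol _ han1 = ∑ c, toHol (β j0 c) (hBan _ (hβ j0 c)) * toHol _ (hPan c) := by
      apply hol_ext
      intro z
      simp only [map_mul, map_sum, evz_toHol]
    rw [e6, map_sum] at e1
    simp only [map_mul] at e1
    have e7 : ∀ c, i (toHol (β j0 c) (hBan _ (hβ j0 c))) * i (toHol _ (hPan c)) =
        i (toHol q (hBan q hq)) * i (toHol Q hQan) * (b j0 c * h c) := by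
      intro c
      rw [← hβe, ← hPe]
      ring
    rw [Finset.sum_congr rfl fun c _ => e7 c, ← Finset.mul_sum] at e1
    exact mul_ne_zero (mul_ne_zero hq0 hQne) h2 e1
  -- a good point
  have hgood : ∃ z ∈ Ω, q z ≠ 0 ∧ Q z ≠ 0 ∧ f z j0 ≠ 0 ∧ ∑ c, β j0 c z * P c z ≠ 0 := by
    have hcdne : ∀ g : ℂ → ℂ, AnalyticOnNhd ℂ g Ω → (∃ z ∈ Ω, g z ≠ 0) →
        ∀ᶠ z in codiscreteWithin Ω, g z ≠ 0 := by
      intro g hg h0
      apply mer_ne hΩc fun z hz => (hg z hz).meromorphicAt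
      intro h5
      obtain ⟨z, hz, hz2⟩ := h0
      exact hz2 (near_zero hΩ hz (hg z hz) h5).self_of_nhds
    have c1 := hcdne q (hBan q hq) (by
      by_contra hcon
      push Not at hcon
      exact hq0 ((hi0 _ _).2 hcon))
    have c2 := hcdne Q hQan (by
      by_contra hcon
      push Not at hcon
      exact hQne ((hi0 _ _).2 hcon))
    have c3 := hcdne _ (han j0) ⟨z0, hz0, hj0'⟩
    have c4 := hcdne (fun z => ∑ c, β j0 c z * P c z) (fun z hz =>
      Finset.analyticAt_fun_sum _ fun c _ => (hBan _ (hβ j0 c) z hz).fun_mul (hPan c z hz)) hid3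
    exact cd_exists hΩ ⟨z0, hz0⟩ (c1.and (c2.and (c3.and c4)))
  obtain ⟨z1, hz1, g1, g2, g3, g4⟩ := hgood
  have hcont4 : ContinuousAt (fun z => ∑ c, β j0 c z * P c z) z1 :=
    (Finset.analyticAt_fun_sum _ fun c _ =>
      (hBan _ (hβ j0 c) z1 hz1).fun_mul (hPan c z1 hz1)).continuousAt
  obtain ⟨ρ, hρ, hρs⟩ := Metric.mem_nhds_iff.1 (Filter.inter_mem (hΩ.mem_nhds hz1)
    (((hBan q hq z1 hz1).continuousAt.eventually_ne g1).and
      (((hQan z1 hz1).continuousAt.eventually_ne g2).and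
        (((han j0 z1 hz1).continuousAt.eventually_ne g3).and (hcont4.eventually_ne g4)))))
  let U : Set ℂ := ball z1 ρ
  have hUΩ : U ⊆ Ω := fun z hz => (hρs hz).1
  have hUq : ∀ z ∈ U, q z ≠ 0 := fun z hz => (hρs hz).2.1
  have hUQ : ∀ z ∈ U, Q z ≠ 0 := fun z hz => (hρs hz).2.2.1
  have hUf : ∀ z ∈ U, f z j0 ≠ 0 := fun z hz => (hρs hz).2.2.2.1
  have hUb : ∀ z ∈ U, ∑ c, β j0 c z * P c z ≠ 0 := fun z hz => (hρs hz).2.2.2.2
  have hUo : IsOpen U := isOpen_ball
  have hUc : IsPreconnected U := (convex_ball z1 ρ).isPreconnected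
  have hUn : U.Nonempty := ⟨z1, mem_ball_self hρ⟩
  obtain ⟨Δ, -, hΔ⟩ := exists_prim (a := z1) (r := ρ) (fun z => E z / Q z) (fun z hz =>
    ((hEan z (hUΩ hz)).differentiableAt.fun_div (hQan z (hUΩ hz)).differentiableAt
      (hUQ z hz)).differentiableWithinAt)
  let g : Fin r → ℂ → ℂ := fun a z => Complex.exp (-Δ z) * (P a z / Q z)
  have hgder : ∀ a, ∀ z ∈ U, HasDerivAt (g a) (∑ c, α a c z / q z * g c z) z := by
    intro a z hz
    have e1 := (hΔ z hz).neg.cexp
    have e2 := ((hPan a z (hUΩ hz)).differentiableAt.hasDerivAt).div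
      ((hQan z (hUΩ hz)).differentiableAt.hasDerivAt) (hUQ z hz)
    refine (e1.mul e2).congr_deriv ?_
    have e3 := hid1 a z (hUΩ hz)
    have q0 := hUq z hz
    have Q0 := hUQ z hz
    have e4 : ∑ c, α a c z / q z * g c z = Complex.exp (-Δ z) / (q z * Q z) *
        ∑ c, α a c z * P c z := by
      rw [Finset.mul_sum]
      refine Finset.sum_congr rfl fun c _ => ?_
      change α a c z / q z * (Complex.exp (-Δ z) * (P c z / Q z)) = _
      field_simp
    rw [e4]
    simp only [Pi.div_apply, Pi.neg_apply]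
    have e5 : ∑ c, α a c z * P c z = (q z * (deriv (P a) z * Q z - P a z * deriv Q z) -
        q z * (E z * P a z)) / Q z := by
      rw [eq_div_iff Q0, e3]
      ring
    rw [e5]
    field_simp
    ring
  refine ⟨z1, ρ, r, q, α, β, g, j0, hρ, hUΩ, hq, hα, hβ, hUq, hUf, hgder, ?_, ?_⟩
  · intro z hz
    have e1 : ∑ c, β j0 c z * g c z = Complex.exp (-Δ z) / Q z * ∑ c, β j0 c z * P c z := by
      rw [Finset.mul_sum]
      refine Finset.sum_congr rfl fun c _ => ?_
      change β j0 c z * (Complex.exp (-Δ z) * (P c z / Q z)) = _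
      ring
    rw [e1]
    exact mul_ne_zero (div_ne_zero (Complex.exp_ne_zero _) (hUQ z hz)) (hUb z hz)
  · intro a z hz
    have e1 : ∀ a, ∑ c, β a c z * g c z = Complex.exp (-Δ z) / Q z * ∑ c, β a c z * P c z := by
      intro a
      rw [Finset.mul_sum]
      refine Finset.sum_congr rfl fun c _ => ?_
      change β a c z * (Complex.exp (-Δ z) * (P c z / Q z)) = _
      ring
    rw [e1, e1, mul_left_comm, hid2 a z (hUΩ hz), mul_left_comm]

/-- the Taylor series at a point of the disc -/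
theorem L7Baux.fin (hΩ : IsOpen Ω) (hΩc : IsPreconnected Ω)
    (B' : Subalgebra ℂ (ℂ → ℂ)) (hBan : ∀ b ∈ B', AnalyticOnNhd ℂ b Ω)
    (hBd : ∀ b ∈ B', deriv b ∈ B')
    (hp : Pool.Agent.W603.PV.IsHomog p) (hB : BdC p B) {m N : ℕ} {s : Fin N → BSymDiff p B m}
    (hs : BGens p B m s)
    (hm : 1 ≤ m) (han : ∀ j, AnalyticOnNhd ℂ (fun w => f w j) Ω) (hne : ∀ z ∈ Ω, f z ≠ 0)
    (hX : ∀ z ∈ Ω, ∀ H ∈ p, eval (f z) H = 0) (hoff : ∀ z ∈ Ω, OffB B (f z))
    (hS : ∀ l, (s l).along f ∈ B')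
    {K : Type} [Field K] [Algebra ℂ K] {w : ℕ} {y : Fin (n + 1) → K} (hy : GenPt f Ω K w y)
    (hLG : LogGeneralType ℂ K w (BdP B y))
    {z1 : ℂ} {ρ : ℝ} {r : ℕ} {q : ℂ → ℂ} {α : Fin r → Fin r → ℂ → ℂ}
    {β : Fin (n + 1) → Fin r → ℂ → ℂ} {g : Fin r → ℂ → ℂ} {j0 : Fin (n + 1)}
    (hρ : 0 < ρ) (hUΩ : ball z1 ρ ⊆ Ω) (hq : q ∈ B') (hα : ∀ a c, α a c ∈ B')
    (hβ : ∀ a c, β a c ∈ B')
    (hUq : ∀ z ∈ ball z1 ρ, q z ≠ 0) (hUf : ∀ z ∈ ball z1 ρ, f z j0 ≠ 0)
    (hg : ∀ a, ∀ z ∈ ball z1 ρ, HasDerivAt (g a) (∑ c, α a c z / q z * g c z) z)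
    (hg0 : ∀ z ∈ ball z1 ρ, ∑ c, β j0 c z * g c z ≠ 0)
    (hgf : ∀ a, ∀ z ∈ ball z1 ρ,
      f z a * ∑ c, β j0 c z * g c z = f z j0 * ∑ c, β a c z * g c z) :
    ∀ i j, AlgRatioOn Ω B' (fun z => f z i) fun z => f z j := by
  classical
  have hz1U : z1 ∈ ball z1 ρ := mem_ball_self hρ
  have hz1 : z1 ∈ Ω := hUΩ hz1U
  have hU : ball z1 ρ ∈ 𝓝 z1 := ball_mem_nhds z1 hρ
  have hT := Pool.Agent.Y564.IL.t_TAY
  obtain ⟨D, hD, hC⟩ := Pool.Agent.Y884.IL.t_FRC
  have hBU : DBOn Ω B' := ⟨fun b hb z hz => (hBan b hb z hz).meromorphicAt, hBd⟩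
  let x : Fin (n + 1) → LK := fun j => ty z1 (fun z => f z j)
  have hfa : ∀ j, AnalyticAt ℂ (fun z => f z j) z1 := fun j => han j z1 hz1
  have hx0 : ∀ G : MvPolynomial (Fin (n + 1)) ℂ, aeval x G = 0 ↔ ∀ z ∈ Ω, eval (f z) G = 0 := by
    intro G
    obtain ⟨e1, e2⟩ := ty_eval hT hfa G
    change aeval (fun j => ty z1 (fun z => f z j)) G = 0 ↔ _
    rw [← e2, ty_zero hT e1]
    constructor
    · intro h z hz
      have h1 : AnalyticOnNhd ℂ (fun z => eval (f z) G) Ω := eval_an' han G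
      exact h1.eqOn_zero_of_preconnected_of_eventuallyEq_zero hΩc hz1 h hz
    · intro h
      filter_upwards [hΩ.mem_nhds hz1] with z hz
      exact h z hz
  have hx0' : ∀ j, x j = 0 ↔ ∀ᶠ z in 𝓝 z1, f z j = 0 := fun j => ty_zero hT (hfa j)
  have hxj0 : x j0 ≠ 0 := by
    rw [Ne, hx0']
    intro h
    exact hUf z1 hz1U h.self_of_nhds
  have hxne : x ≠ 0 := fun h0 => hxj0 (congrFun h0 j0)
  have hxm : ∀ H ∈ p, aeval x H = 0 := fun H hH => (hx0 H).2 fun z hz => hX z hz H hH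
  have hoffx : OffB B x := by
    intro j hj b hb h0
    rw [hx0'] at h0
    apply hj
    rw [hx0']
    filter_upwards [h0, hΩ.mem_nhds hz1] with z h1 h2
    by_contra h3
    exact hoff z h2 j h3 b hb h1
  have htx := tanVec_der (p := p) D hxne hxm
  -- algebraic or not
  by_cases hall : ∀ i j, IsAlgebraic (baseF hT B' z1) (x i / x j)
  · intro i j
    by_cases hj : x j = 0
    · have h1 : ∀ᶠ z in codiscreteWithin Ω, f z j = 0 :=
        mer_id hΩc (fun z hz => (han j z hz).meromorphicAt) hz1 (freq_of_ev ((hx0' j).1 hj))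
      refine ⟨1, fun k _ => if k = 0 then 1 else 0, fun k => ?_, ⟨0, zero_le_one, fun h0 => ?_⟩,
        ?_⟩
      · exact B'.algebraMap_mem (if k = 0 then (1 : ℂ) else 0)
      · obtain ⟨z, -, hz⟩ := cd_exists hΩ ⟨z1, hz1⟩ h0
        simp at hz
      · filter_upwards [h1] with z hz
        rw [Finset.sum_range_succ, Finset.sum_range_one, hz]
        simp
    · exact algRatioOn_of_ty hΩ hΩc hT hBU hz1 (fun z hz => (han i z hz).meromorphicAt)
        (fun z hz => (han j z hz).meromorphicAt) (hfa i) (hfa j) hj (hall i j)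
  exfalso
  push Not at hall
  -- the values of the logarithmic symmetric differentials
  have hSa : ∀ l, AnalyticAt ℂ ((s l).along f) z1 := fun l =>
    balong_an hp hB (s l) hΩ han hne hX hoff z1 hz1
  have hval : ∀ l, (s l).val x (fun i => D (x i)) = ty z1 ((s l).along f) := by
    intro l
    obtain ⟨k, P, hP⟩ := lclear_den (B := B) j0 ((s l).pol j0)
    have h1 := hP LK x (fun j => D (x j)) hxj0 (hoffx j0 hxj0)
    rw [← (s l).val_eq hp hB htx hoffx hxj0] at h1
    let G : Fin (n + 1) ⊕ Fin (n + 1) → ℂ → ℂ := Sum.elim (fun j z => f z j) fun j =>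
      deriv fun w => f w j
    have hGa : ∀ a, AnalyticAt ℂ (G a) z1 := by
      rintro (a | a)
      · exact hfa a
      · exact (hfa a).deriv
    have hG : (fun a => ty z1 (G a)) = Sum.elim x fun j => D (x j) := by
      funext a
      rcases a with a | a
      · rfl
      · exact (ty_deriv hT hD (hfa a)).symm
    obtain ⟨e1, e2⟩ := L7Baux.ty_evalG hT hGa P
    rw [hG, h1] at e2
    let M0 : MvPolynomial (Fin (n + 1)) ℂ := (X j0 * ∏ b ∈ B j0, X b) ^ k
    obtain ⟨e4, e5⟩ := ty_eval hT hfa M0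
    have e6 : ty z1 (fun z => eval (fun j => G j z) P) =
        ty z1 (fun z => eval (fun j => f z j) M0 * (s l).along f z) := by
      apply ty_congr hT
      filter_upwards [hU] with z hz
      have hzΩ := hUΩ hz
      have e7 := hP ℂ (f z) (dv f z) (hUf z hz) (hoff z hzΩ j0 (hUf z hz))
      have e8 : (s l).along f z = aeval (lloc B j0 (f z) (dv f z)) ((s l).pol j0) :=
        (s l).val_eq hp hB (tanVec_curve hΩ han hne hX hzΩ) (hoff z hzΩ) (hUf z hz)
      rw [← e8, ae] at e7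
      have e9 : (fun j => G j z) = Sum.elim (f z) (dv f z) := by
        funext a
        rcases a with a | a <;> rfl
      rw [e9, e7]
      have e10 : eval (fun j => f z j) M0 = (f z j0 * ∏ b ∈ B j0, f z b) ^ k := by
        change eval (fun j => f z j) ((X j0 * ∏ b ∈ B j0, X b) ^ k) = _
        rw [map_pow, map_mul, map_prod, eval_X]
        simp only [eval_X]
      rw [e10]
    have e7 : aeval (fun j => ty z1 (fun z => f z j)) M0 = (x j0 * ∏ b ∈ B j0, x b) ^ k := by
      change aeval x ((X j0 * ∏ b ∈ B j0, X b) ^ k) = _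
      rw [map_pow, map_mul, map_prod, aeval_X]
      simp only [aeval_X]
    rw [e6, ty_mul hT e4 (hSa l), e5, e7] at e2
    have h8 : x j0 * ∏ b ∈ B j0, x b ≠ 0 := mul_ne_zero hxj0
      (Finset.prod_ne_zero_iff.2 fun b hb => hoffx j0 hxj0 b hb)
    exact (mul_left_cancel₀ (pow_ne_zero k h8) e2).symm
  -- the field of the coefficients
  let L0 : Subalgebra ℂ LK := baseF hT B' z1
  have hL0 : ∀ b ∈ B', ty z1 b ∈ L0 := fun b hb => le_frac _ ⟨b, hb, hBan b hb z1 hz1, rfl⟩
  have hL0D : ∀ x ∈ L0, D x ∈ L0 := fun x hx =>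
    stab_frac (Pool.Agent.Helper4K9.IP.baseR_stab hT hBU z1 hD) hx
  have hL0i : ∀ x ∈ L0, x⁻¹ ∈ L0 := fun x hx =>
    (frac (baseR hT B' z1)).inv_mem hx
  have hrel : ∀ j, x j ≠ 0 → ∀ b ∈ B j, ∃ (N : ℕ) (β : Fin N → MvPolynomial (Fin (n + 1)) ℂ)
      (c : Fin N → LK), (∀ l, c l ∈ L0) ∧ (D (x b / x j) / (x b / x j)) ^ m =
        ∑ l, aeval (fun i => x i / x j) (β l) * c l := by
    intro j hj b hb
    obtain ⟨β', hβ'⟩ := BGens.genR hp hB hs j (fun _ : Fin m => b)
    refine ⟨N, β', fun l => ty z1 ((s l).along f), fun l => hL0 _ (hS l), ?_⟩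
    have h1 := hβ' LK x (fun i => D (x i)) htx hoffx hj
    have h2 : lloc B j x (fun i => D (x i)) (Sum.inr b) = D (x b / x j) / (x b / x j) := by
      rw [lloc_der D x hj]
      change (if b ∈ B j then D (x b / x j) / (x b / x j) else D (x b / x j)) = _
      rw [if_pos hb]
    rw [Finset.prod_const, Finset.card_univ, Fintype.card_fin, h2] at h1
    rw [h1]
    refine Finset.sum_congr rfl fun l _ => ?_
    rw [← (s l).val_eq hp hB htx hoffx hj, hval]
  -- the fundamental matrix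
  have hqa : AnalyticAt ℂ q z1 := hBan q hq z1 hz1
  have hAa : ∀ i j, AnalyticAt ℂ (fun z => α i j z / q z) z1 := fun i j =>
    (hBan _ (hα i j) z1 hz1).fun_div hqa (hUq z1 hz1U)
  have hga : ∀ a, AnalyticAt ℂ (g a) z1 := by
    intro a
    have h5 : DifferentiableOn ℂ (g a) (ball z1 ρ) := fun z hz =>
      (hg a z hz).differentiableAt.differentiableWithinAt
    exact h5.analyticAt hU
  have hAL : ∀ i j, ty z1 (fun z => α i j z / q z) ∈ L0 := by
    intro i j
    rw [(ty_div hT (hBan _ (hα i j) z1 hz1) hqa (hUq z1 hz1U)).2]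
    exact (frac (baseR hT B' z1)).div_mem (hL0 _ (hα i j)) (hL0 _ hq)
  obtain ⟨X0, Y0, hXY, hdX, hsol⟩ := Pool.Agent.Y954.IL.t_FML r fun i j =>
    tay z1 (fun z => α i j z / q z)
  have hdy : ∀ i, PowerSeries.derivative ℂ (tay z1 (g i)) =
      ∑ k, tay z1 (fun z => α i k z / q z) * tay z1 (g k) := by
    intro i
    apply ty_inj
    have f1 : algebraMap (PowerSeries ℂ) LK (PowerSeries.derivative ℂ (tay z1 (g i))) =
        ty z1 (deriv (g i)) := by
      rw [← hD]
      exact ty_deriv hT hD (hga i)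
    have f2 : ∀ᶠ z in 𝓝 z1, deriv (g i) z = ∑ j, α i j z / q z * g j z := by
      filter_upwards [hU] with z hz
      exact (hg i z hz).deriv
    have f3 : ∀ j, AnalyticAt ℂ (fun z => α i j z / q z * g j z) z1 := fun j =>
      (hAa i j).mul (hga j)
    rw [f1, ty_congr hT f2, (ty_sum hT Finset.univ f3).2, map_sum]
    refine Finset.sum_congr rfl fun j _ => ?_
    rw [ty_mul hT (hAa i j) (hga j), map_mul]
    rfl
  obtain ⟨c, hc⟩ := hsol (fun i => tay z1 (g i)) hdy
  let X1 : Matrix (Fin r) (Fin r) LK := fun a b => algebraMap (PowerSeries ℂ) LK (X0 a b)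
  let Y1 : Matrix (Fin r) (Fin r) LK := fun a b => algebraMap (PowerSeries ℂ) LK (Y0 a b)
  let A1 : Matrix (Fin r) (Fin r) LK := fun a b => ty z1 (fun z => α a b z / q z)
  have hXY1 : X1 * Y1 = 1 := by
    ext a b
    rw [Matrix.mul_apply, Matrix.one_apply]
    have f1 := congrFun (congrFun hXY a) b
    rw [Matrix.mul_apply, Matrix.one_apply] at f1
    have f2 := congrArg (algebraMap (PowerSeries ℂ) LK) f1
    rw [map_sum] at f2
    simp only [map_mul] at f2
    change ∑ k, algebraMap (PowerSeries ℂ) LK (X0 a k) * algebraMap (PowerSeries ℂ) LK (Y0 k b) = _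
    rw [f2]
    split_ifs
    · exact map_one _
    · exact map_zero _
  have hXA1 : ∀ i j, D (X1 i j) = ∑ l, A1 i l * X1 l j := by
    intro a b
    change D (algebraMap (PowerSeries ℂ) LK (X0 a b)) = ∑ k, ty z1 (fun z => α a k z / q z) *
      algebraMap (PowerSeries ℂ) LK (X0 k b)
    rw [hD, hdX, map_sum]
    refine Finset.sum_congr rfl fun k _ => ?_
    rw [map_mul]
    rfl
  have hgX : ∀ a, ty z1 (g a) = ∑ k, X1 a k * algebraMap ℂ LK (c k) := by
    intro a
    unfold ty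
    rw [hc a, map_sum]
    refine Finset.sum_congr rfl fun k _ => ?_
    rw [map_mul, ← IsScalarTower.algebraMap_apply]
  -- the ring generated by the fundamental matrix
  let Sub : Subalgebra ℂ LK := L0 ⊔ Algebra.adjoin ℂ {z | ∃ i j, z = X1 i j ∨ z = Y1 i j}
  have hL0S : ∀ z ∈ L0, z ∈ Sub := fun z hz => (le_sup_left : L0 ≤ Sub) hz
  have hX1S : ∀ i j, X1 i j ∈ Sub := fun i j =>
    (le_sup_right : Algebra.adjoin ℂ {z | ∃ i j, z = X1 i j ∨ z = Y1 i j} ≤ Sub)
      (Algebra.subset_adjoin ⟨i, j, Or.inl rfl⟩)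
  have hgS : ∀ a, ty z1 (g a) ∈ Sub := by
    intro a
    rw [hgX]
    exact Sub.sum_mem fun k _ => Sub.mul_mem (hX1S a k) (Sub.algebraMap_mem _)
  have hSan : ∀ a, AnalyticAt ℂ (fun z => ∑ c, β a c z * g c z) z1 ∧
      ty z1 (fun z => ∑ c, β a c z * g c z) ∈ Sub := by
    intro a
    have h5 : ∀ c, AnalyticAt ℂ (fun z => β a c z * g c z) z1 := fun c =>
      (hBan _ (hβ a c) z1 hz1).fun_mul (hga c)
    obtain ⟨k1, k2⟩ := ty_sum hT Finset.univ h5
    refine ⟨k1, ?_⟩
    rw [k2]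
    refine Sub.sum_mem fun k _ => ?_
    rw [ty_mul hT (hBan _ (hβ a k) z1 hz1) (hga k)]
    exact Sub.mul_mem (hL0S _ (hL0 _ (hβ a k))) (hgS k)
  let S : Fin (n + 1) → LK := fun a => ty z1 (fun z => ∑ c, β a c z * g c z)
  have hS0 : S j0 ≠ 0 := by
    change ty z1 (fun z => ∑ c, β j0 c z * g c z) ≠ 0
    rw [Ne, ty_zero hT (hSan j0).1]
    intro h
    exact hg0 z1 hz1U h.self_of_nhds
  have hSx : ∀ a, x a * S j0 = x j0 * S a := by
    intro a
    change ty z1 (fun z => f z a) * ty z1 (fun z => ∑ c, β j0 c z * g c z) =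
      ty z1 (fun z => f z j0) * ty z1 (fun z => ∑ c, β a c z * g c z)
    rw [← ty_mul hT (hfa a) (hSan j0).1, ← ty_mul hT (hfa j0) (hSan a).1]
    apply ty_congr hT
    filter_upwards [hU] with z hz
    exact hgf a z hz
  have hxS : ∀ i j, ∃ u ∈ Sub, ∃ v ∈ Sub, v ≠ 0 ∧ x i / x j = u / v := by
    intro i j
    by_cases hj : x j = 0
    · exact ⟨0, Sub.zero_mem, 1, Sub.one_mem, one_ne_zero, by rw [hj]; simp⟩
    · have hSj : S j ≠ 0 := by
        intro h0
        have h1 := hSx j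
        rw [h0, mul_zero] at h1
        exact (mul_ne_zero hj hS0) h1
      refine ⟨S i, (hSan i).2, S j, (hSan j).2, hSj, ?_⟩
      rw [div_eq_div_iff hj hSj]
      have h1 := hSx i
      have h2 := hSx j
      apply mul_left_cancel₀ (mul_ne_zero hS0 hxj0)
      calc S j0 * x j0 * (x i * S j) = (x i * S j0) * (x j0 * S j) := by ring
        _ = (x j0 * S i) * (x j * S j0) := by rw [h1, ← h2]
        _ = S j0 * x j0 * (S i * x j) := by ring
  refine not_lgt_of_fund (RingEquiv.refl ℂ) D hC L0 hL0D hL0i (X := X1) (Y := Y1) (A := A1) hXY1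
    hAL hXA1 (fun c => L0.algebraMap_mem c) hm hxne hoffx Sub rfl hxS hall hrel hy.ne hy.gen
    hy.dim (fun G hG => ?_) hLG
  exact (hy.rel G hG).trans (hx0 G).symm

theorem alg_of_lgtB (hΩ : IsOpen Ω) (hΩc : IsPreconnected Ω) (hΩn : Ω.Nonempty)
    (B' : Subalgebra ℂ (ℂ → ℂ)) (hBan : ∀ b ∈ B', AnalyticOnNhd ℂ b Ω)
    (hBd : ∀ b ∈ B', deriv b ∈ B')
    (hp : Pool.Agent.W603.PV.IsHomog p) (hB : BdC p B) {m N : ℕ} {s : Fin N → BSymDiff p B m}
    (hs : BGens p B m s)
    (hm : 1 ≤ m) (han : ∀ j, AnalyticOnNhd ℂ (fun w => f w j) Ω) (hne : ∀ z ∈ Ω, f z ≠ 0)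
    (hX : ∀ z ∈ Ω, ∀ H ∈ p, eval (f z) H = 0) (hoff : ∀ z ∈ Ω, OffB B (f z))
    (hS : ∀ l, (s l).along f ∈ B')
    {K : Type} [Field K] [Algebra ℂ K] {w : ℕ} {y : Fin (n + 1) → K} (hy : GenPt f Ω K w y)
    (hLG : LogGeneralType ℂ K w (BdP B y)) :
    (∃ j0, ∀ j, ∃ c : ℂ, ∀ z ∈ Ω, f z j = c * f z j0) ∨
      ∀ i j, AlgRatioOn Ω B' (fun z => f z i) fun z => f z j := by
  rcases L7Baux.sys hΩ hΩc hΩn B' hBan hBd hp hB hs hm han hne hX hoff hS hy hLG with h |
    ⟨z1, ρ, r, q, α, β, g, j0, h1, h2, h3, h4, h5, h6, h7, h8, h9, h10⟩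
  · exact Or.inl h
  · exact Or.inr (L7Baux.fin hΩ hΩc B' hBan hBd hp hB hs hm han hne hX hoff hS hy hLG h1 h2 h3 h4
      h5 h6 h7 h8 h9 h10)

theorem pcurve_lextB (hp : Pool.Agent.W603.PV.IsHomog p) (hB : BdC p B) {m N : ℕ}
    {s : Fin N → BSymDiff p B m}
    (hs : BGens p B m s) (hm : 1 ≤ m) (han : ∀ j, AnalyticOnNhd ℂ (fun w => f w j) (PB 1))
    (hne : ∀ z ∈ PB 1, f z ≠ 0) (hX : ∀ z ∈ PB 1, ∀ H ∈ p, eval (f z) H = 0)
    (hoff : ∀ z ∈ PB 1, OffB B (f z))
    {K : Type} [Field K] [Algebra ℂ K] {w : ℕ} {y : Fin (n + 1) → K} (hy : GenPt f (PB 1) K w y)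
    (hLG : LogGeneralType ℂ K w (BdP B y)) : Extends f := by
  rcases alg_of_lgtB (PB_open 1) (PB_preconn one_pos) (PB_nonempty one_pos) (smallRing one_pos f)
    (fun b hb => by
      have h1 := hb.1
      rwa [pb_eq] at h1) (fun b hb => (db_small one_pos le_rfl f).der b hb) hp hB hs hm han
    hne hX hoff (fun l => balong_small hp hB (s l) han hne hX hoff) hy hLG with ⟨j0, h⟩ | h
  · exact extends_of_const han hne h
  · obtain ⟨C, -, hC⟩ := Pool.Agent.Helper4K9.AP.growth_of_alg one_pos le_rfl han hne h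
    exact extends_of_growth han hne hC

end Pool.Agent.H917.Mg
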