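import Pool.Agent.H917.B5
import Pool.Agent.H917.L.L8
import Pool.Agent.H917.M.L7B

/-!
# PROJECT BND (helper917), task L8B: entire curves

Port of `L/L8.lean`: replace `eval (f z) Q ≠ 0` by `OffB B (f z)`, `pcurve_lext` by `pcurve_lextB` (M/L7B, stub), `lalong_eq`, `lalong_an` by `balong_eq`, `balong_an` (M/L6B, stubs).
-/

set_option autoImplicit false
set_option linter.overlappingInstances false
set_option linter.unusedSectionVars false

open MvPolynomial Metric Set Filter Topology FF Pool.Agent.W602.GT Pool.Agent.W603.BP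
  Pool.Agent.TH143.GT Pool.Agent.W603.GR
open Pool.Agent.H917.Lg (lch lch2 SDL lloc)

namespace Pool.Agent.H917.Mg

variable {n : ℕ} {p : Ideal (MvPolynomial (Fin (n + 1)) ℂ)}
  {B : Fin (n + 1) → Finset (Fin (n + 1))} {f : ℂ → Fin (n + 1) → ℂ} {Ω : Set ℂ}

namespace L8Baux

open Pool.Agent.H917.Lg.L8aux

/-- the values along a curve near infinity -/
theorem balong_inv (hp : Pool.Agent.W603.PV.IsHomog p)
    (hB : BdC p B) {m : ℕ} (s : BSymDiff p B m)
    (hf : ∀ j, Differentiable ℂ fun z => f z j) (hne : ∀ z, f z ≠ 0)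
    (hX : ∀ z, ∀ H ∈ p, eval (f z) H = 0) (hoff : ∀ z, OffB B (f z))
    {g : ℂ → Fin (n + 1) → ℂ}
    (hg : ∀ j, AnalyticOnNhd ℂ (fun w => g w j) (ball 0 1))
    (hfg : ∀ w ∈ PB 1, ∃ c : ℂ, f w⁻¹ = c • g w) {z : ℂ} (hz : 1 < ‖z‖)
    {j : Fin (n + 1)} (hgj : g z⁻¹ j ≠ 0) :
    s.along f z = (-z⁻¹) ^ m * eval (Sum.elim (fun i => g z⁻¹ i / g z⁻¹ j) fun i =>
      if i ∈ B j then z⁻¹ * (deriv (fun w => g w i / g w j) z⁻¹ / (g z⁻¹ i / g z⁻¹ j))
      else z⁻¹ * deriv (fun w => g w i / g w j) z⁻¹) (s.pol j) := by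
  have hfan : ∀ j, AnalyticOnNhd ℂ (fun w => f w j) univ := fun j z _ => (hf j).analyticAt z
  have hz0 : z ≠ 0 := by
    intro h0
    rw [h0, norm_zero] at hz
    linarith
  have hzi : z⁻¹ ∈ PB 1 := ⟨inv_ne_zero hz0, by
    rw [norm_inv]
    exact inv_lt_one_of_one_lt₀ hz⟩
  have hzb : z⁻¹ ∈ ball (0 : ℂ) 1 := by
    rw [mem_ball_zero_iff]
    exact hzi.2
  obtain ⟨c, hc⟩ := hfg _ hzi
  rw [inv_inv] at hc
  have hc0 : c ≠ 0 := by
    rintro rfl
    apply hne z
    rw [hc, zero_smul]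
  have hj' : f z j ≠ 0 := by
    rw [hc, Pi.smul_apply, smul_eq_mul]
    exact mul_ne_zero hc0 hgj
  rw [balong_eq hp hB s isOpen_univ hfan (fun z _ => hne z) (fun z _ => hX z)
    (fun z _ => hoff z) (mem_univ z) hj', ← ae, ← ae, ← aeval_scale_inr (s.hom j)]
  have hU : {w : ℂ | 1 < ‖w‖ ∧ f w j ≠ 0} ∈ 𝓝 z := by
    refine Filter.inter_mem ((isOpen_lt continuous_const continuous_norm).mem_nhds hz) ?_
    exact (hf j).continuous.continuousAt.eventually_ne hj'
  have hq : ∀ i, (fun w => f w i / f w j) =ᶠ[𝓝 z] fun w => g w⁻¹ i / g w⁻¹ j := by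
    intro i
    filter_upwards [hU] with w hw
    have hw0 : w ≠ 0 := by
      intro h0
      have := hw.1
      rw [h0, norm_zero] at this
      linarith
    obtain ⟨c, hc⟩ := hfg w⁻¹ ⟨inv_ne_zero hw0, by
      rw [norm_inv]
      exact inv_lt_one_of_one_lt₀ hw.1⟩
    rw [inv_inv] at hc
    have hc0 : c ≠ 0 := by
      rintro rfl
      apply hw.2
      rw [hc, Pi.smul_apply, zero_smul]
    rw [hc, Pi.smul_apply, Pi.smul_apply, smul_eq_mul, smul_eq_mul, mul_div_mul_left _ _ hc0]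
  have hd : ∀ k, deriv (fun w => f w k / f w j) z =
      -(z ^ 2)⁻¹ * deriv (fun w => g w k / g w j) z⁻¹ := by
    intro k
    rw [(hq k).deriv_eq]
    have h1 : HasDerivAt (fun w => g w k / g w j) (deriv (fun w => g w k / g w j) z⁻¹) z⁻¹ :=
      ((hg k _ hzb).differentiableAt.fun_div (hg j _ hzb).differentiableAt hgj).hasDerivAt
    have h2 := h1.comp z (hasDerivAt_inv hz0)
    refine h2.deriv.trans ?_
    ring
  have hi2 : (z ^ 2)⁻¹ = z⁻¹ * z⁻¹ := by
    rw [pow_two, mul_inv]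
  congr 2
  funext k
  rcases k with k | k
  · exact (hq k).self_of_nhds
  · have h3 : f z k / f z j = g z⁻¹ k / g z⁻¹ j := (hq k).self_of_nhds
    change (if k ∈ B j then deriv (fun w => f w k / f w j) z / (f z k / f z j)
        else deriv (fun w => f w k / f w j) z) = -z⁻¹ *
      (if k ∈ B j then z⁻¹ * (deriv (fun w => g w k / g w j) z⁻¹ / (g z⁻¹ k / g z⁻¹ j))
      else z⁻¹ * deriv (fun w => g w k / g w j) z⁻¹)
    rw [hd k, h3, hi2]
    split_ifs with h
    · ring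
    · ring

theorem const_of_balong (hp : Pool.Agent.W603.PV.IsHomog p)
    (hB : BdC p B) {m N : ℕ} {s : Fin N → BSymDiff p B m}
    (hs : BGens p B m s) (hΩ : IsOpen Ω) (hΩc : IsPreconnected Ω)
    (han : ∀ j, AnalyticOnNhd ℂ (fun w => f w j) Ω) (hne : ∀ z ∈ Ω, f z ≠ 0)
    (hX : ∀ z ∈ Ω, ∀ H ∈ p, eval (f z) H = 0) (hoff : ∀ z ∈ Ω, OffB B (f z))
    (h : ∀ l, ∀ z ∈ Ω, (s l).along f z = 0)
    {z0 : ℂ} (hz0 : z0 ∈ Ω) {j0 : Fin (n + 1)} (hj0 : f z0 j0 ≠ 0) (i : Fin (n + 1)) :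
    ∃ c : ℂ, ∀ z ∈ Ω, f z i = c * f z j0 := by
  refine const_of_deriv hΩ hΩc (han i) (han j0) hz0 hj0 fun z hz hz' => ?_
  obtain ⟨b, hb⟩ := hs j0 fun _ => i
  have h1 := hb (f z) (dv f z) (tanVec_curve hΩ han hne hX hz) (hoff z hz) hz'
  rw [lloc_curve (fun j => (han j z hz).differentiableAt) hz', Finset.prod_const,
    Finset.card_univ, Fintype.card_fin] at h1
  rw [Finset.sum_eq_zero fun l _ => by
    rw [← balong_eq hp hB (s l) hΩ han hne hX hoff hz hz', h l z hz, mul_zero]] at h1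
  have h2 : (if i ∈ B j0 then deriv (fun w => f w i / f w j0) z / (f z i / f z j0)
        else deriv (fun w => f w i / f w j0) z) = 0 := by
    by_contra h0
    exact pow_ne_zero m h0 h1
  by_cases hi : i ∈ B j0
  · rw [if_pos hi] at h2
    have h3 : f z i ≠ 0 := hoff z hz j0 hz' i hi
    exact (div_eq_zero_iff.1 h2).resolve_right (div_ne_zero h3 hz')
  · rw [if_neg hi] at h2
    exact h2

end L8Baux

open L8Baux Pool.Agent.H917.Lg.L8aux

theorem entire_not_lgtB (hp : Pool.Agent.W603.PV.IsHomog p) (hB : BdC p B) {m N : ℕ}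
    {s : Fin N → BSymDiff p B m}
    (hs : BGens p B m s) (hm : 1 ≤ m) (hf : ∀ j, Differentiable ℂ fun z => f z j)
    (hne : ∀ z, f z ≠ 0) (hX : ∀ z, ∀ H ∈ p, eval (f z) H = 0) (hoff : ∀ z, OffB B (f z))
    (hnc : ∃ z w, ∀ c : ℂ, f z ≠ c • f w)
    {K : Type} [Field K] [Algebra ℂ K] {w : ℕ} {y : Fin (n + 1) → K} (hy : GenPt f univ K w y) :
    ¬ LogGeneralType ℂ K w (BdP B y) := by
  intro hLG
  have hfan : ∀ j, AnalyticOnNhd ℂ (fun w => f w j) univ := fun j z _ => (hf j).analyticAt z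
  have hinv : ∀ w ∈ PB 1, w ≠ 0 := fun w hw => hw.1
  have han : ∀ j, AnalyticOnNhd ℂ (fun w => f w⁻¹ j) (PB 1) := fun j w hw =>
    ((hf j).analyticAt w⁻¹).fun_comp (analyticAt_inv (hinv w hw))
  have hy' : GenPt (fun w => f w⁻¹) (PB 1) K w y := by
    refine ⟨hy.ne, hy.gen, hy.dim, fun G hG => (hy.rel G hG).trans
      ⟨fun h z _ => h _ (mem_univ _), fun h z _ => ?_⟩⟩
    have h1 : AnalyticOnNhd ℂ (fun z => eval (f z) G) univ := eval_an' hfan G
    refine h1.eqOn_zero_of_preconnected_of_eventuallyEq_zero isPreconnected_univ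
      (z₀ := 2) (mem_univ _) ?_ (mem_univ z)
    have h2 : {w : ℂ | 1 < ‖w‖} ∈ 𝓝 (2 : ℂ) :=
      (isOpen_lt continuous_const continuous_norm).mem_nhds (by simp)
    filter_upwards [h2] with w hw
    have hw0 : w ≠ 0 := by
      intro h0
      have : 1 < ‖w‖ := hw
      rw [h0, norm_zero] at this
      linarith
    have h3 := h w⁻¹ ⟨inv_ne_zero hw0, by
      rw [norm_inv]
      exact inv_lt_one_of_one_lt₀ hw⟩
    rw [inv_inv] at h3
    exact h3
  obtain ⟨g, hgd, hgne, hgf⟩ := pcurve_lextB hp hB hs hm han (fun z _ => hne _)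
    (fun z _ => hX _) (fun z _ => hoff _) hy' hLG
  have hgf' : ∀ w ∈ PB 1, ∃ c : ℂ, f w⁻¹ = c • g w := by
    intro w hw
    exact hgf w (by rw [Pool.Agent.Helper4K9.IP.pb_eq]; exact hw)
  have hgan : ∀ j, AnalyticOnNhd ℂ (fun w => g w j) (ball 0 1) := fun j =>
    (differentiableOn_pi.1 hgd j).analyticOnNhd isOpen_ball
  -- the values of the symmetric differentials vanish
  have hzero : ∀ l, ∀ z ∈ univ, (s l).along f z = 0 := by
    intro l
    have h1 : AnalyticOnNhd ℂ ((s l).along f) univ :=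
      balong_an hp hB (s l) isOpen_univ hfan (fun z _ => hne z) (fun z _ => hX z)
        (fun z _ => hoff z)
    have h2 : Differentiable ℂ ((s l).along f) := fun z => (h1 z (mem_univ z)).differentiableAt
    have h0b : (0 : ℂ) ∈ ball (0 : ℂ) 1 := mem_ball_self one_pos
    obtain ⟨j, hj⟩ := Function.ne_iff.1 (hgne 0 h0b)
    have hj' : g 0 j ≠ 0 := hj
    have hjn : ∀ᶠ w in 𝓝 (0 : ℂ), g w j ≠ 0 := (hgan j 0 h0b).continuousAt.eventually_ne hj'
    have hu : ∀ i, AnalyticAt ℂ (fun w => g w i / g w j) 0 := fun i =>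
      (hgan i 0 h0b).fun_div (hgan j 0 h0b) hj'
    have hPB : ∀ᶠ w in 𝓝[≠] (0 : ℂ), w ∈ PB 1 := by
      filter_upwards [nhdsWithin_le_nhds (ball_mem_nhds (0 : ℂ) one_pos),
        self_mem_nhdsWithin] with w hw hw0
      exact ⟨hw0, by rwa [mem_ball_zero_iff] at hw⟩
    have hun : ∀ i ∈ B j, ∀ᶠ w in 𝓝[≠] (0 : ℂ), g w i / g w j ≠ 0 := by
      intro i hi
      filter_upwards [hPB, nhdsWithin_le_nhds hjn] with w hw hwj
      obtain ⟨c, hc⟩ := hgf' w hw
      have hc0 : c ≠ 0 := by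
        rintro rfl
        apply hne w⁻¹
        rw [hc, zero_smul]
      refine div_ne_zero (fun h0 => ?_) hwj
      have hfj : f w⁻¹ j ≠ 0 := by
        rw [hc, Pi.smul_apply, smul_eq_mul]
        exact mul_ne_zero hc0 hwj
      refine hoff w⁻¹ j hfj i hi ?_
      rw [hc, Pi.smul_apply, smul_eq_mul, h0, mul_zero]
    have hL : ∀ i, ∃ L : ℂ, Tendsto (fun v : ℂ =>
        if i ∈ B j then v * (deriv (fun w => g w i / g w j) v / (g v i / g v j))
        else v * deriv (fun w => g w i / g w j) v) (𝓝[≠] (0 : ℂ)) (𝓝 L) := by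
      intro i
      by_cases hi : i ∈ B j
      · simp only [if_pos hi]
        exact tend_log (hu i) (hun i hi)
      · simp only [if_neg hi]
        refine ⟨0 * deriv (fun w => g w i / g w j) 0, ?_⟩
        exact (continuousAt_id.mul (hu i).deriv.continuousAt).tendsto.mono_left
          nhdsWithin_le_nhds
    choose L hL using hL
    have hE : Tendsto (fun v : ℂ => eval (Sum.elim (fun i => g v i / g v j) fun i =>
        if i ∈ B j then v * (deriv (fun w => g w i / g w j) v / (g v i / g v j))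
        else v * deriv (fun w => g w i / g w j) v) ((s l).pol j)) (𝓝[≠] (0 : ℂ))
        (𝓝 (eval (Sum.elim (fun i => g 0 i / g 0 j) L) ((s l).pol j))) := by
      refine ((MvPolynomial.continuous_eval ((s l).pol j)).tendsto _).comp ?_
      rw [tendsto_pi_nhds]
      intro k
      rcases k with k | k
      · exact (hu k).continuousAt.tendsto.mono_left nhdsWithin_le_nhds
      · exact hL k
    have h4 : Tendsto ((s l).along f) (cocompact ℂ) (𝓝 0) := by
      have h5 : Tendsto (fun z : ℂ => z⁻¹) (cocompact ℂ) (𝓝[≠] 0) := by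
        rw [← Metric.cobounded_eq_cocompact]
        exact tendsto_inv₀_cobounded'
      have h5' : Tendsto (fun z : ℂ => z⁻¹) (cocompact ℂ) (𝓝 0) :=
        h5.mono_right nhdsWithin_le_nhds
      have h6 := ((h5'.neg).pow m).mul (hE.comp h5)
      have h7 : (-(0 : ℂ)) ^ m * eval (Sum.elim (fun i => g 0 i / g 0 j) L) ((s l).pol j) = 0 := by
        rw [neg_zero, zero_pow (by omega), zero_mul]
      rw [h7] at h6
      refine h6.congr' ?_
      have h8 : ∀ᶠ z : ℂ in cocompact ℂ, 1 < ‖z‖ :=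
        tendsto_norm_cocompact_atTop.eventually_gt_atTop 1
      filter_upwards [h8, h5'.eventually hjn] with z hz hzj
      exact (balong_inv hp hB (s l) hf hne hX hoff hgan hgf' hz hzj).symm
    intro z _
    rw [h2.eq_const_of_tendsto_cocompact h4]
    rfl
  obtain ⟨z1, w1, hzw⟩ := hnc
  obtain ⟨j0, hj0⟩ := Function.ne_iff.1 (hne w1)
  have hj0' : f w1 j0 ≠ 0 := hj0
  choose c hc using const_of_balong hp hB hs isOpen_univ isPreconnected_univ hfan
    (fun z _ => hne z) (fun z _ => hX z) (fun z _ => hoff z) hzero (mem_univ w1) hj0'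
  apply hzw (f z1 j0 / f w1 j0)
  funext i
  rw [Pi.smul_apply, smul_eq_mul, hc i z1 (mem_univ _), hc i w1 (mem_univ _)]
  field_simp

end Pool.Agent.H917.Mg
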