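import Pool.Agent.H917.L.F1
import Pool.Agent.H917.M.L8B

/-!
# PROJECT BND (helper917), task F1B: spPB_sub, spHB_sub

Port of `L/F1.lean` with `pcurve_lextB`, `entire_not_lgtB` (stubs in M/L7B, M/L8B); the generic point of the curve satisfies `OffB B y`: if `y j ≠ 0` then `f · j` is not identically zero, and if `y b = 0`, `b ∈ B j`, then `f · b` is identically zero, a contradiction to `OffB B (f z)` at a point with `f z j ≠ 0`.
-/

set_option autoImplicit false
set_option linter.overlappingInstances false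
set_option linter.unusedSectionVars false

open MvPolynomial Metric Set MeasureTheory
open Pool.Agent.W602.GT (IsForm LogGeneralType coords)
open Pool.Agent.H917.G (HolMap PE)

namespace Pool.Agent.H917.Mg

variable {n : ℕ} {p : Ideal (MvPolynomial (Fin (n + 1)) ℂ)}
  {B : Fin (n + 1) → Finset (Fin (n + 1))}

namespace F1Baux

/-- the generic point of a curve outside of the boundary is outside of the boundary -/
theorem off_gen {f : ℂ → Fin (n + 1) → ℂ} {Ω : Set ℂ} (hoff : ∀ z ∈ Ω, OffB B (f z))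
    {K : Type} [Field K] [Algebra ℂ K] {w : ℕ} {y : Fin (n + 1) → K}
    (hy : Pool.Agent.TH143.GT.GenPt f Ω K w y) : OffB B y := by
  intro j hj b hb h0
  have h1 : aeval y (X b : MvPolynomial (Fin (n + 1)) ℂ) = 0 := by rw [aeval_X, h0]
  have h2 := (hy.rel (X b) ⟨1, isHomogeneous_X ℂ b⟩).1 h1
  apply hj
  have h3 : aeval y (X j : MvPolynomial (Fin (n + 1)) ℂ) = 0 := by
    refine (hy.rel (X j) ⟨1, isHomogeneous_X ℂ j⟩).2 fun z hz => ?_
    rw [eval_X]
    by_contra h4
    have h5 := h2 z hz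
    rw [eval_X] at h5
    exact hoff z hz j h4 b hb h5
  rwa [aeval_X] at h3

end F1Baux

open Pool.Agent.W603.BP (PB PB_preconn PB_nonempty mem_disc disc_open)

theorem spPB_sub (hp : Pool.Agent.W603.PV.IsHomog p) (hB : BdC p B) {m N : ℕ}
    {s : Fin N → BSymDiff p B m} (hs : BGens p B m s) (hm : 1 ≤ m) :
    SpPB p B ⊆ SpAlgB p B := by
  intro x hx
  refine ⟨hx.1, fun G hG hGT => hx.2 G hG fun f hf hoff hext => ?_⟩
  have han : ∀ j, AnalyticOnNhd ℂ (fun w => f w j) (PB 1) := by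
    intro j w hw
    have h1 : DifferentiableOn ℂ (fun w => f w j) (ball 0 1 \ {0}) := by
      intro z hz
      exact (differentiableWithinAt_pi.mp (hf.1 z hz)) j
    exact h1.analyticAt (disc_open.mem_nhds (mem_disc.mpr hw))
  have hne : ∀ w ∈ PB 1, f w ≠ 0 := fun w hw => (hf.2 w (mem_disc.2 hw)).1
  have hX : ∀ z ∈ PB 1, ∀ H ∈ p, eval (f z) H = 0 := fun z hz => (hf.2 z (mem_disc.2 hz)).2
  have hoff' : ∀ z ∈ PB 1, OffB B (f z) := fun z hz => hoff z (mem_disc.2 hz)
  obtain ⟨z0, hz0⟩ := PB_nonempty one_pos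
  obtain ⟨j0, hj0⟩ := Function.ne_iff.1 (hne z0 hz0)
  obtain ⟨K, i1, i2, w, y, h1, h2, h3, h4, h5⟩ := Pool.Agent.TH143.GT.exists_closure f
    (PB_preconn one_pos) han ⟨z0, hz0, hj0⟩
  have hy : Pool.Agent.TH143.GT.GenPt f (PB 1) K w y := ⟨h1, h2, h3, h4⟩
  rcases Nat.eq_zero_or_pos w with hw | hw
  · exact absurd (Pool.Agent.TH143.GT.extends_of_const han hne (h5 hw)) hext
  · have h6 := hGT K w y hw ⟨subVar_of_gen hp hy hX, F1Baux.off_gen hoff' hy⟩
      fun hgt => hext (pcurve_lextB hp hB hs hm han hne hX hoff' hy hgt)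
    intro z hz
    exact (hy.rel G hG).1 h6 z (mem_disc.1 hz)

theorem spHB_sub (hp : Pool.Agent.W603.PV.IsHomog p) (hB : BdC p B) {m N : ℕ}
    {s : Fin N → BSymDiff p B m} (hs : BGens p B m s) (hm : 1 ≤ m) :
    SpHB p B ⊆ SpAlgB p B := by
  intro x hx
  refine ⟨hx.1, fun G hG hGT => hx.2 G hG fun f hf hoff => ?_⟩
  have hd : ∀ j, Differentiable ℂ fun z => f z j := fun j z => (differentiableAt_pi.1 (hf.1 z)) j
  have han : ∀ j, AnalyticOnNhd ℂ (fun w => f w j) univ := fun j z _ => (hd j).analyticAt z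
  have hX : ∀ z ∈ (univ : Set ℂ), ∀ H ∈ p, eval (f z) H = 0 := fun z _ => (hf.2.1 z).2
  obtain ⟨j0, hj0⟩ := Function.ne_iff.1 (hf.2.1 0).1
  obtain ⟨K, i1, i2, w, y, h1, h2, h3, h4, h5⟩ := Pool.Agent.TH143.GT.exists_closure f
    isPreconnected_univ han ⟨0, mem_univ _, hj0⟩
  have hy : Pool.Agent.TH143.GT.GenPt f univ K w y := ⟨h1, h2, h3, h4⟩
  rcases Nat.eq_zero_or_pos w with hw | hw
  · exfalso
    obtain ⟨z, w', hzw⟩ := hf.2.2
    have h6 := h5 hw
    choose c hc using h6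
    have hw0 : f w' j0 ≠ 0 := by
      intro h0
      apply (hf.2.1 w').1
      funext j
      rw [hc j w' (mem_univ _), h0, mul_zero]
      rfl
    apply hzw (f z j0 / f w' j0)
    funext j
    rw [Pi.smul_apply, smul_eq_mul, hc j z (mem_univ _), hc j w' (mem_univ _)]
    field_simp
  · have h6 := hGT K w y hw
      ⟨subVar_of_gen hp hy hX, F1Baux.off_gen (fun z _ => hoff z) hy⟩
      fun hgt => entire_not_lgtB hp hB hs hm hd (fun z => (hf.2.1 z).1)
        (fun z => (hf.2.1 z).2) hoff hf.2.2 hy hgt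
    intro z
    exact (hy.rel G hG).1 h6 z (mem_univ _)

end Pool.Agent.H917.Mg
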