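import Pool.Agent.H917.L.K1
import Pool.Agent.H917.M.P1b

/-!
# PROJECT BND (helper917), task K1B: derivations with constant logarithmic symmetric differentials on varieties which are not of log general type

Port of `L/K1.lean` (`key_NL`): replace `OffQ Q q y` by `BdP B y`, `aeval y Q ≠ 0` by `OffB B y`, `LSymDiff` by `BSymDiff`. In `Sf'_reg`/`log_reg`: let `j` be a chart with all `y i / y j` regular at `P`, `b ∈ B j`; if `P.ord (y b / y j) > 0` then `BdP B y P` holds by definition, so the second part of `PresB` applies.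
(The definitions `K1aux.wt`, `Lf'` of `L/K1.lean` do not involve `Q` and can be used unchanged.)
-/

set_option autoImplicit false
set_option linter.overlappingInstances false
set_option linter.unusedSectionVars false

open FF MvPolynomial Pool.Agent.W603.LV Pool.Agent.W619.PQ Pool.Agent.W602.GT
  Pool.Agent.W619.TW Pool.Agent.W619.Y Pool.Agent.Y174 Pool.Agent.Y174.T
open Pool.Agent.H917.Lg (lch lch2 SDL PresB WL RegSymL lloc lloc_der exists_iitakaL coeff_algL)
open Pool.Agent.H917.Lg.K1aux (lch_wt wt_ne Lf' eval_Lf' Lf'_hom Lf'_span)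

namespace Pool.Agent.H917.Mg

variable {n : ℕ} {p : Ideal (MvPolynomial (Fin (n + 1)) ℂ)}
  {B : Fin (n + 1) → Finset (Fin (n + 1))}

namespace K1Baux

section

variable {F : Type} [Field F] [Algebra ℂ F]

/-- a logarithmic symmetric differential in the directions of the foliation -/
noncomputable def SfB {r : ℕ} (E' : Fin r → Derivation ℂ F F) (y : Fin (n + 1) → F)
    (j0 : Fin (n + 1)) {m : ℕ} (s : BSymDiff p B m) : MvPolynomial (Fin r) F :=
  aeval (Sum.elim (fun i => C (y i / y j0)) fun i => Lf' E' B y j0 i) (s.pol j0)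

theorem eval_SfB {r : ℕ} (E' : Fin r → Derivation ℂ F F) (y : Fin (n + 1) → F)
    {j0 : Fin (n + 1)} {m : ℕ} (s : BSymDiff p B m) (v : Fin r → F) :
    eval v (SfB E' y j0 s) = aeval (lch2 (∑ c, v c • E' c) B y j0) (s.pol j0) := by
  rw [SfB, eval_aeval']
  congr 2
  funext k
  rcases k with k | k
  · rw [Sum.elim_inl, eval_C]
    rfl
  · rw [Sum.elim_inr, eval_Lf']
    rfl

theorem SfB_hom {r : ℕ} (E' : Fin r → Derivation ℂ F F) (y : Fin (n + 1) → F)
    (j0 : Fin (n + 1)) {m : ℕ} (s : BSymDiff p B m) : (SfB E' y j0 s).IsHomogeneous m := by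
  classical
  rw [SfB, aeval_def, eval₂_eq]
  refine IsHomogeneous.sum _ _ _ fun α hα => ?_
  have h3 := s.hom j0 (mem_support_iff.1 hα)
  rw [Finsupp.weight_apply, Finsupp.sum] at h3
  have h4 : ∀ i : Fin (n + 1) ⊕ Fin (n + 1), ((Sum.elim (fun i => C (y i / y j0))
      fun i => Lf' E' B y j0 i) i : MvPolynomial (Fin r) F).IsHomogeneous
      ((Sum.elim (fun _ => 0) fun _ => 1 : Fin (n + 1) ⊕ Fin (n + 1) → ℕ) i) := by
    rintro (i | i)
    · exact isHomogeneous_C (Fin r) (y i / y j0)
    · exact Lf'_hom E' B y j0 i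
  have h5 := IsHomogeneous.prod α.support (fun i => (Sum.elim (fun i => C (y i / y j0))
      (fun i => Lf' E' B y j0 i) i : MvPolynomial (Fin r) F) ^ α i)
      (fun i => α i * (Sum.elim (fun _ => 0) fun _ => 1 : Fin (n + 1) ⊕ Fin (n + 1) → ℕ) i)
      (fun i _ => by
        rw [mul_comm]
        exact (h4 i).pow (α i))
  have h6 : ∑ i ∈ α.support, α i *
      (Sum.elim (fun _ => 0) fun _ => 1 : Fin (n + 1) ⊕ Fin (n + 1) → ℕ) i = m := by
    rw [← h3]
    refine Finset.sum_congr rfl fun i _ => ?_
    rw [smul_eq_mul]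
  rw [h6] at h5
  have h7 := (isHomogeneous_C (Fin r) (algebraMap ℂ F (coeff α (s.pol j0)))).mul h5
  rw [zero_add] at h7
  exact h7

/-- the logarithmic derivatives of the boundary coordinates are regular -/
theorem log_regB {y : Fin (n + 1) → F} (hoff : OffB B y) {j : Fin (n + 1)} (hj : y j ≠ 0)
    {P : Place ℂ F} (hreg : ∀ i, P.Reg (y i / y j)) {D : Derivation ℂ F F}
    (hD : PresB (BdP B y) P D) {b : Fin (n + 1)} (hb : b ∈ B j) :
    P.Reg (D (y b / y j) / (y b / y j)) := by
  have hyb : y b ≠ 0 := hoff j hj b hb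
  have hu : y b / y j ≠ 0 := div_ne_zero hyb hj
  have h0 : 0 ≤ P.ord (y b / y j) := (P.reg_iff hu).1 (hreg b)
  rcases eq_or_lt_of_le h0 with h1 | h1
  · rw [div_eq_mul_inv]
    refine P.reg_mul (hD.1 _ (hreg b)) (Or.inr ?_)
    rw [P.ord_inv, ← h1, neg_zero]
  · exact hD.2 ⟨j, hj, hreg, b, hb, h1⟩ _

/-- the logarithmic symmetric differentials are regular at all places -/
theorem SfB_reg (hp : Pool.Agent.W603.PV.IsHomog p) (hB : BdC p B) {κ r : ℕ} {t : Fin κ → F} {η : Fin r → F}
    {E : Fin (κ + r) → Derivation ℂ F F} (hE : Frm (Fin.append t η) E) {y : Fin (n + 1) → F}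
    (hm : ∀ H ∈ p, aeval y H = 0) (hoff : OffB B y) {j0 : Fin (n + 1)} (hj0 : y j0 ≠ 0)
    {m : ℕ} (s : BSymDiff p B m) (V : Set (Place ℂ F)) :
    RegSymL (BdP B y) V t η (SfB (fun c => E (Fin.natAdd κ c)) y j0 s) := by
  intro P _ D hD hDt
  have hy : y ≠ 0 := fun h => hj0 (by rw [h]; rfl)
  rw [eval_SfB, hE.vert hDt]
  obtain ⟨j, hj, hreg⟩ := exists_chart P hy
  have ht := tanVec_der (p := p) D hy hm
  rw [← lloc_der D y hj0, s.compatR hp hB ht hoff hj0 hj, lloc_der D y hj]
  refine reg_aeval (k := ℂ) (C := ℂ) _ ?_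
  rintro (i | i)
  · exact hreg i
  · change P.Reg (lch D B y j i)
    unfold lch
    split_ifs with hi
    · exact log_regB hoff hj hreg hD hi
    · exact hD.1 _ (hreg i)

/-- **The logarithmic symmetric differentials generate the symmetric power.** -/
theorem SfB_span (hp : Pool.Agent.W603.PV.IsHomog p) (hB : BdC p B) {m N : ℕ} {s : Fin N → BSymDiff p B m}
    (hs : BGens p B m s) {κ r : ℕ} {t : Fin κ → F} {η : Fin r → F}
    {E : Fin (κ + r) → Derivation ℂ F F} (hE : Frm (Fin.append t η) E) {y : Fin (n + 1) → F}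
    (hm : ∀ H ∈ p, aeval y H = 0) (hoff : OffB B y) {j0 : Fin (n + 1)} (hj0 : y j0 ≠ 0)
    (hgen : coords ℂ y = ⊤) :
    Submodule.span F (Set.range fun l => SfB (fun c => E (Fin.natAdd κ c)) y j0 (s l)) =
      homogeneousSubmodule (Fin r) F m := by
  classical
  have hy : y ≠ 0 := fun h => hj0 (by rw [h]; rfl)
  have hinf : Infinite F := Infinite.of_injective _ (algebraMap ℂ F).injective
  apply le_antisymm
  · rw [Submodule.span_le]
    rintro _ ⟨l, rfl⟩
    exact SfB_hom _ y j0 (s l)
  · rw [← homogeneousSubmodule_one_pow,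
      ← Lf'_span hE hj0 (hoff j0 hj0) hgen]
    refine span_pow_le _ _ _ fun I => ?_
    obtain ⟨b, hb⟩ := hs.genR hp hB j0 I
    have h1 : ∏ k, Lf' (fun c => E (Fin.natAdd κ c)) B y j0 (I k) =
        ∑ l, aeval (fun i => y i / y j0) (b l) •
          SfB (fun c => E (Fin.natAdd κ c)) y j0 (s l) := by
      apply MvPolynomial.funext
      intro v
      rw [map_prod, map_sum]
      have h2 := hb F y _ (tanVec_der (p := p) (∑ c, v c • E (Fin.natAdd κ c)) hy hm) hoff hj0
      rw [lloc_der _ y hj0] at h2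
      have h3 : ∀ k, eval v (Lf' (fun c => E (Fin.natAdd κ c)) B y j0 (I k)) =
          lch2 (∑ c, v c • E (Fin.natAdd κ c)) B y j0 (Sum.inr (I k)) := by
        intro k
        rw [eval_Lf']
        rfl
      rw [Finset.prod_congr rfl fun k _ => h3 k, h2]
      refine Finset.sum_congr rfl fun l _ => ?_
      rw [smul_eval, eval_SfB]
    rw [h1]
    exact Submodule.sum_mem _ fun l _ => Submodule.smul_mem _ _ (Submodule.subset_span ⟨l, rfl⟩)

/-- the products of the symmetric differentials -/
theorem SfB_span_pow (hp : Pool.Agent.W603.PV.IsHomog p) (hB : BdC p B) {m N : ℕ} {s : Fin N → BSymDiff p B m}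
    (hs : BGens p B m s) {κ r : ℕ} {t : Fin κ → F} {η : Fin r → F}
    {E : Fin (κ + r) → Derivation ℂ F F} (hE : Frm (Fin.append t η) E) {y : Fin (n + 1) → F}
    (hm : ∀ H ∈ p, aeval y H = 0) (hoff : OffB B y) {j0 : Fin (n + 1)} (hj0 : y j0 ≠ 0)
    (hgen : coords ℂ y = ⊤) (q : ℕ) :
    Submodule.span F (Set.range fun μ : Fin q → Fin N =>
      ∏ a, SfB (fun c => E (Fin.natAdd κ c)) y j0 (s (μ a))) =
      homogeneousSubmodule (Fin r) F (m * q) := by
  apply le_antisymm
  · rw [Submodule.span_le]
    rintro _ ⟨μ, rfl⟩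
    have h1 := IsHomogeneous.prod Finset.univ
      (fun a => SfB (fun c => E (Fin.natAdd κ c)) y j0 (s (μ a))) (fun _ => m)
      (fun a _ => SfB_hom _ y j0 (s (μ a)))
    rw [Finset.sum_const, Finset.card_univ, Fintype.card_fin, smul_eq_mul, mul_comm] at h1
    exact h1
  · rw [← homogeneousSubmodule_one_pow, pow_mul, homogeneousSubmodule_one_pow,
      ← SfB_span hp hB hs hE hm hoff hj0 hgen]
    exact span_pow_le _ _ _ fun I => Submodule.subset_span ⟨I, rfl⟩

end

end K1Baux

/-- **Varieties which are not of log general type carry derivations with constant logarithmic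
symmetric differentials.** -/
theorem key_NB (hp : Pool.Agent.W603.PV.IsHomog p) (hB : BdC p B) {m N : ℕ} {s : Fin N → BSymDiff p B m}
    (hs : BGens p B m s) (hm : 1 ≤ m) {F : Type} [Field F] [Algebra ℂ F] {M : Type} [Field M]
    [Algebra F M] [Algebra ℂ M] [IsScalarTower ℂ F M] [IsAlgClosure F M] {d : ℕ} (hd : 1 ≤ d)
    {y : Fin (n + 1) → F} (hy : y ≠ 0) (hmem : ∀ H ∈ p, aeval y H = 0) (hoff : OffB B y)
    (hgen : coords ℂ y = ⊤) (htr : Algebra.trdeg ℂ F = d)
    (hngt : ¬ LogGeneralType ℂ F d (BdP B y)) :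
    ∃ D : Derivation ℂ M M,
      (∀ l, D ((s l).val (fun i => algebraMap F M (y i)) fun i => D (algebraMap F M (y i))) = 0) ∧
      ∃ l, (s l).val (fun i => algebraMap F M (y i)) (fun i => D (algebraMap F M (y i))) ≠ 0 := by
  classical
  have hMc : IsAlgClosed M := IsAlgClosure.isAlgClosed F
  have hMa : Algebra.IsAlgebraic F M := IsAlgClosure.isAlgebraic
  obtain ⟨κ, r, hdr, t, η, E, hr, hE, ⟨Ng, g0, hg00, hg0, hg⟩, halg⟩ := exists_iitakaL hd htr hngt
  obtain ⟨V, hV⟩ : ∃ V : Set (Place ℂ F), V = {P : Place ℂ F | Divisorial d P} := ⟨_, rfl⟩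
  rw [← hV] at hg0 hg halg
  obtain ⟨j0, hj0⟩ := Function.ne_iff.1 hy
  have hj0 : y j0 ≠ 0 := hj0
  obtain ⟨E', hE'⟩ : ∃ E' : Fin r → Derivation ℂ F F, E' = fun c => E (Fin.natAdd κ c) := ⟨_, rfl⟩
  obtain ⟨S, hSd⟩ : ∃ S : Fin N → MvPolynomial (Fin r) F, S = fun l => K1Baux.SfB E' y j0 (s l) := ⟨_, rfl⟩
  have hSr : ∀ l, RegSymL (BdP B y) V t η (S l) := by
    intro l
    rw [hSd, hE']
    exact K1Baux.SfB_reg hp hB hE hmem hoff hj0 (s l) V
  have hSh : ∀ l, (S l).IsHomogeneous m := by
    intro l
    rw [hSd]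
    exact K1Baux.SfB_hom E' y j0 (s l)
  have hSspan : Submodule.span F (Set.range S) = homogeneousSubmodule (Fin r) F m := by
    rw [hSd, hE']
    exact K1Baux.SfB_span hp hB hs hE hmem hoff hj0 hgen
  have hSpow : ∀ q', Submodule.span F (Set.range fun μ : Fin q' → Fin N => ∏ a, S (μ a)) =
      homogeneousSubmodule (Fin r) F (m * q') := by
    intro q'
    rw [hSd, hE']
    exact K1Baux.SfB_span_pow hp hB hs hE hmem hoff hj0 hgen q'
  -- the constants
  let K0 : IntermediateField ℂ F := IntermediateField.adjoin ℂ (Set.range t)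
  let C0 : IntermediateField K0 M := algebraicClosure K0 M
  have hC0 : IsAlgClosed C0 := IsAlgClosure.isAlgClosed K0
  -- the forms over `M`
  obtain ⟨SM, hSM⟩ : ∃ SM : Fin N → MvPolynomial (Fin r) M,
      SM = fun l => map (algebraMap F M) (S l) := ⟨_, rfl⟩
  obtain ⟨l0, hl0⟩ : ∃ l0, SM l0 ≠ 0 := by
    by_contra hcon
    push Not at hcon
    have h1 : (X ⟨0, hr⟩ : MvPolynomial (Fin r) F) ^ m ∈ Submodule.span F (Set.range S) := by
      rw [hSspan]
      have := (isHomogeneous_X F (⟨0, hr⟩ : Fin r)).pow m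
      rwa [one_mul] at this
    have h2 : ∀ l, S l = 0 := by
      intro l
      have h3 := hcon l
      rw [hSM] at h3
      exact (map_eq_zero_iff _ (map_injective _ (algebraMap F M).injective)).1 h3
    have h3 : Submodule.span F (Set.range S) ≤ ⊥ := by
      rw [Submodule.span_le]
      rintro _ ⟨l, rfl⟩
      rw [h2 l]
      exact Submodule.zero_mem _
    exact pow_ne_zero m (X_ne_zero _) ((Submodule.mem_bot F).1 (h3 h1))
  obtain ⟨v, hv, hv0⟩ := exists_point (C := C0) (M := M) hm SM (fun l => by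
    rw [hSM]
    exact (hSh l).map _) (by
    rw [hSM]
    exact span_map S hSspan) (fun q' hq => by
    obtain ⟨hmq, β, hβ⟩ := exists_subbasis _ (hSpow q')
    refine ⟨Ex r (m * q'), inferInstance, β, ?_, fun μ => ?_⟩
    · have h1 := indep_map (M := M) _ hβ
      have h2 : (fun j => ∏ a, SM (β j a)) = fun j => map (algebraMap F M)
          (∏ a, S (β j a)) := by
        funext j
        rw [map_prod, hSM]
      rw [h2]
      exact h1
    · obtain ⟨x, hx, hsx⟩ := coeff_algL hr (Nat.mul_pos hm hq) hg00 hg0 hg halg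
        (fun j => (⟨∏ a, S (β j a), hmq (β j)⟩ : homogeneousSubmodule (Fin r) F (m * q')))
        (fun j => RegSymL.prod _ fun a _ => hSr _) hβ ⟨∏ a, S (μ a), hmq μ⟩
        (RegSymL.prod _ fun a _ => hSr _)
      have hxC : ∀ j, algebraMap F M (x j) ∈ C0 := by
        intro j
        rw [mem_algebraicClosure_iff]
        exact (hx j).algebraMap
      refine ⟨fun j => ⟨algebraMap F M (x j), hxC j⟩, ?_⟩
      have h1 := congrArg (fun P : homogeneousSubmodule (Fin r) F (m * q') =>
        map (algebraMap F M) (P : MvPolynomial (Fin r) F)) hsx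
      simp only [Submodule.coe_sum, Submodule.coe_smul, map_sum, map_prod, smul_eq_C_mul,
        map_mul, map_C] at h1
      rw [hSM]
      simp only [smul_eq_C_mul]
      exact h1) hl0
  -- the derivation
  have hzM : IsTranscendenceBasis ℂ (algebraMap F M ∘ (Fin.append t η : Fin (κ + r) → F)) :=
    hE.bas.algebraMap_comp
  obtain ⟨D, hD⟩ := exists_der _ hzM (Fin.append (fun _ : Fin κ => (0 : M)) v)
  have hDt : ∀ i, D (algebraMap F M (t i)) = 0 := by
    intro i
    have h1 := hD (Fin.castAdd r i)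
    rw [Function.comp_apply, Fin.append_left, Fin.append_left] at h1
    exact h1
  have hDη : ∀ c, D (algebraMap F M (η c)) = v c := by
    intro c
    have h1 := hD (Fin.natAdd κ c)
    rw [Function.comp_apply, Fin.append_right, Fin.append_right] at h1
    exact h1
  have hDF : ∀ f : F, D (algebraMap F M f) = ∑ c, v c * algebraMap F M (E' c f) := by
    intro f
    have h1 := der_zero ((D.compAlgebraMap F) -
      ∑ c, v c • ((Algebra.linearMap F M).compDer (E' c))) _ hE.bas (fun i => by
        rw [Derivation.sub_apply]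
        have h2 : (∑ c, v c • ((Algebra.linearMap F M).compDer (E' c))) (Fin.append t η i) =
            ∑ c, v c * algebraMap F M (E' c (Fin.append t η i)) := by
          rw [← Derivation.coeFnAddMonoidHom_apply, map_sum, Finset.sum_apply]
          rfl
        rw [h2]
        change D (algebraMap F M (Fin.append t η i)) - _ = 0
        refine Fin.addCases (fun i => ?_) (fun i => ?_) i
        · rw [Fin.append_left, hDt, zero_sub, neg_eq_zero]
          refine Finset.sum_eq_zero fun c _ => ?_
          have h3 := hE.dual (Fin.natAdd κ c) (Fin.castAdd r i)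
          rw [Fin.append_left, if_neg (by
            intro h
            have := congrArg Fin.val h
            simp at this
            omega)] at h3
          rw [hE', h3, map_zero, mul_zero]
        · rw [Fin.append_right, hDη, sub_eq_zero, Finset.sum_eq_single i]
          · have h3 := hE.dual (Fin.natAdd κ i) (Fin.natAdd κ i)
            rw [Fin.append_right, if_pos rfl] at h3
            rw [hE', h3, map_one, mul_one]
          · intro c _ hc
            have h3 := hE.dual (Fin.natAdd κ c) (Fin.natAdd κ i)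
            rw [Fin.append_right, if_neg (fun h => hc (Fin.natAdd_injective _ _ h))] at h3
            rw [hE', h3, map_zero, mul_zero]
          · intro h
            exact absurd (Finset.mem_univ _) h) f
    rw [Derivation.sub_apply] at h1
    have h2 : (∑ c, v c • ((Algebra.linearMap F M).compDer (E' c))) f =
        ∑ c, v c * algebraMap F M (E' c f) := by
      rw [← Derivation.coeFnAddMonoidHom_apply, map_sum, Finset.sum_apply]
      rfl
    rw [h2] at h1
    exact sub_eq_zero.1 h1
  -- the values of the symmetric differentials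
  have hyM : (fun i => algebraMap F M (y i)) ≠ 0 := by
    intro h
    have h1 := congrFun h j0
    exact hj0 ((map_eq_zero _).1 h1)
  have hmemM : ∀ H ∈ p, aeval (fun i => algebraMap F M (y i)) H = 0 := by
    intro H hH
    have h1 := aeval_algebraMap_apply (A := F) M y H
    have h2 : (algebraMap F M ∘ y) = fun i => algebraMap F M (y i) := rfl
    rw [← h2, h1, hmem H hH, map_zero]
  have hoffM : OffB B (fun i => algebraMap F M (y i)) := by
    intro j hj b hb h
    have h1 : y j ≠ 0 := fun h2 => hj (by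
      change algebraMap F M (y j) = 0
      rw [h2, map_zero])
    exact hoff j h1 b hb ((map_eq_zero _).1 h)
  have hval : ∀ l, (s l).val (fun i => algebraMap F M (y i))
      (fun i => D (algebraMap F M (y i))) = eval v (SM l) := by
    intro l
    have hj0M : algebraMap F M (y j0) ≠ 0 := fun h => hj0 ((map_eq_zero _).1 h)
    rw [(s l).val_eq hp hB (tanVec_der D hyM hmemM) hoffM hj0M, lloc_der D _ hj0M, hSM, hSd]
    have h1 : eval v (map (algebraMap F M) (K1Baux.SfB E' y j0 (s l))) =
        ((aeval v : MvPolynomial (Fin r) F →ₐ[F] M).restrictScalars ℂ)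
          (K1Baux.SfB E' y j0 (s l)) := by
      rw [AlgHom.restrictScalars_apply, aeval_def, eval_map]
    change _ = eval v (map (algebraMap F M) (K1Baux.SfB E' y j0 (s l)))
    rw [h1, K1Baux.SfB, comp_aeval_apply]
    congr 2
    funext k
    rcases k with k | k
    · rw [Sum.elim_inl, AlgHom.restrictScalars_apply, aeval_C]
      change algebraMap F M (y k) / algebraMap F M (y j0) = _
      rw [map_div₀]
    · rw [Sum.elim_inr, AlgHom.restrictScalars_apply, Lf', map_mul, aeval_C]
      change lch D B (fun i => algebraMap F M (y i)) j0 k = _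
      rw [lch_wt]
      have h5 : Lg.K1aux.wt B (fun i => algebraMap F M (y i)) j0 k =
          algebraMap F M (Lg.K1aux.wt B y j0 k) := by
        unfold Lg.K1aux.wt
        split_ifs
        · rw [map_inv₀, map_div₀]
        · rw [map_one]
      rw [h5]
      congr 1
      rw [Lf, map_sum]
      change D (algebraMap F M (y k) / algebraMap F M (y j0)) = _
      rw [← map_div₀, hDF]
      refine Finset.sum_congr rfl fun c _ => ?_
      rw [map_mul, aeval_C, aeval_X, mul_comm]
  refine ⟨D, fun l => ?_, l0, ?_⟩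
  · rw [hval]
    obtain ⟨c, hc⟩ := hv l
    rw [hc]
    refine der_zero_of_alg (k := ℂ) D ?_
    have h1 : IsAlgebraic K0 (algebraMap C0 M c) := by
      have h2 : (algebraMap C0 M c) ∈ C0 := c.2
      rw [mem_algebraicClosure_iff] at h2
      exact h2
    refine alg_of_range ?_ h1
    rintro ⟨a, ha⟩
    have h3 : IntermediateField.adjoin ℂ (Set.range t) ≤
        (consts D).comap (IsScalarTower.toAlgHom ℂ F M) := by
      rw [IntermediateField.adjoin_le_iff]
      rintro _ ⟨i, rfl⟩
      exact hDt i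
    exact ⟨⟨algebraMap F M a, h3 ha⟩, rfl⟩
  · rw [hval]
    exact hv0

end Pool.Agent.H917.Mg
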