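import Pool.Agent.H917.F3
import Pool.Agent.H917.M.E9B
import Pool.Agent.H917.M.K1B

/-!
# PROJECT BND (helper917), task F2B: spAlgB_sub_spHB, spAlgB_sub_spPB

Port of `curve_of_ngt`, `spAlg_sub_spH`, `spAlg_sub_spP` (`Pool/Agent/H917/F3.lean`) with `key_NB` (stub in M/K1B), `exists_entireB`, `SlB.entCurve`, `SlB.puncCurve`, `SlB.not_extends`, `SlB.off` (stubs in M/E9B, M/E5B). `M = AlgebraicClosure K`.
-/

set_option autoImplicit false
set_option linter.overlappingInstances false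
set_option linter.unusedSectionVars false

open MvPolynomial Metric Set MeasureTheory
open Pool.Agent.W602.GT (IsForm LogGeneralType coords)
open Pool.Agent.H917.G (HolMap PE)

namespace Pool.Agent.H917.Mg

variable {n : ℕ} {p : Ideal (MvPolynomial (Fin (n + 1)) ℂ)}
  {B : Fin (n + 1) → Finset (Fin (n + 1))}

/-- curves through general points of subvarieties which are not of log general type -/
theorem F2Baux.curve_of_ngt (hp : Pool.Agent.W603.PV.IsHomog p) (hB : BdC p B) {m' N : ℕ}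
    {s : Fin N → BSymDiff p B (m' + 1)} (hs : BGens p B (m' + 1) s) {K : Type} [Field K]
    [Algebra ℂ K] {w : ℕ} {y : Fin (n + 1) → K} (hw : 1 ≤ w) (hy : SubVarB p B K w y)
    (hngt : ¬ LogGeneralType ℂ K w (BdP B y))
    {G : MvPolynomial (Fin (n + 1)) ℂ} (hG : ∃ k, G.IsHomogeneous k) (hGy : aeval y G ≠ 0) :
    ∃ ζ : Fin N → ℂ, (∃ l, ζ l ≠ 0) ∧ ∃ F : ℂ → Fin (n + 1) → ℂ,
      SlB s ζ univ F ∧ eval (F 0) G ≠ 0 := by
  obtain ⟨D, h1, h2⟩ := key_NB (M := AlgebraicClosure K) hp hB hs (Nat.succ_pos m') hw hy.sub.ne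
    hy.sub.mem hy.off hy.sub.gen hy.sub.dim hngt
  have hmemM : ∀ H : MvPolynomial (Fin (n + 1)) ℂ,
      aeval (fun i => algebraMap K (AlgebraicClosure K) (y i)) H =
        algebraMap K (AlgebraicClosure K) (aeval y H) := by
    intro H
    have h1 := aeval_algebraMap_apply (A := K) (AlgebraicClosure K) y H
    have h2 : (algebraMap K (AlgebraicClosure K) ∘ y) =
      fun i => algebraMap K (AlgebraicClosure K) (y i) := rfl
    rw [← h2, h1]
  refine exists_entireB hp hB hs D (y := fun i => algebraMap K (AlgebraicClosure K) (y i)) ?_ ?_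
    ?_ h1 h2 hG ?_
  · intro h
    apply hy.sub.ne
    funext i
    exact (map_eq_zero _).1 (congrFun h i)
  · intro H hH
    rw [hmemM, hy.sub.mem H hH, map_zero]
  · intro j hj b hb
    exact (map_ne_zero _).2 (hy.off j ((map_ne_zero _).1 hj) b hb)
  · rw [hmemM]
    exact fun h => hGy ((map_eq_zero _).1 h)

theorem spAlgB_sub_spHB (hp : Pool.Agent.W603.PV.IsHomog p) (hB : BdC p B) {m N : ℕ}
    {s : Fin N → BSymDiff p B m} (hs : BGens p B m s) (hm : 1 ≤ m) :
    SpAlgB p B ⊆ SpHB p B := by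
  obtain ⟨m', rfl⟩ := Nat.exists_eq_add_of_le' hm
  intro x hx
  refine ⟨hx.1, fun G hG hcur => hx.2 G hG fun K _ _ w y hw hy hngt => ?_⟩
  by_contra hGy
  obtain ⟨ζ, hζ, F, hF, hFG⟩ := F2Baux.curve_of_ngt hp hB hs hw hy hngt hG hGy
  exact hFG (hcur F (hF.entCurve hp hB hζ) (fun z => hF.off z (mem_univ _)) 0)

theorem spAlgB_sub_spPB (hp : Pool.Agent.W603.PV.IsHomog p) (hB : BdC p B) {m N : ℕ}
    {s : Fin N → BSymDiff p B m} (hs : BGens p B m s) (hm : 1 ≤ m) :
    SpAlgB p B ⊆ SpPB p B := by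
  obtain ⟨m', rfl⟩ := Nat.exists_eq_add_of_le' hm
  intro x hx
  refine ⟨hx.1, fun G hG hcur => hx.2 G hG fun K _ _ w y hw hy hngt => ?_⟩
  by_contra hGy
  obtain ⟨ζ, hζ, F, hF, hFG⟩ := F2Baux.curve_of_ngt hp hB hs hw hy hngt hG hGy
  obtain ⟨z, hz, hzG⟩ := exists_off (fun i => (fun z =>
    (hF.an i z (mem_univ _)).continuousAt : ∀ z, ContinuousAt (fun z => F z i) z) |>
      continuous_iff_continuousAt.2) hFG
  exact hzG (hcur _ hF.puncCurve (fun z _ => hF.off _ (mem_univ _))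
    (hF.not_extends hp hB hζ) z hz)

end Pool.Agent.H917.Mg
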