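import Pool.Agent.H917.L.F3
import Pool.Agent.H917.M.P1a

/-!
# PROJECT BND (helper917), task F3B: spHB_sub_spMerB, spMerB_sub_spHB

Port of `spHQ_sub_spMerQ`, `spMerQ_sub_spHQ` (`L/F3.lean`). (`OffB` is invariant under scaling.)
-/

set_option autoImplicit false
set_option linter.overlappingInstances false
set_option linter.unusedSectionVars false

open MvPolynomial Metric Set MeasureTheory
open Pool.Agent.W602.GT (IsForm LogGeneralType coords)
open Pool.Agent.H917.G (HolMap PE)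

namespace Pool.Agent.H917.Mg

variable {n : ℕ} {p : Ideal (MvPolynomial (Fin (n + 1)) ℂ)}
  {B : Fin (n + 1) → Finset (Fin (n + 1))}

namespace F3Baux

theorem offB_of_pe {x y : Fin (n + 1) → ℂ} (h : PE x y) (hy : OffB B y) : OffB B x := by
  obtain ⟨c, hc, h⟩ := h
  intro j hj b hb
  rw [h j] at hj
  rw [h b]
  exact mul_ne_zero hc (hy j (right_ne_zero_of_mul hj) b hb)

end F3Baux

theorem spHB_sub_spMerB (p : Ideal (MvPolynomial (Fin (n + 1)) ℂ))
    (B : Fin (n + 1) → Finset (Fin (n + 1))) : SpHB p B ⊆ SpMerB p B := by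
  intro x hx
  refine ⟨hx.1, fun G hG hcur => hx.2 G hG fun f hf hfQ z => ?_⟩
  obtain ⟨hd, hP, z1, w1, hne⟩ := hf
  have h1 := hcur 1 ∅ (fun v => f (v 0)) isClosed_empty measure_empty ?_
    (fun v _ => ⟨hP (v 0), hfQ (v 0)⟩) ?_ (fun _ => z) (Set.notMem_empty _)
  · exact h1
  · intro v _
    refine ⟨fun v => f (v 0), (hP (v 0)).1, Filter.Eventually.of_forall fun w => ⟨?_, PE.refl _⟩⟩
    exact (hd (w 0)).comp w (differentiableAt_apply 0 w)
  · refine ⟨fun _ => z1, Set.notMem_empty _, fun _ => w1, Set.notMem_empty _, ?_⟩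
    rintro ⟨c, -, hc⟩
    exact hne c (funext hc)

theorem spMerB_sub_spHB (hp : Pool.Agent.W603.PV.IsHomog p) : SpMerB p B ⊆ SpHB p B := by
  intro x hx
  refine ⟨hx.1, fun G hG hcur => hx.2 G hG fun g Z f hZc hZ hf hP hnc z0 hz0 => ?_⟩
  by_contra hG0
  obtain ⟨h, hd, hne, him, ⟨s, t, hst⟩, t0, ht0⟩ := H917.G.mer_curve hZc hZ hf hnc hG hz0 hG0
  refine ht0 (hcur h ⟨hd, fun t => ?_, s, t, fun c hc => ?_⟩ (fun t => ?_) t0)
  · obtain ⟨w, hw, hw'⟩ := him t
    exact pts_of_pe hp hw' (hP w hw).1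
  · rcases eq_or_ne c 0 with hc0 | hc0
    · rw [hc0, zero_smul] at hc
      exact hne s hc
    · exact hst ⟨c, hc0, fun i => by rw [hc]; rfl⟩
  · obtain ⟨w, hw, hw'⟩ := him t
    exact F3Baux.offB_of_pe hw' (hP w hw).2

end Pool.Agent.H917.Mg
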