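import Pool.Agent.H917.L.U1
import Pool.Agent.H917.M.P1b

/-!
# PROJECT BND (helper917), task U1B: ultraproducts

Port of `exists_ultraL` (`L/U1.lean`): replace `aeval x Q ≠ 0` by `OffB B x`.
-/

set_option autoImplicit false
set_option linter.overlappingInstances false
set_option linter.unusedSectionVars false

open FF MvPolynomial Metric Set Filter
open Pool.Agent.H917.Lg (lloc)

namespace Pool.Agent.H917.Mg

variable {n : ℕ} {p : Ideal (MvPolynomial (Fin (n + 1)) ℂ)}
  {B : Fin (n + 1) → Finset (Fin (n + 1))}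

theorem exists_ultraB (hpp : p.IsPrime) (hp : Pool.Agent.W603.PV.IsHomog p) (hB : BdC p B)
    {m N : ℕ} (s : Fin N → BSymDiff p B m)
    (h : ∀ G : MvPolynomial (Fin (n + 1)) ℂ, (∃ k, G.IsHomogeneous k) → G ∉ p →
      ∃ (M : Type) (_ : Field M) (_ : Algebra ℂ M) (D : Derivation ℂ M M) (x : Fin (n + 1) → M),
        (∀ H ∈ p, aeval x H = 0) ∧ aeval x G ≠ 0 ∧ x ≠ 0 ∧ OffB B x ∧
        (∀ l, D ((s l).val x fun i => D (x i)) = 0) ∧ ∃ l, (s l).val x (fun i => D (x i)) ≠ 0) :
    ∃ (M : Type) (_ : Field M) (_ : Algebra ℂ M) (D : Derivation ℂ M M) (x : Fin (n + 1) → M),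
        (∀ H ∈ p, aeval x H = 0) ∧ (∀ G : MvPolynomial (Fin (n + 1)) ℂ, (∃ k, G.IsHomogeneous k) →
          G ∉ p → aeval x G ≠ 0) ∧ x ≠ 0 ∧ OffB B x ∧
        (∀ l, D ((s l).val x fun i => D (x i)) = 0) ∧ ∃ l, (s l).val x (fun i => D (x i)) ≠ 0 := by
  classical
  let I : Type := {G : MvPolynomial (Fin (n + 1)) ℂ // (∃ k, G.IsHomogeneous k) ∧ G ∉ p}
  have h' : ∀ G : I, ∃ (M : Type) (_ : Field M) (_ : Algebra ℂ M) (D : Derivation ℂ M M)
      (x : Fin (n + 1) → M), (∀ H ∈ p, aeval x H = 0) ∧ aeval x G.1 ≠ 0 ∧ x ≠ 0 ∧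
        OffB B x ∧ (∀ l, D ((s l).val x fun i => D (x i)) = 0) ∧ ∃ l, (s l).val x (fun i => D (x i)) ≠ 0 :=
    fun G => h G.1 G.2.1 G.2.2
  choose M i1 i2 D x h1 h2 h3 hQx h4 h5 using h'
  -- the ultrafilter
  let S : I → Set I := fun G => {G' | G.1 ∣ G'.1}
  have hI : Nonempty I := ⟨⟨1, ⟨0, isHomogeneous_one _ _⟩, fun h => (Ideal.ne_top_iff_one p).1
    hpp.ne_top h⟩⟩
  have hdir : Directed (· ≥ ·) fun G : I => 𝓟 (S G) := by
    intro G1 G2
    refine ⟨⟨G1.1 * G2.1, ?_, ?_⟩, ?_, ?_⟩
    · obtain ⟨k1, hk1⟩ := G1.2.1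
      obtain ⟨k2, hk2⟩ := G2.2.1
      exact ⟨k1 + k2, hk1.mul hk2⟩
    · intro h
      rcases hpp.mem_or_mem h with h | h
      · exact G1.2.2 h
      · exact G2.2.2 h
    · change 𝓟 _ ≤ 𝓟 _
      rw [principal_mono]
      intro G hG
      exact (Dvd.intro _ rfl).trans hG
    · change 𝓟 _ ≤ 𝓟 _
      rw [principal_mono]
      intro G hG
      exact (Dvd.intro_left _ rfl).trans hG
  have hne : (⨅ G : I, 𝓟 (S G)).NeBot := iInf_neBot_of_directed' hdir fun G =>
    principal_neBot_iff.2 ⟨G, dvd_rfl⟩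
  let U : Ultrafilter I := Ultrafilter.of (⨅ G : I, 𝓟 (S G))
  have hU : ∀ G : I, ∀ᶠ G' in (U : Filter I), G.1 ∣ G'.1 := by
    intro G
    have h6 : S G ∈ (⨅ G : I, 𝓟 (S G)) := mem_iInf_of_mem G (mem_principal_self _)
    exact Ultrafilter.of_le _ h6
  -- the point
  let X' : Fin (n + 1) → UProd U M := fun j => um U M fun i => x i j
  have hXa : ∀ H : MvPolynomial (Fin (n + 1)) ℂ, aeval X' H = um U M fun i => aeval (x i) H :=
    fun H => um_aeval x H
  have hXp : ∀ H ∈ p, aeval X' H = 0 := by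
    intro H hH
    rw [hXa, um_eq_zero]
    exact Eventually.of_forall fun i => h1 i H hH
  have hX0 : X' ≠ 0 := by
    intro h0
    have h6 : ∀ j, ∀ᶠ i in (U : Filter I), x i j = 0 := by
      intro j
      have h7 := congrFun h0 j
      exact um_eq_zero.1 h7
    obtain ⟨i, hi⟩ := (eventually_all.2 h6).exists
    exact h3 i (funext hi)
  have hXQ : OffB B X' := by
    intro j hj b hb h0
    have e1 : ∀ᶠ i in (U : Filter I), x i j ≠ 0 := by
      rw [Ultrafilter.eventually_not]
      intro h6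
      exact hj (um_eq_zero.2 h6)
    have e2 : ∀ᶠ i in (U : Filter I), x i b = 0 := um_eq_zero.1 h0
    obtain ⟨i, hi1, hi2⟩ := (e1.and e2).exists
    exact hQx i j hi1 b hb hi2
  obtain ⟨j0, hj0⟩ := Function.ne_iff.1 hX0
  have hj0' : ∀ᶠ i in (U : Filter I), x i j0 ≠ 0 := by
    rw [Ultrafilter.eventually_not]
    intro h0
    exact hj0 (um_eq_zero.2 h0)
  have hval : ∀ l, (s l).val X' (fun i => uder D (X' i)) =
      um U M fun i => (s l).val (x i) fun j => D i (x i j) := by
    intro l
    rw [(s l).val_eq hp hB (tanVec_der (uder D) hX0 hXp) hXQ hj0]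
    have h6 : lloc B j0 X' (fun i => uder D (X' i)) =
        fun k => um U M fun i => lloc B j0 (x i) (fun j => D i (x i j)) k := by
      funext k
      rcases k with k | k
      · change um U M _ / um U M _ = um U M fun i => x i k / x i j0
        rw [um_div]
      · by_cases hk : k ∈ B j0
        · have e1 : lloc B j0 X' (fun i => uder D (X' i)) (Sum.inr k) =
              (uder D (X' k) * X' j0 - X' k * uder D (X' j0)) / (X' k * X' j0) := by
            change (if k ∈ B j0 then _ else _) = _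
            rw [if_pos hk]
          have e2 : ∀ i, lloc B j0 (x i) (fun j => D i (x i j)) (Sum.inr k) =
              (D i (x i k) * x i j0 - x i k * D i (x i j0)) / (x i k * x i j0) := by
            intro i
            change (if k ∈ B j0 then _ else _) = _
            rw [if_pos hk]
          rw [e1]
          simp_rw [e2]
          change (uder D (um U M _) * um U M _ - um U M _ * uder D (um U M _)) /
            (um U M _ * um U M _) = _
          rw [uder_um, uder_um, um_div, ← map_mul, ← map_mul, ← map_sub, ← map_mul]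
          rfl
        · have e1 : lloc B j0 X' (fun i => uder D (X' i)) (Sum.inr k) =
              (uder D (X' k) * X' j0 - X' k * uder D (X' j0)) / X' j0 ^ 2 := by
            change (if k ∈ B j0 then _ else _) = _
            rw [if_neg hk]
          have e2 : ∀ i, lloc B j0 (x i) (fun j => D i (x i j)) (Sum.inr k) =
              (D i (x i k) * x i j0 - x i k * D i (x i j0)) / x i j0 ^ 2 := by
            intro i
            change (if k ∈ B j0 then _ else _) = _
            rw [if_neg hk]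
          rw [e1]
          simp_rw [e2]
          change (uder D (um U M _) * um U M _ - um U M _ * uder D (um U M _)) / um U M _ ^ 2 = _
          rw [uder_um, uder_um, um_div, ← map_mul, ← map_mul, ← map_sub, ← map_pow]
          rfl
    rw [h6, um_aeval, um_eq]
    filter_upwards [hj0'] with i hi
    rw [(s l).val_eq hp hB (tanVec_der (D i) (h3 i) (h1 i)) (hQx i) hi]
  refine ⟨UProd U M, inferInstance, inferInstance, uder D, X', hXp, ?_, hX0, hXQ, ?_, ?_⟩
  · intro G hG hGp h0
    rw [hXa, um_eq_zero] at h0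
    obtain ⟨i, hi1, hi2⟩ := (h0.and (hU ⟨G, hG, hGp⟩)).exists
    apply h2 i
    obtain ⟨Q', hQ'⟩ := hi2
    rw [hQ', map_mul]
    change aeval (x i) G * _ = 0
    rw [hi1, zero_mul]
  · intro l
    rw [hval, uder_um, um_eq_zero]
    exact Eventually.of_forall fun i => h4 i l
  · by_contra hcon
    push Not at hcon
    have h6 : ∀ l, ∀ᶠ i in (U : Filter I), (s l).val (x i) (fun j => D i (x i j)) = 0 := by
      intro l
      have h7 := hcon l
      rw [hval, um_eq_zero] at h7
      exact h7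
    obtain ⟨i, hi⟩ := (eventually_all.2 h6).exists
    obtain ⟨l, hl⟩ := h5 i
    exact hl (hi l)

end Pool.Agent.H917.Mg
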