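import Pool.Agent.H917.M.N8
import Pool.Agent.H917.M.U1B
import Pool.Agent.H917.M.K1B

/-!
# PROJECT BND (helper917), task V2B: the subvarieties which are not of log general type lie in a hypersurface

Suppose not. Then for all forms `G ∉ p` there are `F, x` as in the statement with `aeval x G ≠ 0`, and `key_NB` (stub, M/K1B) for `AlgebraicClosure F` gives the hypothesis of `exists_ultraB` (stub, M/U1B). So there are `M, D, x` with `x` generic for `p`, and `D (value) = 0` for all values, not all zero. By `no_derB` (stub, M/N8), for the generic point `y` of `p`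
(`hrel`: forms vanish at `y` iff they are in `p` iff they vanish at `x`), `D (x i / x j) = 0` for all `i, j`; then all values are zero by `bval_const` (stub, M/P1b), a contradiction. Compare `exists_formL` (`L/V2.lean`) and `exists_form` (`D5.lean`).
-/

set_option autoImplicit false
set_option linter.overlappingInstances false
set_option linter.unusedSectionVars false

open MvPolynomial Metric Set Filter
open Pool.Agent.W602.GT (IsForm LogGeneralType coords)

namespace Pool.Agent.H917.Mg

variable {n : ℕ} {p : Ideal (MvPolynomial (Fin (n + 1)) ℂ)}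
  {B : Fin (n + 1) → Finset (Fin (n + 1))}

theorem exists_formB (hpp : p.IsPrime) (hp : Pool.Agent.W603.PV.IsHomog p) (hB : BdC p B)
    {m N : ℕ} {s : Fin N → BSymDiff p B m}
    (hs : BGens p B m s) (hm : 1 ≤ m) {K : Type} [Field K] [Algebra ℂ K] {w : ℕ}
    {y : Fin (n + 1) → K} (hy : SubVarB p B K w y)
    (hf : ∀ H : MvPolynomial (Fin (n + 1)) ℂ, (∃ d, H.IsHomogeneous d) → aeval y H = 0 → H ∈ p)
    (hLG : LogGeneralType ℂ K w (BdP B y)) :
    ∃ G : MvPolynomial (Fin (n + 1)) ℂ, (∃ k, G.IsHomogeneous k) ∧ G ∉ p ∧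
      ∀ (F : Type) [Field F] [Algebra ℂ F] (d : ℕ) (x : Fin (n + 1) → F), 1 ≤ d →
        SubVarB p B F d x → ¬ LogGeneralType ℂ F d (BdP B x) → aeval x G = 0 := by
  classical
  by_contra hcon
  push Not at hcon
  obtain ⟨M, i1, i2, D, x, hXp, hXG, hx0, hoff, hD, hval⟩ :=
    exists_ultraB hpp hp hB s fun G hG hGp => by
    obtain ⟨F, j1, j2, d, x, hd, hx, hngt, hxG⟩ := hcon G hG hGp
    obtain ⟨D, h1, l, h2⟩ := key_NB (M := AlgebraicClosure F) hp hB hs hm hd hx.sub.ne
      hx.sub.mem hx.off hx.sub.gen hx.sub.dim hngt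
    have hmemM : ∀ H : MvPolynomial (Fin (n + 1)) ℂ,
        aeval (fun i => algebraMap F (AlgebraicClosure F) (x i)) H =
        algebraMap F (AlgebraicClosure F) (aeval x H) := by
      intro H
      have h1 := aeval_algebraMap_apply (A := F) (AlgebraicClosure F) x H
      have h2 : (algebraMap F (AlgebraicClosure F) ∘ x) =
        fun i => algebraMap F (AlgebraicClosure F) (x i) := rfl
      rw [← h2, h1]
    refine ⟨AlgebraicClosure F, inferInstance, inferInstance, D,
      fun i => algebraMap F (AlgebraicClosure F) (x i), fun H hH => ?_, ?_, ?_, ?_, h1, l, h2⟩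
    · rw [hmemM, hx.sub.mem H hH, map_zero]
    · rw [hmemM]
      exact fun h => hxG ((map_eq_zero _).1 h)
    · intro h
      apply hx.sub.ne
      funext i
      exact (map_eq_zero _).1 (congrFun h i)
    · intro j hj b hb h0
      refine hx.off j (fun h => hj ?_) b hb ((map_eq_zero _).1 h0)
      show algebraMap F (AlgebraicClosure F) (x j) = 0
      rw [h, map_zero]
  obtain ⟨l, hl⟩ := hval
  refine hl (bval_const hp hB hm (s l) D hx0 hXp hoff fun i j => ?_)
  refine no_derB hp hB hs hm hy.sub.ne hy.sub.gen hy.sub.dim hLG D hx0 hXp hoff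
    (fun H hH => ?_) hD i j
  constructor
  · intro h0
    exact hXp H (hf H hH h0)
  · intro h0
    by_contra hne
    exact hXG H hH (fun hGp => hne (hy.sub.mem H hGp)) h0

end Pool.Agent.H917.Mg
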