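import Pool.Agent.H917.L.F4
import Pool.Agent.H917.M.V2B
import Pool.Agent.H917.M.P1a

/-!
# PROJECT BND (helper917), task F4B: the characterisation of log general type

Port of `tfae_lgt` (`L/F4.lean`) with `exists_formB` (stub, M/V2B). For the point of `PtsB p B` outside `G = 0`: take a point of `Pts p` outside the form `G * X j * ∏ b ∈ B j, X b` (`y j ≠ 0`; `exists_pt` in F2), and `offB_iff` (M/P1a).
-/

set_option autoImplicit false
set_option linter.overlappingInstances false
set_option linter.unusedSectionVars false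

open MvPolynomial Metric Set
open Pool.Agent.W602.GT (IsForm LogGeneralType coords)

namespace Pool.Agent.H917.Mg

variable {n : ℕ} {p : Ideal (MvPolynomial (Fin (n + 1)) ℂ)}
  {B : Fin (n + 1) → Finset (Fin (n + 1))}

theorem tfae_lgtB (hpp : p.IsPrime) (hp : Pool.Agent.W603.PV.IsHomog p) (hB : BdC p B)
    {m N : ℕ} {s : Fin N → BSymDiff p B m}
    (hs : BGens p B m s) (hm : 1 ≤ m) {K : Type} [Field K] [Algebra ℂ K] {w : ℕ}
    {y : Fin (n + 1) → K} (hy : SubVarB p B K w y)
    (hf : ∀ H : MvPolynomial (Fin (n + 1)) ℂ, (∃ d, H.IsHomogeneous d) → aeval y H = 0 → H ∈ p) :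
    LogGeneralType ℂ K w (BdP B y) ↔ SpAlgB p B ≠ PtsB p B := by
  constructor
  · intro hGT heq
    obtain ⟨G, hG, hGp, hGV⟩ := exists_formB hpp hp hB hs hm hy hf hGT
    obtain ⟨j, hj⟩ : ∃ j, y j ≠ 0 := by
      by_contra h
      push Not at h
      exact hy.sub.ne (funext h)
    have hjp : (X j : MvPolynomial (Fin (n + 1)) ℂ) ∉ p := fun h => hj (by
      have := hy.sub.mem (X j) h
      rwa [aeval_X] at this)
    have hbp : ∏ b ∈ B j, (X b : MvPolynomial (Fin (n + 1)) ℂ) ∉ p := fun h => by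
      obtain ⟨b, hb, hbm⟩ := (hpp.prod_mem_iff).mp h
      refine hy.off j hj b hb ?_
      have := hy.sub.mem (X b) hbm
      rwa [aeval_X] at this
    have hGQ : G * (X j * ∏ b ∈ B j, X b) ∉ p := fun h =>
      (hpp.mem_or_mem h).elim hGp fun h => (hpp.mem_or_mem h).elim hjp hbp
    obtain ⟨x, hx, hxG⟩ := exists_pt hpp hjp hGQ
    rw [map_mul, map_mul, map_prod] at hxG
    have hxj : x j ≠ 0 := fun h => hxG (by rw [eval_X, h, zero_mul, mul_zero])
    have hxb : ∀ b ∈ B j, x b ≠ 0 := fun b hb h => hxG (by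
      rw [Finset.prod_eq_zero hb (by rw [eval_X, h]), mul_zero, mul_zero])
    have hxQ : x ∈ PtsB p B := ⟨hx, (offB_iff hB hx hxj).mpr hxb⟩
    rw [← heq] at hxQ
    exact hxG (by rw [hxQ.2 G hG fun F _ _ d x hd hx hngt => hGV F d x hd hx hngt, zero_mul])
  · intro h
    by_contra hngt
    have hw : 1 ≤ w := by
      by_contra hw
      have hw0 : w = 0 := by omega
      subst hw0
      exact hngt (log_of_gt' _ (gt_zero hy.sub.dim))
    refine h (Subset.antisymm (fun x hx => hx.1) fun x hx => ⟨hx, fun G hG hGV => ?_⟩)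
    exact hx.1.2 G (hf G hG (hGV K w y hw hy hngt))

end Pool.Agent.H917.Mg
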