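import Pool.Graph.R_seed8.Y377.IL.All

/-!
# PROJECT BND: lines in symmetric differential rings (definitions)
-/

set_option autoImplicit false
set_option linter.overlappingInstances false
set_option linter.unusedSectionVars false

namespace Pool.Agent.H917.Mg

open Pool.Agent.Y377.EL Pool.Agent.Y377.IL

variable {K : Type} [Field K] [Algebra ℂ K]

/-- `F0` is the field of the constants of `δ` in the fraction field of `S`, the elements of `S` are
Laurent polynomials in `τ` with coefficients in `F0`, and `δ` is `d/dτ` or `τ d/dτ`. -/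
structure Line (δ : Derivation ℂ K K) (S : Subalgebra ℂ K) (F0 : IntermediateField ℂ K) (τ : K) :
    Prop where
  mem : ∀ z, z ∈ F0 ↔ z ∈ frac S ∧ δ z = 0
  tau : τ ∈ frac S
  ne : τ ≠ 0
  der : δ τ = 1 ∨ δ τ = τ
  laur : ∀ s ∈ S, ∃ (f : Polynomial F0) (k : ℕ), s * τ ^ k = Polynomial.aeval τ f

/-- `δ` is locally nilpotent on `S` -/
def LNil (δ : Derivation ℂ K K) (S : Subalgebra ℂ K) : Prop := ∀ b ∈ S, ∃ k : ℕ, (en δ ^ k) b = 0

/-- `S` is the sum of the eigenspaces of `δ` for integers -/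
def LInt (δ : Derivation ℂ K K) (S : Subalgebra ℂ K) : Prop :=
  ∀ b ∈ S, b ∈ ⨆ q : ℤ, Subalgebra.toSubmodule S ⊓ (en δ).eigenspace (q : ℂ)

end Pool.Agent.H917.Mg
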