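import Pool.Agent.H917.M.N1a

/-!
# PROJECT BND (helper917), task N1: symmetries of linear differential systems

## Paper proof
All the library facts are proved, see `Pool/Graph/R_seed8/Y377/IL/All.lean` (`S_TOR`, `S_NOE`, `S_DER`, `S_GE`); `replica` is in `M/N1a.lean` (being proved by another helper; use it).
`S = mat L0 X Y` is `D`-simple by `S_TOR` (`L0` is closed under inverses) and `D`-stable by `S_NOE`. As `x ∈ frac S` it is algebraic over `S`; `S_DER` gives `δ0`, `ξ` with `δ0 = 0` on `L0`, `δ0 x ≠ 0`,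
`δ0 X = X ξ`; `S_NOE` (second part) gives `δ0 Y = - ξ Y`, `Stab δ0 S`, and that `D` and `δ0` commute on `S`. `S_GE` and `replica` give `δ'`. In the first case take `δ = δ'`. In the second case: the ring `S` is generated over `L0`
by the finitely many entries of `X` and `Y`, each is a finite sum of eigenvectors of `δ'` in `S` for rational eigenvalues; let `N ≥ 1` be a common denominator of these finitely many eigenvalues and `δ = N • δ'`. The sum
`⨆ q : ℤ, S ⊓ eigenspace (en δ) q` is closed under products (eigenvalues are added) and contains `L0` (eigenvalue `0`, because `δ' = 0` on `L0`) and the entries, so it is all of `S`. (`S` is `L0 ⊔ Algebra.adjoin ..`: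
`Algebra.adjoin_induction` / `Subalgebra` generated by the union of `L0` and the entries.)
-/

set_option autoImplicit false
set_option linter.overlappingInstances false
set_option linter.unusedSectionVars false

namespace Pool.Agent.H917.Mg

open Pool.Agent.Y377.EL Pool.Agent.Y377.IL

variable {K : Type} [Field K] [Algebra ℂ K]

namespace N1aux

/-- the sum of the eigenspaces for integers -/
noncomputable def TT (δ : Derivation ℂ K K) (S : Subalgebra ℂ K) : Submodule ℂ K :=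
  ⨆ q : ℤ, Subalgebra.toSubmodule S ⊓ (en δ).eigenspace (q : ℂ)

theorem mem_eig {δ : Derivation ℂ K K} {μ : ℂ} {a : K} :
    a ∈ (en δ).eigenspace μ ↔ δ a = μ • a := Module.End.mem_eigenspace_iff

theorem mul_mem {δ : Derivation ℂ K K} {S : Subalgebra ℂ K} {a b : K} (ha : a ∈ TT δ S)
    (hb : b ∈ TT δ S) : a * b ∈ TT δ S := by
  refine Submodule.iSup_induction (fun q : ℤ => Subalgebra.toSubmodule S ⊓
    (en δ).eigenspace (q : ℂ)) (motive := fun a => a * b ∈ TT δ S) ha ?_ ?_ ?_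
  · rintro p a ⟨ha1, ha2⟩
    refine Submodule.iSup_induction (fun q : ℤ => Subalgebra.toSubmodule S ⊓
      (en δ).eigenspace (q : ℂ)) (motive := fun b => a * b ∈ TT δ S) hb ?_ ?_ ?_
    · rintro q b ⟨hb1, hb2⟩
      refine Submodule.mem_iSup_of_mem (p + q) ⟨S.mul_mem ha1 hb1, ?_⟩
      have h1 := mem_eig.1 ha2
      have h2 := mem_eig.1 hb2
      refine mem_eig.2 ?_
      rw [δ.leibniz, h1, h2, smul_eq_mul, smul_eq_mul, Algebra.smul_def, Algebra.smul_def,
        Algebra.smul_def, Int.cast_add, map_add]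
      ring
    · rw [mul_zero]
      exact Submodule.zero_mem _
    · intro x y hx hy
      rw [mul_add]
      exact Submodule.add_mem _ hx hy
  · rw [zero_mul]
    exact Submodule.zero_mem _
  · intro x y hx hy
    rw [add_mul]
    exact Submodule.add_mem _ hx hy

theorem zero_mem' {δ : Derivation ℂ K K} {S : Subalgebra ℂ K} {a : K} (ha : a ∈ S)
    (h : δ a = 0) : a ∈ TT δ S := by
  refine Submodule.mem_iSup_of_mem 0 ⟨ha, mem_eig.2 ?_⟩
  rw [h, Int.cast_zero, zero_smul]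

theorem lint_mat {δ : Derivation ℂ K K} {L0 : Subalgebra ℂ K} {r : ℕ}
    {X Y : Matrix (Fin r) (Fin r) K} (h0 : ∀ a ∈ L0, δ a = 0)
    (hX : ∀ i j, X i j ∈ TT δ (mat L0 X Y)) (hY : ∀ i j, Y i j ∈ TT δ (mat L0 X Y)) :
    LInt δ (mat L0 X Y) := by
  let A : Subalgebra ℂ K :=
    { carrier := {y | y ∈ TT δ (mat L0 X Y)}
      mul_mem' := fun ha hb => mul_mem ha hb
      add_mem' := fun ha hb => (TT δ (mat L0 X Y)).add_mem ha hb
      algebraMap_mem' := fun c => zero_mem' (Subalgebra.algebraMap_mem _ c) (by simp) }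
  have h1 : mat L0 X Y ≤ A := by
    refine sup_le (fun a ha => ?_) (Algebra.adjoin_le ?_)
    · exact zero_mem' ((le_sup_left : L0 ≤ mat L0 X Y) ha) (h0 a ha)
    · rintro _ ⟨i, j, rfl | rfl⟩
      · exact hX i j
      · exact hY i j
  exact fun b hb => h1 hb

theorem smul_ap (δ : Derivation ℂ K K) (c : ℂ) (a : K) : (c • δ) a = c • δ a := rfl

theorem common {δ : Derivation ℂ K K} {S : Subalgebra ℂ K} {b : K}
    (hb : b ∈ ⨆ q : ℚ, Subalgebra.toSubmodule S ⊓ (en δ).eigenspace (q : ℂ)) :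
    ∃ N : ℕ, 1 ≤ N ∧ ∀ m : ℕ, b ∈ TT (((N * m : ℕ) : ℂ) • δ) S := by
  refine Submodule.iSup_induction (fun q : ℚ => Subalgebra.toSubmodule S ⊓
    (en δ).eigenspace (q : ℂ)) (motive := fun b => ∃ N : ℕ, 1 ≤ N ∧
      ∀ m : ℕ, b ∈ TT (((N * m : ℕ) : ℂ) • δ) S) hb ?_ ?_ ?_
  · rintro q a ⟨ha1, ha2⟩
    refine ⟨q.den, q.den_pos, fun m => ?_⟩
    refine Submodule.mem_iSup_of_mem (q.num * (m : ℤ)) ⟨ha1, mem_eig.2 ?_⟩
    rw [smul_ap, mem_eig.1 ha2, smul_smul]
    congr 1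
    have h1 : (q : ℂ) * (q.den : ℂ) = (q.num : ℂ) := by
      exact_mod_cast congrArg (fun x : ℚ => (x : ℂ)) (Rat.mul_den_eq_num q)
    push_cast
    linear_combination (m : ℂ) * h1
  · exact ⟨1, le_rfl, fun m => Submodule.zero_mem _⟩
  · rintro x y ⟨N1, h1, hx⟩ ⟨N2, h2, hy⟩
    refine ⟨N1 * N2, Nat.mul_pos h1 h2, fun m => Submodule.add_mem _ ?_ ?_⟩
    · have := hx (N2 * m)
      rwa [← mul_assoc] at this
    · have := hy (N1 * m)
      rwa [← mul_assoc, mul_comm N2 N1] at this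

/-- a common denominator for finitely many elements -/
theorem common_fin {δ : Derivation ℂ K K} {S : Subalgebra ℂ K} {ι : Type} [Fintype ι] (f : ι → K)
    (hf : ∀ i, f i ∈ ⨆ q : ℚ, Subalgebra.toSubmodule S ⊓ (en δ).eigenspace (q : ℂ)) :
    ∃ N : ℕ, 1 ≤ N ∧ ∀ i, f i ∈ TT ((N : ℂ) • δ) S := by
  classical
  choose N h1 h2 using fun i => common (hf i)
  refine ⟨∏ i, N i, Nat.one_le_iff_ne_zero.2 (Finset.prod_ne_zero_iff.2 fun i _ =>
    Nat.one_le_iff_ne_zero.1 (h1 i)), fun i => ?_⟩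
  have h3 := h2 i (∏ j ∈ Finset.univ.erase i, N j)
  rwa [Finset.mul_prod_erase _ _ (Finset.mem_univ i)] at h3

end N1aux

open N1aux in
theorem symm_exists (D : Derivation ℂ K K) (hC : Cst D) (L0 : Subalgebra ℂ K) (hL : Stab D L0)
    (hinv : ∀ x ∈ L0, x⁻¹ ∈ L0) {r : ℕ} {X Y A : Matrix (Fin r) (Fin r) K}
    (hF : Fund D L0 X Y A) {x : K} (hx : x ∈ frac (mat L0 X Y)) (hna : ¬ IsAlgebraic L0 x) :
    Stab D (mat L0 X Y) ∧ DSimple D (mat L0 X Y) ∧ ∃ δ : Derivation ℂ K K,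
      Stab δ (mat L0 X Y) ∧ (∀ b ∈ mat L0 X Y, D (δ b) = δ (D b)) ∧ (∀ a ∈ L0, δ a = 0) ∧
      δ x ≠ 0 ∧ (LNil δ (mat L0 X Y) ∨ LInt δ (mat L0 X Y)) := by
  classical
  set S := mat L0 X Y with hSdef
  have hLS : L0 ≤ S := le_sup_left
  have hnoe := Pool.Agent.Y71.IL.t_NOE K D L0 r X Y A hF
  have hS : Stab D S := hnoe.2.1 hL
  have hsimple : DSimple D S :=
    Pool.Agent.Y77.IL.t_TOR Pool.Agent.Y884.IL.t_PT Pool.Agent.Y87.IL.t_PROP K D hC L0 hL hinv
      r X Y A hF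
  refine ⟨hS, hsimple, ?_⟩
  have halg : IsAlgebraic S x := frac_alg (fun y hy => alg_of_mem hy) hx
  obtain ⟨δ0, ξ, hδ0, hδx, hδX⟩ := Pool.Agent.Y587.IL.t_DER K D hC L0 hL r X Y A hF x halg hna
  obtain ⟨hδY, hstab, hcomm⟩ := hnoe.2.2.2 δ0 hδ0 ξ hδX
  have hgen := Pool.Agent.Y43.IL.t_GE K δ0 L0 r X Y ξ hδ0 hδX hδY
  obtain ⟨δ', k1, k2, k3, k4, k5⟩ := replica D δ0 S hS hstab (hcomm hL) hgen x halg hδx
  have k6 : ∀ a ∈ L0, δ' a = 0 := fun a ha => k4 a (hLS ha) (hδ0 a ha)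
  rcases k5 with k5 | k5
  · exact ⟨δ', k1, k2, k6, k3, Or.inl k5⟩
  · have hXS : ∀ i j, X i j ∈ S := fun i j =>
      (le_sup_right : _ ≤ L0 ⊔ _) (Algebra.subset_adjoin ⟨i, j, Or.inl rfl⟩)
    have hYS : ∀ i j, Y i j ∈ S := fun i j =>
      (le_sup_right : _ ≤ L0 ⊔ _) (Algebra.subset_adjoin ⟨i, j, Or.inr rfl⟩)
    obtain ⟨N, hN, hNf⟩ := common_fin (δ := δ') (S := S) (ι := Sg r) (pt X Y) (by
      rintro (p | p)
      · exact k5 _ (hXS p.1 p.2)
      · exact k5 _ (hYS p.1 p.2))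
    have hN0 : (N : ℂ) ≠ 0 := by
      have : N ≠ 0 := Nat.one_le_iff_ne_zero.1 hN
      exact_mod_cast this
    refine ⟨(N : ℂ) • δ', ?_, ?_, ?_, ?_, Or.inr ?_⟩
    · intro b hb
      rw [smul_ap]
      exact S.smul_mem (k1 b hb) _
    · intro b hb
      rw [smul_ap, smul_ap, D.map_smul, k2 b hb]
    · intro a ha
      rw [smul_ap, k6 a ha, smul_zero]
    · rw [smul_ap]
      exact smul_ne_zero hN0 k3
    · refine lint_mat (fun a ha => ?_) (fun i j => hNf (Sum.inl (i, j)))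
        (fun i j => hNf (Sum.inr (i, j)))
      rw [smul_ap, k6 a ha, smul_zero]

end Pool.Agent.H917.Mg
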