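import Pool.Agent.H917.M.N0

/-!
# PROJECT BND (helper917), task N1a: replicas (helper725)

The proof is that of `Pool.Agent.Y899.ILSP.t_SP` (author Y899) with the additional conclusion that the elements
of `S` killed by `δ` are killed by the replica `δ'`.
-/

set_option autoImplicit false
set_option linter.overlappingInstances false
set_option linter.unusedSectionVars false

namespace Pool.Agent.H917.Mg

open Pool.Agent.Y377.EL Pool.Agent.Y377.IL

variable {K : Type} [Field K] [Algebra ℂ K]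

theorem N1aaux.mem_zero {δ : Derivation ℂ K K} {S : Subalgebra ℂ K} {b : K} (hb : b ∈ S)
    (h0 : δ b = 0) : b ∈ Pool.Agent.Y899.ILSP.V δ S 0 := by
  rw [Pool.Agent.Y899.ILSP.mem_V]
  refine ⟨hb, 1, ?_⟩
  rw [pow_one, Pool.Agent.Y899.ILSP.f_apply, h0, zero_smul, sub_zero]

open Pool.Agent.Y899.ILSP in
theorem replica (D δ : Derivation ℂ K K) (S : Subalgebra ℂ K) (hD : Stab D S) (hδ : Stab δ S)
    (hcomm : ∀ b ∈ S, D (δ b) = δ (D b))
    (hgen : ∀ b ∈ S, b ∈ ⨆ μ : ℂ, Subalgebra.toSubmodule S ⊓ (en δ).maxGenEigenspace μ)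
    (x : K) (hx : IsAlgebraic S x) (hδx : δ x ≠ 0) :
    ∃ δ' : Derivation ℂ K K, Stab δ' S ∧ (∀ b ∈ S, D (δ' b) = δ' (D b)) ∧ δ' x ≠ 0 ∧
      (∀ b ∈ S, δ b = 0 → δ' b = 0) ∧
      ((∀ b ∈ S, ∃ k : ℕ, (en δ' ^ k) b = 0) ∨
        ∀ b ∈ S, b ∈ ⨆ q : ℚ, Subalgebra.toSubmodule S ⊓ (en δ').eigenspace (q : ℂ)) := by
  classical
  have key : ∀ φ : ℂ →+ ℂ, ∃ e : Derivation ℂ K K, Stab e S ∧
      ∀ (μ : ℂ) (b : K), b ∈ V δ S μ → e b = φ μ • b := by
    intro φ
    obtain ⟨d, hd⟩ := Pool.Agent.Y407.IL.t_GR K δ S hδ hgen φ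
    obtain ⟨e, he⟩ := Pool.Agent.Y151.IL.t_EXT K S d
    refine ⟨e, fun b hb => ?_, fun μ b hb => ?_⟩
    · rw [show b = ((⟨b, hb⟩ : S) : K) from rfl, he]
      exact (d ⟨b, hb⟩).2
    · have h1 := he ⟨b, hb.1⟩
      have h2 := hd μ ⟨b, hb.1⟩ hb.2
      rw [h2] at h1
      exact h1
  choose e heB he using key
  have hcom : ∀ φ : ℂ →+ ℂ, ∀ b ∈ S, D (e φ b) = e φ (D b) := by
    intro φ b hb
    refine ind hgen (fun b => D (e φ b) = e φ (D b)) ?_ (by simp) ?_ hb
    · intro μ b hb
      rw [he φ μ b hb, he φ μ _ (D_V hD hδ hcomm hb), Derivation.map_smul]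
    · intro a b ha hb
      simp only [map_add]
      rw [ha, hb]
  by_cases hN : δ x - e (AddMonoidHom.id ℂ) x = 0
  · -- the semisimple part
    have hid : e (AddMonoidHom.id ℂ) x ≠ 0 := by
      intro h
      rw [h, sub_zero] at hN
      exact hδx hN
    let w := Module.Basis.ofVectorSpace ℚ ℂ
    let φ : Module.Basis.ofVectorSpaceIndex ℚ ℂ → (ℂ →+ ℂ) := fun i =>
      ((algebraMap ℚ ℂ).toAddMonoidHom).comp (w.coord i).toAddMonoidHom
    have hφ : ∀ i μ, φ i μ = ((w.repr μ i : ℚ) : ℂ) := fun i μ => rfl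
    have hex : ∃ i, e (φ i) x ≠ 0 := by
      by_contra hcon
      push Not at hcon
      let E : Finset (Module.Basis.ofVectorSpaceIndex ℚ ℂ) → Derivation ℂ K K := fun I =>
        e (AddMonoidHom.id ℂ) - ∑ i ∈ I, (w i) • e (φ i)
      have hE : ∀ I y, E I y = e (AddMonoidHom.id ℂ) y - ∑ i ∈ I, (w i) • e (φ i) y := by
        intro I y
        show (e (AddMonoidHom.id ℂ) - ∑ i ∈ I, (w i) • e (φ i)) y = _
        rw [Derivation.sub_apply]
        congr 1
        rw [← Derivation.coeFnAddMonoidHom_apply, map_sum, Finset.sum_apply]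
        rfl
      have hES : ∀ I, Stab (E I) S := by
        intro I b hb
        rw [hE]
        exact S.sub_mem (heB _ b hb) (S.sum_mem fun i _ => S.smul_mem (heB _ b hb) _)
      have hkill : ∀ b ∈ S, ∃ I0, ∀ I, I0 ⊆ I → E I b = 0 := by
        intro b hb
        refine ind hgen (fun b => ∃ I0, ∀ I, I0 ⊆ I → E I b = 0) ?_ ⟨∅, fun I _ => map_zero _⟩ ?_ hb
        · intro μ b hb
          refine ⟨(w.repr μ).support, fun I hI => ?_⟩
          rw [hE, he _ μ b hb]
          have h1 : ∑ i ∈ I, (w i) • e (φ i) b = (∑ i ∈ I, w i * φ i μ) • b := by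
            rw [Finset.sum_smul]
            refine Finset.sum_congr rfl fun i _ => ?_
            rw [he _ μ b hb, smul_smul]
          have h2 : ∑ i ∈ I, w i * φ i μ = μ := by
            conv_rhs => rw [← w.linearCombination_repr μ]
            rw [Finsupp.linearCombination_apply, Finsupp.sum_of_support_subset _ hI]
            · refine Finset.sum_congr rfl fun i _ => ?_
              rw [hφ, Rat.smul_def, mul_comm]
            · intro i _
              simp
          rw [h1, h2]
          simp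
        · rintro a b ⟨I1, h1⟩ ⟨I2, h2⟩
          refine ⟨I1 ∪ I2, fun I hI => ?_⟩
          rw [map_add, h1 I (Finset.union_subset_left hI), h2 I (Finset.union_subset_right hI),
            add_zero]
      obtain ⟨p, hp, hp'⟩ := exists_sep hx
      choose I0 hI0 using fun n => hkill (p.coeff n) (p.coeff n).2
      let I := (Finset.range (p.natDegree + 1)).biUnion I0
      have hdc : dc (dres (E I) S (hES I)) p = 0 := by
        ext n
        rw [coeff_dc, Polynomial.coeff_zero]
        change E I (p.coeff n) = 0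
        by_cases hn : n < p.natDegree + 1
        · exact hI0 n I (Finset.subset_biUnion_of_mem I0 (Finset.mem_range.2 hn))
        · rw [Polynomial.coeff_eq_zero_of_natDegree_lt (by omega)]
          simp
      have h3 := D_aeval (E I) S (hES I) x p
      rw [hp, map_zero, hdc, map_zero, zero_add] at h3
      have h4 : E I x = 0 := by
        rcases mul_eq_zero.1 h3.symm with h | h
        · exact absurd h hp'
        · exact h
      rw [hE] at h4
      rw [Finset.sum_eq_zero (fun i _ => by rw [hcon i, smul_zero]), sub_zero] at h4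
      exact hid h4
    obtain ⟨i, hi⟩ := hex
    refine ⟨e (φ i), heB _, hcom _, hi, fun b hb h0 => ?_, Or.inr fun b hb => ?_⟩
    · rw [he (φ i) 0 b (N1aaux.mem_zero hb h0), map_zero, zero_smul]
    refine ind hgen (fun b => b ∈ ⨆ q : ℚ, Subalgebra.toSubmodule S ⊓
      (en (e (φ i))).eigenspace (q : ℂ)) ?_ (Submodule.zero_mem _)
      (fun a b ha hb => Submodule.add_mem _ ha hb) hb
    intro μ b hb
    refine Submodule.mem_iSup_of_mem (w.repr μ i) ⟨hb.1, ?_⟩
    exact Module.End.mem_eigenspace_iff.2 (he (φ i) μ b hb)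
  · -- the nilpotent part
    let N : Derivation ℂ K K := δ - e (AddMonoidHom.id ℂ)
    have hNa : ∀ y, N y = δ y - e (AddMonoidHom.id ℂ) y := fun y => rfl
    refine ⟨N, fun b hb => ?_, fun b hb => ?_, hN, fun b hb h0 => ?_, Or.inl fun b hb => ?_⟩
    · rw [hNa]
      exact S.sub_mem (hδ b hb) (heB _ b hb)
    · rw [hNa, hNa, map_sub, hcomm b hb, hcom _ b hb]
    · rw [hNa, h0, he _ 0 b (N1aaux.mem_zero hb h0), map_zero, zero_smul, sub_zero]
    · refine ind hgen (fun b => ∃ k : ℕ, (en N ^ k) b = 0) ?_ ⟨0, by simp⟩ ?_ hb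
      · intro μ b hb
        have h1 : ∀ j : ℕ, (en N ^ j) b = ((en δ - μ • (1 : Module.End ℂ K)) ^ j) b := by
          intro j
          induction j with
          | zero => rfl
          | succ j ih =>
            rw [pow_succ', Module.End.mul_apply, ih, pow_succ', Module.End.mul_apply, f_apply,
              en_apply, hNa, he _ μ _ (f_V hδ hb j)]
            rfl
        obtain ⟨-, k, hk⟩ := mem_V.1 hb
        exact ⟨k, by rw [h1, hk]⟩
      · rintro a b ⟨k, hk⟩ ⟨l, hl⟩
        refine ⟨k + l, ?_⟩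
        rw [map_add, pow_add, Module.End.mul_apply, Module.End.mul_apply, hl, map_zero, add_zero,
          ← Module.End.mul_apply, ← pow_add, add_comm, pow_add, Module.End.mul_apply, hk, map_zero]

end Pool.Agent.H917.Mg
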