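import Pool.Agent.H917.M.N0

/-!
# PROJECT BND (helper917), task N4b: a divisibility lemma

## Paper proof
Let `e ≥ 1` be the multiplicity of `π` in `a`, `a = π ^ e V`, `π ∤ V`. `E = D' a * b - a * D' b`; `E ^ m * b ^ s = (a * b) ^ m * P0` and `π ∤ b`, so `π ^ (e m) ∣ E ^ m`, so `π ^ e ∣ E` (unique factorisation, `m ≥ 1`), so `π ^ e ∣ D' a * b`, `π ^ e ∣ D' a`.
`D' a = e π^(e-1) (D' π) V + π ^ e D' V`, so `π ∣ e (D' π) V`, and `π ∣ D' π` (characteristic zero, `π ∤ V`).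
-/

set_option autoImplicit false
set_option linter.overlappingInstances false
set_option linter.unusedSectionVars false

namespace Pool.Agent.H917.Mg

theorem N4baux_pow {F : Type} [Field F] (D' : Polynomial F →+ Polynomial F)
    (hmul : ∀ f g, D' (f * g) = D' f * g + f * D' g) (π : Polynomial F) (k : ℕ) :
    D' (π ^ (k + 1)) = ((k + 1 : ℕ) : Polynomial F) * (π ^ k * D' π) := by
  induction k with
  | zero => simp
  | succ k ih =>
    rw [pow_succ, hmul, ih]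
    push_cast
    ring

theorem prime_dvd {F : Type} [Field F] [CharZero F] (D' : Polynomial F →+ Polynomial F)
    (hmul : ∀ f g, D' (f * g) = D' f * g + f * D' g) {a b π P0 : Polynomial F} {m s : ℕ}
    (hm : 1 ≤ m) (ha : a ≠ 0)
    (h : (D' a * b - a * D' b) ^ m * b ^ s = (a * b) ^ m * P0) (hπ : Prime π) (h1 : π ∣ a)
    (h2 : ¬ π ∣ b) : π ∣ D' π := by
  obtain ⟨e, V, hV, hae⟩ := WfDvdMonoid.max_power_factor ha hπ.irreducible
  obtain ⟨k, rfl⟩ : ∃ k, e = k + 1 := by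
    rcases Nat.eq_zero_or_pos e with h0 | h0
    · rw [h0, pow_zero, one_mul] at hae
      exact absurd (hae ▸ h1) hV
    · exact ⟨e - 1, by omega⟩
  have hea : π ^ (k + 1) ∣ a := ⟨V, hae⟩
  have hbs : ¬ π ∣ b ^ s := fun hc => h2 (hπ.dvd_of_dvd_pow hc)
  have h3 : π ^ ((k + 1) * m) ∣ (D' a * b - a * D' b) ^ m * b ^ s := by
    rw [h, pow_mul]
    exact (pow_dvd_pow_of_dvd (hea.trans (dvd_mul_right a b)) m).mul_right P0
  have h4 : π ^ ((k + 1) * m) ∣ (D' a * b - a * D' b) ^ m := hπ.pow_dvd_of_dvd_mul_right _ hbs h3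
  have h5 : π ^ (k + 1) ∣ D' a * b - a * D' b := by
    rw [pow_mul] at h4
    exact (UniqueFactorizationMonoid.pow_dvd_pow_iff_dvd (by omega)).1 h4
  have h6 : π ^ (k + 1) ∣ D' a * b := by
    have := dvd_add h5 (hea.mul_right (D' b))
    rwa [sub_add_cancel] at this
  have h7 : π ^ (k + 1) ∣ D' a := hπ.pow_dvd_of_dvd_mul_right _ h2 h6
  rw [hae, hmul] at h7
  have h8 : π ^ (k + 1) ∣ D' (π ^ (k + 1)) * V := by
    have := dvd_sub h7 (Dvd.intro (D' V) rfl : π ^ (k + 1) ∣ π ^ (k + 1) * D' V)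
    rwa [add_sub_cancel_right] at this
  have h9 : π ^ (k + 1) ∣ D' (π ^ (k + 1)) := hπ.pow_dvd_of_dvd_mul_right _ hV h8
  rw [N4baux_pow D' hmul] at h9
  have h10 : π ^ k * π ∣ π ^ k * (((k + 1 : ℕ) : Polynomial F) * D' π) := by
    rw [← pow_succ]
    have e1 : π ^ k * (((k + 1 : ℕ) : Polynomial F) * D' π) =
        ((k + 1 : ℕ) : Polynomial F) * (π ^ k * D' π) := by ring
    rw [e1]
    exact h9
  have h11 : π ∣ ((k + 1 : ℕ) : Polynomial F) * D' π :=
    (mul_dvd_mul_iff_left (pow_ne_zero k hπ.ne_zero)).1 h10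
  rcases hπ.dvd_or_dvd h11 with h12 | h12
  · exfalso
    apply hπ.not_isUnit
    refine isUnit_of_dvd_unit h12 ?_
    have e2 : ((k + 1 : ℕ) : Polynomial F) = Polynomial.C ((k + 1 : ℕ) : F) := by
      rw [Polynomial.C_eq_natCast]
    rw [e2, Polynomial.isUnit_C]
    exact isUnit_iff_ne_zero.2 (Nat.cast_ne_zero.2 (Nat.succ_ne_zero k))
  · exact h12

end Pool.Agent.H917.Mg
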