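import Pool.Agent.H917.M.N7a
import Pool.Agent.H917.M.N6
import Pool.Agent.H917.M.B3B

/-!
# PROJECT BND (helper917), task N7: the formal flow: no constant logarithmic differentials on varieties of log general type, algebraically closed case

`M` algebraically closed with `e : ℂ ≃+* M`. Suppose `D (x i / x j) ≠ 0` for some `i, j`. Let `C = consts D` (`mem_consts`; an intermediate field of `M` over `ℂ`). `linSys_ambB` (stub in M/B3B) gives `h, δ, A, b` with `A, b` in `C`, i.e. `D (A i j) = 0`, `D (b i j) = 0`.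
Let `K`, `dt`, `T` be from `exists_formal` (stub in M/N7a); the `ℂ`-algebra structure of `K` is that through `M` (`algebraMap M K ∘ algebraMap ℂ M`), and `T` is `ℂ`-linear (complex numbers are constants of `D`). Let `x_t = T ∘ x`, `X, Y` the matrices for `A` (so `dt X = A X`, and `dt Y = - Y A`). The vector `c = Y T(h)` satisfies `dt c = T(δ) c`,
so the ratios of its components are constants: `c i = μ * c0 i` with `c0 i ∈ M`, `μ ∈ K`. So `T (h i) = μ ∑ j X i j c0 j`, and `x_t i / x_t j = (∑ l, b i l T(h l)) / (∑ l, b j l T(h l))` is a quotient of elements of `Sub = L0 ⊔ adjoin (X, Y)`, `L0 = ⊥` (the constants `M`; closed under inverse).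
`x_t i / x_t j` is not algebraic over `M` for some `i, j`: its derivative `T (D (x i / x j))` is not zero, and algebraic elements over the constants are constants (derivations vanish on them).
`hrel`: `dt (T z) / T z = T (D z / z)`, and by `bsdl_of_gens` (M/P1b, stub; `SDL.rel` with `I = fun _ => b`) `(D z / z) ^ m = ∑ l, aeval (ch x j) (β l) * c l`, `z = x b / x j`, with `c l ∈ C`, `T (c l) = algebraMap M K (c l) ∈ L0`. Generic point: `aeval x_t G = T (aeval x G)`, so `aeval y G = 0 ↔ aeval x G = 0 ↔ aeval x_t G = 0`.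
Apply `not_lgt_of_fund` (stub in M/N6) with `C0 = M`.
-/

set_option autoImplicit false
set_option linter.overlappingInstances false
set_option linter.unusedSectionVars false

open FF MvPolynomial Metric Set Pool.Agent.W602.GT
open Pool.Agent.H917.Lg (lch lch2 SDL PresB WL RegSymL lloc)

namespace Pool.Agent.H917.Mg

variable {n : ℕ} {p : Ideal (MvPolynomial (Fin (n + 1)) ℂ)}
  {B : Fin (n + 1) → Finset (Fin (n + 1))}

/-- solutions of a linear system up to a factor -/
theorem N7aux.flow {E M : Type} [Field E] [Field M] [Algebra M E] (dt : Derivation M E E)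
    (hconst : ∀ x, dt x = 0 → ∃ c : M, x = algebraMap M E c) {r : ℕ}
    {X Y : Matrix (Fin r) (Fin r) E} (hXY : X * Y = 1) {A : Fin r → Fin r → M}
    (hXA : ∀ i j, dt (X i j) = ∑ l, algebraMap M E (A i l) * X l j)
    {g : Fin r → E} {d : E} (hg : ∀ i, dt (g i) = d * g i + ∑ l, algebraMap M E (A i l) * g l)
    (hne : ∃ i, g i ≠ 0) :
    ∃ (μ : E) (c0 : Fin r → M), μ ≠ 0 ∧ ∀ i, g i = μ * ∑ j, X i j * algebraMap M E (c0 j) := by
  classical
  have hYX : Y * X = 1 := mul_eq_one_comm.1 hXY
  let v : Fin r → E := Y.mulVec g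
  have hv : X.mulVec v = g := by
    change X.mulVec (Y.mulVec g) = g
    rw [Matrix.mulVec_mulVec, hXY, Matrix.one_mulVec]
  have hgv : ∀ i, g i = ∑ l, X i l * v l := fun i => (congrFun hv i).symm
  have h1 : ∀ i, ∑ l, X i l * (dt (v l) - d * v l) = 0 := by
    intro i
    have e1 : dt (g i) = ∑ l, X i l * dt (v l) + ∑ l, v l * dt (X i l) := by
      rw [hgv i, map_sum, ← Finset.sum_add_distrib]
      refine Finset.sum_congr rfl fun l _ => ?_
      rw [dt.leibniz]
      rfl
    have e2 : ∑ l, v l * dt (X i l) = ∑ k, algebraMap M E (A i k) * g k := by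
      have e3 : ∀ l, v l * dt (X i l) = ∑ k, algebraMap M E (A i k) * (X k l * v l) := by
        intro l
        rw [hXA, Finset.mul_sum]
        refine Finset.sum_congr rfl fun k _ => ?_
        ring
      rw [Finset.sum_congr rfl fun l _ => e3 l, Finset.sum_comm]
      refine Finset.sum_congr rfl fun k _ => ?_
      rw [← Finset.mul_sum, ← hgv k]
    have e4 : ∑ l, X i l * (dt (v l) - d * v l) = ∑ l, X i l * dt (v l) - d * g i := by
      rw [hgv i, Finset.mul_sum, ← Finset.sum_sub_distrib]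
      refine Finset.sum_congr rfl fun l _ => ?_
      ring
    have e5 := hg i
    rw [e1, e2] at e5
    rw [e4]
    exact sub_eq_zero.2 (add_right_cancel e5)
  have h2 : ∀ l, dt (v l) = d * v l := by
    have e1 : X.mulVec (fun l => dt (v l) - d * v l) = 0 := funext h1
    have e2 : (fun l => dt (v l) - d * v l) = 0 := by
      have e3 := congrArg Y.mulVec e1
      rw [Matrix.mulVec_mulVec, hYX, Matrix.one_mulVec, Matrix.mulVec_zero] at e3
      exact e3
    intro l
    exact sub_eq_zero.1 (congrFun e2 l)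
  have h3 : ∃ a, v a ≠ 0 := by
    by_contra hcon
    push Not at hcon
    obtain ⟨i, hi⟩ := hne
    apply hi
    rw [hgv i]
    exact Finset.sum_eq_zero fun l _ => by rw [hcon l, mul_zero]
  obtain ⟨a0, ha0⟩ := h3
  have h4 : ∀ a, ∃ c : M, v a / v a0 = algebraMap M E c := by
    intro a
    refine hconst _ ?_
    have e1 : v a = v a / v a0 * v a0 := (div_mul_cancel₀ _ ha0).symm
    have e2 : dt (v a) = v a / v a0 * dt (v a0) + v a0 * dt (v a / v a0) := by
      conv_lhs => rw [e1]
      rw [dt.leibniz]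
      rfl
    rw [h2, h2] at e2
    have e3 : v a0 * dt (v a / v a0) = 0 := by
      have e4 : v a / v a0 * (d * v a0) = d * v a := by
        field_simp
      rw [e4] at e2
      exact left_eq_add.1 e2
    exact (mul_eq_zero.1 e3).resolve_left ha0
  choose c0 hc0 using h4
  refine ⟨v a0, c0, ha0, fun i => ?_⟩
  rw [hgv i, Finset.mul_sum]
  refine Finset.sum_congr rfl fun l _ => ?_
  rw [← hc0 l]
  field_simp

/-- algebraic elements over an algebraically closed field of constants -/
theorem N7aux.alg_bot {E M : Type} [Field E] [Field M] [Algebra M E] [IsAlgClosed M] {z : E}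
    (h : IsAlgebraic (⊥ : Subalgebra M E) z) : ∃ c : M, z = algebraMap M E c := by
  have h0 : Algebra.IsAlgebraic M (⊥ : Subalgebra M E) := by
    refine ⟨fun a => ?_⟩
    obtain ⟨c, hc⟩ := Algebra.mem_bot.1 a.2
    have : a = algebraMap M (⊥ : Subalgebra M E) c := Subtype.ext hc.symm
    rw [this]
    exact isAlgebraic_algebraMap c
  have h1 : IsAlgebraic M z := IsAlgebraic.restrictScalars M h
  have h2 : IsIntegral M z := h1.isIntegral
  obtain ⟨c, hc⟩ := minpoly.mem_range_of_degree_eq_one M z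
    (IsAlgClosed.degree_eq_one_of_irreducible M (minpoly.irreducible h2))
  exact ⟨c, hc.symm⟩

theorem no_der_closed (hp : Pool.Agent.W603.PV.IsHomog p) (hB : BdC p B) {m N : ℕ}
    {s : Fin N → BSymDiff p B m} (hs : BGens p B m s) (hm : 1 ≤ m)
    {K : Type} [Field K] [Algebra ℂ K] {w : ℕ} {y : Fin (n + 1) → K} (hy : y ≠ 0)
    (hgen : coords ℂ y = ⊤) (hdim : Algebra.trdeg ℂ K = w) (hLG : LogGeneralType ℂ K w (BdP B y))
    {M : Type} [Field M] [Algebra ℂ M] [IsAlgClosed M] (e : ℂ ≃+* M) (D : Derivation ℂ M M)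
    {x : Fin (n + 1) → M} (hx : x ≠ 0) (hX : ∀ H ∈ p, aeval x H = 0) (hoff : OffB B x)
    (hrel : ∀ G : MvPolynomial (Fin (n + 1)) ℂ, IsForm G → (val y G = 0 ↔ val x G = 0))
    (hD : ∀ l, D ((s l).val x fun i => D (x i)) = 0) (i j : Fin (n + 1)) : D (x i / x j) = 0 := by
  classical
  by_contra hne
  have hM0 : CharZero M := charZero_of_injective_algebraMap (algebraMap ℂ M).injective
  obtain ⟨j0, hj0⟩ := Function.ne_iff.1 hx
  have hj0' : x j0 ≠ 0 := hj0
  obtain ⟨r, h, δ, A, b, hA, hb, hDh, hs0, hxb⟩ := linSys_ambB D (consts D)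
    (fun c hc => by
      have h1 : D c = 0 := hc
      rw [h1]
      exact (consts D).zero_mem) hp hB hs hm hj0' hX hoff (fun l => hD l) ⟨i, j, hne⟩ hgen hrel hLG
  obtain ⟨E, iE, iME, dt, T, hconst, hTD, hTc, hfund⟩ := exists_formal D
  obtain ⟨X, Y, hXY, hXA⟩ := hfund r (Matrix.of A)
  let iCE : Algebra ℂ E := ((algebraMap M E).comp (algebraMap ℂ M)).toAlgebra
  have hCE : ∀ c : ℂ, algebraMap ℂ E c = algebraMap M E (algebraMap ℂ M c) := fun c => rfl
  let Tc : M →ₐ[ℂ] E := AlgHom.mk T fun c => by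
    change T (algebraMap ℂ M c) = algebraMap ℂ E c
    rw [hTc _ (D.map_algebraMap c), hCE]
  have hTc' : ∀ z, Tc z = T z := fun z => rfl
  have hTi : ∀ z, T z = 0 ↔ z = 0 := fun z => map_eq_zero T
  let xt : Fin (n + 1) → E := fun i => T (x i)
  have hxt0 : ∀ i, xt i ≠ 0 ↔ x i ≠ 0 := fun i => not_congr (hTi _)
  have hxt : xt ≠ 0 := fun h0 => (hxt0 j0).2 hj0' (congrFun h0 j0)
  have hofft : OffB B xt := fun k hk b' hb' => (hxt0 b').2 (hoff k ((hxt0 k).1 hk) b' hb')
  have hrat : ∀ i j, xt i / xt j = T (x i / x j) := fun i j => (map_div₀ T _ _).symm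
  have hae : ∀ G : MvPolynomial (Fin (n + 1)) ℂ, aeval xt G = T (aeval x G) := by
    intro G
    exact (comp_aeval_apply (f := x) Tc G).symm
  have hae2 : ∀ (j : Fin (n + 1)) (G : MvPolynomial (Fin (n + 1)) ℂ),
      T (aeval (ch x j) G) = aeval (fun i => xt i / xt j) G := by
    intro j G
    have h1 := comp_aeval_apply (f := ch x j) Tc G
    have h2 : (fun i => Tc (ch x j i)) = fun i => xt i / xt j := by
      funext i
      exact (hrat i j).symm
    rw [h2] at h1
    exact h1
  -- the linear system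
  have hTs0 : T (∑ l, b j0 l * h l) ≠ 0 := fun h0 => hs0 ((hTi _).1 h0)
  have hhne : ∃ a, T (h a) ≠ 0 := by
    by_contra hcon
    push Not at hcon
    apply hs0
    exact Finset.sum_eq_zero fun l _ => by rw [(hTi _).1 (hcon l), mul_zero]
  have hTA : ∀ a c, T (A a c) = algebraMap M E (A a c) := fun a c => hTc _ (hA a c)
  have hTb : ∀ a c, T (b a c) = algebraMap M E (b a c) := fun a c => hTc _ (hb a c)
  have hXA' : ∀ a c, dt (X a c) = ∑ l, algebraMap M E (A a l) * X l c := hXA
  obtain ⟨μ, c0, hμ, hg⟩ := N7aux.flow dt hconst hXY hXA' (g := fun a => T (h a)) (d := T δ)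
    (fun a => by
      rw [← hTD, hDh, map_add, map_mul, map_sum]
      refine congrArg₂ (· + ·) rfl (Finset.sum_congr rfl fun l _ => ?_)
      rw [map_mul, hTA]) hhne
  let Sub : Subalgebra M E := (⊥ : Subalgebra M E) ⊔
    Algebra.adjoin M {z | ∃ i j, z = X i j ∨ z = Y i j}
  have hSX : ∀ a c, X a c ∈ Sub := fun a c =>
    (le_sup_right : _ ≤ Sub) (Algebra.subset_adjoin ⟨a, c, Or.inl rfl⟩)
  have hSc : ∀ c : M, algebraMap M E c ∈ Sub := fun c => Sub.algebraMap_mem c
  let W : Fin r → E := fun a => ∑ l, X a l * algebraMap M E (c0 l)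
  have hW : ∀ a, W a ∈ Sub := fun a => Sub.sum_mem fun l _ => Sub.mul_mem (hSX a l) (hSc _)
  have hTh : ∀ a, T (h a) = μ * W a := hg
  let U : Fin (n + 1) → E := fun k => ∑ l, algebraMap M E (b k l) * W l
  have hU : ∀ k, U k ∈ Sub := fun k => Sub.sum_mem fun l _ => Sub.mul_mem (hSc _) (hW l)
  have hTs : ∀ k, T (∑ l, b k l * h l) = μ * U k := by
    intro k
    rw [map_sum, Finset.mul_sum]
    refine Finset.sum_congr rfl fun l _ => ?_
    rw [map_mul, hTb, hTh]
    ring
  have hxU : ∀ k, xt k * U j0 = xt j0 * U k := by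
    intro k
    have h1 := congrArg T (hxb k)
    rw [map_mul, map_mul, hTs, hTs] at h1
    have h2 : μ * (xt k * U j0) = μ * (xt j0 * U k) := by
      linear_combination h1
    exact mul_left_cancel₀ hμ h2
  have hU0 : U j0 ≠ 0 := by
    intro h0
    apply hTs0
    rw [hTs, h0, mul_zero]
  have hxtj0 : xt j0 ≠ 0 := (hxt0 j0).2 hj0'
  have hxS : ∀ i j, ∃ u ∈ Sub, ∃ v ∈ Sub, v ≠ 0 ∧ xt i / xt j = u / v := by
    intro i j
    by_cases hj : xt j = 0
    · refine ⟨0, Sub.zero_mem, 1, Sub.one_mem, one_ne_zero, ?_⟩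
      rw [hj, div_zero, zero_div]
    · have hUj : U j ≠ 0 := by
        intro h0
        have h1 := hxU j
        rw [h0, mul_zero] at h1
        exact (mul_ne_zero hj hU0) h1
      refine ⟨U i, hU i, U j, hU j, hUj, ?_⟩
      rw [div_eq_div_iff hj hUj]
      have h1 := hxU i
      have h2 := hxU j
      have h3 : xt j0 * U j0 * (xt i * U j) = xt j0 * U j0 * (U i * xt j) := by
        calc xt j0 * U j0 * (xt i * U j) = (xt i * U j0) * (xt j0 * U j) := by ring
          _ = (xt j0 * U i) * (xt j * U j0) := by rw [h1, h2]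
          _ = xt j0 * U j0 * (U i * xt j) := by ring
      exact mul_left_cancel₀ (mul_ne_zero hxtj0 hU0) h3
  refine not_lgt_of_fund e dt hconst ⊥ (fun z hz => ?_) (fun z hz => ?_) (r := r) (X := X)
    (Y := Y) (A := fun a c => algebraMap M E (A a c)) hXY (fun a c => ?_) hXA' (fun c => ?_) hm hxt
    hofft Sub rfl hxS ⟨i, j, fun halg => ?_⟩ (fun j hj b' hb' => ?_) hy hgen hdim
    (fun G hG => ?_) hLG
  · obtain ⟨c, rfl⟩ := Algebra.mem_bot.1 hz
    rw [dt.map_algebraMap]
    exact Subalgebra.zero_mem _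
  · obtain ⟨c, rfl⟩ := Algebra.mem_bot.1 hz
    rw [← map_inv₀]
    exact Subalgebra.algebraMap_mem _ _
  · exact Subalgebra.algebraMap_mem _ _
  · rw [hCE]
    exact Subalgebra.algebraMap_mem _ _
  · obtain ⟨c, hc⟩ := N7aux.alg_bot halg
    apply hne
    rw [← hTi, hTD, ← hrat, hc, dt.map_algebraMap]
  · have hxj : x j ≠ 0 := (hxt0 j).1 hj
    have hSD : SDL (consts D) D B x m := bsdl_of_gens hp hB hs D hx hX hoff
      fun l => ⟨⟨_, hD l⟩, rfl⟩
    obtain ⟨N', q', -, hc, hbb⟩ := hSD.rel j hxj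
    obtain ⟨β, hβ⟩ := hbb fun _ => b'
    rw [Finset.prod_const, Finset.card_univ, Fintype.card_fin] at hβ
    have h1 : Pool.Agent.H917.Lg.lch D B x j b' = D (x b' / x j) / (x b' / x j) := by
      unfold Pool.Agent.H917.Lg.lch
      rw [if_pos hb']
    rw [h1] at hβ
    refine ⟨N', β, fun l => T (aeval (lch2 D B x j) (q' l)), fun l => ?_, ?_⟩
    · obtain ⟨c, hc⟩ := hc l
      change T (aeval (lch2 D B x j) (q' l)) ∈ (⊥ : Subalgebra M E)
      rw [hc]
      have h2 : D (algebraMap (consts D) M c) = 0 := c.2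
      rw [hTc _ h2]
      exact Subalgebra.algebraMap_mem _ _
    · have h2 := congrArg T hβ
      rw [map_pow, map_div₀, hTD, map_sum, ← hrat] at h2
      rw [h2]
      refine Finset.sum_congr rfl fun l _ => ?_
      rw [map_mul, hae2]
  · rw [hae, hTi]
    exact hrel G hG

end Pool.Agent.H917.Mg
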