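import Pool.Agent.H917.M.N9

/-!
# PROJECT BND (helper917), task N7a: the formal flow of a derivation

`K = FractionRing (PowerSeries M)` with the derivation of `exists_dfrac` (N9, stub), `T a = ∑ k, D^k a / k! t^k` (`PowerSeries.mk`): a ring homomorphism to `PowerSeries M` by the iterated Leibniz rule (compare `fl_mul` in `Pool/Agent/H917/E2.lean`, and `expD`, `S_EXP` (`Pool.Agent.Y858.IL.t_EXP`) in the library for `ℂ`-derivations), injective because `M` is a field,
`T (D a) = (T a)'` coefficientwise; `T c = c` if `D c = 0`. The matrices: `fund_ps` for the matrix with constant entries `PowerSeries.C (A i j)`.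
-/

set_option autoImplicit false
set_option linter.overlappingInstances false
set_option linter.unusedSectionVars false

open PowerSeries

namespace Pool.Agent.H917.Mg

namespace N7aaux

variable {M : Type} [Field M] [CharZero M] {k : Type} [Field k] [Algebra k M]
  (D : Derivation k M M)

/-- the formal flow -/
noncomputable def tp (a : M) : PowerSeries M :=
  PowerSeries.mk fun n => ((⇑D)^[n] a) / (n.factorial : M)

theorem tp_coeff (a : M) (n : ℕ) :
    PowerSeries.coeff n (tp D a) = ((⇑D)^[n] a) / (n.factorial : M) := by
  unfold tp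
  rw [PowerSeries.coeff_mk]

theorem tp_der (a : M) : PowerSeries.derivative M (tp D a) = tp D (D a) := by
  ext n
  rw [PowerSeries.coeff_derivative, tp_coeff, tp_coeff, Function.iterate_succ_apply,
    Nat.factorial_succ]
  have h1 : ((n : M) + 1) ≠ 0 := by exact_mod_cast Nat.succ_ne_zero n
  have h2 : (n.factorial : M) ≠ 0 := by exact_mod_cast Nat.factorial_ne_zero n
  push_cast
  field_simp

theorem tp_add (a b : M) : tp D (a + b) = tp D a + tp D b := by
  ext n
  rw [map_add, tp_coeff, tp_coeff, tp_coeff, ← add_div]
  congr 1
  induction n generalizing a b with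
  | zero => rfl
  | succ n ih => rw [Function.iterate_succ_apply, Function.iterate_succ_apply,
      Function.iterate_succ_apply, map_add, ih]

theorem tp_const {a : M} (ha : D a = 0) : tp D a = PowerSeries.C a := by
  ext n
  rw [tp_coeff, PowerSeries.coeff_C]
  cases n with
  | zero => simp
  | succ n =>
    rw [Function.iterate_succ_apply, ha, if_neg (Nat.succ_ne_zero n)]
    have h : (⇑D)^[n] (0 : M) = 0 := by
      induction n with
      | zero => rfl
      | succ n ih => rw [Function.iterate_succ_apply, map_zero, ih]
    rw [h, zero_div]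

theorem tp_mul (a b : M) : tp D (a * b) = tp D a * tp D b := by
  ext n
  induction n generalizing a b with
  | zero =>
    rw [PowerSeries.coeff_mul]
    simp [tp_coeff]
  | succ n ih =>
    have h1 : ((n : M) + 1) ≠ 0 := by exact_mod_cast Nat.succ_ne_zero n
    have h2 : PowerSeries.coeff (n + 1) (tp D (a * b)) * ((n : M) + 1) =
        PowerSeries.coeff (n + 1) (tp D a * tp D b) * ((n : M) + 1) := by
      rw [← PowerSeries.coeff_derivative, ← PowerSeries.coeff_derivative, tp_der,
        Derivation.leibniz, Derivation.leibniz, tp_der, tp_der, tp_add, map_add, map_add,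
        smul_eq_mul, smul_eq_mul, smul_eq_mul, smul_eq_mul, ih, ih]
    exact mul_right_cancel₀ h1 h2

/-- the formal flow as a ring homomorphism -/
noncomputable def tph : M →+* PowerSeries M where
  toFun := tp D
  map_one' := by rw [tp_const D (Derivation.map_one_eq_zero D), map_one]
  map_mul' := tp_mul D
  map_zero' := by rw [tp_const D (map_zero D), map_zero]
  map_add' := tp_add D

end N7aaux

theorem exists_formal {M : Type} [Field M] [CharZero M] {k : Type} [Field k] [Algebra k M]
    (D : Derivation k M M) :
    ∃ (K : Type) (_ : Field K) (_ : Algebra M K) (dt : Derivation M K K) (T : M →+* K),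
      (∀ x, dt x = 0 → ∃ c : M, x = algebraMap M K c) ∧ (∀ a, T (D a) = dt (T a)) ∧
      (∀ a, D a = 0 → T a = algebraMap M K a) ∧
      ∀ (r : ℕ) (A : Matrix (Fin r) (Fin r) M), ∃ X Y : Matrix (Fin r) (Fin r) K, X * Y = 1 ∧
        ∀ i j, dt (X i j) = ∑ l, algebraMap M K (A i l) * X l j := by
  obtain ⟨dt, h1, h2⟩ := exists_dfrac M
  have hC : ∀ c : M, algebraMap (PowerSeries M) (FractionRing (PowerSeries M))
      (PowerSeries.C c) = algebraMap M (FractionRing (PowerSeries M)) c := by
    intro c
    rw [IsScalarTower.algebraMap_apply M (PowerSeries M) (FractionRing (PowerSeries M))]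
    rfl
  refine ⟨FractionRing (PowerSeries M), inferInstance, inferInstance, dt,
    (algebraMap (PowerSeries M) (FractionRing (PowerSeries M))).comp (N7aaux.tph D), h2,
    fun a => ?_, fun a ha => ?_, fun r A => ?_⟩
  · change algebraMap _ _ (N7aaux.tp D (D a)) = dt (algebraMap _ _ (N7aaux.tp D a))
    rw [h1, N7aaux.tp_der]
  · change algebraMap _ _ (N7aaux.tp D a) = _
    rw [N7aaux.tp_const D ha, hC]
  · obtain ⟨X, Y, hXY, hX⟩ := fund_ps (A.map (PowerSeries.C : M →+* PowerSeries M))
    refine ⟨X.map (algebraMap (PowerSeries M) (FractionRing (PowerSeries M))),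
      Y.map (algebraMap (PowerSeries M) (FractionRing (PowerSeries M))), ?_, fun i j => ?_⟩
    · rw [← Matrix.map_mul, hXY, Matrix.map_one _ (map_zero _) (map_one _)]
    · rw [Matrix.map_apply, h1, hX, map_sum]
      refine Finset.sum_congr rfl fun l _ => ?_
      rw [map_mul, Matrix.map_apply, Matrix.map_apply, hC]

end Pool.Agent.H917.Mg
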