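import Pool.Agent.H917.M.N7

/-!
# PROJECT BND (helper917), task N8: reduction to algebraically closed fields of the cardinality of the continuum

Let `M0` be the subfield of `M` generated over `ℂ` by the elements `D^k (x i)` (all `k`, `i`); it is stable under `D` (the derivation restricts: compare `resDer` in B3.lean), contains the `x i`. Its cardinality is at most the continuum (generated by a countable set over `ℂ`; `Algebra.adjoin` and fractions; Mathlib: `IntermediateField`/`Subfield` closure cardinality,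
`Algebra.lift_cardinalMk_adjoin_le` or similar). Let `M1 = AlgebraicClosure M0`: algebraically closed of characteristic zero, of the cardinality of the continuum (`Algebra.IsAlgebraic.cardinalMk_le_max` or `.lift_cardinalMk_le_max`), so `e : ℂ ≃+* M1` by `IsAlgClosed.ringEquiv_of_equiv_of_charZero` (or the current name in Mathlib: grep `ringEquiv`
in `Mathlib/FieldTheory/IsAlgClosed/Classification.lean`). The derivation extends to `M1` (algebraic extension in characteristic zero; see how `key_N` in `C6.lean` or `exists_der` handles this). The values of the `s l` and all hypotheses are compatible with the field homomorphisms (`bval_map`, M/P1b). Apply `no_der_closed` (N7).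
-/

set_option autoImplicit false
set_option linter.overlappingInstances false
set_option linter.unusedSectionVars false

open FF MvPolynomial Metric Set Pool.Agent.W602.GT
open Pool.Agent.H917.Lg (lch lch2 SDL PresB WL RegSymL lloc)

namespace Pool.Agent.H917.Mg

namespace N8aux

theorem ext_der {k L K : Type} [Field k] [Field L] [Field K] [Algebra k L] [Algebra L K]
    [Algebra k K] [IsScalarTower k L K] [CharZero L] [Algebra.IsAlgebraic L K]
    (d : Derivation k L L) :
    ∃ D : Derivation k K K, ∀ a, D (algebraMap L K a) = algebraMap L K (d a) := by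
  have hsep : Algebra.IsSeparable L K := inferInstance
  have h1 : Algebra.FormallyEtale L K := Algebra.FormallyEtale.of_isSeparable _ _
  let e := KaehlerDifferential.tensorKaehlerEquivOfFormallyEtale k L K
  let d' : Derivation k L K := (Algebra.linearMap L K).compDer d
  let l : Ω[L⁄k] →ₗ[L] K := d'.liftKaehlerDifferential
  let Λ : Ω[K⁄k] →ₗ[K] K := (LinearMap.liftBaseChange K l).comp e.symm.toLinearMap
  let D : Derivation k K K := Λ.compDer (KaehlerDifferential.D k K)
  refine ⟨D, fun a => ?_⟩
  change LinearMap.liftBaseChange K l (e.symm (KaehlerDifferential.D k K (algebraMap L K a))) = _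
  rw [KaehlerDifferential.tensorKaehlerEquivOfFormallyEtale_symm_D_algebraMap]
  simp [l, d']

/-- the restriction of a derivation to a stable subfield -/
noncomputable def resDer {M : Type} [Field M] [Algebra ℂ M] (D : Derivation ℂ M M)
    (F : IntermediateField ℂ M) (h : ∀ z ∈ F, D z ∈ F) : Derivation ℂ F F :=
  Derivation.mk' (A := F) (M := F)
    { toFun := fun z => ⟨D z, h z z.2⟩
      map_add' := fun a b => Subtype.ext (D.map_add (a : M) b)
      map_smul' := fun c a => Subtype.ext (D.map_smul c (a : M)) }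
    fun a b => Subtype.ext (D.leibniz (a : M) b)

theorem exists_M0 {M : Type} [Field M] [Algebra ℂ M] (D : Derivation ℂ M M) {ι : Type}
    [Countable ι] (x : ι → M) :
    ∃ F : IntermediateField ℂ M, (∀ i, x i ∈ F) ∧ (∀ z ∈ F, D z ∈ F) ∧
      Cardinal.mk F ≤ Cardinal.continuum := by
  let S : Set M := Set.range fun a : ℕ × ι => ((fun z => D z)^[a.1]) (x a.2)
  refine ⟨IntermediateField.adjoin ℂ S,
    fun i => IntermediateField.subset_adjoin _ _ ⟨(0, i), rfl⟩, ?_, ?_⟩
  · intro z hz
    induction hz using IntermediateField.adjoin_induction with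
    | mem z hz =>
      obtain ⟨a, rfl⟩ := hz
      apply IntermediateField.subset_adjoin
      exact ⟨(a.1 + 1, a.2), Function.iterate_succ_apply' _ _ _⟩
    | algebraMap c =>
      rw [D.map_algebraMap]
      exact zero_mem _
    | add a b ha hb iha ihb => rw [map_add]; exact add_mem iha ihb
    | inv a ha iha =>
      rw [D.leibniz_inv]
      simp only [smul_eq_mul]
      exact mul_mem (neg_mem (pow_mem (inv_mem ha) 2)) iha
    | mul a b ha hb iha ihb =>
      rw [D.leibniz]
      simp only [smul_eq_mul]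
      exact add_mem (mul_mem ha ihb) (mul_mem hb iha)
  · refine (IntermediateField.cardinalMk_adjoin_le ℂ S).trans ?_
    rw [Cardinal.mk_complex]
    refine sup_le (sup_le le_rfl ?_) Cardinal.aleph0_le_continuum
    have hS : Cardinal.mk S ≤ Cardinal.aleph0 :=
      Cardinal.mk_le_aleph0_iff.2 (Set.countable_range _).to_subtype
    exact hS.trans Cardinal.aleph0_le_continuum

theorem exists_closed {M : Type} [Field M] [Algebra ℂ M] (D : Derivation ℂ M M) {ι : Type}
    [Countable ι] (x : ι → M) :
    ∃ (F : IntermediateField ℂ M) (D0 : Derivation ℂ F F) (M1 : Type) (_ : Field M1)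
      (_ : Algebra ℂ M1) (_ : IsAlgClosed M1) (D1 : Derivation ℂ M1 M1) (φ : F →ₐ[ℂ] M1),
      Nonempty (ℂ ≃+* M1) ∧ (∀ i, x i ∈ F) ∧ (∀ z : F, ((D0 z : F) : M) = D z) ∧
      ∀ z : F, D1 (φ z) = φ (D0 z) := by
  obtain ⟨F, hxF, hDF, hcard⟩ := exists_M0 D x
  have hM0 : CharZero M := charZero_of_injective_algebraMap (algebraMap ℂ M).injective
  have hF0 : CharZero F := charZero_of_injective_algebraMap (algebraMap ℂ F).injective
  have hC0 : CharZero (AlgebraicClosure F) :=
    charZero_of_injective_algebraMap (algebraMap F (AlgebraicClosure F)).injective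
  have halg : Algebra.IsAlgebraic F (AlgebraicClosure F) := AlgebraicClosure.isAlgebraic F
  obtain ⟨D1, hD1⟩ := ext_der (K := AlgebraicClosure F) (resDer D F hDF)
  refine ⟨F, resDer D F hDF, AlgebraicClosure F, inferInstance, inferInstance, inferInstance, D1,
    IsScalarTower.toAlgHom ℂ F (AlgebraicClosure F), ?_, hxF, fun z => rfl, hD1⟩
  refine IsAlgClosed.ringEquiv_of_equiv_of_charZero (K := ℂ) (L := AlgebraicClosure F) ?_ ?_
  · rw [Cardinal.mk_complex]
    exact Cardinal.aleph0_lt_continuum
  · have h1 : Cardinal.mk (AlgebraicClosure F) ≤ Cardinal.continuum := by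
      refine (Algebra.IsAlgebraic.cardinalMk_le_max F (AlgebraicClosure F)).trans ?_
      exact max_le hcard Cardinal.aleph0_le_continuum
    have h2 : Cardinal.continuum ≤ Cardinal.mk (AlgebraicClosure F) := by
      rw [← Cardinal.mk_complex]
      exact Cardinal.mk_le_of_injective (algebraMap ℂ (AlgebraicClosure F)).injective
    have h3 : Cardinal.mk ℂ = Cardinal.mk (AlgebraicClosure F) := by
      rw [Cardinal.mk_complex]
      exact le_antisymm h2 h1
    exact Cardinal.eq.1 h3


section hom

variable {n : ℕ} {p : Ideal (MvPolynomial (Fin (n + 1)) ℂ)}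
  {B : Fin (n + 1) → Finset (Fin (n + 1))}

variable {R R' : Type} [Field R] [Algebra ℂ R] [Field R'] [Algebra ℂ R'] (ψ : R →ₐ[ℂ] R')

theorem lloc_hom (B : Fin (n + 1) → Finset (Fin (n + 1))) (j : Fin (n + 1))
    (x x' : Fin (n + 1) → R) (k : Fin (n + 1) ⊕ Fin (n + 1)) :
    ψ (lloc B j x x' k) = lloc B j (fun i => ψ (x i)) (fun i => ψ (x' i)) k := by
  rcases k with k | k
  · unfold lloc
    simp only [Sum.elim_inl, map_div₀]
  · unfold lloc
    simp only [Sum.elim_inr]
    split_ifs
    · simp only [map_div₀, map_sub, map_mul]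
    · simp only [map_div₀, map_sub, map_mul, map_pow]

theorem ne_hom {x : Fin (n + 1) → R} (hx : x ≠ 0) : (fun i => ψ (x i)) ≠ 0 := by
  intro h0
  apply hx
  funext i
  have h1 : ψ (x i) = 0 := congrFun h0 i
  exact (map_eq_zero ψ).1 h1

theorem aeval_hom (x : Fin (n + 1) → R) (H : MvPolynomial (Fin (n + 1)) ℂ) :
    aeval (fun i => ψ (x i)) H = ψ (aeval x H) := by
  rw [comp_aeval_apply]

theorem off_hom {x : Fin (n + 1) → R} (h : OffB B x) : OffB B (fun i => ψ (x i)) := by
  intro j hj b hb
  exact (map_ne_zero ψ).2 (h j ((map_ne_zero ψ).1 hj) b hb)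

theorem off_of_hom {x : Fin (n + 1) → R} (h : OffB B (fun i => ψ (x i))) : OffB B x := by
  intro j hj b hb
  exact (map_ne_zero ψ).1 (h j ((map_ne_zero ψ).2 hj) b hb)

/-- values of logarithmic symmetric differentials along derivations -/
theorem bval_der (hp : Pool.Agent.W603.PV.IsHomog p) (hB : BdC p B) {m : ℕ}
    (s : BSymDiff p B m) (D : Derivation ℂ R R) (D' : Derivation ℂ R' R')
    (h : ∀ z, D' (ψ z) = ψ (D z)) {x : Fin (n + 1) → R} (hx : x ≠ 0)
    (hX : ∀ H ∈ p, aeval x H = 0) (hoff : OffB B x) :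
    ψ (s.val x fun i => D (x i)) = s.val (fun i => ψ (x i)) fun i => D' (ψ (x i)) := by
  obtain ⟨j, hj⟩ : ∃ j, x j ≠ 0 := by
    by_contra hcon
    push Not at hcon
    exact hx (funext hcon)
  have hx' := ne_hom ψ hx
  have hX' : ∀ H ∈ p, aeval (fun i => ψ (x i)) H = 0 := by
    intro H hH
    rw [aeval_hom ψ x H, hX H hH, map_zero]
  refine bval_map hp hB s ψ (tanVec_der D hx hX) (tanVec_der D' hx' hX') hoff (off_hom ψ hoff) hj
    ((map_ne_zero ψ).2 hj) fun k => ?_
  rw [lloc_hom ψ B j x _ k]
  have h1 : (fun i => ψ (D (x i))) = fun i => D' (ψ (x i)) := by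
    funext i
    rw [h]
  rw [h1]

end hom

end N8aux

variable {n : ℕ} {p : Ideal (MvPolynomial (Fin (n + 1)) ℂ)}
  {B : Fin (n + 1) → Finset (Fin (n + 1))}

theorem no_derB (hp : Pool.Agent.W603.PV.IsHomog p) (hB : BdC p B) {m N : ℕ}
    {s : Fin N → BSymDiff p B m} (hs : BGens p B m s) (hm : 1 ≤ m)
    {K : Type} [Field K] [Algebra ℂ K] {w : ℕ} {y : Fin (n + 1) → K} (hy : y ≠ 0)
    (hgen : coords ℂ y = ⊤) (hdim : Algebra.trdeg ℂ K = w) (hLG : LogGeneralType ℂ K w (BdP B y))
    {M : Type} [Field M] [Algebra ℂ M] (D : Derivation ℂ M M)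
    {x : Fin (n + 1) → M} (hx : x ≠ 0) (hX : ∀ H ∈ p, aeval x H = 0) (hoff : OffB B x)
    (hrel : ∀ G : MvPolynomial (Fin (n + 1)) ℂ, IsForm G → (val y G = 0 ↔ val x G = 0))
    (hD : ∀ l, D ((s l).val x fun i => D (x i)) = 0) (i j : Fin (n + 1)) : D (x i / x j) = 0 := by
  obtain ⟨F, D0, M1, iF, iA, iC, D1, φ, ⟨e⟩, hxF, hD0, hD1⟩ := N8aux.exists_closed D x
  let x0 : Fin (n + 1) → F := fun i => ⟨x i, hxF i⟩
  have hι : ∀ z : F, D (F.val z) = F.val (D0 z) := fun z => (hD0 z).symm
  have hx0 : x0 ≠ 0 := by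
    intro h0
    apply hx
    funext k
    have h1 : x0 k = 0 := congrFun h0 k
    exact congrArg F.val h1
  have hX0 : ∀ H ∈ p, aeval x0 H = 0 := by
    intro H hH
    have h1 := N8aux.aeval_hom F.val x0 H
    have h2 : aeval (fun i => F.val (x0 i)) H = 0 := hX H hH
    rw [h2] at h1
    exact (map_eq_zero F.val).1 h1.symm
  have hoff0 : OffB B x0 := N8aux.off_of_hom F.val hoff
  have hX1 : ∀ H ∈ p, aeval (fun i => φ (x0 i)) H = 0 := by
    intro H hH
    rw [N8aux.aeval_hom φ x0 H, hX0 H hH, map_zero]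
  have hrel1 : ∀ G : MvPolynomial (Fin (n + 1)) ℂ, IsForm G →
      (val y G = 0 ↔ val (fun i => φ (x0 i)) G = 0) := by
    intro G hG
    rw [hrel G hG]
    have h1 : val x G = F.val (val x0 G) := N8aux.aeval_hom F.val x0 G
    have h2 : val (fun i => φ (x0 i)) G = φ (val x0 G) := N8aux.aeval_hom φ x0 G
    rw [h1, h2, map_eq_zero, map_eq_zero]
  have hD1' : ∀ l, D1 ((s l).val (fun i => φ (x0 i)) fun i => D1 (φ (x0 i))) = 0 := by
    intro l
    rw [← N8aux.bval_der φ hp hB (s l) D0 D1 hD1 hx0 hX0 hoff0, hD1]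
    have h1 : F.val (D0 ((s l).val x0 fun i => D0 (x0 i))) = 0 := by
      rw [← hι, N8aux.bval_der F.val hp hB (s l) D0 D hι hx0 hX0 hoff0]
      exact hD l
    rw [(map_eq_zero F.val).1 h1, map_zero]
  have hfin := no_der_closed hp hB hs hm hy hgen hdim hLG e D1 (N8aux.ne_hom φ hx0) hX1
    (N8aux.off_hom φ hoff0) hrel1 hD1' i j
  have h2 : φ (D0 (x0 i / x0 j)) = 0 := by
    rw [← hD1, map_div₀]
    exact hfin
  have h3 : D0 (x0 i / x0 j) = 0 := (map_eq_zero φ).1 h2
  have h4 : D (F.val (x0 i / x0 j)) = 0 := by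
    rw [hι, h3, map_zero]
  rw [map_div₀] at h4
  exact h4

end Pool.Agent.H917.Mg
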