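import Pool.Agent.H917.L.R0
import Pool.Agent.H917.M.F1B
import Pool.Agent.H917.M.F2B
import Pool.Agent.H917.M.F3B
import Pool.Agent.H917.M.F4B
import Pool.Agent.H917.M.V2B

/-!
PROJECT BND: restriction to subvarieties, the special subsets, the finite union of the subvarieties
which are not of log general type.
-/

set_option autoImplicit false
set_option linter.overlappingInstances false
set_option linter.unusedSectionVars false

open MvPolynomial Metric Set MeasureTheory

namespace Pool.Agent.H917.Mg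

open Pool.Agent.W602.GT (IsForm LogGeneralType GeneralType coords)
open Pool.Agent.H917.G (HolMap PE)

variable {n : ℕ} {p p' : Ideal (MvPolynomial (Fin (n + 1)) ℂ)}
  {B : Fin (n + 1) → Finset (Fin (n + 1))}

/-- The `m`-th symmetric power of the logarithmic cotangent sheaf of the projective variety with the
ideal `p`, with the boundary coordinates `B`, is generated by global sections. -/
def BGenerated (p : Ideal (MvPolynomial (Fin (n + 1)) ℂ))
    (B : Fin (n + 1) → Finset (Fin (n + 1))) (m : ℕ) : Prop :=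
  ∃ (N : ℕ) (s : Fin N → BSymDiff p B m), BGens p B m s

/-- `p` is the ideal of a projective variety such that the complement of the boundary in it has
positive dimension and is not of log general type. -/
def NotLGTB (p : Ideal (MvPolynomial (Fin (n + 1)) ℂ))
    (B : Fin (n + 1) → Finset (Fin (n + 1))) : Prop :=
  ∃ (K : Type) (_ : Field K) (_ : Algebra ℂ K) (w : ℕ) (y : Fin (n + 1) → K), 1 ≤ w ∧
    SubVarB p B K w y ∧ (∀ H : MvPolynomial (Fin (n + 1)) ℂ, (∃ d, H.IsHomogeneous d) →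
      aeval y H = 0 → H ∈ p) ∧ ¬ LogGeneralType ℂ K w (BdP B y)

theorem BdC.res (h : p ≤ p') (hB : BdC p B) : BdC p' B :=
  fun x hx => hB x ⟨hx.1, fun H hH => hx.2 H (h hH)⟩

/-- the restriction of a logarithmic symmetric differential to a closed subvariety -/
def BSymDiff.res {m : ℕ} (h : p ≤ p') (s : BSymDiff p B m) : BSymDiff p' B m :=
  ⟨s.pol, s.hom, fun i j x x' hx => s.compat i j x x' (hx.le h)⟩

theorem BGens.res {m N : ℕ} {s : Fin N → BSymDiff p B m} (hs : BGens p B m s) (h : p ≤ p') :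
    BGens p' B m fun l => (s l).res h := by
  intro j I
  obtain ⟨b, hb⟩ := hs j I
  exact ⟨b, fun x x' hx => hb x x' (hx.le h)⟩

theorem BGenerated.res {m : ℕ} (hs : BGenerated p B m) (h : p ≤ p') : BGenerated p' B m := by
  obtain ⟨N, s, hs⟩ := hs
  exact ⟨N, _, hs.res h⟩

/-- **The special subsets are equal.** -/
theorem bsp_eq (hp : Pool.Agent.W603.PV.IsHomog p) (hB : BdC p B) {m : ℕ} (hm : 1 ≤ m)
    (hg : BGenerated p B m) :
    SpPB p B = SpAlgB p B ∧ SpHB p B = SpAlgB p B ∧ SpMerB p B = SpAlgB p B := by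
  obtain ⟨N, s, hs⟩ := hg
  have h1 := spPB_sub hp hB hs hm
  have h2 := spHB_sub hp hB hs hm
  have h3 := spAlgB_sub_spHB hp hB hs hm
  have h4 := spAlgB_sub_spPB hp hB hs hm
  have h7 := spHB_sub_spMerB p B
  have h8 := spMerB_sub_spHB (B := B) hp
  exact ⟨h1.antisymm h4, h2.antisymm h3, (h8.trans h2).antisymm (h3.trans h7)⟩

theorem not_mem_spAlgB (hp : Pool.Agent.W603.PV.IsHomog p) {x : Fin (n + 1) → ℂ} (hx : x ≠ 0)
    (hxQ : OffB B x) (h : x ∉ SpAlgB p B) :
    ∃ G : MvPolynomial (Fin (n + 1)) ℂ, (∃ d, G.IsHomogeneous d) ∧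
      (∀ (K : Type) [Field K] [Algebra ℂ K] (w : ℕ) (y : Fin (n + 1) → K), 1 ≤ w →
        SubVarB p B K w y → ¬ LogGeneralType ℂ K w (BdP B y) → aeval y G = 0) ∧
      eval x G ≠ 0 := by
  by_cases hxq : x ∈ Pts p
  · by_contra hcon
    push Not at hcon
    exact h ⟨⟨hxq, hxQ⟩, hcon⟩
  · have h1 : ∃ H ∈ p, eval x H ≠ 0 := by
      by_contra hcon
      push Not at hcon
      exact hxq ⟨hx, hcon⟩
    obtain ⟨H, hH, hHx⟩ := h1
    have h2 : ∃ d, eval x (homogeneousComponent d H) ≠ 0 := by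
      by_contra hcon
      push Not at hcon
      apply hHx
      rw [← sum_homogeneousComponent H, map_sum]
      exact Finset.sum_eq_zero fun d _ => hcon d
    obtain ⟨d, hd⟩ := h2
    exact ⟨homogeneousComponent d H, ⟨d, homogeneousComponent_isHomogeneous d H⟩,
      fun K _ _ w y _ hy _ => hy.sub.mem _ (hp H hH d), hd⟩

theorem spAlgB_mono (h : p ≤ p') : SpAlgB p' B ⊆ SpAlgB p B := by
  rintro x ⟨⟨hx1, hx2⟩, hx⟩
  refine ⟨⟨⟨hx1.1, fun H hH => hx1.2 H (h hH)⟩, hx2⟩, fun G hG hV => hx G hG ?_⟩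
  intro K _ _ w y hw hy hngt
  exact hV K w y hw ⟨⟨hy.sub.ne, fun H hH => hy.sub.mem H (h hH), hy.sub.gen, hy.sub.dim⟩,
    hy.off⟩ hngt

theorem pts_sub_spAlgB (hp : NotLGTB p B) : PtsB p B ⊆ SpAlgB p B := by
  obtain ⟨K, _, _, w, y, hw, hy, hf, hngt⟩ := hp
  intro x hx
  refine ⟨hx, fun G hG hV => ?_⟩
  exact hx.1.2 G (hf G hG (hV K w y hw hy hngt))

theorem subVarB_sup {K : Type} [Field K] [Algebra ℂ K]
    {w : ℕ} {y : Fin (n + 1) → K} (hy : SubVarB p B K w y) {A : MvPolynomial (Fin (n + 1)) ℂ}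
    (hA : aeval y A = 0) : SubVarB (p ⊔ Ideal.span {A}) B K w y :=
  ⟨subVar_sup hy.sub hA, hy.off⟩

/-- **The union of the subvarieties which are not of log general type.** -/
theorem finite_unionB (hB : BdC p B) {m : ℕ} (hm : 1 ≤ m) (hg : BGenerated p B m) :
    ∀ I : Ideal (MvPolynomial (Fin (n + 1)) ℂ), p ≤ I → Pool.Agent.W603.PV.IsHomog I →
      ∃ S : Finset (Ideal (MvPolynomial (Fin (n + 1)) ℂ)),
        (∀ r ∈ S, I ≤ r ∧ r.IsPrime ∧ Pool.Agent.W603.PV.IsHomog r ∧ NotLGTB r B) ∧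
          ∀ x ∈ SpAlgB I B, ∃ r ∈ S, x ∈ PtsB r B := by
  classical
  intro I
  induction I using WellFoundedGT.induction with
  | ind I ih =>
  intro hpI hI
  by_cases hX : ∀ j, X j ∈ I
  · refine ⟨∅, fun q hq => absurd hq (Finset.notMem_empty q), fun x hx => ?_⟩
    exfalso
    apply hx.1.1.1
    funext j
    have h1 := hx.1.1.2 _ (hX j)
    rwa [eval_X] at h1
  · push Not at hX
    obtain ⟨j, hj⟩ := hX
    have hltsup : ∀ A, A ∉ I → I < I ⊔ Ideal.span {A} := by
      intro A hA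
      refine lt_of_le_of_ne le_sup_left fun h => hA ?_
      rw [h]
      exact Ideal.mem_sup_right (Ideal.mem_span_singleton_self A)
    by_cases hAB : ∀ A B : MvPolynomial (Fin (n + 1)) ℂ, (∃ d, A.IsHomogeneous d) →
        (∃ d, B.IsHomogeneous d) → A * B ∈ I → A ∈ I ∨ B ∈ I
    · have hIp : I.IsPrime := isPrime_of_forms hI (fun h => hj (h ▸ Submodule.mem_top)) hAB
      obtain ⟨K, i1, i2, w, y, hy0, hyg, hyd, hyf⟩ := exists_funField hIp hj
      have hy1 : SubVar I K w y := by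
        refine ⟨hy0, fun H hH => ?_, hyg, hyd⟩
        rw [← sum_homogeneousComponent H, map_sum]
        exact Finset.sum_eq_zero fun d _ =>
          (hyf _ ⟨d, homogeneousComponent_isHomogeneous d H⟩).2 (hI H hH d)
      have hyf' : ∀ H : MvPolynomial (Fin (n + 1)) ℂ, (∃ d, H.IsHomogeneous d) →
          aeval y H = 0 → H ∈ I := fun H hH => (hyf H hH).1
      have key : (∃ G : MvPolynomial (Fin (n + 1)) ℂ, (∃ k, G.IsHomogeneous k) ∧ G ∉ I ∧
          ∀ (F : Type) [Field F] [Algebra ℂ F] (d : ℕ) (x : Fin (n + 1) → F), 1 ≤ d →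
            SubVarB I B F d x → ¬ LogGeneralType ℂ F d (BdP B x) → aeval x G = 0) ∨
          (SubVarB I B K w y ∧ ¬ LogGeneralType ℂ K w (BdP B y)) := by
        by_cases hoff : OffB B y
        · have hy : SubVarB I B K w y := ⟨hy1, hoff⟩
          by_cases hGT : LogGeneralType ℂ K w (BdP B y)
          · obtain ⟨N, s, hs⟩ := hg.res hpI
            exact Or.inl (exists_formB hIp hI (hB.res hpI) hs hm hy hyf' hGT)
          · exact Or.inr ⟨hy, hGT⟩
        · left
          unfold OffB at hoff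
          push Not at hoff
          obtain ⟨i, hi, b, hb, hyb⟩ := hoff
          refine ⟨X i, ⟨1, isHomogeneous_X ℂ i⟩, fun h => hi ?_, fun F _ _ d x _ hx _ => ?_⟩
          · have h1 := hy1.mem _ h
            rwa [aeval_X] at h1
          · have h2 : (X b : MvPolynomial (Fin (n + 1)) ℂ) ∈ I := by
              refine hyf' _ ⟨1, isHomogeneous_X ℂ b⟩ ?_
              rw [aeval_X]
              exact hyb
            have h3 := hx.sub.mem _ h2
            rw [aeval_X] at h3
            rw [aeval_X]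
            by_contra h4
            exact hx.off i h4 b hb h3
      rcases key with ⟨G, hG, hGI, hGV⟩ | ⟨hy, hGT⟩
      · obtain ⟨S, hS1, hS2⟩ := ih _ (hltsup G hGI) (hpI.trans le_sup_left) (isHomog_sup hI hG)
        refine ⟨S, fun q hq => ⟨le_sup_left.trans (hS1 q hq).1, (hS1 q hq).2⟩, fun x hx => ?_⟩
        refine hS2 x ?_
        by_contra hxS
        obtain ⟨G1, hG1, hG1V, hG1x⟩ := not_mem_spAlgB (isHomog_sup hI hG) hx.1.1.1 hx.1.2 hxS
        refine hG1x (hx.2 G1 hG1 fun F _ _ d x' hd hx' hngt => ?_)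
        exact hG1V F d x' hd (subVarB_sup hx' (hGV F d x' hd hx' hngt)) hngt
      · have hw : 1 ≤ w := by
          by_contra hw
          have hw0 : w = 0 := by omega
          subst hw0
          exact hGT (log_of_gt' _ (gt_zero hy1.dim))
        refine ⟨{I}, fun q hq => ?_, fun x hx => ⟨I, Finset.mem_singleton_self I, hx.1⟩⟩
        rw [Finset.mem_singleton] at hq
        subst hq
        exact ⟨le_rfl, hIp, hI, K, i1, i2, w, y, hw, hy, hyf', hGT⟩
    · push Not at hAB
      obtain ⟨A, B', hA, hB', hAB, hAI, hBI⟩ := hAB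
      obtain ⟨S1, h1, h2⟩ := ih _ (hltsup A hAI) (hpI.trans le_sup_left) (isHomog_sup hI hA)
      obtain ⟨S2, h3, h4⟩ := ih _ (hltsup B' hBI) (hpI.trans le_sup_left) (isHomog_sup hI hB')
      refine ⟨S1 ∪ S2, fun q hq => ?_, fun x hx => ?_⟩
      · rcases Finset.mem_union.1 hq with hq | hq
        · exact ⟨le_sup_left.trans (h1 q hq).1, (h1 q hq).2⟩
        · exact ⟨le_sup_left.trans (h3 q hq).1, (h3 q hq).2⟩
      · have h5 : x ∈ SpAlgB (I ⊔ Ideal.span {A}) B ∨ x ∈ SpAlgB (I ⊔ Ideal.span {B'}) B := by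
          by_contra hcon
          push Not at hcon
          obtain ⟨G1, ⟨d1, hG1⟩, hG1V, hG1x⟩ :=
            not_mem_spAlgB (isHomog_sup hI hA) hx.1.1.1 hx.1.2 hcon.1
          obtain ⟨G2, ⟨d2, hG2⟩, hG2V, hG2x⟩ :=
            not_mem_spAlgB (isHomog_sup hI hB') hx.1.1.1 hx.1.2 hcon.2
          have h6 := hx.2 (G1 * G2) ⟨d1 + d2, hG1.mul hG2⟩ fun F _ _ d x' hd hx' hngt => by
            rw [map_mul]
            have h7 := hx'.sub.mem _ hAB
            rw [map_mul, mul_eq_zero] at h7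
            rcases h7 with h7 | h7
            · rw [hG1V F d x' hd (subVarB_sup hx' h7) hngt, zero_mul]
            · rw [hG2V F d x' hd (subVarB_sup hx' h7) hngt, mul_zero]
          rw [map_mul, mul_eq_zero] at h6
          exact h6.elim hG1x hG2x
        rcases h5 with h5 | h5
        · obtain ⟨q, hq, hxq⟩ := h2 x h5
          exact ⟨q, Finset.mem_union_left _ hq, hxq⟩
        · obtain ⟨q, hq, hxq⟩ := h4 x h5
          exact ⟨q, Finset.mem_union_right _ hq, hxq⟩

theorem spAlgB_eq (hp : Pool.Agent.W603.PV.IsHomog p) (hB : BdC p B) {m : ℕ} (hm : 1 ≤ m)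
    (hg : BGenerated p B m) :
    ∃ S : Finset (Ideal (MvPolynomial (Fin (n + 1)) ℂ)),
      (∀ r ∈ S, p ≤ r ∧ r.IsPrime ∧ Pool.Agent.W603.PV.IsHomog r ∧ NotLGTB r B) ∧
        SpAlgB p B = {x | ∃ r ∈ S, x ∈ PtsB r B} := by
  obtain ⟨S, h1, h2⟩ := finite_unionB hB hm hg p le_rfl hp
  refine ⟨S, h1, Subset.antisymm h2 ?_⟩
  rintro x ⟨r, hr, hx⟩
  exact spAlgB_mono (h1 r hr).1 (pts_sub_spAlgB (h1 r hr).2.2.2 hx)

end Pool.Agent.H917.Mg
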