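import Pool.Agent.H917.G.W2
import Pool.Agent.H917.M.R0

/-!
PROJECT BND: the exceptional set of a variety of log general type.
-/

set_option autoImplicit false
set_option linter.overlappingInstances false
set_option linter.unusedSectionVars false

open MvPolynomial Metric Set MeasureTheory

namespace Pool.Agent.H917.Mg

open Pool.Agent.W602.GT (IsForm LogGeneralType GeneralType coords)
open Pool.Agent.H917.G (HolMap PE)

variable {n : ℕ} {p p' : Ideal (MvPolynomial (Fin (n + 1)) ℂ)}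
  {B : Fin (n + 1) → Finset (Fin (n + 1))}

/-- **The characterisation of log general type.** -/
theorem lgtB_iff (hpp : p.IsPrime) (hp : Pool.Agent.W603.PV.IsHomog p) (hB : BdC p B) {m : ℕ}
    (hm : 1 ≤ m) (hg : BGenerated p B m)
    {K : Type} [Field K] [Algebra ℂ K] {w : ℕ} {y : Fin (n + 1) → K} (hy : SubVarB p B K w y)
    (hf : ∀ H : MvPolynomial (Fin (n + 1)) ℂ, (∃ d, H.IsHomogeneous d) → aeval y H = 0 → H ∈ p) :
    LogGeneralType ℂ K w (BdP B y) ↔ SpAlgB p B ≠ PtsB p B := by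
  obtain ⟨N, s, hs⟩ := hg
  exact tfae_lgtB hpp hp hB hs hm hy hf

/-- **The exceptional set of a variety of log general type.** -/
theorem bstrongly (hpp : p.IsPrime) (hp : Pool.Agent.W603.PV.IsHomog p) (hB : BdC p B) {m : ℕ}
    (hm : 1 ≤ m) (hg : BGenerated p B m)
    {K : Type} [Field K] [Algebra ℂ K] {w : ℕ} {y : Fin (n + 1) → K} (hy : SubVarB p B K w y)
    (hf : ∀ H : MvPolynomial (Fin (n + 1)) ℂ, (∃ d, H.IsHomogeneous d) → aeval y H = 0 → H ∈ p)
    (hLG : LogGeneralType ℂ K w (BdP B y)) :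
    ∃ S : Finset (Ideal (MvPolynomial (Fin (n + 1)) ℂ)),
      (∀ r ∈ S, p < r ∧ r.IsPrime ∧ Pool.Agent.W603.PV.IsHomog r ∧ NotLGTB r B) ∧
      (∀ (F : Type) [Field F] [Algebra ℂ F] (d : ℕ) (x : Fin (n + 1) → F), 1 ≤ d →
        SubVarB p B F d x → ¬ LogGeneralType ℂ F d (BdP B x) →
          ∃ r ∈ S, ∀ H ∈ r, aeval x H = 0) ∧
      SpAlgB p B = {x | ∃ r ∈ S, x ∈ PtsB r B} := by
  classical
  obtain ⟨S, h3, h4⟩ := spAlgB_eq hp hB hm hg
  have hne : SpAlgB p B ≠ PtsB p B := (lgtB_iff hpp hp hB hm hg hy hf).1 hLG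
  refine ⟨S, fun r hr => ?_, fun F _ _ d x hd hx hngt => ?_, h4⟩
  · obtain ⟨h5, h6, h7, h8⟩ := h3 r hr
    refine ⟨lt_of_le_of_ne h5 fun h9 => hne ?_, h6, h7, h8⟩
    subst h9
    exact Subset.antisymm (fun x hx => hx.1) (pts_sub_spAlgB h8)
  · obtain ⟨q', hpq, hq', hxq, hqf⟩ := exists_ideal hp hx.sub
    set G : MvPolynomial (Fin (n + 1)) ℂ :=
      ∏ j ∈ Finset.univ.filter (fun j => x j ≠ 0), ∏ b ∈ B j, X b with hGdef
    have hG : ∃ d, G.IsHomogeneous d :=
      ⟨_, IsHomogeneous.prod _ _ (fun j => ∑ b ∈ B j, 1) fun j _ =>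
        IsHomogeneous.prod _ _ (fun _ => 1) fun b _ => isHomogeneous_X ℂ b⟩
    have hGx : aeval x G ≠ 0 := by
      rw [hGdef, map_prod]
      refine Finset.prod_ne_zero_iff.2 fun j hj => ?_
      rw [map_prod]
      refine Finset.prod_ne_zero_iff.2 fun b hb => ?_
      rw [aeval_X]
      exact hx.off j (Finset.mem_filter.1 hj).2 b hb
    have h6 : ∃ r ∈ insert (q' ⊔ Ideal.span {G}) S, ∀ H ∈ r, aeval x H = 0 := by
      refine sub_of_union (fun r hr => ?_) hq' hxq hqf fun z hz => ?_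
      · rcases Finset.mem_insert.1 hr with rfl | hr
        · exact isHomog_sup hq' hG
        · exact (h3 r hr).2.2.1
      · by_cases hzQ : eval z G = 0
        · refine ⟨_, Finset.mem_insert_self _ _, hz.1, fun H hH => ?_⟩
          obtain ⟨a, ha, b, hb, rfl⟩ := Submodule.mem_sup.1 hH
          obtain ⟨c, rfl⟩ := Ideal.mem_span_singleton.1 hb
          rw [map_add, hz.2 a ha, map_mul, hzQ, zero_mul, add_zero]
        · have hzoff : OffB B z := by
            intro j hj b hb hzb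
            apply hzQ
            rw [hGdef, map_prod]
            refine Finset.prod_eq_zero (i := j) (Finset.mem_filter.2 ⟨Finset.mem_univ _, ?_⟩) ?_
            · intro h7
              apply hj
              have h8 := hz.2 _ (hqf (X j) ⟨1, isHomogeneous_X ℂ j⟩ (by rw [aeval_X]; exact h7))
              rwa [eval_X] at h8
            · rw [map_prod]
              exact Finset.prod_eq_zero hb (by rw [eval_X]; exact hzb)
          have h5 := spAlgB_mono hpq (pts_sub_spAlgB ⟨F, inferInstance, inferInstance,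
            d, x, hd, ⟨hxq, hx.off⟩, hqf, hngt⟩ ⟨hz, hzoff⟩)
          rw [h4] at h5
          obtain ⟨r, hr, hzr⟩ := h5
          exact ⟨r, Finset.mem_insert_of_mem hr, hzr.1⟩
    obtain ⟨r, hr, hrx⟩ := h6
    rcases Finset.mem_insert.1 hr with rfl | hr
    · exact absurd (hrx G (Ideal.mem_sup_right (Ideal.mem_span_singleton_self G))) hGx
    · exact ⟨r, hr, hrx⟩

end Pool.Agent.H917.Mg
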