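import Pool.Agent.H917.G.W2
import Pool.Agent.H917.L.R1
import Pool.Agent.H917.M.R1

/-!
PROJECT BND: the boundary is a hypersurface section, or empty.
-/

set_option autoImplicit false
set_option linter.overlappingInstances false
set_option linter.unusedSectionVars false

open MvPolynomial Metric Set MeasureTheory

namespace Pool.Agent.H917.Mg

open Pool.Agent.W602.GT (IsForm LogGeneralType GeneralType coords)
open Pool.Agent.H917.Lg

variable {n : ℕ} {p : Ideal (MvPolynomial (Fin (n + 1)) ℂ)}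
  {B : Fin (n + 1) → Finset (Fin (n + 1))} {Q : MvPolynomial (Fin (n + 1)) ℂ}

theorem offB_of (hB : Bdry p Q B) {x : Fin (n + 1) → ℂ} (hx : x ∈ Pts p) :
    OffB B x ↔ eval x Q ≠ 0 := by
  constructor
  · intro h hQ
    obtain ⟨j, hj⟩ : ∃ j, x j ≠ 0 := by
      by_contra hcon
      push Not at hcon
      exact hx.1 (funext hcon)
    obtain ⟨b, hb, hxb⟩ := (hB x hx j hj).1 hQ
    exact h j hj b hb hxb
  · intro h j hj b hb hxb
    exact h ((hB x hx j hj).2 ⟨b, hb, hxb⟩)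

theorem bdC_of (hB : Bdry p Q B) : BdC p B :=
  fun x hx i j hi hj h => (hB x hx j hj).1 ((hB x hx i hi).2 h)

theorem tanVec_pts {x x' : Fin (n + 1) → ℂ} (h : TanVec p x x') : x ∈ Pts p :=
  ⟨h.ne, fun H hH => h.mem H hH⟩

theorem lGenerated_of (hB : Bdry p Q B) {m : ℕ} (hg : BGenerated p B m) :
    LGenerated p Q B m := by
  obtain ⟨N, s, hs⟩ := hg
  refine ⟨N, fun l => ⟨(s l).pol, (s l).hom, fun i j x x' hx hQ =>
    (s l).compat i j x x' hx ((offB_of hB (tanVec_pts hx)).2 hQ)⟩, fun j I => ?_⟩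
  obtain ⟨b, hb⟩ := hs j I
  exact ⟨b, fun x x' hx hQ => hb x x' hx ((offB_of hB (tanVec_pts hx)).2 hQ)⟩

theorem ptsQ_eq (hB : Bdry p Q B) : PtsQ p Q = PtsB p B := by
  ext x
  exact ⟨fun h => ⟨h.1, (offB_of hB h.1).2 h.2⟩, fun h => ⟨h.1, (offB_of hB h.1).1 h.2⟩⟩

theorem spHQ_eq (hB : Bdry p Q B) : SpHQ p Q = SpHB p B := by
  ext x
  constructor
  · rintro ⟨h1, h2⟩
    refine ⟨ptsQ_eq hB ▸ h1, fun G hG h => h2 G hG fun f hf hQ => ?_⟩
    exact h f hf fun z => (offB_of hB (hf.2.1 z)).2 (hQ z)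
  · rintro ⟨h1, h2⟩
    refine ⟨(ptsQ_eq hB).symm ▸ h1, fun G hG h => h2 G hG fun f hf hQ => ?_⟩
    exact h f hf fun z => (offB_of hB (hf.2.1 z)).1 (hQ z)

/-- **The images of the punctured line, if the boundary is a hypersurface section.** -/
theorem spGm_eq (hp : Pool.Agent.W603.PV.IsHomog p) {d : ℕ} (hd : 1 ≤ d)
    (hQ : Q.IsHomogeneous d) (hB : Bdry p Q B) {m : ℕ} (hm : 1 ≤ m) (hg : BGenerated p B m) :
    SpGmQ p Q = SpAlgB p B := by
  obtain ⟨_, h2, h3, _⟩ := lsp_eq hp hd hQ hB hm (lGenerated_of hB hg)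
  rw [h3, ← h2, spHQ_eq hB]
  exact (bsp_eq hp (bdC_of hB) hm hg).2.1

section empty

variable (h0 : ∀ j, B j = ∅)

include h0

theorem offB_empty {R : Type} [Zero R] (x : Fin (n + 1) → R) : OffB B x := by
  intro j _ b hb
  rw [h0] at hb
  exact absurd hb (Finset.notMem_empty b)

theorem lloc_empty {R : Type} [Field R] (j : Fin (n + 1)) (x x' : Fin (n + 1) → R) :
    lloc B j x x' = loc j x x' := by
  unfold lloc loc
  congr 1
  funext i
  rw [h0, if_neg (Finset.notMem_empty i)]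

theorem generated_of {m : ℕ} (hg : BGenerated p B m) : Generated p m := by
  obtain ⟨N, s, hs⟩ := hg
  refine ⟨N, fun l => ⟨(s l).pol, (s l).hom, fun i j x x' hx hi hj => ?_⟩, fun j I => ?_⟩
  · have h1 := (s l).compat i j x x' hx (offB_empty h0 x) hi hj
    rwa [lloc_empty h0, lloc_empty h0] at h1
  · obtain ⟨b, hb⟩ := hs j I
    refine ⟨b, fun x x' hx hj => ?_⟩
    have h1 := hb x x' hx (offB_empty h0 x) hj
    rwa [lloc_empty h0] at h1

theorem spH_eq : SpH p = SpHB p B := by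
  ext x
  constructor
  · rintro ⟨h1, h2⟩
    exact ⟨⟨h1, offB_empty h0 x⟩, fun G hG h => h2 G hG fun f hf =>
      h f hf fun z => offB_empty h0 (f z)⟩
  · rintro ⟨h1, h2⟩
    exact ⟨h1.1, fun G hG h => h2 G hG fun f hf _ => h f hf⟩

/-- **The images of abelian varieties, if the boundary is empty.** -/
theorem spAb_eqB (hp : Pool.Agent.W603.PV.IsHomog p) (hB : BdC p B) {m : ℕ} (hm : 1 ≤ m)
    (hg : BGenerated p B m) : SpAb p = SpAlgB p B := by
  obtain ⟨N, s, hs⟩ := generated_of h0 hg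
  have hs' : Gens p m s := ⟨hs⟩
  rw [(spAb_eq hp hs' hm).1, ← (sp_eq hp hs' hm).2, spH_eq h0]
  exact (bsp_eq hp hB hm hg).2.1

end empty

end Pool.Agent.H917.Mg
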