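import Pool.Agent.H917.M.R2

/-!
PROJECT BND: the pseudo-hyperbolicity properties.
-/

set_option autoImplicit false
set_option linter.overlappingInstances false
set_option linter.unusedSectionVars false

open MvPolynomial Metric Set MeasureTheory

namespace Pool.Agent.H917.Mg

open Pool.Agent.W602.GT (IsForm LogGeneralType GeneralType coords)
open Pool.Agent.H917.Lg

variable {n : ℕ} {p : Ideal (MvPolynomial (Fin (n + 1)) ℂ)}
  {B : Fin (n + 1) → Finset (Fin (n + 1))} {Q : MvPolynomial (Fin (n + 1)) ℂ}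

/-- a form which is not in `p` does not vanish at some point of the complement of the boundary -/
theorem exists_ptB (hpp : p.IsPrime) (hB : BdC p B) {K : Type} [Field K] [Algebra ℂ K] {w : ℕ}
    {y : Fin (n + 1) → K} (hy : SubVarB p B K w y) {G : MvPolynomial (Fin (n + 1)) ℂ}
    (hG : G ∉ p) : ∃ x ∈ PtsB p B, eval x G ≠ 0 := by
  obtain ⟨j, hj⟩ : ∃ j, y j ≠ 0 := by
    by_contra h
    push Not at h
    exact hy.sub.ne (funext h)
  have hjp : (X j : MvPolynomial (Fin (n + 1)) ℂ) ∉ p := fun h => hj (by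
    have := hy.sub.mem (X j) h
    rwa [aeval_X] at this)
  have hbp : ∏ b ∈ B j, (X b : MvPolynomial (Fin (n + 1)) ℂ) ∉ p := fun h => by
    obtain ⟨b, hb, hbm⟩ := (hpp.prod_mem_iff).mp h
    refine hy.off j hj b hb ?_
    have := hy.sub.mem (X b) hbm
    rwa [aeval_X] at this
  have hGQ : G * (X j * ∏ b ∈ B j, X b) ∉ p := fun h =>
    (hpp.mem_or_mem h).elim hG fun h => (hpp.mem_or_mem h).elim hjp hbp
  obtain ⟨x, hx, hxG⟩ := exists_pt hpp hjp hGQ
  rw [map_mul, map_mul, map_prod] at hxG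
  have hxj : x j ≠ 0 := fun h => hxG (by rw [eval_X, h, zero_mul, mul_zero])
  have hxb : ∀ b ∈ B j, x b ≠ 0 := fun b hb h => hxG (by
    rw [Finset.prod_eq_zero hb (by rw [eval_X, h]), mul_zero, mul_zero])
  exact ⟨x, ⟨hx, (offB_iff hB hx hxj).mpr hxb⟩, fun h => hxG (by rw [h, zero_mul])⟩

/-- **The four properties.** -/
theorem tfae4 (hpp : p.IsPrime) (hp : Pool.Agent.W603.PV.IsHomog p) (hB : BdC p B) {m : ℕ}
    (hm : 1 ≤ m) (hg : BGenerated p B m)
    {K : Type} [Field K] [Algebra ℂ K] {w : ℕ} {y : Fin (n + 1) → K} (hy : SubVarB p B K w y)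
    (hf : ∀ H : MvPolynomial (Fin (n + 1)) ℂ, (∃ d, H.IsHomogeneous d) → aeval y H = 0 → H ∈ p) :
    List.TFAE [LogGeneralType ℂ K w (BdP B y),
      ∃ G : MvPolynomial (Fin (n + 1)) ℂ, (∃ d, G.IsHomogeneous d) ∧ G ∉ p ∧
        ∀ f, PuncCurve p f → (∀ z ∈ ball (0 : ℂ) 1 \ {0}, OffB B (f z)) →
          (∃ z ∈ ball (0 : ℂ) 1 \ {0}, eval (f z) G ≠ 0) → Extends f,
      ∃ G : MvPolynomial (Fin (n + 1)) ℂ, (∃ d, G.IsHomogeneous d) ∧ G ∉ p ∧
        ∀ f, EntCurve p f → (∀ z, OffB B (f z)) → ∀ z, eval (f z) G = 0,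
      ∃ G : MvPolynomial (Fin (n + 1)) ℂ, (∃ d, G.IsHomogeneous d) ∧ G ∉ p ∧
        ∀ (F : Type) [Field F] [Algebra ℂ F] (d : ℕ) (x : Fin (n + 1) → F), 1 ≤ d →
          SubVarB p B F d x → aeval x G ≠ 0 → LogGeneralType ℂ F d (BdP B x)] := by
  obtain ⟨h1, h2, _⟩ := bsp_eq hp hB hm hg
  have key := lgtB_iff hpp hp hB hm hg hy hf
  have hne : ∀ G : MvPolynomial (Fin (n + 1)) ℂ, G ∉ p → (∀ x ∈ SpAlgB p B, eval x G = 0) →
      LogGeneralType ℂ K w (BdP B y) := by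
    intro G hG hGx
    refine key.2 fun heq => ?_
    obtain ⟨x, hx, hxG⟩ := exists_ptB hpp hB hy hG
    rw [← heq] at hx
    exact hxG (hGx x hx)
  tfae_have 1 → 4 := by
    intro hGT
    obtain ⟨N, s, hs⟩ := hg
    obtain ⟨G, hG, hGp, hGV⟩ := exists_formB hpp hp hB hs hm hy hf hGT
    refine ⟨G, hG, hGp, fun F _ _ d x hd hx hxG => ?_⟩
    by_contra hcon
    exact hxG (hGV F d x hd hx hcon)
  tfae_have 4 → 3 := by
    rintro ⟨G, hG, hGp, hGV⟩
    refine ⟨G, hG, hGp, fun f hf1 hoff z => ?_⟩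
    have h4 : f z ∈ SpHB p B := ⟨⟨hf1.2.1 z, hoff z⟩, fun G hG h => h f hf1 hoff z⟩
    rw [h2] at h4
    refine h4.2 G hG fun F _ _ d x hd hx hcon => ?_
    by_contra h5
    exact hcon (hGV F d x hd hx h5)
  tfae_have 4 → 2 := by
    rintro ⟨G, hG, hGp, hGV⟩
    refine ⟨G, hG, hGp, fun f hf1 hoff hz => ?_⟩
    obtain ⟨z, hz, hzG⟩ := hz
    by_contra hext
    have h4 : f z ∈ SpPB p B := ⟨⟨hf1.2 z hz, hoff z hz⟩, fun G hG h => h f hf1 hoff hext z hz⟩
    rw [h1] at h4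
    refine hzG (h4.2 G hG fun F _ _ d x hd hx hcon => ?_)
    by_contra h5
    exact hcon (hGV F d x hd hx h5)
  tfae_have 3 → 1 := by
    rintro ⟨G, hG, hGp, hGf⟩
    refine hne G hGp fun x hx => ?_
    rw [← h2] at hx
    exact hx.2 G hG hGf
  tfae_have 2 → 1 := by
    rintro ⟨G, hG, hGp, hGf⟩
    refine hne G hGp fun x hx => ?_
    rw [← h1] at hx
    refine hx.2 G hG fun f hf1 hoff hext z hz => ?_
    by_contra hzG
    exact hext (hGf f hf1 hoff ⟨z, hz, hzG⟩)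
  tfae_finish

/-- if the boundary is empty, then log general type is general type -/
theorem gt_iff (h0 : ∀ j, B j = ∅) {K : Type} [Field K] [Algebra ℂ K] {w : ℕ}
    {y : Fin (n + 1) → K} : LogGeneralType ℂ K w (BdP B y) ↔ GeneralType ℂ K w := by
  constructor
  · rintro ⟨h1, M, hM, ω, h2, _, h3, h4⟩
    refine ⟨h1, M, hM, ω, h2, fun P hP j => h3 P hP ?_ j, h4⟩
    rintro ⟨i, _, _, b, hb, _⟩
    rw [h0] at hb
    exact Finset.notMem_empty b hb
  · exact log_of_gt' _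

end Pool.Agent.H917.Mg
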