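import Pool.Agent.H917.G.W4
import Pool.Agent.H917.M.R3

/-!
PROJECT BND: hyperbolicity.
-/

set_option autoImplicit false
set_option linter.overlappingInstances false
set_option linter.unusedSectionVars false

open MvPolynomial Metric Set MeasureTheory

namespace Pool.Agent.H917.Mg

open Pool.Agent.W602.GT (IsForm LogGeneralType GeneralType coords)
open Pool.Agent.H917.Lg

variable {n : ℕ} {p : Ideal (MvPolynomial (Fin (n + 1)) ℂ)}
  {B : Fin (n + 1) → Finset (Fin (n + 1))} {Q : MvPolynomial (Fin (n + 1)) ℂ}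

theorem eval_one_ne (x : Fin (n + 1) → ℂ) : eval x (1 : MvPolynomial (Fin (n + 1)) ℂ) ≠ 0 := by
  rw [map_one]
  exact one_ne_zero

theorem isHom_one : ∃ d, (1 : MvPolynomial (Fin (n + 1)) ℂ).IsHomogeneous d :=
  ⟨0, isHomogeneous_one _ _⟩

theorem lgt_all_iff (hp : Pool.Agent.W603.PV.IsHomog p) (hB : BdC p B) :
    (∀ (K : Type) [Field K] [Algebra ℂ K] (w : ℕ) (y : Fin (n + 1) → K),
      SubVarB p B K w y → LogGeneralType ℂ K w (BdP B y)) ↔ SpAlgB p B = ∅ := by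
  constructor
  · intro h
    rw [Set.eq_empty_iff_forall_notMem]
    intro x hx
    exact eval_one_ne x (hx.2 1 isHom_one fun K _ _ w y _ hy hngt => absurd (h K w y hy) hngt)
  · intro h K _ _ w y hy
    by_contra hngt
    have hw : 1 ≤ w := by
      by_contra hw
      have hw0 : w = 0 := by omega
      subst hw0
      exact hngt (log_of_gt' _ (gt_zero hy.sub.dim))
    obtain ⟨q, hpq, hq, hyq, hqf⟩ := exists_ideal hp hy.sub
    have hqp := isPrime_of_subVar hq hyq hqf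
    have hyB : SubVarB q B K w y := ⟨hyq, hy.off⟩
    obtain ⟨x, hx, -⟩ := exists_ptB hqp (hB.res hpq) hyB (G := 1)
      fun h1 => hqp.ne_top ((Ideal.eq_top_iff_one q).2 h1)
    have h2 := spAlgB_mono hpq (pts_sub_spAlgB ⟨K, inferInstance, inferInstance, w, y, hw, hyB, hqf,
      hngt⟩ hx)
    rw [h] at h2
    exact h2

theorem brody_iff : (¬ ∃ f, EntCurve p f ∧ ∀ z, OffB B (f z)) ↔ SpHB p B = ∅ := by
  rw [Set.eq_empty_iff_forall_notMem]
  constructor
  · intro h x hx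
    exact eval_one_ne x (hx.2 1 isHom_one fun f hf hoff => absurd ⟨f, hf, hoff⟩ h)
  · rintro h ⟨f, hf, hoff⟩
    exact h (f 0) ⟨⟨hf.2.1 0, hoff 0⟩, fun G hG h2 => h2 f hf hoff 0⟩

theorem picard_iff : (∀ f, PuncCurve p f → (∀ z ∈ ball (0 : ℂ) 1 \ {0}, OffB B (f z)) →
    Extends f) ↔ SpPB p B = ∅ := by
  rw [Set.eq_empty_iff_forall_notMem]
  constructor
  · intro h x hx
    exact eval_one_ne x (hx.2 1 isHom_one fun f hf hoff hne => absurd (h f hf hoff) hne)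
  · intro h f hf hoff
    by_contra hne
    have h2 : (1 / 2 : ℂ) ∈ ball (0 : ℂ) 1 \ {0} := by
      refine ⟨?_, ?_⟩
      · rw [mem_ball_zero_iff]
        norm_num
      · norm_num
    exact h (f (1 / 2)) ⟨⟨hf.2 _ h2, hoff _ h2⟩, fun G hG h3 => h3 f hf hoff hne _ h2⟩

theorem gm_iff {d : ℕ} (hd : 1 ≤ d) (hQ : Q.IsHomogeneous d) :
    (¬ ∃ P, GmCurve p Q P) ↔ SpGmQ p Q = ∅ := by
  rw [Set.eq_empty_iff_forall_notMem]
  constructor
  · intro h x hx
    exact eval_one_ne x (hx.2 1 isHom_one fun P hP => absurd ⟨P, hP⟩ h)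
  · rintro h ⟨P, hP⟩
    have hQ1 : eval (fun i => (P i).eval 1) Q ≠ 0 := by
      obtain ⟨c, k, hc, hck⟩ := hP.off
      rw [Lg.F3aux.eval_poly, hck, Polynomial.eval_mul, Polynomial.eval_C, Polynomial.eval_pow,
        Polynomial.eval_X, one_pow, mul_one]
      exact hc
    refine h (fun i => (P i).eval 1) ⟨⟨⟨fun h0 => hQ1 ?_, fun H hH => ?_⟩, hQ1⟩,
      fun G hG h2 => h2 P hP 1 one_ne_zero⟩
    · have h1 : (fun i => (P i).eval 1) = (0 : Fin (n + 1) → ℂ) := h0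
      rw [h1]
      have h3 : eval (fun i => (0 : ℂ) * (0 : Fin (n + 1) → ℂ) i) Q = 0 ^ d * eval 0 Q := by
        rw [← ae, aeval_smul_homog _ _ hQ, ae]
      have h4 : (fun i => (0 : ℂ) * (0 : Fin (n + 1) → ℂ) i) = 0 := by
        funext i
        simp
      rw [h4, zero_pow (by omega), zero_mul] at h3
      exact h3
    · rw [Lg.F3aux.eval_poly, hP.mem H hH, Polynomial.eval_zero]

/-- **Hyperbolicity.** -/
theorem tfae_hypB (hp : Pool.Agent.W603.PV.IsHomog p) (hB : BdC p B) {m : ℕ} (hm : 1 ≤ m)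
    (hg : BGenerated p B m) :
    List.TFAE [¬ ∃ f, EntCurve p f ∧ ∀ z, OffB B (f z),
      ∀ (K : Type) [Field K] [Algebra ℂ K] (w : ℕ) (y : Fin (n + 1) → K),
        SubVarB p B K w y → LogGeneralType ℂ K w (BdP B y),
      ∀ f, PuncCurve p f → (∀ z ∈ ball (0 : ℂ) 1 \ {0}, OffB B (f z)) → Extends f] := by
  obtain ⟨h1, h2, _⟩ := bsp_eq hp hB hm hg
  rw [brody_iff, lgt_all_iff hp hB, picard_iff, h1, h2]
  tfae_finish

theorem gm_hyp (hp : Pool.Agent.W603.PV.IsHomog p) {d : ℕ} (hd : 1 ≤ d)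
    (hQ : Q.IsHomogeneous d) (hB : Bdry p Q B) {m : ℕ} (hm : 1 ≤ m) (hg : BGenerated p B m) :
    (¬ ∃ f, EntCurve p f ∧ ∀ z, OffB B (f z)) ↔ ¬ ∃ P, GmCurve p Q P := by
  rw [brody_iff, gm_iff hd hQ, spGm_eq hp hd hQ hB hm hg, (bsp_eq hp (bdC_of hB) hm hg).2.1]

end Pool.Agent.H917.Mg
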