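import Pool.Agent.H917.G.H1
import Pool.Agent.H917.G.H2
import Pool.Agent.H917.M.N6

/-!
# PROJECT LG2 (helper917), task X1: linear systems and varieties of log general type, abstractly

Port of `lin_cst` in `Pool/Agent/H917/G/H2.lean`, whose first half can be copied (Picard-Vessiot extension
`L`, `i`, `D'`, `X`, `Y` by `exists_pv` (G/H1), `solve` in H2: `i (h a) = c * ∑ k, X a k * algebraMap ℂ L (γ k)`,
so the ratios `i (x_a / x_b)` are quotients of elements `u_a, u_b` of the subalgebra generated by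
`L0 = i (R)` and the entries of `X`). The end (`Hyp.main`, `rat_P`, `not_lgt`) is replaced by `not_lgt_of_fund` in `M/N6.lean` (stub or
proved; see how it is used in `M/N7.lean`, `M/L7B.lean` (store: helper917_M_N7_done.lean, helper917_M_L7B_done.lean)): with `K := L`, `D := D'`, `C0` = a copy of `ℂ`
(to avoid two instances `Algebra ℂ L`: obtain `⟨C0, _, _, e, he⟩ : ∃ (C0 : Type) (_ : Field C0) (_ : Algebra C0 L) (e : ℂ ≃+* C0), ∀ c, algebraMap C0 L (e c) = algebraMap ℂ L c` from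
`⟨ℂ, _, _, RingEquiv.refl ℂ, fun _ => rfl⟩`, then `clear` or generalize), `L0 = R.map i` as a subalgebra over `C0` (closed under inverse, stable under `D'`), and the second
structure `Algebra ℂ L` of the statement of N6 given by `((algebraMap ℂ K0).comp σ)` followed by `i`: for it `aeval (i ∘ x) G` is `i (aeval x (map σ G))` (compare `twist` in H2), so `hrel` and `hlog` give the hypotheses `hrel'`, `hrel` of N6; `hk` holds
as `R` is a `ℂ`-subalgebra. `hna`: if `x_i / x_j` is not algebraic over `R` then `i (x_i / x_j)` is not algebraic over `L0` (as in H2).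
(If the derivation over `C0` is needed: `D'` has the constants `ℂ`, it is linear over `C0` because `algebraMap C0 L c` is a constant.)
-/

set_option autoImplicit false
set_option linter.overlappingInstances false
set_option linter.unusedSectionVars false

open MvPolynomial FF
open Pool.Agent.W602.GT (IsForm LogGeneralType coords)

namespace Pool.Agent.H917.Mg

namespace X1aux

/-- `not_lgt_of_fund` with the base field acting through a homomorphism into the constants -/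
theorem wrap {L : Type} [Field L] {C0 : Type} [Field C0] [Algebra C0 L] (e : ℂ ≃+* C0)
    (σ : ℂ →+* C0) (D : Derivation C0 L L)
    (hC : ∀ x, D x = 0 → ∃ c : C0, x = algebraMap C0 L c)
    (L0 : Subalgebra C0 L) (hL : ∀ x ∈ L0, D x ∈ L0) (hinv : ∀ x ∈ L0, x⁻¹ ∈ L0) {r : ℕ}
    {X Y A : Matrix (Fin r) (Fin r) L} (hXY : X * Y = 1) (hA : ∀ i j, A i j ∈ L0)
    (hXA : ∀ i j, D (X i j) = ∑ l, A i l * X l j) {n m : ℕ} (hm : 1 ≤ m)
    {B : Fin (n + 1) → Finset (Fin (n + 1))} {x : Fin (n + 1) → L} (hx : x ≠ 0) (hoff : OffB B x)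
    (hxS : ∀ i j, ∃ u ∈ L0 ⊔ Algebra.adjoin C0 {z | ∃ i j, z = X i j ∨ z = Y i j},
      ∃ v ∈ L0 ⊔ Algebra.adjoin C0 {z | ∃ i j, z = X i j ∨ z = Y i j}, v ≠ 0 ∧ x i / x j = u / v)
    (hna : ∃ i j, ¬ IsAlgebraic L0 (x i / x j))
    (hrel : ∀ j, x j ≠ 0 → ∀ b ∈ B j, ∃ (N : ℕ) (β : Fin N → MvPolynomial (Fin (n + 1)) ℂ)
      (c : Fin N → L), (∀ l, c l ∈ L0) ∧ (D (x b / x j) / (x b / x j)) ^ m =
        ∑ l, aeval (fun i => x i / x j) (MvPolynomial.map σ (β l)) * c l)
    {K' : Type} [Field K'] [Algebra ℂ K'] {w : ℕ} {y : Fin (n + 1) → K'} (hy : y ≠ 0)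
    (hgen : coords ℂ y = ⊤) (hdim : Algebra.trdeg ℂ K' = w)
    (hrel' : ∀ G : MvPolynomial (Fin (n + 1)) ℂ, (∃ d, G.IsHomogeneous d) →
      (aeval y G = 0 ↔ aeval x (MvPolynomial.map σ G) = 0)) :
    ¬ LogGeneralType ℂ K' w (BdP B y) := by
  let _ : Algebra ℂ L := ((algebraMap C0 L).comp σ).toAlgebra
  have hae : ∀ (z : Fin (n + 1) → L) (G : MvPolynomial (Fin (n + 1)) ℂ),
      aeval z G = aeval z (MvPolynomial.map σ G) := fun z G =>
    (MvPolynomial.eval₂_map (algebraMap C0 L) (g := z) (f := σ) G).symm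
  refine not_lgt_of_fund e D hC L0 hL hinv hXY hA hXA (fun c => L0.algebraMap_mem (σ c)) hm hx
    hoff _ rfl hxS hna (fun j hj b hb => ?_) hy hgen hdim (fun G hG => ?_)
  · obtain ⟨N, β, c, hc, h⟩ := hrel j hj b hb
    refine ⟨N, β, c, hc, h.trans (Finset.sum_congr rfl fun l _ => ?_)⟩
    rw [hae]
  · rw [hae x G]
    exact hrel' G hG

end X1aux

theorem lin_cstB {K0 : Type} [Field K0] [Algebra ℂ K0] (D : Derivation ℂ K0 K0)
    (hC : ∀ x, D x = 0 → ∃ c : ℂ, x = algebraMap ℂ K0 c)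
    (σ : ℂ →+* ℂ) (R : Subalgebra ℂ K0) (hRf : ∀ x ∈ R, x⁻¹ ∈ R) (hst : ∀ x ∈ R, D x ∈ R)
    {n r : ℕ} {h : Fin r → K0} {δ : K0} {A : Fin r → Fin r → K0} {b : Fin (n + 1) → Fin r → K0}
    (hA : ∀ i j, A i j ∈ R) (hb : ∀ i j, b i j ∈ R)
    (hh : ∀ i, D (h i) = δ * h i + ∑ j, A i j * h j)
    {x : Fin (n + 1) → K0} {j0 : Fin (n + 1)} (hx : x j0 ≠ 0) (h0 : ∑ j, b j0 j * h j ≠ 0)
    (hxb : ∀ i, x i * ∑ j, b j0 j * h j = x j0 * ∑ j, b i j * h j)
    {B : Fin (n + 1) → Finset (Fin (n + 1))} (hoff : OffB B x) {m : ℕ} (hm : 1 ≤ m)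
    (hlog : ∀ j, x j ≠ 0 → ∀ b ∈ B j, ∃ (N : ℕ) (β : Fin N → MvPolynomial (Fin (n + 1)) ℂ)
      (c : Fin N → K0), (∀ l, c l ∈ R) ∧ (D (x b / x j) / (x b / x j)) ^ m =
        ∑ l, aeval (fun i => x i / x j) (MvPolynomial.map σ (β l)) * c l)
    {K : Type} [Field K] [Algebra ℂ K] {w : ℕ} {y : Fin (n + 1) → K} (hne : y ≠ 0)
    (hgen : coords ℂ y = ⊤) (hdim : Algebra.trdeg ℂ K = w)
    (hrel : ∀ G : MvPolynomial (Fin (n + 1)) ℂ, (∃ d, G.IsHomogeneous d) →
      (MvPolynomial.aeval y G = 0 ↔ MvPolynomial.aeval x (MvPolynomial.map σ G) = 0))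
    (hLG : LogGeneralType ℂ K w (BdP B y)) :
    ∀ i j, IsAlgebraic R (x i / x j) := by
  classical
  obtain ⟨L, iL1, iL2, i, D', X, Y, hi, hC', hXY, hDX⟩ := exists_pv D hC (Matrix.of A)
  have hinj : Function.Injective i := i.injective
  -- the base
  let F : IntermediateField ℂ L := (R.toIntermediateField hRf).map i
  let R0 : Subalgebra ℂ L := F.toSubalgebra
  have hR0 : ∀ z ∈ R, i z ∈ R0 := fun z hz => ⟨z, hz, rfl⟩
  have hstab : ∀ z ∈ R0, D' z ∈ R0 := by
    rintro _ ⟨z, hz, rfl⟩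
    exact ⟨D z, hst z hz, (hi z).symm⟩
  set Sub : Subalgebra ℂ L := R0 ⊔ Algebra.adjoin ℂ {z | ∃ i j, z = X i j ∨ z = Y i j} with hSub
  have hR01 : R0 ≤ Sub := le_sup_left
  have hXS : ∀ a b, X a b ∈ Sub := fun a b =>
    (le_sup_right : Algebra.adjoin ℂ {z | ∃ i j, z = X i j ∨ z = Y i j} ≤ Sub)
      (Algebra.subset_adjoin ⟨a, b, Or.inl rfl⟩)
  -- the solution
  have hB0 : i (∑ j, b j0 j * h j) ≠ 0 := (map_ne_zero i).2 h0
  obtain ⟨c, γ, hc, hgc⟩ := H2aux.solve D' hC' (A := fun a b => i (A a b)) hXY hDX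
    (g := fun a => i (h a)) (δ := i δ) (fun a => by
      rw [hi, hh a, map_add, map_mul, map_sum]
      simp only [map_mul]) (by
      by_contra hcon
      push Not at hcon
      apply hB0
      rw [map_sum]
      exact Finset.sum_eq_zero fun j _ => by rw [map_mul, hcon j, mul_zero])
  let u : Fin (n + 1) → L := fun l => ∑ j, i (b l j) * ∑ k, X j k * algebraMap ℂ L (γ k)
  have huR : ∀ l, u l ∈ Sub := fun l => Sub.sum_mem fun j _ => Sub.mul_mem (hR01 (hR0 _ (hb l j)))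
    (Sub.sum_mem fun k _ => Sub.mul_mem (hXS j k) (Sub.algebraMap_mem _))
  have hBu : ∀ l, i (∑ j, b l j * h j) = c * u l := by
    intro l
    show _ = c * ∑ j, i (b l j) * ∑ k, X j k * algebraMap ℂ L (γ k)
    rw [map_sum, Finset.mul_sum]
    refine Finset.sum_congr rfl fun j _ => ?_
    have h1 := hgc j
    beta_reduce at h1
    rw [map_mul, h1]
    ring
  have hu0 : u j0 ≠ 0 := by
    intro h1
    rw [hBu, h1, mul_zero] at hB0
    exact hB0 rfl
  have hxu : ∀ l, i (x l) = i (x j0) / u j0 * u l := by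
    intro l
    have h1 := congrArg i (hxb l)
    rw [map_mul, map_mul, hBu, hBu] at h1
    have h2 : c * (i (x l) * u j0) = c * (i (x j0) * u l) := by linear_combination h1
    have h3 := mul_left_cancel₀ hc h2
    rw [div_mul_eq_mul_div, eq_div_iff hu0, h3]
  have hκ : i (x j0) / u j0 ≠ 0 := div_ne_zero ((map_ne_zero i).2 hx) hu0
  -- suppose that a ratio is not algebraic
  by_contra hcon
  push Not at hcon
  obtain ⟨a, e, hae⟩ := hcon
  let xi : Fin (n + 1) → L := fun l => i (x l)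
  have hxi0 : ∀ l, xi l ≠ 0 ↔ x l ≠ 0 := fun l => map_ne_zero i
  have hrat : ∀ k l, xi k / xi l = i (x k / x l) := fun k l => (map_div₀ i _ _).symm
  have hna : ¬ IsAlgebraic R0 (xi a / xi e) := by
    intro h1
    apply hae
    rw [hrat a e] at h1
    let f : R →+* R0 := RingHom.codRestrict ((i : K0 →+* L).comp (algebraMap R K0)) R0
      (fun z => hR0 z z.2)
    refine IsAlgebraic.of_ringHom_of_comp_eq f (i : K0 →+* L) (a := x a / x e) h1 ?_ hinj rfl
    rintro ⟨_, z, hz, rfl⟩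
    exact ⟨⟨z, hz⟩, rfl⟩
  have hxS : ∀ k l, ∃ p ∈ Sub, ∃ q ∈ Sub, q ≠ 0 ∧ xi k / xi l = p / q := by
    intro k l
    by_cases hl : xi l = 0
    · exact ⟨0, Sub.zero_mem, 1, Sub.one_mem, one_ne_zero, by rw [hl, div_zero, zero_div]⟩
    · have hul : u l ≠ 0 := by
        intro h1
        apply hl
        show i (x l) = 0
        rw [hxu l, h1, mul_zero]
      refine ⟨u k, huR k, u l, huR l, hul, ?_⟩
      show i (x k) / i (x l) = u k / u l
      rw [hxu k, hxu l, mul_div_mul_left _ _ hκ]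
  refine X1aux.wrap (RingEquiv.refl ℂ) σ D' hC' R0 hstab (fun z hz => F.inv_mem hz) (X := X)
    (Y := Y) (A := fun a b => i (A a b)) hXY (fun a b => hR0 _ (hA a b)) hDX hm (x := xi)
    (fun h1 => (hxi0 j0).2 hx (congrFun h1 j0)) (fun j hj b' hb' => ?_) hxS ⟨a, e, hna⟩
    (fun j hj b' hb' => ?_) hne hgen hdim (fun G hG => ?_) hLG
  · exact (hxi0 b').2 (hoff j ((hxi0 j).1 hj) b' hb')
  · obtain ⟨N, β, c', hc1, hc2⟩ := hlog j ((hxi0 j).1 hj) b' hb'
    refine ⟨N, β, fun l => i (c' l), fun l => hR0 _ (hc1 l), ?_⟩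
    have h1 := congrArg i hc2
    rw [map_pow, map_div₀, ← hi, ← hrat, map_sum] at h1
    rw [h1]
    refine Finset.sum_congr rfl fun l _ => ?_
    rw [map_mul, MvPolynomial.comp_aeval_apply (fun k => x k / x j) i]
    have h2 : (fun k => i (x k / x j)) = fun k => xi k / xi j := funext fun k => (hrat k j).symm
    rw [h2]
  · have h1 : i (MvPolynomial.aeval x (MvPolynomial.map σ G)) =
        MvPolynomial.aeval xi (MvPolynomial.map σ G) := MvPolynomial.comp_aeval_apply x i _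
    rw [hrel G hG, ← h1, map_eq_zero_iff i hinj]

end Pool.Agent.H917.Mg
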