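import Pool.Agent.H917.B2
import Pool.Agent.H917.L.L1a
import Pool.Agent.H917.G.H3
import Pool.Agent.H917.M.B3B
import Pool.Agent.H917.M.P1b
import Pool.Agent.H917.M.X1

/-!
# PROJECT LG2 (helper917), task X2: points over differential fields, logarithmic version

Port of `point_const` in `Pool/Agent/H917/G/H5.lean` (copy it): if all `D (x i / x j) = 0` use `hcst`. Otherwise `linSys_ambB` (M/B3B) gives `h, δ, A, b`. For every `j` with `x j ≠ 0` and `b ∈ B j`
`bsdl_of_gens` (M/P1b; with `C := ↥C` as a field, `L := M`, the values `hval`) and `SDL.rel` with `I = fun _ => b` give `N`, `β` and constants `c l ∈ C` (the values of the polynomials `q l`) with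
`(D (x b / x j) / (x b / x j)) ^ m = ∑ l, aeval (ch x j) (β l) * c l` (`lch D B x j b` is the logarithmic derivative because `b ∈ B j`; the order of the factors may differ). Collect all of them (finitely many) in the countable set `T` for `exists_cst` (G/H3), together with
`h, δ, A, b, x`. In `K0` apply `lin_cstB` (M/X1, stub); `hlog`: `i (aeval u' (map σ β)) = aeval (i ∘ u') β` as for `hrel` in the proof of `point_const`, and injectivity of `i`.
`OffB B x'` for the preimage `x'` of `x`: `i` is injective.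
-/

set_option autoImplicit false
set_option linter.overlappingInstances false
set_option linter.unusedSectionVars false

open MvPolynomial FF
open Pool.Agent.W602.GT (IsForm LogGeneralType coords)

namespace Pool.Agent.H917.Mg

variable {n : ℕ} {p : Ideal (MvPolynomial (Fin (n + 1)) ℂ)}
  {B : Fin (n + 1) → Finset (Fin (n + 1))}

theorem X2aux.comp {M K0 : Type} [Field M] [Algebra ℂ M] [Field K0] [Algebra ℂ K0] (ι : K0 →+* M)
    (σ : ℂ →+* ℂ) (h1 : ∀ c, ι (algebraMap ℂ K0 (σ c)) = algebraMap ℂ M c)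
    {x : Fin (n + 1) → M} {x' : Fin (n + 1) → K0} (hx' : ∀ a, ι (x' a) = x a)
    (G : MvPolynomial (Fin (n + 1)) ℂ) : aeval x G = ι (aeval x' (MvPolynomial.map σ G)) := by
  rw [aeval_def, aeval_def, eval₂_map, ← MvPolynomial.coe_eval₂Hom,
    ← MvPolynomial.coe_eval₂Hom, ← RingHom.comp_apply]
  congr 1
  refine MvPolynomial.ringHom_ext (fun c => ?_) fun a => ?_
  · rw [RingHom.comp_apply, MvPolynomial.coe_eval₂Hom, MvPolynomial.coe_eval₂Hom,
      eval₂_C, eval₂_C, RingHom.comp_apply, h1]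
  · rw [RingHom.comp_apply, MvPolynomial.coe_eval₂Hom, MvPolynomial.coe_eval₂Hom,
      eval₂_X, eval₂_X, hx']

theorem point_constB {M : Type} [Field M] [Algebra ℂ M] (D : Derivation ℂ M M)
    (C : IntermediateField ℂ M)
    (hac : ∀ P : Polynomial M, P.Monic → 0 < P.natDegree → (∀ k, D (P.coeff k) = 0) →
      ∃ z, D z = 0 ∧ P.eval z = 0)
    (hcst : ∀ z, D z = 0 → z ∈ C) (hst : ∀ z ∈ C, D z ∈ C) (hcl : ∀ z, IsAlgebraic C z → z ∈ C)
    (hp : Pool.Agent.W603.PV.IsHomog p) (hB : BdC p B) {m N : ℕ}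
    {s : Fin N → BSymDiff p B m} (hs : BGens p B m s) (hm : 1 ≤ m) {x : Fin (n + 1) → M}
    {j0 : Fin (n + 1)} (hx : x j0 ≠ 0) (hX : ∀ H ∈ p, aeval x H = 0) (hoff : OffB B x)
    (hval : ∀ l, (s l).val x (fun i => D (x i)) ∈ C)
    {K : Type} [Field K] [Algebra ℂ K] {w : ℕ} {y : Fin (n + 1) → K} (hne : y ≠ 0)
    (hgen : coords ℂ y = ⊤) (hdim : Algebra.trdeg ℂ K = w)
    (hrel : ∀ G : MvPolynomial (Fin (n + 1)) ℂ, (∃ d, G.IsHomogeneous d) →
      (aeval y G = 0 ↔ aeval x G = 0))
    (hLG : LogGeneralType ℂ K w (BdP B y)) (i j : Fin (n + 1)) : x i / x j ∈ C := by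
  classical
  by_cases hnc : ∃ i j, D (x i / x j) ≠ 0
  swap
  · push Not at hnc
    exact hcst _ (hnc i j)
  have hxne : x ≠ 0 := fun h0 => hx (congrFun h0 j0)
  have htx := tanVec_der (p := p) D hxne hX
  obtain ⟨r, h, δ, A, b, hA, hb, hh, h0, hxb⟩ := linSys_ambB D C hst hp hB hs hm hx hX hoff hval
    hnc hgen hrel hLG
  -- the logarithmic derivatives
  have hlg : ∀ j, x j ≠ 0 → ∀ b ∈ B j, ∃ β : Fin N → MvPolynomial (Fin (n + 1)) ℂ,
      (D (x b / x j) / (x b / x j)) ^ m =
        ∑ l, aeval (fun i => x i / x j) (β l) * (s l).val x (fun i => D (x i)) := by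
    intro j hj b hb
    obtain ⟨β', hβ'⟩ := BGens.genR hp hB hs j (fun _ : Fin m => b)
    refine ⟨β', ?_⟩
    have e1 := hβ' M x (fun i => D (x i)) htx hoff hj
    have e2 : Pool.Agent.H917.Lg.lloc B j x (fun i => D (x i)) (Sum.inr b) =
        D (x b / x j) / (x b / x j) := by
      rw [Pool.Agent.H917.Lg.lloc_der D x hj]
      change (if b ∈ B j then D (x b / x j) / (x b / x j) else D (x b / x j)) = _
      rw [if_pos hb]
    rw [Finset.prod_const, Finset.card_univ, Fintype.card_fin, e2] at e1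
    rw [e1]
    refine Finset.sum_congr rfl fun l _ => ?_
    rw [← (s l).val_eq hp hB htx hoff hj]
  let v : Fin N → M := fun l => (s l).val x (fun i => D (x i))
  let T : Set M := Set.range h ∪ {δ} ∪ Set.range (fun a : Fin r × Fin r => A a.1 a.2) ∪
    Set.range (fun a : Fin (n + 1) × Fin r => b a.1 a.2) ∪ Set.range x ∪ Set.range v
  have hT : T.Countable := (((((Set.countable_range h).union (Set.countable_singleton δ)).union
    (Set.countable_range _)).union (Set.countable_range _)).union (Set.countable_range x)).union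
    (Set.countable_range v)
  obtain ⟨K0, i1, i2, D0, ι, σ, R, h1, h2, h3, h4, h5⟩ := exists_cst D hac C hcst T hT
  have hh' : ∀ a, ∃ z, ι z = h a := fun a =>
    h5 (Or.inl (Or.inl (Or.inl (Or.inl (Or.inl ⟨a, rfl⟩)))))
  have hδ' : ∃ z, ι z = δ := h5 (Or.inl (Or.inl (Or.inl (Or.inl (Or.inr rfl)))))
  have hA' : ∀ a c, ∃ z, ι z = A a c := fun a c =>
    h5 (Or.inl (Or.inl (Or.inl (Or.inr ⟨(a, c), rfl⟩))))
  have hb' : ∀ a c, ∃ z, ι z = b a c := fun a c =>
    h5 (Or.inl (Or.inl (Or.inr ⟨(a, c), rfl⟩)))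
  have hx' : ∀ a, ∃ z, ι z = x a := fun a => h5 (Or.inl (Or.inr ⟨a, rfl⟩))
  have hv' : ∀ l, ∃ z, ι z = v l := fun l => h5 (Or.inr ⟨l, rfl⟩)
  choose h' hh' using hh'
  obtain ⟨δ', hδ'⟩ := hδ'
  choose A' hA' using hA'
  choose b' hb' using hb'
  choose x' hx' using hx'
  choose v' hv' using hv'
  have hinj : Function.Injective ι := ι.injective
  have hx0 : ∀ a, x' a ≠ 0 → x a ≠ 0 := fun a ha h6 => ha (hinj (by rw [hx', h6, map_zero]))
  have hdiv : ∀ a c, ι (x' a / x' c) = x a / x c := fun a c => by rw [map_div₀, hx', hx']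
  have hoff' : OffB B x' := fun j hj b hb h6 => hoff j (hx0 j hj) b hb (by
    rw [← hx', h6, map_zero])
  have hlog' : ∀ j, x' j ≠ 0 → ∀ b ∈ B j, ∃ (N : ℕ) (β : Fin N → MvPolynomial (Fin (n + 1)) ℂ)
      (c : Fin N → K0), (∀ l, c l ∈ R) ∧ (D0 (x' b / x' j) / (x' b / x' j)) ^ m =
        ∑ l, aeval (fun i => x' i / x' j) (MvPolynomial.map σ (β l)) * c l := by
    intro j hj b hb
    obtain ⟨β, hβ⟩ := hlg j (hx0 j hj) b hb
    refine ⟨N, β, v', fun l => (h4 _).2 (by rw [hv']; exact hval l), hinj ?_⟩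
    rw [map_pow, map_div₀, h2, hdiv, hβ, map_sum]
    refine Finset.sum_congr rfl fun l _ => ?_
    rw [map_mul, hv', ← X2aux.comp ι σ h1 (fun a => hdiv a j) (β l)]
  have key := lin_cstB D0 h3 σ R (fun z hz => (h4 _).2 (by
      rw [map_inv₀]
      exact C.inv_mem ((h4 _).1 hz))) (fun z hz => (h4 _).2 (by
      rw [h2]
      exact hst _ ((h4 _).1 hz))) (h := h') (δ := δ') (A := A') (b := b')
    (fun a c => (h4 _).2 (by rw [hA']; exact hA a c))
    (fun a c => (h4 _).2 (by rw [hb']; exact hb a c))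
    (fun a => hinj (by
      rw [h2, map_add, map_mul, map_sum, hh', hδ', hh a]
      simp only [map_mul, hA', hh'])) (x := x') (j0 := j0)
    (fun h6 => hx (by rw [← hx', h6, map_zero]))
    (fun h6 => h0 (by
      have h7 := congrArg ι h6
      rw [map_sum, map_zero] at h7
      simp only [map_mul, hb', hh'] at h7
      exact h7))
    (fun a => hinj (by
      rw [map_mul, map_mul, map_sum, map_sum]
      simp only [map_mul, hb', hh', hx']
      exact hxb a)) hoff' hm hlog' hne hgen hdim (fun G hG => (hrel G hG).trans (by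
      rw [X2aux.comp ι σ h1 hx' G, map_eq_zero_iff ι hinj])) hLG i j
  -- transport of the algebraicity
  apply hcl
  obtain ⟨P, hP0, hP⟩ := key
  let φ : R →+* C :=
    { toFun := fun z => ⟨ι z, (h4 _).1 z.2⟩
      map_one' := Subtype.ext (map_one ι)
      map_mul' := fun a c => Subtype.ext (map_mul ι _ _)
      map_zero' := Subtype.ext (map_zero ι)
      map_add' := fun a c => Subtype.ext (map_add ι _ _) }
  have hφ : Function.Injective φ := fun a c hac => Subtype.ext (hinj (congrArg Subtype.val hac))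
  refine ⟨P.map φ, (Polynomial.map_ne_zero_iff hφ).2 hP0, ?_⟩
  rw [← hdiv, Polynomial.aeval_def, Polynomial.eval₂_map]
  have h7 : (algebraMap C M).comp φ = ι.comp (algebraMap R K0) := RingHom.ext fun z => rfl
  rw [h7, ← Polynomial.hom_eval₂, ← Polynomial.aeval_def, hP, map_zero]

end Pool.Agent.H917.Mg
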