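import Pool.Agent.H917.G.H4
import Pool.Agent.H917.M.P1b

/-!
# PROJECT LG2 (helper917), task X3: heights of the values of logarithmic symmetric differentials

Port of `hgt_val` in `Pool/Agent/H917/G/H4.lean` (copy it; `H4aux.ge_aeval`, `H4aux.ge_prod` can be used unchanged). Let `P` be a place and `j` with `x j ≠ 0` and `ord_P (x j)` minimal, so the `x i / x j` are regular at `P`.
By `BSymDiff.val_eq` (M/P1b) `s.val x (D x)` is the value of `s.pol j` at `lloc B j x (D x)`: the coordinates `x i / x j` and `D (x i / x j)` (`i ∉ B j`), `D (x i / x j) / (x i / x j)` (`i ∈ B j`; compare `lloc_der` or the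
quotient rule in `M/P1b.lean`, `M/B3B.lean`). Let `e = max (- vo P D) 0`. If `P ∉ T`, then `BdP B x P` fails, so for `b ∈ B j` the order of `x b / x j` at `P` is not positive, hence (regular) zero, and all the derivatives have order `≥ - e`. If `P ∈ T`
then `D u / u` has order `≥ vo P D - 1 ≥ - (e + 1)` for every `u ≠ 0` regular at `P` (`D u ∈ t ^ (vo P D + ord u - 1) O`; in the library the order `vo P D` is such that `Ge P (vo P D) (D f)` for regular `f`; write `u = t ^ a * v` with a uniformizer `t` and a unit `v`,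
`D u / u = a * D t / t + D v / v`). So the number of poles of the value at `P` is at most `m * e` for `P ∉ T` and `m * (e + 1)` for `P ∈ T`; the sum over all places is at most `m * pol D + m * T.card`.
-/

set_option autoImplicit false
set_option linter.overlappingInstances false
set_option linter.unusedSectionVars false

open MvPolynomial FF Pool.Agent.W603.LV Pool.Agent.W603.PV
open Pool.Agent.E8helper90.AF (pol)

namespace Pool.Agent.H917.Mg

variable {n : ℕ} {p : Ideal (MvPolynomial (Fin (n + 1)) ℂ)}
  {B : Fin (n + 1) → Finset (Fin (n + 1))}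

namespace X3aux

/-- logarithmic derivatives have at most simple poles -/
theorem ge_log {k K : Type} [Field k] [Field K] [Algebra k K] [CharZero k] [IsFF k K]
    [IsAlgClosed k] (P : Place k K) {D : Derivation k K K} (hD : D ≠ 0) {u : K} (hu : u ≠ 0)
    (hr : Ge P 0 u) : Ge P (vo P D - 1) (D u / u) := by
  by_cases h0 : P.ord u = 0
  · have h1 := Pool.Agent.H916.ge_der0 P hD hr
    rcases h1 with h1 | h1
    · exact Or.inl (by rw [h1, zero_div])
    · by_cases h2 : D u = 0
      · exact Or.inl (by rw [h2, zero_div])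
      · refine Or.inr ?_
        rw [P.ord_div h2 hu]
        omega
  · have h1 := ord_der P hD h0
    by_cases h2 : D u = 0
    · exact Or.inl (by rw [h2, zero_div])
    · refine Or.inr ?_
      rw [P.ord_div h2 hu, h1.2]
      omega

/-- logarithmic derivatives of units -/
theorem ge_log0 {k K : Type} [Field k] [Field K] [Algebra k K] [CharZero k] [IsFF k K]
    [IsAlgClosed k] (P : Place k K) {D : Derivation k K K} (hD : D ≠ 0) {u : K} (hu : u ≠ 0)
    (hr : P.ord u = 0) : Ge P (vo P D) (D u / u) := by
  have h1 := Pool.Agent.H916.ge_der0 P hD (f := u) (Or.inr hr.ge)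
  rcases h1 with h1 | h1
  · exact Or.inl (by rw [h1, zero_div])
  · by_cases h2 : D u = 0
    · exact Or.inl (by rw [h2, zero_div])
    · refine Or.inr ?_
      rw [P.ord_div h2 hu, hr]
      omega

theorem der_div {F : Type} [Field F] [Algebra ℂ F] (D : Derivation ℂ F F) (a b : F) (hb : b ≠ 0) :
    D (a / b) = (D a * b - a * D b) / b ^ 2 := by
  rw [Derivation.leibniz_div]
  simp only [smul_eq_mul]
  field_simp

end X3aux

theorem hgt_valB (hp : Pool.Agent.W603.PV.IsHomog p) (hB : BdC p B) {m : ℕ} (s : BSymDiff p B m)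
    {F : Type} [Field F] [Algebra ℂ F] [IsFF ℂ F] {D : Derivation ℂ F F} (hD : D ≠ 0)
    {x : Fin (n + 1) → F} (hx : x ≠ 0) (hX : ∀ H ∈ p, aeval x H = 0) (hoff : OffB B x)
    (T : Finset (Place ℂ F)) (hT : ∀ P, P ∉ T → ¬ BdP B x P) :
    hgt ℂ (s.val x fun i => D (x i)) ≤ m * (pol D + T.card) := by
  classical
  obtain ⟨T0, h1, -, h2, -⟩ := Pool.Agent.E8helper90.AF.exists_supp' hD hD
    (s.val x fun i => D (x i)) 0
  have h1' : ∀ P, vo P D ≠ 0 → P ∈ T0 ∪ T := fun P h => Finset.mem_union_left _ (h1 P h)
  have h2' : ∀ P : Place ℂ F, P.ord (s.val x fun i => D (x i)) ≠ 0 → P ∈ T0 ∪ T :=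
    fun P h => Finset.mem_union_left _ (h2 P h)
  have hcard : (T.card : ℤ) = ∑ P ∈ T0 ∪ T, (if P ∈ T then (1 : ℤ) else 0) := by
    rw [Finset.sum_ite_mem, Finset.inter_eq_right.2 Finset.subset_union_right, Finset.sum_const,
      nsmul_eq_mul, mul_one]
  rw [hgt_finset _ (T0 ∪ T) h2', Pool.Agent.E8helper90.AF.pol_finset D (T0 ∪ T) h1', hcard,
    ← Finset.sum_add_distrib, Finset.mul_sum]
  refine Finset.sum_le_sum fun P _ => ?_
  obtain ⟨j, hj, hord⟩ := exists_pord P (Function.ne_iff.1 hx)
  have hreg : ∀ i, Ge P 0 (x i / x j) := by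
    intro i
    by_cases hi : x i = 0
    · exact Or.inl (by rw [hi, zero_div])
    · refine Or.inr ?_
      rw [P.ord_div hi hj]
      have h3 := pord_le P hi
      omega
  set e : ℤ := max (-vo P D) 0 with he
  have he0 : 0 ≤ e := le_max_right _ _
  have hvoe : -e ≤ vo P D := by
    have := le_max_left (-vo P D) 0
    omega
  set e' : ℤ := e + (if P ∈ T then 1 else 0) with he'
  have hee : e ≤ e' := by
    rw [he']
    split_ifs <;> omega
  have hder : ∀ i, Ge P (-e') ((fun i => if i ∈ B j then
      (D (x i) * x j - x i * D (x j)) / (x i * x j)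
      else (D (x i) * x j - x i * D (x j)) / x j ^ 2) i) := by
    intro i
    simp only
    by_cases hi : i ∈ B j
    · rw [if_pos hi]
      have hxi : x i ≠ 0 := hoff j hj i hi
      have hu : x i / x j ≠ 0 := div_ne_zero hxi hj
      have e1 : (D (x i) * x j - x i * D (x j)) / (x i * x j) = D (x i / x j) / (x i / x j) := by
        rw [X3aux.der_div D _ _ hj]
        field_simp
      rw [e1]
      by_cases hPT : P ∈ T
      · have h4 : e' = e + 1 := by rw [he', if_pos hPT]
        exact (X3aux.ge_log P hD hu (hreg i)).mono (by omega)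
      · have h4 : P.ord (x i / x j) = 0 := by
          have h5 : ¬ 0 < P.ord (x i / x j) := by
            intro h6
            exact hT P hPT ⟨j, hj, hreg, i, hi, h6⟩
          have h6 := (hreg i).resolve_left hu
          omega
        exact (X3aux.ge_log0 P hD hu h4).mono (by omega)
    · rw [if_neg hi, ← X3aux.der_div D _ _ hj]
      exact (Pool.Agent.H916.ge_der0 P hD (hreg i)).mono (by omega)
  have hge : Ge P (-(m * e')) (s.val x fun i => D (x i)) := by
    rw [s.val_eq hp hB (tanVec_der D hx hX) hoff hj]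
    exact H4aux.ge_aeval (s.hom j) hreg hder
  have hme : 0 ≤ (m : ℤ) * e' := mul_nonneg (Int.natCast_nonneg m) (he0.trans hee)
  rcases hge with h0 | h0
  · rw [h0, P.ord_zero]
    simpa using hme
  · exact max_le (by omega) hme

end Pool.Agent.H917.Mg
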