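import Pool.Agent.H917.G.H5a
import Pool.Agent.H917.M.X3

/-!
# PROJECT LG2 (helper917), task X4: the ultraproduct of the curves of large degree, logarithmic version

Port of `exists_ultra_ht` in `Pool/Agent/H917/G/H5a.lean` (392 lines; its auxiliary definitions and theorems `Sm`, `smallC`, `mem_small`, `small_closed`, `small_der`, `small_cst`, `exists_root`, `cst_closed` can be used unchanged, only the last theorem is to be
adapted): the index set and the ultrafilter are the same; each index has in addition the finite set of places `T`; put `χ = max (canDeg ℂ F) 0 + T.card` (in place of `max (canDeg ℂ F) 0`); `pol D ≤ max (canDeg ℂ F) 0 ≤ χ` and by `hgt_valB` (M/X3, stub) the height of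
`s.val x (D x)` is at most `m * (pol D + T.card) ≤ m * χ`. (If the statements on `smallC` need `pol D ≤ χ` only, nothing changes.) `OffB B x` in the ultraproduct: if `x j ≠ 0` and `b ∈ B j`, then `x_i j ≠ 0`, so `x_i b ≠ 0`, for almost all `i`. The compatibility of `s.val` with the ultraproduct
is as for `SymDiff.val` in H5a / D1 (use `BSymDiff.val_eq` in M/P1b in a chart `j` with `x j ≠ 0`, and `bval_map` if useful: the evaluation at almost all indices of a polynomial at `lloc B j x x'`; `i ∈ B j` does not depend on the index).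
-/

set_option autoImplicit false
set_option linter.overlappingInstances false
set_option linter.unusedSectionVars false

open MvPolynomial FF Filter Pool.Agent.W603.LV Pool.Agent.W603.PV
open Pool.Agent.E8helper90.AF (pol)

namespace Pool.Agent.H917.Mg

variable {n : ℕ} {p : Ideal (MvPolynomial (Fin (n + 1)) ℂ)}
  {B : Fin (n + 1) → Finset (Fin (n + 1))}

theorem exists_ultra_htB (hpp : p.IsPrime) (hp : Pool.Agent.W603.PV.IsHomog p) (hB : BdC p B)
    {m N : ℕ} (s : Fin N → BSymDiff p B m)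
    (h : ∀ G : MvPolynomial (Fin (n + 1)) ℂ, (∃ k, G.IsHomogeneous k) → G ∉ p → ∀ b : ℕ,
      ∃ (F : Type) (_ : Field F) (_ : Algebra ℂ F) (_ : IsFF ℂ F) (T : Finset (Place ℂ F))
        (x : Fin (n + 1) → F), x ≠ 0 ∧ (∀ H ∈ p, aeval x H = 0) ∧ OffB B x ∧
        (∀ P, P ∉ T → ¬ BdP B x P) ∧ aeval x G ≠ 0 ∧
        (b : ℤ) * (max (canDeg ℂ F) 0 + T.card) < pht ℂ x) :
    ∃ (M : Type) (_ : Field M) (_ : Algebra ℂ M) (D : Derivation ℂ M M) (C : IntermediateField ℂ M)
      (x : Fin (n + 1) → M),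
        (∀ H ∈ p, aeval x H = 0) ∧ (∀ G : MvPolynomial (Fin (n + 1)) ℂ, (∃ k, G.IsHomogeneous k) →
          G ∉ p → aeval x G ≠ 0) ∧ x ≠ 0 ∧ OffB B x ∧
        (∀ P : Polynomial M, P.Monic → 0 < P.natDegree → (∀ k, D (P.coeff k) = 0) →
          ∃ z, D z = 0 ∧ P.eval z = 0) ∧
        (∀ z, D z = 0 → z ∈ C) ∧ (∀ z ∈ C, D z ∈ C) ∧ (∀ z, IsAlgebraic C z → z ∈ C) ∧
        (∀ l, (s l).val x (fun i => D (x i)) ∈ C) ∧ ∃ i j, x j ≠ 0 ∧ x i / x j ∉ C := by
  classical
  let I : Type := {G : MvPolynomial (Fin (n + 1)) ℂ // (∃ k, G.IsHomogeneous k) ∧ G ∉ p} × ℕ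
  have h' : ∀ i : I, ∃ (F : Type) (_ : Field F) (_ : Algebra ℂ F) (_ : IsFF ℂ F)
      (T : Finset (Place ℂ F))
      (x : Fin (n + 1) → F), x ≠ 0 ∧ (∀ H ∈ p, aeval x H = 0) ∧ OffB B x ∧
        (∀ P, P ∉ T → ¬ BdP B x P) ∧ aeval x i.1.1 ≠ 0 ∧
        (i.2 : ℤ) * (max (canDeg ℂ F) 0 + T.card) < pht ℂ x :=
    fun i => h i.1.1 i.1.2.1 i.1.2.2 i.2
  choose M i1 i2 i3 T x h3 h1 hoff hT h2 h4 using h'
  choose D hD0 hD using fun i => Pool.Agent.H916.exists_pol_der (k := ℂ) (K := M i)
  obtain ⟨χ, hχ⟩ : ∃ χ : I → ℤ, χ = fun i => max (canDeg ℂ (M i)) 0 + (T i).card := ⟨_, rfl⟩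
  have hDχ' : ∀ i, Pool.Agent.E8helper90.AF.pol (D i) + (T i).card ≤ χ i := by
    rw [hχ]
    intro i
    have h7 := hD i
    exact add_le_add h7 le_rfl
  have hDχ : ∀ i, Pool.Agent.E8helper90.AF.pol (D i) ≤ χ i := by
    intro i
    refine le_trans ?_ (hDχ' i)
    exact le_add_of_nonneg_right (Int.natCast_nonneg _)
  have hχ0 : ∀ i, 0 ≤ χ i := by
    rw [hχ]
    exact fun i => add_nonneg (le_max_right _ _) (Int.natCast_nonneg _)
  -- the ultrafilter
  let S : I → Set I := fun i => {i' | i.1.1 ∣ i'.1.1 ∧ i.2 ≤ i'.2}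
  have hI : Nonempty I := ⟨⟨⟨1, ⟨0, isHomogeneous_one _ _⟩, fun h => (Ideal.ne_top_iff_one p).1
    hpp.ne_top h⟩, 0⟩⟩
  have hdir : Directed (· ≥ ·) fun i : I => 𝓟 (S i) := by
    intro i1 i2
    refine ⟨⟨⟨i1.1.1 * i2.1.1, ?_, ?_⟩, max i1.2 i2.2⟩, ?_, ?_⟩
    · obtain ⟨k1, hk1⟩ := i1.1.2.1
      obtain ⟨k2, hk2⟩ := i2.1.2.1
      exact ⟨k1 + k2, hk1.mul hk2⟩
    · intro h
      rcases hpp.mem_or_mem h with h | h
      · exact i1.1.2.2 h
      · exact i2.1.2.2 h
    · change 𝓟 _ ≤ 𝓟 _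
      rw [principal_mono]
      intro i hi
      exact ⟨(Dvd.intro _ rfl).trans hi.1, (le_max_left _ _).trans hi.2⟩
    · change 𝓟 _ ≤ 𝓟 _
      rw [principal_mono]
      intro i hi
      exact ⟨(Dvd.intro_left _ rfl).trans hi.1, (le_max_right _ _).trans hi.2⟩
  have hne : (⨅ i : I, 𝓟 (S i)).NeBot := iInf_neBot_of_directed' hdir fun i =>
    principal_neBot_iff.2 ⟨i, dvd_rfl, le_rfl⟩
  let U : Ultrafilter I := Ultrafilter.of (⨅ i : I, 𝓟 (S i))
  have hU : ∀ i : I, ∀ᶠ i' in (U : Filter I), i.1.1 ∣ i'.1.1 ∧ i.2 ≤ i'.2 := by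
    intro i
    have h6 : S i ∈ (⨅ i : I, 𝓟 (S i)) := mem_iInf_of_mem i (mem_principal_self _)
    exact Ultrafilter.of_le _ h6
  -- the point
  let X' : Fin (n + 1) → UProd U M := fun j => um U M fun i => x i j
  have hXa : ∀ H : MvPolynomial (Fin (n + 1)) ℂ, aeval X' H = um U M fun i => aeval (x i) H :=
    fun H => um_aeval x H
  have hXp : ∀ H ∈ p, aeval X' H = 0 := by
    intro H hH
    rw [hXa, um_eq_zero]
    exact Eventually.of_forall fun i => h1 i H hH
  have hX0 : X' ≠ 0 := by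
    intro h0
    have h6 : ∀ j, ∀ᶠ i in (U : Filter I), x i j = 0 := by
      intro j
      have h7 := congrFun h0 j
      exact um_eq_zero.1 h7
    obtain ⟨i, hi⟩ := (eventually_all.2 h6).exists
    exact h3 i (funext hi)
  have hXoff : OffB B X' := by
    intro j hj b hb
    have h6 : ∀ᶠ i in (U : Filter I), x i j ≠ 0 := H5aaux.um_ne.1 hj
    refine H5aaux.um_ne.2 ?_
    filter_upwards [h6] with i hi
    exact hoff i j hi b hb
  obtain ⟨j0, hj0⟩ := Function.ne_iff.1 hX0
  have hj0' : ∀ᶠ i in (U : Filter I), x i j0 ≠ 0 := by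
    rw [Ultrafilter.eventually_not]
    intro h0
    exact hj0 (um_eq_zero.2 h0)
  have hval : ∀ l, (s l).val X' (fun i => uder D (X' i)) =
      um U M fun i => (s l).val (x i) fun j => D i (x i j) := by
    intro l
    rw [(s l).val_eq hp hB (tanVec_der (uder D) hX0 hXp) hXoff hj0]
    have h6 : Pool.Agent.H917.Lg.lloc B j0 X' (fun i => uder D (X' i)) =
        fun k => um U M fun i => Pool.Agent.H917.Lg.lloc B j0 (x i) (fun j => D i (x i j)) k := by
      funext k
      rcases k with k | k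
      · change um U M _ / um U M _ = um U M fun i => x i k / x i j0
        rw [um_div]
      · by_cases hk : k ∈ B j0
        · have e1 : Pool.Agent.H917.Lg.lloc B j0 X' (fun i => uder D (X' i)) (Sum.inr k) =
              (uder D (um U M fun i => x i k) * (um U M fun i => x i j0) -
                (um U M fun i => x i k) * uder D (um U M fun i => x i j0)) /
                ((um U M fun i => x i k) * (um U M fun i => x i j0)) := if_pos hk
          have e2 : (fun i => Pool.Agent.H917.Lg.lloc B j0 (x i) (fun j => D i (x i j)) (Sum.inr k)) =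
              fun i => (D i (x i k) * x i j0 - x i k * D i (x i j0)) / (x i k * x i j0) :=
            funext fun i => if_pos hk
          rw [e1, e2, uder_um, uder_um, um_div, ← map_mul, ← map_mul, ← map_sub, ← map_mul]
          rfl
        · have e1 : Pool.Agent.H917.Lg.lloc B j0 X' (fun i => uder D (X' i)) (Sum.inr k) =
              (uder D (um U M fun i => x i k) * (um U M fun i => x i j0) -
                (um U M fun i => x i k) * uder D (um U M fun i => x i j0)) /
                (um U M fun i => x i j0) ^ 2 := if_neg hk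
          have e2 : (fun i => Pool.Agent.H917.Lg.lloc B j0 (x i) (fun j => D i (x i j)) (Sum.inr k)) =
              fun i => (D i (x i k) * x i j0 - x i k * D i (x i j0)) / x i j0 ^ 2 :=
            funext fun i => if_neg hk
          rw [e1, e2, uder_um, uder_um, um_div, ← map_mul, ← map_mul, ← map_sub, ← map_pow]
          rfl
    rw [h6, um_aeval, um_eq]
    filter_upwards [hj0'] with i hi
    rw [(s l).val_eq hp hB (tanVec_der (D i) (h3 i) (h1 i)) (hoff i) hi]
  refine ⟨UProd U M, inferInstance, inferInstance, uder D, H5aaux.smallC U M χ, X', hXp, ?_, hX0,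
    hXoff, ?_, ?_, ?_, ?_, ?_, ?_⟩
  · intro G hG hGp h0
    rw [hXa, um_eq_zero] at h0
    obtain ⟨i, hi1, hi2⟩ := (h0.and (hU ⟨⟨G, hG, hGp⟩, 0⟩)).exists
    apply h2 i
    obtain ⟨Q, hQ⟩ := hi2.1
    rw [hQ, map_mul]
    change aeval (x i) G * _ = 0
    rw [hi1, zero_mul]
  · intro P hP hdeg hc
    exact H5aaux.cst_closed hD0 P hP hdeg hc
  · intro z hz
    exact H5aaux.small_cst hD0 hz
  · intro z hz
    exact H5aaux.small_der hD0 hDχ hz
  · intro z hz
    exact H5aaux.small_closed hz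
  · intro l
    rw [hval, H5aaux.mem_small]
    refine ⟨m, Eventually.of_forall fun i => ?_⟩
    refine (hgt_valB hp hB (s l) (hD0 i) (h3 i) (h1 i) (hoff i) (T i) (hT i)).trans ?_
    exact mul_le_mul_of_nonneg_left (hDχ' i) (Int.natCast_nonneg m)
  · by_contra hcon
    push Not at hcon
    have h5 : ∀ k, ∃ b : ℕ, ∀ᶠ i in (U : Filter I), hgt ℂ (x i k / x i j0) ≤ b * χ i := by
      intro k
      have h6 := hcon k j0 hj0
      change um U M _ / um U M _ ∈ _ at h6
      rw [← um_div, H5aaux.mem_small] at h6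
      exact h6
    choose b hb using h5
    have h6 := hU ⟨⟨1, ⟨0, isHomogeneous_one _ _⟩, fun h => (Ideal.ne_top_iff_one p).1
      hpp.ne_top h⟩, ∑ k, b k⟩
    obtain ⟨i, hi1, hi2, hi3⟩ := (h6.and (hj0'.and (eventually_all.2 hb))).exists
    have h7 : pht ℂ (x i) ≤ ((∑ k, b k : ℕ) : ℤ) * χ i := by
      refine (pht_le (k := ℂ) (x i) hi2).trans ?_
      push_cast
      rw [Finset.sum_mul]
      exact Finset.sum_le_sum fun k _ => hi3 k
    have h8 : ((∑ k, b k : ℕ) : ℤ) * χ i ≤ (i.2 : ℤ) * χ i :=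
      mul_le_mul_of_nonneg_right (by exact_mod_cast hi1.2) (hχ0 i)
    have h9 := h4 i
    rw [hχ] at h7 h8
    exact absurd (h9.trans_le (h7.trans h8)) (lt_irrefl _)

end Pool.Agent.H917.Mg
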