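import Pool.Agent.H917.M.X2
import Pool.Agent.H917.M.X4

/-!
# PROJECT LG2 (helper917): the degrees of curves in varieties of log general type
-/

set_option autoImplicit false
set_option linter.overlappingInstances false
set_option linter.unusedSectionVars false

open MvPolynomial FF Pool.Agent.W603.LV Pool.Agent.W603.PV
open Pool.Agent.W602.GT (IsForm LogGeneralType coords)

namespace Pool.Agent.H917.Mg

variable {n : ℕ} {p : Ideal (MvPolynomial (Fin (n + 1)) ℂ)}
  {B : Fin (n + 1) → Finset (Fin (n + 1))}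

/-- **The degrees of curves in varieties of log general type.** -/
theorem curve_boundB (hpp : p.IsPrime) (hp : Pool.Agent.W603.PV.IsHomog p) (hB : BdC p B)
    {m N : ℕ} {s : Fin N → BSymDiff p B m} (hs : BGens p B m s) (hm : 1 ≤ m)
    {K : Type} [Field K] [Algebra ℂ K] {w : ℕ} {y : Fin (n + 1) → K} (hy : SubVarB p B K w y)
    (hf : ∀ H : MvPolynomial (Fin (n + 1)) ℂ, (∃ d, H.IsHomogeneous d) → aeval y H = 0 → H ∈ p)
    (hLG : LogGeneralType ℂ K w (BdP B y)) :
    ∃ G : MvPolynomial (Fin (n + 1)) ℂ, (∃ k, G.IsHomogeneous k) ∧ G ∉ p ∧ ∃ b : ℕ,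
      ∀ (F : Type) [Field F] [Algebra ℂ F] [IsFF ℂ F] (T : Finset (Place ℂ F))
        (x : Fin (n + 1) → F), x ≠ 0 → (∀ H ∈ p, aeval x H = 0) → OffB B x →
        (∀ P, P ∉ T → ¬ BdP B x P) → aeval x G ≠ 0 →
        pht ℂ x ≤ b * (max (canDeg ℂ F) 0 + T.card) := by
  by_contra hcon
  push Not at hcon
  obtain ⟨M, i1, i2, D, C, x, hXp, hXG, hx0, hoff, hac, hcst, hst, hcl, hval, i, j, hj, hij⟩ :=
    exists_ultra_htB hpp hp hB s fun G hG hGp b => by
      obtain ⟨F, j1, j2, j3, T, x, h1, h2, h3, h4, h5, h6⟩ := hcon G hG hGp b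
      exact ⟨F, j1, j2, j3, T, x, h1, h2, h3, h4, h5, h6⟩
  exact hij (point_constB D C hac hcst hst hcl hp hB hs hm hj hXp hoff hval hy.sub.ne hy.sub.gen
    hy.sub.dim (fun G hG => by
      constructor
      · intro h0
        exact hXp G (hf G hG h0)
      · intro h0
        by_contra hne
        refine hXG G hG (fun hGp => hne ?_) h0
        exact hy.sub.mem G hGp) hLG i j)

end Pool.Agent.H917.Mg
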