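import Pool.Agent.H917.G.W5
import Pool.Agent.H917.M.P0
import Pool.Graph.R_pool_sql_team_seeded_c8625f6e.K4H62.EL.Model
import Pool.Graph.R_seed8.W619.PQ.Rat
import Pool.Graph.R_seed8.W619.PQ.Curve
import Pool.Graph.R_seed8.W603.PV.Disc
import Pool.Graph.R_seed8.W603.CX.Basic
import Pool.Graph.R_seed8.TH143.GE.Form

/-!
# PROJECT LG2 (helper917), task X6: from the weak to the strong linear bound

If the degrees of the curves are at most `b * (max (2 g - 2) 0 + s)`, then they are at most `3 * b * max (2 g - 2 + s) 0`.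

Proof. If `0 ≤ canDeg ℂ F` this is clear. Otherwise `F = ℂ(t)` (`rational_of_neg` in `Pool/Graph/R_seed8/TH143/GE/Form.lean`; or by cases `∃ t, ℂ⟮t⟯ = ⊤`, with `canDeg_rational` and `canDeg_nonneg` as in `canDeg_ge` in `G/W5.lean`) and `canDeg = -2`. If `T.card ≥ 3`,
use `T.card ≤ 3 * (T.card - 2)`. If `T.card ≤ 2`, we have to prove `pht ℂ x ≤ 0`. Choose a generator `t` of `F` such that `T` is contained in the set of the zero and the pole of `t` (the places of `ℂ(t)` are given by `t = a` and `t = ∞`; replace `t` by `(t - a) / (t - b)`, `1 / (t - a)`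
or `t - a`). For `k ≥ 1` let `σ : F → F` be the homomorphism over `ℂ` with `σ t = t ^ k` (its degree is `k`; zero and pole of `t` are totally ramified). For `x' = σ ∘ x` all hypotheses hold with the same `T`: `aeval x' H = σ (aeval x H)`; if `P' ∉ T` is a place with `BdP B x' P'`, then its restriction `P` along `σ`
(a place of `F`, see the library for restrictions of places; `ord_{P'} (σ z) = e * ord_P z` with `e ≥ 1`) is not in `T` (the places in `T` have only themselves above them, because `ord_{P'} t ≠ 0` iff `ord_P t ≠ 0`, with the same sign) and `BdP B x P` holds, a contradiction. Moreover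
`pht (σ ∘ x) = k * pht x` (degree of a pullback; the library has the behaviour of `hgt`, `pht` in finite extensions, `Pool/Graph/R_seed8/W603/PV/*.lean`, and `Pool/Agent/H916/Endo.lean`, or use only `k * hgt z ≤ hgt (σ z)` and `hgt_le_pht`, `pht_le`). So `k * pht x ≤ 2 * b` for all `k`, hence `pht x ≤ 0`. (It is enough to
prove `hgt (x i / x j) ≤ 0` for all `i, j`, i.e. `k * hgt (x i / x j) = hgt (σ (x i / x j)) ≤ pht x' ≤ 2 * b`.)
-/

set_option autoImplicit false
set_option linter.overlappingInstances false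
set_option linter.unusedSectionVars false

open MvPolynomial FF Pool.Agent.W603.LV Pool.Agent.W603.PV

namespace Pool.Agent.H917.Mg.X6aux

open Pool.Agent.K4H62.EL Pool.Agent.W619.PQ
open scoped IntermediateField

section gen

variable {k : Type} [Field k] [IsAlgClosed k] [CharZero k] {K : Type} [Field K] [Algebra k K]
  [IsFF k K]

theorem gen_of {s u : K} (hs : k⟮s⟯ = ⊤) (h : s ∈ k⟮u⟯) : k⟮u⟯ = ⊤ := by
  rw [eq_top_iff, ← hs, IntermediateField.adjoin_simple_le_iff]
  exact h

theorem zero_eq {s : K} (hs : k⟮s⟯ = ⊤) {P Q : Place k K} (hP : 0 < P.ord s) (hQ : 0 < Q.ord s) :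
    P = Q := by
  obtain ⟨R, -, hR⟩ := zero_unique hs
  rw [hR P hP, hR Q hQ]

theorem pole_eq {s : K} (hs : k⟮s⟯ = ⊤) {P Q : Place k K} (hP : P.ord s < 0) (hQ : Q.ord s < 0) :
    P = Q := by
  obtain ⟨R, -, hR⟩ := pole_unique hs
  rw [hR P hP, hR Q hQ]

theorem gen_pos {s0 : K} (hs0 : k⟮s0⟯ = ⊤) (P : Place k K) : ∃ s : K, k⟮s⟯ = ⊤ ∧ 0 < P.ord s := by
  by_cases h : P.ord s0 < 0
  · refine ⟨s0⁻¹, gen_of hs0 ?_, ?_⟩
    · have h1 := inv_mem (IntermediateField.mem_adjoin_simple_self k s0⁻¹)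
      rwa [inv_inv] at h1
    · rw [P.ord_inv]
      omega
  · push Not at h
    obtain ⟨c, hc⟩ := exists_const P (Or.inr h : Ge P 0 s0)
    refine ⟨s0 - algebraMap k K c, top_sub hs0 c, ?_⟩
    rcases hc with hc | hc
    · exfalso
      apply transcendental_of_top hs0
      rw [sub_eq_zero.1 hc]
      exact isAlgebraic_algebraMap c
    · omega

theorem gen_two {s0 : K} (hs0 : k⟮s0⟯ = ⊤) {P Q : Place k K} (hPQ : P ≠ Q) :
    ∃ s : K, k⟮s⟯ = ⊤ ∧ 0 < P.ord s ∧ Q.ord s < 0 := by
  obtain ⟨s, hs, hP⟩ := gen_pos hs0 P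
  by_cases h : Q.ord s < 0
  · exact ⟨s, hs, hP, h⟩
  push Not at h
  have hst := transcendental_of_top hs
  obtain ⟨c, hc⟩ := exists_const Q (Or.inr h : Ge Q 0 s)
  have hsc : s - algebraMap k K c ≠ 0 := by
    intro h0
    apply hst
    rw [sub_eq_zero.1 h0]
    exact isAlgebraic_algebraMap c
  have hs00 : s ≠ 0 := by
    intro h0
    apply hst
    rw [h0]
    exact isAlgebraic_zero
  have h1 : 1 ≤ Q.ord (s - algebraMap k K c) := hc.resolve_left hsc
  have hc0 : c ≠ 0 := by
    rintro rfl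
    rw [map_zero, sub_zero] at h1
    exact hPQ (zero_eq hs hP (by omega))
  have hcK : algebraMap k K c ≠ 0 := by
    rw [Ne, map_eq_zero]
    exact hc0
  have hordP : P.ord (s - algebraMap k K c) = 0 := by
    have h2 : P.ord (-algebraMap k K c) = 0 := by rw [P.ord_neg, P.ord_const hc0]
    have h3 := (P.ord_add_eq (f := -algebraMap k K c) (g := s) (neg_ne_zero.2 hcK) hs00
      (by rw [h2]; exact hP)).2
    rw [h2] at h3
    rw [sub_eq_neg_add]
    exact h3
  have hordQ : Q.ord s = 0 := by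
    have h2 := Q.ord_const hc0
    have h3 := (Q.ord_add_eq (f := algebraMap k K c) (g := s - algebraMap k K c) hcK hsc
      (by rw [h2]; omega)).2
    rw [h2, add_sub_cancel] at h3
    exact h3
  refine ⟨s / (s - algebraMap k K c), gen_of hs ?_, ?_, ?_⟩
  · obtain ⟨u, hu⟩ : ∃ u, u = s / (s - algebraMap k K c) := ⟨_, rfl⟩
    have h2 : u * (s - algebraMap k K c) = s := by rw [hu, div_mul_cancel₀ _ hsc]
    have h3 : u - 1 ≠ 0 := by
      intro h0
      rw [sub_eq_zero.1 h0, one_mul] at h2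
      apply hcK
      linear_combination -h2
    have h4 : s = algebraMap k K c * u / (u - 1) := by
      rw [eq_div_iff h3]
      linear_combination h2
    rw [← hu]
    have h5 := IntermediateField.mem_adjoin_simple_self k u
    rw [h4]
    exact div_mem (mul_mem (algebraMap_mem _ c) h5) (sub_mem h5 (one_mem _))
  · rw [div_eq_mul_inv, P.ord_mul hs00 (inv_ne_zero hsc), P.ord_inv, hordP]
    omega
  · rw [div_eq_mul_inv, Q.ord_mul hs00 (inv_ne_zero hsc), Q.ord_inv, hordQ]
    omega

/-- a generator with zeros or poles at the places of a set with at most two elements -/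
theorem gen_set {s0 : K} (hs0 : k⟮s0⟯ = ⊤) (T : Finset (Place k K)) (hT : T.card ≤ 2) :
    ∃ s : K, k⟮s⟯ = ⊤ ∧ ∀ P ∈ T, P.ord s ≠ 0 := by
  classical
  obtain h | h | h : T.card = 0 ∨ T.card = 1 ∨ T.card = 2 := by omega
  · rw [Finset.card_eq_zero] at h
    exact ⟨s0, hs0, fun P hP => by rw [h] at hP; exact absurd hP (Finset.notMem_empty P)⟩
  · obtain ⟨P, hP⟩ := Finset.card_eq_one.1 h
    obtain ⟨s, hs, h1⟩ := gen_pos hs0 P
    refine ⟨s, hs, fun Q hQ => ?_⟩
    rw [hP, Finset.mem_singleton] at hQ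
    rw [hQ]
    omega
  · obtain ⟨P, Q, hPQ, hT2⟩ := Finset.card_eq_two.1 h
    obtain ⟨s, hs, h1, h2⟩ := gen_two hs0 hPQ
    refine ⟨s, hs, fun R hR => ?_⟩
    rw [hT2, Finset.mem_insert, Finset.mem_singleton] at hR
    rcases hR with rfl | rfl
    · omega
    · omega

/-- the endomorphism `s ↦ s ^ 2` -/
theorem exists_sq {s : K} (hs : k⟮s⟯ = ⊤) :
    ∃ σ : K →ₐ[k] K, σ s = s ^ 2 ∧ ∃ d : ℕ, 2 ≤ d ∧ ∀ g, hgt k (σ g) = d * hgt k g := by
  have hst : Transcendental k s := transcendental_of_top hs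
  have hs2 : Transcendental k (s ^ 2) := by
    intro h
    exact hst (h.of_pow (by norm_num))
  obtain ⟨σ, hσ⟩ := exists_hom (k := k) (Polynomial.aeval s : Polynomial k →ₐ[k] K)
    (Polynomial.aeval (s ^ 2) : Polynomial k →ₐ[k] K) (fun p => by
      constructor
      · intro h
        by_contra hne
        exact hst ⟨p, fun h0 => hne (by rw [h0, map_zero]), h⟩
      · intro h
        by_contra hne
        exact hs2 ⟨p, fun h0 => hne (by rw [h0, map_zero]), h⟩) (fun z => by
      have hz : z ∈ IntermediateField.adjoin k {s} := by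
        rw [hs]
        exact IntermediateField.mem_top
      rw [IntermediateField.mem_adjoin_simple_iff] at hz
      obtain ⟨p, q, hpq⟩ := hz
      by_cases hq : Polynomial.aeval s q = 0
      · refine ⟨0, 1, by rw [map_one]; exact one_ne_zero, ?_⟩
        rw [hpq, hq, div_zero, zero_mul, map_zero]
      · refine ⟨p, q, hq, ?_⟩
        rw [hpq, div_mul_cancel₀ _ hq])
  obtain ⟨d, hd⟩ := hgt_self σ
  have h1 := hσ Polynomial.X
  rw [Polynomial.aeval_X, Polynomial.aeval_X] at h1
  refine ⟨σ, h1, d, ?_, hd⟩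
  have h2 := hd s
  have hs0 : s ≠ 0 := by
    rintro rfl
    exact hst isAlgebraic_zero
  rw [h1, hgt_pow hs0] at h2
  have h3 : 0 < hgt k s := by
    by_contra hc
    push Not at hc
    obtain ⟨c, hc⟩ := const_of_hgt hc
    apply hst
    rw [hc]
    exact isAlgebraic_algebraMap c
  have h4 := mul_right_cancel₀ h3.ne' h2
  push_cast at h4
  omega

theorem gen_under {E L : Type} [Field E] [Algebra k E] [IsFF k E] [Field L] [Algebra k L]
    [Algebra E L] [IsScalarTower k E L] [IsFF k L] (P' : Place k L) :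
    ∃ (e : ℕ) (P : Place k E), 0 < e ∧ ∀ x : E, P'.ord (algebraMap E L x) = e * P.ord x :=
  ⟨ram E P', under E P', (ram_spec P').1, ord_under P'⟩

/-- the restriction of a place along an endomorphism -/
theorem under_endo (σ : K →ₐ[k] K) (P' : Place k K) :
    ∃ (e : ℕ) (P : Place k K), 0 < e ∧ ∀ x : K, P'.ord (σ x) = e * P.ord x := by
  let iG : Algebra K K := σ.toRingHom.toAlgebra
  have hT : @IsScalarTower k K K _ iG.toSMul _ :=
    IsScalarTower.of_algebraMap_eq fun c => (σ.commutes c).symm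
  exact @gen_under k _ _ _ K K _ _ _ _ _ iG hT _ P'

/-- places above those in `T` -/
theorem under_mem {s : K} (hs : k⟮s⟯ = ⊤) {T : Finset (Place k K)} (hT : ∀ P ∈ T, P.ord s ≠ 0)
    {σ : K →ₐ[k] K} (hσ : σ s = s ^ 2) {P P' : Place k K} {e : ℕ} (he : 0 < e)
    (h : ∀ x : K, P'.ord (σ x) = e * P.ord x) (hP : P ∈ T) : P' ∈ T := by
  have h1 := h s
  have h2 := hT P hP
  have he' : (0 : ℤ) < e := by exact_mod_cast he
  rw [hσ, P'.ord_pow] at h1
  rcases lt_or_gt_of_ne h2 with h3 | h3
  · have h4 : P'.ord s < 0 := by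
      have h5 : (e : ℤ) * P.ord s < 0 := mul_neg_of_pos_of_neg he' h3
      push_cast at h1
      linarith
    rwa [pole_eq hs h4 h3]
  · have h4 : 0 < P'.ord s := by
      have h5 : 0 < (e : ℤ) * P.ord s := mul_pos he' h3
      push_cast at h1
      linarith
    rwa [zero_eq hs h4 h3]

/-- iterating an endomorphism -/
theorem const_of_iterates (σ : K →ₐ[k] K) {d : ℕ}
    (hd : 2 ≤ d) (h : ∀ g, hgt k (σ g) = d * hgt k g) {n : ℕ} {f : Fin (n + 1) → K} {B : ℤ}
    (hB : ∀ t : ℕ, pht k (fun l => (σ : K → K)^[t] (f l)) ≤ B) (i : Fin (n + 1)) {j : Fin (n + 1)}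
    (hj : f j ≠ 0) : ∃ c : k, f i = algebraMap k K c * f j := by
  by_cases hi : f i = 0
  · exact ⟨0, by rw [hi, map_zero, zero_mul]⟩
  have hne : ∀ (t : ℕ) {g : K}, g ≠ 0 → (σ : K → K)^[t] g ≠ 0 := by
    intro t g hg
    induction t with
    | zero => exact hg
    | succ t ih =>
      rw [Function.iterate_succ_apply']
      exact (map_ne_zero σ).2 ih
  have hdiv : ∀ (t : ℕ) (g g' : K), (σ : K → K)^[t] (g / g') =
      (σ : K → K)^[t] g / (σ : K → K)^[t] g' := by
    intro t g g'
    induction t with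
    | zero => rfl
    | succ t ih =>
      rw [Function.iterate_succ_apply', Function.iterate_succ_apply', Function.iterate_succ_apply',
        ih, map_div₀]
  have hht : ∀ (t : ℕ) (g : K), hgt k ((σ : K → K)^[t] g) = (d : ℤ) ^ t * hgt k g := by
    intro t g
    induction t with
    | zero => simp
    | succ t ih =>
      rw [Function.iterate_succ_apply', h, ih, pow_succ]
      ring
  have h1 : hgt k (f i / f j) ≤ 0 := by
    by_contra hc
    push Not at hc
    have hB0 : 0 ≤ B := by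
      have h2 := Pool.Agent.W603.CX.hgt_le_pht (k := k) f hj hj
      exact ((hgt_nonneg _).trans h2).trans (hB 0)
    obtain ⟨t, ht⟩ : ∃ t : ℕ, B.toNat < 2 ^ t := ⟨_, Nat.lt_two_pow_self⟩
    have h2 := Pool.Agent.W603.CX.hgt_le_pht (k := k) (fun l => (σ : K → K)^[t] (f l))
      (hne t hi) (hne t hj)
    rw [← hdiv, hht] at h2
    have h3 := h2.trans (hB t)
    have h4 : (B : ℤ) < 2 ^ t := by
      have : (B.toNat : ℤ) < 2 ^ t := by exact_mod_cast ht
      omega
    have h5 : (2 : ℤ) ^ t ≤ (d : ℤ) ^ t := pow_le_pow_left₀ (by norm_num) (by exact_mod_cast hd) t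
    have h6 : (d : ℤ) ^ t * 1 ≤ (d : ℤ) ^ t * hgt k (f i / f j) :=
      mul_le_mul_of_nonneg_left hc (by positivity)
    linarith
  obtain ⟨c, hc⟩ := const_of_hgt h1
  exact ⟨c, by rw [← hc, div_mul_cancel₀ _ hj]⟩

end gen

/-- the boundary places along an endomorphism -/
theorem bdP_under {n : ℕ} {K : Type} [Field K] [Algebra ℂ K]
    {B : Fin (n + 1) → Finset (Fin (n + 1))} (σ : K →ₐ[ℂ] K) {P P' : Place ℂ K} {e : ℕ}
    (he : 0 < e) (h : ∀ x : K, P'.ord (σ x) = e * P.ord x) {y : Fin (n + 1) → K}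
    (hB : BdP B (fun l => σ (y l)) P') : BdP B y P := by
  obtain ⟨j, hj, hreg, b, hb, hpos⟩ := hB
  have he' : (0 : ℤ) < e := by exact_mod_cast he
  refine ⟨j, fun h0 => hj (by show σ (y j) = 0; rw [h0, map_zero]), fun i => ?_, b, hb, ?_⟩
  · rcases hreg i with h1 | h1
    · left
      rw [← map_div₀, map_eq_zero] at h1
      exact h1
    · right
      rw [← map_div₀, h] at h1
      exact nonneg_of_mul_nonneg_right h1 he'
  · rw [← map_div₀, h] at hpos
    exact (mul_pos_iff_of_pos_left he').1 hpos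

end Pool.Agent.H917.Mg.X6aux

namespace Pool.Agent.H917.Mg

variable {n : ℕ}

theorem strong_of_weak {p : Ideal (MvPolynomial (Fin (n + 1)) ℂ)}
    {B : Fin (n + 1) → Finset (Fin (n + 1))} {G : MvPolynomial (Fin (n + 1)) ℂ} {b : ℕ}
    (h : ∀ (F : Type) [Field F] [Algebra ℂ F] [IsFF ℂ F] (T : Finset (Place ℂ F))
        (x : Fin (n + 1) → F), x ≠ 0 → (∀ H ∈ p, aeval x H = 0) → OffB B x →
        (∀ P, P ∉ T → ¬ BdP B x P) → aeval x G ≠ 0 →
        pht ℂ x ≤ b * (max (canDeg ℂ F) 0 + T.card))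
    (F : Type) [Field F] [Algebra ℂ F] [IsFF ℂ F] (T : Finset (Place ℂ F))
    (x : Fin (n + 1) → F) (hx : x ≠ 0) (hX : ∀ H ∈ p, aeval x H = 0) (hoff : OffB B x)
    (hT : ∀ P, P ∉ T → ¬ BdP B x P) (hG : aeval x G ≠ 0) :
    pht ℂ x ≤ 3 * b * max (canDeg ℂ F + T.card) 0 := by
  classical
  have hw := h F T x hx hX hoff hT hG
  have hb : (0 : ℤ) ≤ b := Int.natCast_nonneg b
  have hc0 : (0 : ℤ) ≤ T.card := Int.natCast_nonneg _
  have hm : (0 : ℤ) ≤ 3 * b * max (canDeg ℂ F + T.card) 0 :=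
    mul_nonneg (by omega) (le_max_right _ _)
  rcases le_or_gt 0 (canDeg ℂ F) with hcan | hcan
  · rw [max_eq_left hcan] at hw
    rw [max_eq_left (by omega)]
    have h1 : 0 ≤ b * (canDeg ℂ F + T.card) := mul_nonneg hb (by omega)
    linarith
  · obtain ⟨s0, hs0⟩ := Pool.Agent.TH143.GE.rational_of_neg hcan
    have h2 := Pool.Agent.W619.PQ.canDeg_rational hs0
    rcases Nat.lt_or_ge T.card 3 with hT3 | hT3
    · refine le_trans ?_ hm
      obtain ⟨s, hs, hTs⟩ := X6aux.gen_set hs0 T (by omega)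
      obtain ⟨σ, hσ, d, hd, hgt⟩ := X6aux.exists_sq hs
      have hit : ∀ t : ℕ, (fun l => (σ : F → F)^[t] (x l)) ≠ 0 ∧
          (∀ H ∈ p, aeval (fun l => (σ : F → F)^[t] (x l)) H = 0) ∧
          OffB B (fun l => (σ : F → F)^[t] (x l)) ∧
          (∀ P, P ∉ T → ¬ BdP B (fun l => (σ : F → F)^[t] (x l)) P) ∧
          aeval (fun l => (σ : F → F)^[t] (x l)) G ≠ 0 := by
        intro t
        induction t with
        | zero => exact ⟨hx, hX, hoff, hT, hG⟩
        | succ t ih =>
          obtain ⟨y, hy⟩ : ∃ y : Fin (n + 1) → F, y = fun l => (σ : F → F)^[t] (x l) := ⟨_, rfl⟩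
          have h3 : (fun l => (σ : F → F)^[t + 1] (x l)) = fun l => σ (y l) := by
            funext l
            rw [Function.iterate_succ_apply', hy]
          rw [← hy] at ih
          rw [h3]
          obtain ⟨i1, i2, i3, i4, i5⟩ := ih
          have hae : ∀ H : MvPolynomial (Fin (n + 1)) ℂ,
              aeval (fun l => σ (y l)) H = σ (aeval y H) := by
            intro H
            have h4 := MvPolynomial.comp_aeval_apply (σ := Fin (n + 1)) (f := y) σ H
            exact h4.symm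
          refine ⟨?_, fun H hH => by rw [hae, i2 H hH, map_zero], ?_, ?_, ?_⟩
          · obtain ⟨j, hj⟩ := Function.ne_iff.1 i1
            exact Function.ne_iff.2 ⟨j, fun h0 => hj ((map_eq_zero σ).1 h0)⟩
          · intro j hj b' hb' h0
            exact i3 j (fun h1 => hj (by show σ (y j) = 0; rw [h1, map_zero])) b' hb'
              ((map_eq_zero σ).1 h0)
          · intro P' hP' hB
            obtain ⟨e, P, he, hP⟩ := X6aux.under_endo σ P'
            refine i4 P (fun hPT => hP' (X6aux.under_mem hs hTs hσ he hP hPT)) ?_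
            exact X6aux.bdP_under σ he hP hB
          · rw [hae]
            exact (map_ne_zero σ).2 i5
      have hB : ∀ t : ℕ, pht ℂ (fun l => (σ : F → F)^[t] (x l)) ≤
          b * (max (canDeg ℂ F) 0 + T.card) := fun t =>
        h F T _ (hit t).1 (hit t).2.1 (hit t).2.2.1 (hit t).2.2.2.1 (hit t).2.2.2.2
      obtain ⟨j, hj⟩ := Function.ne_iff.1 hx
      refine Pool.Agent.H917.pht_const (j := j) hj fun i => ?_
      obtain ⟨c, hc⟩ := X6aux.const_of_iterates σ hd hgt hB i (j := j) hj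
      exact ⟨c, by rw [hc, mul_div_assoc, div_self hj, mul_one]⟩
    · have h3 : (3 : ℤ) ≤ T.card := by exact_mod_cast hT3
      rw [h2, max_eq_right (by norm_num : (-2 : ℤ) ≤ 0)] at hw
      rw [h2, max_eq_left (by omega)]
      have h4 : 0 ≤ b * (2 * ((T.card : ℤ) - 3)) := mul_nonneg hb (by omega)
      linarith

end Pool.Agent.H917.Mg
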