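import Pool.Agent.H917.G.W5
import Pool.Agent.H917.L.P2
import Pool.Agent.H917.M.P0

/-!
# PROJECT LG2 (helper917), task X8: the morphisms `t ↦ P (t ^ k)` from the punctured line

`P` is a vector of polynomials in one variable which gives a nonconstant morphism from the punctured line to the complement of the hypersurface `Q = 0` in the projective variety with the ideal `p` (`GmCurve`, `L/P2.lean`). Let `x k i = P_i (X ^ k) ∈ ℂ(X)` (for instance
`algebraMap (Polynomial ℂ) (RatFunc ℂ) (Polynomial.expand ℂ k (P i))`), `T` the set of the two places where `X` has a zero or a pole, `c` the place `X = 1`.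

* `aeval (x k) H = (aeval P H) (X ^ k)`, so it vanishes for `H ∈ p`, and it is not zero for the forms `G` with `G (P (t)) ≠ 0` for some `t`; `aeval (x k) Q = a * X ^ (k * e)`, `a ≠ 0`.
* `OffB B (x k)`: for `j` with `x k j ≠ 0` and `b ∈ B j` choose `t ≠ 0` with `P_j (t) ≠ 0`; the point `P (t)` is in `Pts p` (it is not zero because `Q (P (t)) ≠ 0`, `d ≥ 1`) and `Q (P (t)) ≠ 0`, so `P_b (t) ≠ 0` by `Bdry`.
* `¬ BdP B (x k) P'` for `P' ∉ T`: such a place is `X = a` with `a ≠ 0` (use only: `X` is regular at `P'` with value `a ≠ 0`). Suppose `j` with `x k j ≠ 0`, all `x k i / x k j` regular at `P'`, `b ∈ B j` with `ord (x k b / x k j) > 0`. The values `z_i ∈ ℂ` of `x k i / x k j` at `P'` (residue field `ℂ`) satisfy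
  `z_j = 1`, `z_b = 0`, `z ∈ Pts p` (`p` is homogeneous: `H (x k / x k j) = 0` for the forms in `p`, `zero_ch` in `M/P1a.lean`), so `Q (z) = 0` by `Bdry`, i.e. the order of `Q (x k / x k j) = a X ^ (k e) / (x k j) ^ d` at `P'` is positive; but `X ^ (k e)` has order `0` and `x k j` is regular at `P'` (a polynomial in `X`), so the order is `≤ 0`. Contradiction.
* `k ≤ pht (x k)`: some ratio `P_i / P_j` is not constant (`GmCurve.nc`), and `hgt (x k i / x k j) = k * hgt (P_i / P_j) ≥ k` (degree of `ℂ(X)` over `ℂ(X ^ k)`), `hgt ≤ pht` (`hgt_le_pht`). Alternatively count: choose a pole: there is `a ∈ ℂ ∪ {∞}` ...; any proof is fine.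
* `HasValue c (P (1)) (x k)` (`Pool/Graph/R_seed8/W602/RG/Defs2.lean`): at the place `c` the `x k i` are regular with the values `P_i (1)`, not all zero, so `pord c (x k) = 0`, and `P_i (1) * x k j - P_j (1) * x k i` has the value `0`.
-/

set_option autoImplicit false
set_option linter.overlappingInstances false
set_option linter.unusedSectionVars false

open MvPolynomial FF Pool.Agent.W603.LV Pool.Agent.W603.PV
open Pool.Agent.W602.RG (HasValue)
open Pool.Agent.H917.Lg (GmCurve Bdry)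

namespace Pool.Agent.H917.Mg

variable {n : ℕ} {p : Ideal (MvPolynomial (Fin (n + 1)) ℂ)}
  {B : Fin (n + 1) → Finset (Fin (n + 1))} {Q : MvPolynomial (Fin (n + 1)) ℂ}

namespace X8aux

open scoped IntermediateField
open Pool.Agent.W619.PQ (zero_unique pole_unique top_sub)

theorem trX {k : ℕ} (hk : 1 ≤ k) : Transcendental ℂ (RatFunc.X ^ k : RatFunc ℂ) :=
  RatFunc.transcendental_X.pow (by omega)

/-- the substitution `X ↦ X ^ k` -/
noncomputable def phi (k : ℕ) (f : Polynomial ℂ) : RatFunc ℂ :=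
  Polynomial.aeval (RatFunc.X ^ k : RatFunc ℂ) f

theorem phi_eq (k : ℕ) (f : Polynomial ℂ) :
    phi k f = Polynomial.aeval (RatFunc.X : RatFunc ℂ) (Polynomial.expand ℂ k f) := by
  rw [phi, Polynomial.expand_aeval]

theorem phi_zero (k : ℕ) : phi k 0 = 0 := by
  rw [phi, map_zero]

theorem phi_ne {k : ℕ} (hk : 1 ≤ k) {f : Polynomial ℂ} (hf : f ≠ 0) : phi k f ≠ 0 := by
  intro h
  apply hf
  apply (transcendental_iff_injective.1 (trX hk))
  rw [map_zero]
  exact h

theorem ne_of_phi {k : ℕ} {f : Polynomial ℂ} (hf : phi k f ≠ 0) : f ≠ 0 := by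
  rintro rfl
  exact hf (phi_zero k)

theorem aeval_phi (k : ℕ) (P : Fin (n + 1) → Polynomial ℂ) (H : MvPolynomial (Fin (n + 1)) ℂ) :
    aeval (fun i => phi k (P i)) H = phi k (aeval P H) := by
  unfold phi
  rw [MvPolynomial.comp_aeval_apply]

theorem x8_eval_aeval (P : Fin (n + 1) → Polynomial ℂ) (H : MvPolynomial (Fin (n + 1)) ℂ) (t : ℂ) :
    (aeval P H).eval t = eval (fun i => (P i).eval t) H := by
  have h := MvPolynomial.comp_aeval_apply (f := P) (Polynomial.aeval t) H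
  simp only [Polynomial.coe_aeval_eq_eval] at h
  rw [h, ← MvPolynomial.coe_aeval_eq_eval]
  rfl

theorem x8_ge_poly (P' : Place ℂ (RatFunc ℂ)) (hX : 0 ≤ P'.ord RatFunc.X) (g : Polynomial ℂ) :
    Ge P' 0 (Polynomial.aeval (RatFunc.X : RatFunc ℂ) g) := by
  rw [Polynomial.aeval_eq_sum_range]
  refine Ge.sum _ _ fun i _ => ?_
  rw [Algebra.smul_def]
  have h1 : Ge P' 0 (RatFunc.X : RatFunc ℂ) := Or.inr hX
  have h2 := (Ge.const (P := P') (g.coeff i)).mul (h1.pow i)
  rw [mul_zero, add_zero] at h2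
  exact h2

theorem x8_ge_sub (P' : Place ℂ (RatFunc ℂ)) {a : ℂ} (hX : 0 ≤ P'.ord RatFunc.X)
    (ha : Ge P' 1 (RatFunc.X - algebraMap ℂ (RatFunc ℂ) a)) (g : Polynomial ℂ) :
    Ge P' 1 (Polynomial.aeval (RatFunc.X : RatFunc ℂ) g - algebraMap ℂ (RatFunc ℂ) (g.eval a)) := by
  obtain ⟨h, hh⟩ : Polynomial.X - Polynomial.C a ∣ g - Polynomial.C (g.eval a) :=
    Polynomial.X_sub_C_dvd_sub_C_eval
  have h1 := congrArg (Polynomial.aeval (RatFunc.X : RatFunc ℂ)) hh
  rw [map_sub, map_mul, map_sub, Polynomial.aeval_X, Polynomial.aeval_C, Polynomial.aeval_C] at h1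
  rw [h1]
  have h2 := ha.mul (x8_ge_poly P' hX h)
  rw [add_zero] at h2
  exact h2

theorem mem_phi (k : ℕ) (f : Polynomial ℂ) : phi k f ∈ ℂ⟮(RatFunc.X ^ k : RatFunc ℂ)⟯ :=
  IntermediateField.algebra_adjoin_le_adjoin _ _ (Polynomial.aeval_mem_adjoin_singleton _ _)

theorem x8_hgt_ge {k : ℕ} (hk : 1 ≤ k) {f : RatFunc ℂ} (hf : Transcendental ℂ f)
    (hmem : f ∈ ℂ⟮(RatFunc.X ^ k : RatFunc ℂ)⟯) : (k : ℤ) ≤ hgt ℂ f := by
  have h1 := hgt_eq_finrank (k := ℂ) (trX hk)
  have h2 : hgt ℂ (RatFunc.X ^ k : RatFunc ℂ) = k * hgt ℂ (RatFunc.X : RatFunc ℂ) :=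
    hgt_pow RatFunc.X_ne_zero k
  have h3 : hgt ℂ (RatFunc.X : RatFunc ℂ) = 1 := by
    rw [hgt_eq_finrank (k := ℂ) RatFunc.transcendental_X, RatFunc.adjoin_X,
      IntermediateField.finrank_top]
    rfl
  have h4 : Module.finrank ℂ⟮(RatFunc.X ^ k : RatFunc ℂ)⟯ (RatFunc ℂ) ∣
      Module.finrank ℂ⟮f⟯ (RatFunc ℂ) :=
    IntermediateField.finrank_dvd_of_le_left (IntermediateField.adjoin_simple_le_iff.2 hmem)
  have h5 : 0 < Module.finrank ℂ⟮f⟯ (RatFunc ℂ) := by
    have := IsFF.finite (k := ℂ) hf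
    exact Module.finrank_pos
  have h6 := Nat.le_of_dvd h5 h4
  have h7 : (Module.finrank ℂ⟮(RatFunc.X ^ k : RatFunc ℂ)⟯ (RatFunc ℂ) : ℤ) = k := by
    rw [← h1, h2, h3, mul_one]
  rw [hgt_eq_finrank hf, ← h7]
  exact_mod_cast h6

theorem transc_quot {k : ℕ} (hk : 1 ≤ k) {f g : Polynomial ℂ} (hg : g ≠ 0) {s t : ℂ}
    (h : f.eval s * g.eval t ≠ g.eval s * f.eval t) :
    Transcendental ℂ (phi k f / phi k g) := by
  intro halg
  have h2 := IsAlgClosed.degree_eq_one_of_irreducible ℂ (minpoly.irreducible halg.isIntegral)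
  obtain ⟨c, hc⟩ := minpoly.mem_range_of_degree_eq_one ℂ _ h2
  have h3 : phi k f = algebraMap ℂ (RatFunc ℂ) c * phi k g := by
    rw [hc, div_mul_cancel₀ _ (phi_ne hk hg)]
  have h4 : f = Polynomial.C c * g := by
    apply (transcendental_iff_injective.1 (trX hk))
    rw [map_mul, Polynomial.aeval_C]
    exact h3
  apply h
  rw [h4]
  simp only [Polynomial.eval_mul, Polynomial.eval_C]
  ring

theorem x8_exists_eval {f : Polynomial ℂ} (hf : f ≠ 0) : ∃ t : ℂ, t ≠ 0 ∧ f.eval t ≠ 0 := by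
  by_contra hcon
  push Not at hcon
  apply hf
  have h1 : Polynomial.X * f = 0 := by
    apply Polynomial.funext
    intro t
    rw [Polynomial.eval_mul, Polynomial.eval_X, Polynomial.eval_zero]
    by_cases ht : t = 0
    · rw [ht, zero_mul]
    · rw [hcon t ht, mul_zero]
  exact (mul_eq_zero.1 h1).resolve_left Polynomial.X_ne_zero

theorem x8_scale_zero (hp : Pool.Agent.W603.PV.IsHomog p) {L : Type} [Field L] [Algebra ℂ L]
    {x : Fin (n + 1) → L} (hx : ∀ H ∈ p, aeval x H = 0) (c : L) {H : MvPolynomial (Fin (n + 1)) ℂ}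
    (hH : H ∈ p) : aeval (fun j => c * x j) H = 0 := by
  rw [Pool.Agent.W603.PV.aeval_scale_sum]
  refine Finset.sum_eq_zero fun d _ => ?_
  rw [hx _ (hp H hH d), mul_zero]

theorem not_bd (hp : Pool.Agent.W603.PV.IsHomog p) {d : ℕ}
    (hQ : Q.IsHomogeneous d) (hB : Bdry p Q B) {x : Fin (n + 1) → RatFunc ℂ}
    (hx : ∀ H ∈ p, aeval x H = 0) {P' : Place ℂ (RatFunc ℂ)}
    (hreg : ∀ i, Ge P' 0 (x i)) (hQ0 : aeval x Q ≠ 0) (hQ1 : P'.ord (aeval x Q) = 0) :
    ¬ BdP B x P' := by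
  rintro ⟨j, hj, hr, b, hb, hbo⟩
  have h0 : ∀ i, Ge P' 0 ((x j)⁻¹ * x i) := by
    intro i
    rw [mul_comm, ← div_eq_mul_inv]
    exact hr i
  choose z hz using fun i => exists_const P' (h0 i)
  have hzj : z j = 1 := by
    have h1 := hz j
    rw [inv_mul_cancel₀ hj, ← map_one (algebraMap ℂ (RatFunc ℂ)), ← map_sub] at h1
    have h2 := const_zero P' h1
    exact (sub_eq_zero.1 h2).symm
  have hzb : z b = 0 := by
    have h1 : Ge P' 1 ((x j)⁻¹ * x b) := by
      rw [mul_comm, ← div_eq_mul_inv]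
      exact Or.inr (by omega)
    have h2 := h1.sub (hz b)
    rw [sub_sub_cancel] at h2
    exact const_zero P' h2
  have hzp : z ∈ Pts p := by
    refine ⟨fun h => ?_, fun H hH => ?_⟩
    · have h1 := congrFun h j
      rw [hzj] at h1
      exact one_ne_zero h1
    · have h1 := red_mvaeval P' h0 hz H
      rw [x8_scale_zero hp hx _ hH, zero_sub] at h1
      have h2 := h1.neg
      rw [neg_neg] at h2
      exact const_zero P' h2
  have hQz : eval z Q = 0 := (hB z hzp j (by rw [hzj]; exact one_ne_zero)).2 ⟨b, hb, hzb⟩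
  have h5 := red_mvaeval P' h0 hz Q
  rw [hQz, map_zero, sub_zero, Pool.Agent.W603.PV.aeval_scale hQ] at h5
  have hne : (x j)⁻¹ ^ d ≠ 0 := pow_ne_zero _ (inv_ne_zero hj)
  rcases h5 with h5 | h5
  · exact (mul_ne_zero hne hQ0) h5
  · rw [P'.ord_mul hne hQ0, hQ1, P'.ord_pow, P'.ord_inv] at h5
    have h6 : 0 ≤ P'.ord (x j) := (hreg j).resolve_left hj
    have h7 : 0 ≤ (d : ℤ) * P'.ord (x j) := by positivity
    rw [mul_neg] at h5
    omega

end X8aux

open X8aux

theorem gm_points (hp : Pool.Agent.W603.PV.IsHomog p) {d : ℕ} (hd : 1 ≤ d)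
    (hQ : Q.IsHomogeneous d) (hB : Bdry p Q B) {P : Fin (n + 1) → Polynomial ℂ}
    (hP : GmCurve p Q P) :
    ∃ (T : Finset (Place ℂ (RatFunc ℂ))) (c : Place ℂ (RatFunc ℂ))
      (x : ℕ → Fin (n + 1) → RatFunc ℂ), T.card = 2 ∧ c ∉ T ∧ ∀ k : ℕ, 1 ≤ k →
        x k ≠ 0 ∧ (∀ H ∈ p, aeval (x k) H = 0) ∧ OffB B (x k) ∧
        (∀ P', P' ∉ T → ¬ BdP B (x k) P') ∧ (k : ℤ) ≤ pht ℂ (x k) ∧
        HasValue c (fun i => (P i).eval 1) (x k) ∧
        ∀ G : MvPolynomial (Fin (n + 1)) ℂ,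
          (∃ t : ℂ, t ≠ 0 ∧ eval (fun i => (P i).eval t) G ≠ 0) → aeval (x k) G ≠ 0 := by
  classical
  obtain ⟨P0, hP0, hP0'⟩ := Pool.Agent.W619.PQ.zero_unique (k := ℂ) (E := RatFunc ℂ) RatFunc.adjoin_X
  obtain ⟨Pi, hPi, hPi'⟩ := Pool.Agent.W619.PQ.pole_unique (k := ℂ) (E := RatFunc ℂ) RatFunc.adjoin_X
  obtain ⟨c, hc, -⟩ := Pool.Agent.W619.PQ.zero_unique (k := ℂ) (E := RatFunc ℂ)
    (Pool.Agent.W619.PQ.top_sub RatFunc.adjoin_X 1)
  have hcX : c.ord (RatFunc.X : RatFunc ℂ) = 0 := by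
    have h1 : (RatFunc.X : RatFunc ℂ) - algebraMap ℂ (RatFunc ℂ) 1 ≠ 0 := by
      intro h
      rw [h, c.ord_zero] at hc
      omega
    have h2 := c.ord_add_eq (f := algebraMap ℂ (RatFunc ℂ) 1)
      (g := (RatFunc.X : RatFunc ℂ) - algebraMap ℂ (RatFunc ℂ) 1)
      (by rw [map_one]; exact one_ne_zero) h1 (by rw [hc, c.ord_const one_ne_zero]; norm_num)
    rw [add_sub_cancel, c.ord_const one_ne_zero] at h2
    exact h2.2
  obtain ⟨a0, e, ha0, hPQ⟩ := hP.off
  have hQt : ∀ t : ℂ, t ≠ 0 → eval (fun i => (P i).eval t) Q ≠ 0 := by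
    intro t ht
    rw [← x8_eval_aeval, hPQ, Polynomial.eval_mul, Polynomial.eval_C, Polynomial.eval_pow,
      Polynomial.eval_X]
    exact mul_ne_zero ha0 (pow_ne_zero _ ht)
  have hpt : ∀ t : ℂ, ∀ H ∈ p, eval (fun i => (P i).eval t) H = 0 := by
    intro t H hH
    rw [← x8_eval_aeval, hP.mem H hH, Polynomial.eval_zero]
  obtain ⟨s, t, -, -, i1, j1, hst⟩ := hP.nc
  have hi1 : P i1 ≠ 0 := by
    intro h
    rw [h, Polynomial.eval_zero, Polynomial.eval_zero, zero_mul, mul_zero] at hst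
    exact hst rfl
  have hj1 : P j1 ≠ 0 := by
    intro h
    rw [h, Polynomial.eval_zero, Polynomial.eval_zero, zero_mul, mul_zero] at hst
    exact hst rfl
  refine ⟨{P0, Pi}, c, fun k i => phi k (P i), ?_, ?_, fun k hk => ⟨?_, ?_, ?_, ?_, ?_, ?_, ?_⟩⟩
  · rw [Finset.card_pair]
    rintro rfl
    omega
  · rw [Finset.mem_insert, Finset.mem_singleton]
    rintro (rfl | rfl) <;> omega
  · intro h
    exact phi_ne hk hi1 (congrFun h i1)
  · intro H hH
    rw [aeval_phi, hP.mem H hH, phi_zero]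
  · intro j hj b hb
    obtain ⟨t, ht, hjt⟩ := x8_exists_eval (ne_of_phi hj)
    have h1 : (fun i => (P i).eval t) ∈ Pts p := by
      refine ⟨fun h => hjt (congrFun h j), fun H hH => hpt t H hH⟩
    have h2 := (hB _ h1 j hjt).not.1 (hQt t ht)
    push Not at h2
    have h3 := h2 b hb
    apply phi_ne hk
    intro h4
    apply h3
    simp only [h4, Polynomial.eval_zero]
  · intro P' hP'
    rw [Finset.mem_insert, Finset.mem_singleton, not_or] at hP'
    have hX : P'.ord (RatFunc.X : RatFunc ℂ) = 0 := by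
      have h1 : ¬ 0 < P'.ord (RatFunc.X : RatFunc ℂ) := fun h => hP'.1 (hP0' P' h)
      have h2 : ¬ P'.ord (RatFunc.X : RatFunc ℂ) < 0 := fun h => hP'.2 (hPi' P' h)
      omega
    have hQx : aeval (fun i => phi k (P i)) Q =
        algebraMap ℂ (RatFunc ℂ) a0 * (RatFunc.X ^ k) ^ e := by
      rw [aeval_phi, hPQ]
      unfold X8aux.phi
      rw [map_mul, Polynomial.aeval_C, map_pow, Polynomial.aeval_X]
    have ha0' : algebraMap ℂ (RatFunc ℂ) a0 ≠ 0 := (map_ne_zero _).2 ha0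
    have hXk : ((RatFunc.X : RatFunc ℂ) ^ k) ^ e ≠ 0 := pow_ne_zero _ (pow_ne_zero _ RatFunc.X_ne_zero)
    refine not_bd hp hQ hB ?_ ?_ ?_ ?_
    · intro H hH
      rw [aeval_phi, hP.mem H hH, phi_zero]
    · intro i
      change Ge P' 0 (phi k (P i))
      rw [phi_eq]
      exact x8_ge_poly P' hX.ge _
    · rw [hQx]
      exact mul_ne_zero ha0' hXk
    · rw [hQx, P'.ord_mul ha0' hXk, P'.ord_const ha0, P'.ord_pow, P'.ord_pow, hX, mul_zero, mul_zero,
        zero_add]
  · refine (x8_hgt_ge hk (transc_quot hk hj1 hst) ?_).trans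
      (Pool.Agent.W603.CX.hgt_le_pht (k := ℂ) (fun i => phi k (P i)) (phi_ne hk hi1) (phi_ne hk hj1))
    exact div_mem (mem_phi k _) (mem_phi k _)
  · have hv : ∀ i, Ge c 1 (phi k (P i) - algebraMap ℂ (RatFunc ℂ) ((P i).eval 1)) := by
      intro i
      have h1 := x8_ge_sub c (a := 1) hcX.ge (Or.inr hc.ge) (Polynomial.expand ℂ k (P i))
      rw [Polynomial.expand_eval, one_pow, ← phi_eq] at h1
      exact h1
    have hex : ∃ i, (P i).eval 1 ≠ 0 := by
      by_contra hcon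
      push Not at hcon
      apply hQt 1 one_ne_zero
      have h1 : (fun i => (P i).eval 1) = fun i => (0 : ℂ) * (1 : ℂ) := by
        funext i
        rw [hcon i, zero_mul]
      have h2 : aeval (fun _ : Fin (n + 1) => (0 : ℂ) * (1 : ℂ)) Q = 0 := by
        rw [Pool.Agent.W603.PV.aeval_scale hQ (fun _ => (1 : ℂ)) 0, zero_pow (by omega), zero_mul]
      rw [h1]
      rw [← MvPolynomial.coe_aeval_eq_eval]
      exact h2
    obtain ⟨i0, hi0⟩ := hex
    have hpord : pord c (fun i => phi k (P i)) ≤ 0 := by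
      have h1 : phi k (P i0) ≠ 0 := by
        apply phi_ne hk
        intro h
        rw [h, Polynomial.eval_zero] at hi0
        exact hi0 rfl
      refine (pord_le c (f := fun i => phi k (P i)) h1).trans ?_
      by_contra hcon
      push Not at hcon
      have h2 : Ge c 1 (phi k (P i0)) := Or.inr (by omega)
      have h3 := h2.sub (hv i0)
      rw [sub_sub_cancel] at h3
      exact hi0 (const_zero c h3)
    intro i j
    have h1 : Ge c 1 (algebraMap ℂ (RatFunc ℂ) ((P i).eval 1) * phi k (P j) -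
        algebraMap ℂ (RatFunc ℂ) ((P j).eval 1) * phi k (P i)) := by
      have e1 : algebraMap ℂ (RatFunc ℂ) ((P i).eval 1) * phi k (P j) -
        algebraMap ℂ (RatFunc ℂ) ((P j).eval 1) * phi k (P i) =
          algebraMap ℂ (RatFunc ℂ) ((P i).eval 1) *
            (phi k (P j) - algebraMap ℂ (RatFunc ℂ) ((P j).eval 1)) -
          algebraMap ℂ (RatFunc ℂ) ((P j).eval 1) *
            (phi k (P i) - algebraMap ℂ (RatFunc ℂ) ((P i).eval 1)) := by ring
      rw [e1]
      have h2 := (Ge.const (P := c) (K := RatFunc ℂ) ((P i).eval 1)).mul (hv j)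
      have h3 := (Ge.const (P := c) (K := RatFunc ℂ) ((P j).eval 1)).mul (hv i)
      rw [zero_add] at h2 h3
      exact h2.sub h3
    rcases h1 with h1 | h1
    · exact Or.inl h1
    · right
      exact lt_of_le_of_lt hpord (lt_of_lt_of_le zero_lt_one h1)
  · rintro G ⟨t, -, hG⟩
    rw [aeval_phi]
    apply phi_ne hk
    intro h
    apply hG
    rw [← x8_eval_aeval, h, Polynomial.eval_zero]

end Pool.Agent.H917.Mg
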