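import Pool.Agent.H917.G.W5
import Pool.Agent.H917.M.R4
import Pool.Agent.H917.M.X5
import Pool.Agent.H917.M.X6
import Pool.Agent.H917.M.X8

/-!
# PROJECT LG2 (helper917): the degrees of curves and pointed curves
-/

set_option autoImplicit false
set_option linter.overlappingInstances false
set_option linter.unusedSectionVars false

open MvPolynomial FF Pool.Agent.W603.LV Pool.Agent.W603.PV
open Pool.Agent.W602.GT (IsForm LogGeneralType coords)
open Pool.Agent.W602.RG (HasValue)
open Pool.Agent.H917.Lg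
open scoped LinearAlgebra.Projectivization

namespace Pool.Agent.H917.Mg

variable {n : ℕ} {p : Ideal (MvPolynomial (Fin (n + 1)) ℂ)}
  {B : Fin (n + 1) → Finset (Fin (n + 1))} {Q G : MvPolynomial (Fin (n + 1)) ℂ}

/-- `x` is the vector of homogeneous coordinates of a morphism from the smooth curve `C`, the smooth
projective curve with the function field `F` without the points in the finite set `T`, to the
complement of the boundary in the projective variety with the ideal `p`, whose image is not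
contained in `G = 0`. -/
structure CurveB (p : Ideal (MvPolynomial (Fin (n + 1)) ℂ))
    (B : Fin (n + 1) → Finset (Fin (n + 1))) (G : MvPolynomial (Fin (n + 1)) ℂ) {F : Type} [Field F]
    [Algebra ℂ F] (T : Finset (Place ℂ F)) (x : Fin (n + 1) → F) : Prop where
  ne : x ≠ 0
  mem : ∀ H ∈ p, aeval x H = 0
  off : OffB B x
  bd : ∀ P, P ∉ T → ¬ BdP B x P
  gne : aeval x G ≠ 0

/-- The degrees of the morphisms from smooth curves of genus `g` without `s` points to the
complement of the boundary, with image not contained in `G = 0`, are bounded linearly in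
`max (2 g - 2 + s) 0`. -/
def LinBoundB (p : Ideal (MvPolynomial (Fin (n + 1)) ℂ))
    (B : Fin (n + 1) → Finset (Fin (n + 1))) (G : MvPolynomial (Fin (n + 1)) ℂ) : Prop :=
  ∃ b : ℕ, ∀ (F : Type) [Field F] [Algebra ℂ F] [IsFF ℂ F] (T : Finset (Place ℂ F))
    (x : Fin (n + 1) → F), CurveB p B G T x → pht ℂ x ≤ b * max (canDeg ℂ F + T.card) 0

/-- The degrees of the morphisms from smooth affine curves of genus `g` without `s ≥ 1` points to
the complement of the boundary, with image not contained in `G = 0`, are bounded by a function of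
`2 g - 2 + s`. -/
def FunBoundB (p : Ideal (MvPolynomial (Fin (n + 1)) ℂ))
    (B : Fin (n + 1) → Finset (Fin (n + 1))) (G : MvPolynomial (Fin (n + 1)) ℂ) : Prop :=
  ∃ β : ℤ → ℤ, ∀ (F : Type) [Field F] [Algebra ℂ F] [IsFF ℂ F] (T : Finset (Place ℂ F))
    (x : Fin (n + 1) → F), T.Nonempty → CurveB p B G T x → pht ℂ x ≤ β (canDeg ℂ F + T.card)

/-- For every smooth curve `C` the degrees of the morphisms from `C` to the complement of the
boundary, with image not contained in `G = 0`, are bounded. -/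
def BoundedB (p : Ideal (MvPolynomial (Fin (n + 1)) ℂ))
    (B : Fin (n + 1) → Finset (Fin (n + 1))) (G : MvPolynomial (Fin (n + 1)) ℂ) : Prop :=
  ∀ (F : Type) [Field F] [Algebra ℂ F] [IsFF ℂ F] (T : Finset (Place ℂ F)), ∃ b : ℤ,
    ∀ x : Fin (n + 1) → F, CurveB p B G T x → pht ℂ x ≤ b

/-- For every smooth curve `C`, every point `c` of `C` and every point `z` of the complement of the
boundary outside of `G = 0` there are only finitely many morphisms from `C` to the complement of the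
boundary which map `c` to `z`. -/
def PointedFinB (p : Ideal (MvPolynomial (Fin (n + 1)) ℂ))
    (B : Fin (n + 1) → Finset (Fin (n + 1))) (G : MvPolynomial (Fin (n + 1)) ℂ) : Prop :=
  ∀ (F : Type) [Field F] [Algebra ℂ F] [IsFF ℂ F] (T : Finset (Place ℂ F)) (c : Place ℂ F),
    c ∉ T → ∀ z ∈ PtsB p B, eval z G ≠ 0 →
      {φ : ℙ F (Fin (n + 1) → F) | ∃ (x : Fin (n + 1) → F) (hx : x ≠ 0), CurveB p B 1 T x ∧
        HasValue c z x ∧ φ = Projectivization.mk F x hx}.Finite

theorem LinBoundB.funBound (h : LinBoundB p B G) : FunBoundB p B G := by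
  obtain ⟨b, hb⟩ := h
  exact ⟨fun χ => b * max χ 0, fun F _ _ _ T x _ hx => hb F T x hx⟩

theorem LinBoundB.bounded (h : LinBoundB p B G) : BoundedB p B G := by
  obtain ⟨b, hb⟩ := h
  exact fun F _ _ _ T => ⟨_, fun x hx => hb F T x hx⟩

/-- **The degrees of curves in varieties of log general type.** -/
theorem linBoundB_of_lgt (hpp : p.IsPrime) (hp : Pool.Agent.W603.PV.IsHomog p) (hB : BdC p B)
    {m : ℕ} (hm : 1 ≤ m) (hg : BGenerated p B m)
    {K : Type} [Field K] [Algebra ℂ K] {w : ℕ} {y : Fin (n + 1) → K} (hy : SubVarB p B K w y)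
    (hf : ∀ H : MvPolynomial (Fin (n + 1)) ℂ, (∃ d, H.IsHomogeneous d) → aeval y H = 0 → H ∈ p)
    (hLG : LogGeneralType ℂ K w (BdP B y)) :
    ∃ G : MvPolynomial (Fin (n + 1)) ℂ, (∃ k, G.IsHomogeneous k) ∧ G ∉ p ∧ LinBoundB p B G := by
  obtain ⟨N, s, hs⟩ := hg
  obtain ⟨G, hG, hGp, b, hb⟩ := curve_boundB hpp hp hB hs hm hy hf hLG
  refine ⟨G, hG, hGp, 3 * b, fun F _ _ _ T x hx => ?_⟩
  have h1 := strong_of_weak hb F T x hx.ne hx.mem hx.off hx.bd hx.gne
  exact_mod_cast h1

/-- reparametrisation of a morphism from the punctured line -/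
theorem gm_scale {P : Fin (n + 1) → Polynomial ℂ} (hP : GmCurve p Q P) {t : ℂ} (ht : t ≠ 0) :
    GmCurve p Q fun i => (P i).comp (Polynomial.C t * Polynomial.X) := by
  have key : ∀ H : MvPolynomial (Fin (n + 1)) ℂ,
      aeval (fun i => (P i).comp (Polynomial.C t * Polynomial.X)) H =
        (aeval P H).comp (Polynomial.C t * Polynomial.X) := by
    intro H
    have h1 := map_aeval P (Polynomial.compRingHom (Polynomial.C t * Polynomial.X)) H
    rw [Polynomial.coe_compRingHom_apply] at h1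
    rw [h1]
    have h2 : (Polynomial.compRingHom (Polynomial.C t * Polynomial.X)).comp
        (algebraMap ℂ (Polynomial ℂ)) = algebraMap ℂ (Polynomial ℂ) := by
      ext a
      simp
    rw [h2]
    rfl
  refine ⟨fun H hH => ?_, ?_, ?_⟩
  · rw [key, hP.mem H hH, Polynomial.zero_comp]
  · obtain ⟨c, k, hc, hck⟩ := hP.off
    refine ⟨c * t ^ k, k, mul_ne_zero hc (pow_ne_zero _ ht), ?_⟩
    rw [key, hck, Polynomial.mul_comp, Polynomial.C_comp, Polynomial.pow_comp, Polynomial.X_comp,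
      mul_pow, ← mul_assoc, ← Polynomial.C_pow, ← Polynomial.C_mul]
  · obtain ⟨a, b, ha, hb, i, j, hij⟩ := hP.nc
    refine ⟨a / t, b / t, div_ne_zero ha ht, div_ne_zero hb ht, i, j, ?_⟩
    simp only [Polynomial.eval_comp, Polynomial.eval_mul, Polynomial.eval_C, Polynomial.eval_X,
      mul_div_cancel₀ _ ht]
    exact hij

/-- a form which is not in the ideal of a variety not of log general type does not vanish on some
morphism from the punctured line -/
theorem exists_gm (hpp : p.IsPrime) (hp : Pool.Agent.W603.PV.IsHomog p) {d : ℕ} (hd : 1 ≤ d)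
    (hQ : Q.IsHomogeneous d) (hB : Bdry p Q B) {m : ℕ} (hm : 1 ≤ m) (hg : BGenerated p B m)
    {K : Type} [Field K] [Algebra ℂ K] {w : ℕ} {y : Fin (n + 1) → K} (hy : SubVarB p B K w y)
    (hf : ∀ H : MvPolynomial (Fin (n + 1)) ℂ, (∃ d, H.IsHomogeneous d) → aeval y H = 0 → H ∈ p)
    (hLG : ¬ LogGeneralType ℂ K w (BdP B y)) (hG : ∃ k, G.IsHomogeneous k) (hGp : G ∉ p) :
    ∃ P, GmCurve p Q P ∧ eval (fun i => (P i).eval 1) G ≠ 0 := by
  have h1 : SpAlgB p B = PtsB p B := by
    by_contra h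
    exact hLG ((lgtB_iff hpp hp (bdC_of hB) hm hg hy hf).2 h)
  obtain ⟨x, hx, hxG⟩ := exists_ptB hpp (bdC_of hB) hy hGp
  rw [← h1, ← spGm_eq hp hd hQ hB hm hg] at hx
  by_contra hcon
  push Not at hcon
  refine hxG (hx.2 G hG fun P hP t ht => ?_)
  have h2 := hcon _ (gm_scale hP ht)
  simpa [Polynomial.eval_comp] using h2

/-- the degree depends only on the morphism -/
theorem pht_eq_of_mk {F : Type} [Field F] [Algebra ℂ F] [IsFF ℂ F] {x x' : Fin (n + 1) → F}
    (hx : x ≠ 0) (hx' : x' ≠ 0)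
    (h : Projectivization.mk F x hx = Projectivization.mk F x' hx') : pht ℂ x = pht ℂ x' := by
  obtain ⟨a, ha⟩ := (Projectivization.mk_eq_mk_iff F x x' hx hx').1 h
  rw [← ha]
  exact pht_scale (Function.ne_iff.1 hx') a.ne_zero

/-- a morphism from the punctured line contradicts boundedness -/
theorem gm_absurd (hp : Pool.Agent.W603.PV.IsHomog p) {d : ℕ} (hd : 1 ≤ d)
    (hQ : Q.IsHomogeneous d) (hB : Bdry p Q B) {P : Fin (n + 1) → Polynomial ℂ}
    (hP : GmCurve p Q P) (hPG : eval (fun i => (P i).eval 1) G ≠ 0)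
    (h : (∀ (T : Finset (Place ℂ (RatFunc ℂ))), T.card = 2 → ∃ b : ℤ,
      ∀ x : Fin (n + 1) → RatFunc ℂ, CurveB p B G T x → pht ℂ x ≤ b) ∨ PointedFinB p B G) :
    False := by
  obtain ⟨T, c, x, hT, hc, hx⟩ := gm_points hp hd hQ hB hP
  rcases h with h | h
  · obtain ⟨b, hb⟩ := h T hT
    obtain ⟨k, hk⟩ : ∃ k : ℕ, 1 ≤ k ∧ b < k := ⟨b.toNat + 1, by omega, by omega⟩
    obtain ⟨h1, h2, h3, h4, h5, _, h6⟩ := hx k hk.1
    have := hb (x k) ⟨h1, h2, h3, h4, h6 G ⟨1, one_ne_zero, hPG⟩⟩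
    omega
  · have hQ1 : eval (fun i => (P i).eval 1) Q ≠ 0 := by
      obtain ⟨a, k, ha, hak⟩ := hP.off
      rw [Lg.F3aux.eval_poly, hak, Polynomial.eval_mul, Polynomial.eval_C, Polynomial.eval_pow,
        Polynomial.eval_X, one_pow, mul_one]
      exact ha
    have hz : (fun i => (P i).eval 1) ∈ Pts p := by
      refine ⟨fun h0 => hQ1 ?_, fun H hH => ?_⟩
      · have h1 : (fun i => (P i).eval 1) = (0 : Fin (n + 1) → ℂ) := h0
        rw [h1]
        have h3 : eval (fun i => (0 : ℂ) * (0 : Fin (n + 1) → ℂ) i) Q = 0 ^ d * eval 0 Q := by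
          rw [← ae, aeval_smul_homog _ _ hQ, ae]
        have h4 : (fun i => (0 : ℂ) * (0 : Fin (n + 1) → ℂ) i) = 0 := by
          funext i
          simp
        rw [h4, zero_pow (by omega), zero_mul] at h3
        exact h3
      · rw [Lg.F3aux.eval_poly, hP.mem H hH, Polynomial.eval_zero]
    have hfin := h (RatFunc ℂ) T c hc _ ⟨hz, (offB_of hB hz).2 hQ1⟩ hPG
    have hone : ∀ x : Fin (n + 1) → RatFunc ℂ, aeval x (1 : MvPolynomial (Fin (n + 1)) ℂ) ≠ 0 := by
      intro x
      rw [map_one]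
      exact one_ne_zero
    -- the degrees of finitely many morphisms are bounded
    obtain ⟨b, hb⟩ : ∃ b : ℤ, ∀ (x : Fin (n + 1) → RatFunc ℂ) (hx : x ≠ 0), CurveB p B 1 T x →
        HasValue c (fun i => (P i).eval 1) x → pht ℂ x ≤ b := by
      classical
      have : ∀ φ : ℙ (RatFunc ℂ) (Fin (n + 1) → RatFunc ℂ), ∃ b : ℤ,
          ∀ (x : Fin (n + 1) → RatFunc ℂ) (hx : x ≠ 0), φ = Projectivization.mk _ x hx →
            pht ℂ x ≤ b := by
        intro φ
        induction φ using Projectivization.ind with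
        | h v hv =>
          refine ⟨pht ℂ v, fun x hx h => ?_⟩
          rw [pht_eq_of_mk hx hv h.symm]
      choose β hβ using this
      obtain ⟨b, hb⟩ := (hfin.image β).bddAbove
      exact ⟨b, fun x hx h1 h2 => (hβ _ x hx rfl).trans
        (hb ⟨_, ⟨x, hx, h1, h2, rfl⟩, rfl⟩)⟩
    obtain ⟨k, hk⟩ : ∃ k : ℕ, 1 ≤ k ∧ b < k := ⟨b.toNat + 1, by omega, by omega⟩
    obtain ⟨h1, h2, h3, h4, h5, h6, _⟩ := hx k hk.1
    have := hb (x k) h1 ⟨h1, h2, h3, h4, hone _⟩ h6
    omega

/-- **The converse in the affine case.** -/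
theorem lgt_of_bounded (hpp : p.IsPrime) (hp : Pool.Agent.W603.PV.IsHomog p) {d : ℕ} (hd : 1 ≤ d)
    (hQ : Q.IsHomogeneous d) (hB : Bdry p Q B) {m : ℕ} (hm : 1 ≤ m) (hg : BGenerated p B m)
    {K : Type} [Field K] [Algebra ℂ K] {w : ℕ} {y : Fin (n + 1) → K} (hy : SubVarB p B K w y)
    (hf : ∀ H : MvPolynomial (Fin (n + 1)) ℂ, (∃ d, H.IsHomogeneous d) → aeval y H = 0 → H ∈ p)
    (hG : ∃ k, G.IsHomogeneous k) (hGp : G ∉ p)
    (h : (∀ (T : Finset (Place ℂ (RatFunc ℂ))), T.card = 2 → ∃ b : ℤ,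
      ∀ x : Fin (n + 1) → RatFunc ℂ, CurveB p B G T x → pht ℂ x ≤ b) ∨ PointedFinB p B G) :
    LogGeneralType ℂ K w (BdP B y) := by
  by_contra hLG
  obtain ⟨P, hP, hPG⟩ := exists_gm hpp hp hd hQ hB hm hg hy hf hLG hG hGp
  exact gm_absurd hp hd hQ hB hP hPG h

/-- functions of `2 g - 2 + s` give bounds -/
theorem FunBoundB.bounded (h : FunBoundB p B G) : ∀ (T : Finset (Place ℂ (RatFunc ℂ))),
    T.card = 2 → ∃ b : ℤ, ∀ x : Fin (n + 1) → RatFunc ℂ, CurveB p B G T x → pht ℂ x ≤ b := by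
  obtain ⟨β, hβ⟩ := h
  intro T hT
  exact ⟨_, fun x hx => hβ (RatFunc ℂ) T x (Finset.card_pos.1 (by omega)) hx⟩

end Pool.Agent.H917.Mg
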