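import Pool.Agent.H917.M.X7

/-!
# PROJECT LG2 (helper917): all curves outside of the subvarieties not of log general type
-/

set_option autoImplicit false
set_option linter.overlappingInstances false
set_option linter.unusedSectionVars false

open MvPolynomial FF Pool.Agent.W603.LV Pool.Agent.W603.PV
open Pool.Agent.W602.GT (IsForm LogGeneralType coords)
open Pool.Agent.W602.RG (HasValue)
open Pool.Agent.H917.Lg

namespace Pool.Agent.H917.Mg

variable {n : ℕ} {p : Ideal (MvPolynomial (Fin (n + 1)) ℂ)}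
  {B : Fin (n + 1) → Finset (Fin (n + 1))} {Q G : MvPolynomial (Fin (n + 1)) ℂ}

theorem curveB_mono {p' : Ideal (MvPolynomial (Fin (n + 1)) ℂ)} {F : Type} [Field F] [Algebra ℂ F]
    {T : Finset (Place ℂ F)} {x : Fin (n + 1) → F} (h : CurveB p B 1 T x)
    (hx : ∀ H ∈ p', aeval x H = 0) : CurveB p' B 1 T x := ⟨h.ne, hx, h.off, h.bd, h.gne⟩

theorem mono_bound {b b' : ℕ} (h : b ≤ b') {a d : ℤ} (ha : a ≤ b * max d 0) :
    a ≤ b' * max d 0 :=
  ha.trans (mul_le_mul_of_nonneg_right (by exact_mod_cast h) (le_max_right _ _))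

/-- **The degrees of the curves outside of the subvarieties which are not of log general type.** -/
theorem curve_bound_allB (hB : BdC p B) {m : ℕ} (hm : 1 ≤ m) (hg : BGenerated p B m) :
    ∀ I : Ideal (MvPolynomial (Fin (n + 1)) ℂ), p ≤ I → Pool.Agent.W603.PV.IsHomog I →
      ∃ b : ℕ, ∀ (F : Type) [Field F] [Algebra ℂ F] [IsFF ℂ F] (T : Finset (Place ℂ F))
        (x : Fin (n + 1) → F), CurveB I B 1 T x → pht ℂ x ≤ b * max (canDeg ℂ F + T.card) 0 ∨
        ∃ q : Ideal (MvPolynomial (Fin (n + 1)) ℂ), I ≤ q ∧ Pool.Agent.W603.PV.IsHomog q ∧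
          NotLGTB q B ∧ ∀ H ∈ q, aeval x H = 0 := by
  classical
  intro I
  induction I using WellFoundedGT.induction with
  | ind I ih =>
  intro hpI hI
  by_cases hX : ∀ j, X j ∈ I
  · refine ⟨0, fun F _ _ _ T x hx => ?_⟩
    exfalso
    apply hx.ne
    funext j
    have h1 := hx.mem _ (hX j)
    rwa [aeval_X] at h1
  · push Not at hX
    obtain ⟨j, hj⟩ := hX
    have hltsup : ∀ A, A ∉ I → I < I ⊔ Ideal.span {A} := by
      intro A hA
      refine lt_of_le_of_ne le_sup_left fun h => hA ?_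
      rw [h]
      exact Ideal.mem_sup_right (Ideal.mem_span_singleton_self A)
    by_cases hAB : ∀ A B : MvPolynomial (Fin (n + 1)) ℂ, (∃ d, A.IsHomogeneous d) →
        (∃ d, B.IsHomogeneous d) → A * B ∈ I → A ∈ I ∨ B ∈ I
    · have hIp : I.IsPrime := isPrime_of_forms hI (fun h => hj (h ▸ Submodule.mem_top)) hAB
      obtain ⟨K, i1, i2, w, y, hy0, hyg, hyd, hyf⟩ := exists_funField hIp hj
      have hy1 : SubVar I K w y := by
        refine ⟨hy0, fun H hH => ?_, hyg, hyd⟩
        rw [← sum_homogeneousComponent H, map_sum]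
        exact Finset.sum_eq_zero fun d _ =>
          (hyf _ ⟨d, homogeneousComponent_isHomogeneous d H⟩).2 (hI H hH d)
      have hyf' : ∀ H : MvPolynomial (Fin (n + 1)) ℂ, (∃ d, H.IsHomogeneous d) →
          aeval y H = 0 → H ∈ I := fun H hH => (hyf H hH).1
      have key : (∃ G : MvPolynomial (Fin (n + 1)) ℂ, (∃ k, G.IsHomogeneous k) ∧ G ∉ I ∧
          ∃ b : ℕ, ∀ (F : Type) [Field F] [Algebra ℂ F] [IsFF ℂ F] (T : Finset (Place ℂ F))
            (x : Fin (n + 1) → F), CurveB I B 1 T x → aeval x G ≠ 0 →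
              pht ℂ x ≤ b * max (canDeg ℂ F + T.card) 0) ∨
          (SubVarB I B K w y ∧ ¬ LogGeneralType ℂ K w (BdP B y)) := by
        by_cases hoff : OffB B y
        · have hy : SubVarB I B K w y := ⟨hy1, hoff⟩
          by_cases hGT : LogGeneralType ℂ K w (BdP B y)
          · obtain ⟨G, hG, hGI, b, hb⟩ :=
              linBoundB_of_lgt hIp hI (hB.res hpI) hm (hg.res hpI) hy hyf' hGT
            exact Or.inl ⟨G, hG, hGI, b, fun F _ _ _ T x hx hxG =>
              hb F T x ⟨hx.ne, hx.mem, hx.off, hx.bd, hxG⟩⟩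
          · exact Or.inr ⟨hy, hGT⟩
        · left
          unfold OffB at hoff
          push Not at hoff
          obtain ⟨i, hi, b, hb, hyb⟩ := hoff
          refine ⟨X i, ⟨1, isHomogeneous_X ℂ i⟩, fun h => hi ?_, 0, fun F _ _ _ T x hx hxi => ?_⟩
          · have h1 := hy1.mem _ h
            rwa [aeval_X] at h1
          · exfalso
            have h2 : (X b : MvPolynomial (Fin (n + 1)) ℂ) ∈ I := by
              refine hyf' _ ⟨1, isHomogeneous_X ℂ b⟩ ?_
              rw [aeval_X]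
              exact hyb
            have h3 := hx.mem _ h2
            rw [aeval_X] at h3 hxi
            exact hx.off i hxi b hb h3
      rcases key with ⟨G, hG, hGI, b₁, hb₁⟩ | ⟨hy, hGT⟩
      · obtain ⟨b₂, hb₂⟩ := ih _ (hltsup G hGI) (hpI.trans le_sup_left) (isHomog_sup hI hG)
        refine ⟨max b₁ b₂, fun F _ _ _ T x hx => ?_⟩
        by_cases hxG : aeval x G = 0
        · rcases hb₂ F T x (curveB_mono hx (H6aux_sup hx.mem hxG)) with h1 | ⟨q, hq, h2⟩
          · exact Or.inl (mono_bound (le_max_right _ _) h1)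
          · exact Or.inr ⟨q, le_sup_left.trans hq, h2⟩
        · exact Or.inl (mono_bound (le_max_left _ _) (hb₁ F T x hx hxG))
      · have hw : 1 ≤ w := by
          by_contra hw
          have hw0 : w = 0 := by omega
          subst hw0
          exact hGT (log_of_gt' _ (gt_zero hy1.dim))
        refine ⟨0, fun F _ _ _ T x hx => Or.inr ⟨I, le_rfl, hI, ?_, hx.mem⟩⟩
        exact ⟨K, i1, i2, w, y, hw, hy, hyf', hGT⟩
    · push Not at hAB
      obtain ⟨A, B', hA, hB', hAB, hAI, hBI⟩ := hAB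
      obtain ⟨b₁, h1⟩ := ih _ (hltsup A hAI) (hpI.trans le_sup_left) (isHomog_sup hI hA)
      obtain ⟨b₂, h2⟩ := ih _ (hltsup B' hBI) (hpI.trans le_sup_left) (isHomog_sup hI hB')
      refine ⟨max b₁ b₂, fun F _ _ _ T x hx => ?_⟩
      have h3 := hx.mem _ hAB
      rw [map_mul, mul_eq_zero] at h3
      rcases h3 with h3 | h3
      · rcases h1 F T x (curveB_mono hx (H6aux_sup hx.mem h3)) with h4 | ⟨q, hq, h5⟩
        · exact Or.inl (mono_bound (le_max_left _ _) h4)
        · exact Or.inr ⟨q, le_sup_left.trans hq, h5⟩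
      · rcases h2 F T x (curveB_mono hx (H6aux_sup hx.mem h3)) with h4 | ⟨q, hq, h5⟩
        · exact Or.inl (mono_bound (le_max_right _ _) h4)
        · exact Or.inr ⟨q, le_sup_left.trans hq, h5⟩

/-- **Algebraic hyperbolicity.** -/
theorem linBoundB_of_all (hp : Pool.Agent.W603.PV.IsHomog p) (hB : BdC p B) {m : ℕ} (hm : 1 ≤ m)
    (hg : BGenerated p B m)
    (h : ∀ (K : Type) [Field K] [Algebra ℂ K] (w : ℕ) (y : Fin (n + 1) → K),
      SubVarB p B K w y → LogGeneralType ℂ K w (BdP B y)) : LinBoundB p B 1 := by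
  obtain ⟨b, hb⟩ := curve_bound_allB hB hm hg p le_rfl hp
  refine ⟨b, fun F _ _ _ T x hx => ?_⟩
  rcases hb F T x hx with h2 | ⟨q, hpq, hq, ⟨K, i1, i2, w, y, hw, hy, hf, hngt⟩, h3⟩
  · exact h2
  · exact absurd (h K w y ⟨⟨hy.sub.ne, fun H hH => hy.sub.mem H (hpq hH), hy.sub.gen, hy.sub.dim⟩,
      hy.off⟩) hngt

/-- a closed subset with a nonconstant morphism from the punctured line -/
theorem no_gm_of_bounded (hp : Pool.Agent.W603.PV.IsHomog p) {d : ℕ} (hd : 1 ≤ d)
    (hQ : Q.IsHomogeneous d) (hB : Bdry p Q B)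
    (h : (∀ (T : Finset (Place ℂ (RatFunc ℂ))), T.card = 2 → ∃ b : ℤ,
      ∀ x : Fin (n + 1) → RatFunc ℂ, CurveB p B 1 T x → pht ℂ x ≤ b) ∨ PointedFinB p B 1) :
    ¬ ∃ P, GmCurve p Q P := by
  rintro ⟨P, hP⟩
  exact gm_absurd hp hd hQ hB (G := 1) hP (by rw [map_one]; exact one_ne_zero) h

end Pool.Agent.H917.Mg
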